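import Pool.Agent.N879.PU.Mv

set_option autoImplicit false

/-!
Arbitrary measures, part a: the large sieve for a measure `ρ` with `ρ [x, x+1] ≤ K`, and its dual.
-/

namespace Pool.Agent.J4.H35.AM

open Complex Filter Topology MeasureTheory Set
open Pool.Agent.N879.PZ (Wb)
open Pool.Agent.N879.PU (S_MVS)
open Pool.Agent.N879.PU.Mvaux (cpow_eq cpow_cont)

noncomputable section

/-- a measure on `[a, b]` with `ρ [x, x+1] ≤ K` for all `x` -/
structure Mc (a b K : ℝ) (ρ : Measure ℝ) : Prop where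
  supp : ρ (Icc a b)ᶜ = 0
  cell : ∀ x : ℝ, ρ (Icc x (x + 1)) ≤ ENNReal.ofReal K

variable {a b K : ℝ} {ρ : Measure ℝ}

lemma Mc.ae (h : Mc a b K ρ) : ∀ᵐ t ∂ρ, t ∈ Icc a b := by
  rw [ae_iff]
  exact h.supp

lemma Mc.mass_cells (h : Mc a b K ρ) (hK : 0 ≤ K) (x : ℝ) : ∀ n : ℕ,
    ρ (Icc x (x + n)) ≤ ENNReal.ofReal (K * (n + 1)) := by
  intro n
  induction n with
  | zero =>
    refine (measure_mono ?_).trans ((h.cell x).trans (ENNReal.ofReal_le_ofReal (by simp)))
    exact Icc_subset_Icc_right (by simp)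
  | succ n ih =>
    have h1 : Icc x (x + ((n + 1 : ℕ) : ℝ)) ⊆ Icc x (x + n) ∪ Icc (x + n) (x + n + 1) := by
      intro t ht
      push_cast at ht
      rcases le_total t (x + n) with h2 | h2
      · exact Or.inl ⟨ht.1, h2⟩
      · exact Or.inr ⟨h2, by linarith [ht.2]⟩
    refine (measure_mono h1).trans ((measure_union_le _ _).trans ((add_le_add ih (h.cell _)).trans ?_))
    rw [← ENNReal.ofReal_add (by positivity) hK]
    refine ENNReal.ofReal_le_ofReal (le_of_eq ?_)
    push_cast
    ring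

lemma Mc.mass (h : Mc a b K ρ) (hK : 0 ≤ K) (hab : a ≤ b) :
    ρ univ ≤ ENNReal.ofReal (K * (b - a + 2)) := by
  have h1 : ρ univ ≤ ρ (Icc a b) := by
    have h2 : ρ univ ≤ ρ (Icc a b) + ρ (Icc a b)ᶜ := by
      rw [← union_compl_self (Icc a b)]
      exact measure_union_le _ _
    rwa [h.supp, add_zero] at h2
  refine h1.trans ?_
  set n := ⌈b - a⌉₊ with hn
  have h3 : b - a ≤ n := Nat.le_ceil _
  have h4 : (n : ℝ) ≤ b - a + 1 := (Nat.ceil_lt_add_one (by linarith)).le
  refine (measure_mono (Icc_subset_Icc_right (by linarith : b ≤ a + n))).trans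
    ((h.mass_cells hK a n).trans (ENNReal.ofReal_le_ofReal ?_))
  exact mul_le_mul_of_nonneg_left (by linarith) hK

lemma Mc.fin (h : Mc a b K ρ) (hK : 0 ≤ K) (hab : a ≤ b) : IsFiniteMeasure ρ :=
  ⟨(h.mass hK hab).trans_lt ENNReal.ofReal_lt_top⟩

/-- Sobolev's inequality on a unit interval -/
lemma sob {f f' : ℝ → ℂ} (hf : ∀ u, HasDerivAt f (f' u) u) (hf' : Continuous f') {x u : ℝ}
    (hu : u ∈ Icc x (x + 1)) :
    ‖f u‖ ^ 2 ≤ 2 * (∫ s in x..(x + 1), ‖f s‖ ^ 2) + 2 * ∫ s in x..(x + 1), ‖f' s‖ ^ 2 := by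
  have hfc : Continuous f := continuous_iff_continuousAt.2 fun u => (hf u).continuousAt
  have hx : x ≤ x + 1 := by linarith
  set J := ∫ s in x..(x + 1), ‖f' s‖ with hJ
  set J2 := ∫ s in x..(x + 1), ‖f' s‖ ^ 2 with hJ2
  have hJJ : J ^ 2 ≤ J2 := by
    have h6 : 0 ≤ ∫ s in x..(x + 1), (‖f' s‖ - J) ^ 2 :=
      intervalIntegral.integral_nonneg hx fun t _ => by positivity
    have e : ∫ s in x..(x + 1), (‖f' s‖ - J) ^ 2 = J2 - J ^ 2 := by
      have e1 : ∀ s, (‖f' s‖ - J) ^ 2 = (‖f' s‖ ^ 2 - 2 * J * ‖f' s‖) + J ^ 2 := fun s => by ring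
      simp only [e1]
      rw [intervalIntegral.integral_add
          ((Continuous.intervalIntegrable (by fun_prop) _ _)) (Continuous.intervalIntegrable (by fun_prop) _ _),
        intervalIntegral.integral_sub
          ((Continuous.intervalIntegrable (by fun_prop) _ _)) (Continuous.intervalIntegrable (by fun_prop) _ _),
        intervalIntegral.integral_const_mul, intervalIntegral.integral_const, ← hJ, ← hJ2]
      simp
      ring
    linarith
  have hpt : ∀ s ∈ Icc x (x + 1), ‖f u‖ ^ 2 ≤ 2 * ‖f s‖ ^ 2 + 2 * J2 := by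
    intro s hs
    have e2 : f u = f s + ∫ r in s..u, f' r := by
      rw [intervalIntegral.integral_eq_sub_of_hasDerivAt (fun r _ => hf r) (hf'.intervalIntegrable _ _)]
      ring
    have h7 : ‖∫ r in s..u, f' r‖ ≤ J := by
      refine intervalIntegral.norm_integral_le_abs_integral_norm.trans ?_
      rw [hJ]
      have h8 : ∀ {p q : ℝ}, p ∈ Icc x (x + 1) → q ∈ Icc x (x + 1) → p ≤ q →
          ∫ r in p..q, ‖f' r‖ ≤ ∫ r in x..(x + 1), ‖f' r‖ := by
        intro p q hp hq hpq
        exact intervalIntegral.integral_mono_interval hp.1 hpq hq.2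
          (Filter.Eventually.of_forall fun _ => norm_nonneg _) (hf'.norm.intervalIntegrable _ _)
      rcases le_total s u with h | h
      · rw [abs_of_nonneg (intervalIntegral.integral_nonneg h fun _ _ => norm_nonneg _)]
        exact h8 hs hu h
      · rw [intervalIntegral.integral_symm, abs_neg,
          abs_of_nonneg (intervalIntegral.integral_nonneg h fun _ _ => norm_nonneg _)]
        exact h8 hu hs h
    have h9 : ‖f u‖ ≤ ‖f s‖ + J := by
      rw [e2]
      exact (norm_add_le _ _).trans (by linarith)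
    have hJ0 : 0 ≤ J := intervalIntegral.integral_nonneg hx fun _ _ => norm_nonneg _
    have h10 := pow_le_pow_left₀ (norm_nonneg _) h9 2
    nlinarith [sq_nonneg (‖f s‖ - J)]
  have h11 : ∫ s in x..(x + 1), ‖f u‖ ^ 2 ≤ ∫ s in x..(x + 1), (2 * ‖f s‖ ^ 2 + 2 * J2) :=
    intervalIntegral.integral_mono_on hx (Continuous.intervalIntegrable (by fun_prop) _ _)
      (Continuous.intervalIntegrable (by fun_prop) _ _) hpt
  rw [intervalIntegral.integral_const, intervalIntegral.integral_add
    (Continuous.intervalIntegrable (by fun_prop) _ _) (Continuous.intervalIntegrable (by fun_prop) _ _),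
    intervalIntegral.integral_const_mul, intervalIntegral.integral_const] at h11
  simpa using h11

/-- from the measure to Lebesgue measure -/
lemma int_le (h : Mc a b K ρ) (hK : 0 ≤ K) (hab : a ≤ b) {f f' : ℝ → ℂ}
    (hf : ∀ u, HasDerivAt f (f' u) u) (hf' : Continuous f') :
    ∫ t, ‖f t‖ ^ 2 ∂ρ ≤ K * (2 * (∫ s in a..(b + 1), ‖f s‖ ^ 2) + 2 * ∫ s in a..(b + 1), ‖f' s‖ ^ 2) := by
  have hfc : Continuous f := continuous_iff_continuousAt.2 fun u => (hf u).continuousAt
  have := h.fin hK hab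
  set n := ⌊b - a⌋₊ + 1 with hn
  have h3 : b - a ≤ n := by
    have := Nat.lt_floor_add_one (b - a)
    rw [hn]
    push_cast
    linarith
  have h4 : (n : ℝ) ≤ b - a + 1 := by
    have := Nat.floor_le (by linarith : 0 ≤ b - a)
    rw [hn]
    push_cast
    linarith
  set g : ℝ → ℝ := fun s => 2 * ‖f s‖ ^ 2 + 2 * ‖f' s‖ ^ 2 with hg
  have hgc : Continuous g := by rw [hg]; fun_prop
  have hg0 : ∀ s, 0 ≤ g s := fun s => by rw [hg]; positivity
  set c : ℕ → ℝ := fun i => ∫ s in (a + i)..(a + i + 1), g s with hc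
  have hc0 : ∀ i, 0 ≤ c i := fun i => intervalIntegral.integral_nonneg (by linarith) fun s _ => hg0 s
  have hsob : ∀ (i : ℕ) (t : ℝ), t ∈ Icc (a + i) (a + i + 1) → ‖f t‖ ^ 2 ≤ c i := by
    intro i t ht
    refine (sob hf hf' ht).trans (le_of_eq ?_)
    rw [hc, hg]
    simp only
    rw [intervalIntegral.integral_add
      (Continuous.intervalIntegrable (by fun_prop) _ _) (Continuous.intervalIntegrable (by fun_prop) _ _),
      intervalIntegral.integral_const_mul, intervalIntegral.integral_const_mul]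
  have hae : ∀ᵐ t ∂ρ, ENNReal.ofReal (‖f t‖ ^ 2) ≤
      ∑ i ∈ Finset.range n, (Icc (a + i) (a + i + 1)).indicator (fun _ => ENNReal.ofReal (c i)) t := by
    filter_upwards [h.ae] with t ht
    set i := ⌊t - a⌋₊ with hi
    have h5 : (i : ℝ) ≤ t - a := Nat.floor_le (by linarith [ht.1])
    have h6 : t - a < i + 1 := Nat.lt_floor_add_one _
    have h7 : i ∈ Finset.range n := by
      rw [Finset.mem_range, hn]
      have : i ≤ ⌊b - a⌋₊ := Nat.floor_le_floor (by linarith [ht.2])
      omega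
    have h8 : t ∈ Icc (a + i) (a + i + 1) := ⟨by linarith, by linarith⟩
    refine le_trans ?_ (Finset.single_le_sum
      (f := fun i : ℕ => (Icc (a + i) (a + i + 1)).indicator (fun _ => ENNReal.ofReal (c i)) t)
      (fun _ _ => zero_le) h7)
    rw [indicator_of_mem h8]
    exact ENNReal.ofReal_le_ofReal (hsob i t h8)
  have hlint : ∫⁻ t, ENNReal.ofReal (‖f t‖ ^ 2) ∂ρ ≤ ENNReal.ofReal (K * ∑ i ∈ Finset.range n, c i) := by
    refine (lintegral_mono_ae hae).trans ?_
    rw [lintegral_finsetSum _ fun i _ => measurable_const.indicator measurableSet_Icc]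
    rw [Finset.mul_sum, ENNReal.ofReal_sum_of_nonneg fun i _ => mul_nonneg hK (hc0 i)]
    refine Finset.sum_le_sum fun i _ => ?_
    rw [lintegral_indicator_const measurableSet_Icc, ENNReal.ofReal_mul hK, mul_comm]
    exact mul_le_mul' (h.cell _) le_rfl
  have hsum : ∑ i ∈ Finset.range n, c i ≤ ∫ s in a..(b + 1), g s := by
    have e1 : ∑ i ∈ Finset.range n, c i = ∫ s in a..(a + n), g s := by
      have := intervalIntegral.sum_integral_adjacent_intervals (a := fun i : ℕ => a + i) (n := n)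
        (f := g) (μ := volume) (fun k _ => hgc.intervalIntegrable _ _)
      simp only [Nat.cast_zero, add_zero] at this
      rw [← this, hc]
      refine Finset.sum_congr rfl fun i _ => ?_
      push_cast
      rw [add_assoc]
    rw [e1]
    exact intervalIntegral.integral_mono_interval le_rfl (by linarith [(Nat.cast_nonneg n : (0:ℝ) ≤ n)])
      (by linarith) (Filter.Eventually.of_forall hg0) (hgc.intervalIntegrable _ _)
  have e2 : ∫ s in a..(b + 1), g s =
      2 * (∫ s in a..(b + 1), ‖f s‖ ^ 2) + 2 * ∫ s in a..(b + 1), ‖f' s‖ ^ 2 := by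
    rw [hg]
    rw [intervalIntegral.integral_add
      (Continuous.intervalIntegrable (by fun_prop) _ _) (Continuous.intervalIntegrable (by fun_prop) _ _),
      intervalIntegral.integral_const_mul, intervalIntegral.integral_const_mul]
  rw [← e2]
  have h0 : 0 ≤ K * ∫ s in a..(b + 1), g s :=
    mul_nonneg hK (intervalIntegral.integral_nonneg (by linarith) fun s _ => hg0 s)
  rw [integral_eq_lintegral_of_nonneg_ae (Filter.Eventually.of_forall fun t => by positivity)
    (by fun_prop)]
  refine ENNReal.toReal_le_of_le_ofReal h0 (hlint.trans (ENNReal.ofReal_le_ofReal ?_))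
  exact mul_le_mul_of_nonneg_left hsum hK

end

end Pool.Agent.J4.H35.AM
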