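import Pool.Agent.J4.H35.AMa
import Pool.Agent.N879.PU.Ku

set_option autoImplicit false

/-!
Arbitrary measures, part b: the large sieve for a dyadic block with respect to a measure, and its dual.
-/

namespace Pool.Agent.J4.H35.AM

open Complex Filter Topology MeasureTheory Set
open Pool.Agent.N879.PZ (Wb)
open Pool.Agent.N879.PU (S_MVS)
open Pool.Agent.N879.PU.Mvaux (cpow_eq cpow_cont)

noncomputable section

variable {a b K : ℝ} {ρ : Measure ℝ}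

lemma cpow_deriv {n : ℕ} (hn : 1 ≤ n) (u : ℝ) :
    HasDerivAt (fun u : ℝ => (n : ℂ) ^ (-(I * (u : ℂ)))) (-(I * (Real.log n : ℝ)) * (n : ℂ) ^ (-(I * (u : ℂ)))) u := by
  have e : (fun u : ℝ => (n : ℂ) ^ (-(I * (u : ℂ)))) =
      fun u : ℝ => cexp (-(I * (u * Real.log n : ℝ))) := funext fun u => cpow_eq hn u
  rw [e, cpow_eq hn u]
  have h1 : HasDerivAt (fun u : ℝ => (-(I * ((u * Real.log n : ℝ) : ℂ)))) (-(I * (Real.log n : ℝ))) u := by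
    have h2 : HasDerivAt (fun u : ℝ => ((u * Real.log n : ℝ) : ℂ)) ((Real.log n : ℝ) : ℂ) u := by
      have h3 : HasDerivAt (fun u : ℝ => u * Real.log n) (Real.log n) u := by
        simpa using (hasDerivAt_id u).mul_const (Real.log n)
      exact h3.ofReal_comp
    exact (h2.const_mul I).neg
  have h4 := h1.cexp
  rw [mul_comm] at h4
  exact h4

/-- the large sieve for a block -/
lemma mvs {C : ℝ} (hC : 0 < C) (hMV : ∀ (M : ℕ) (a b : ℝ) (c : ℕ → ℂ), 1 ≤ M → a ≤ b →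
      ∫ u in a..b, ‖∑ n ∈ Finset.Icc M (2 * M), c n * (n : ℂ) ^ (-(I * u))‖ ^ 2 ≤
        C * ((b - a) + M) * ∑ n ∈ Finset.Icc M (2 * M), ‖c n‖ ^ 2)
    (h : Mc a b K ρ) (hK : 0 ≤ K) (hab : a ≤ b) {M : ℕ} (hM : 1 ≤ M) {L : ℝ}
    (hL : 1 + Real.log (2 * M) ^ 2 ≤ L) (c : ℕ → ℂ) :
    ∫ u, ‖∑ n ∈ Finset.Icc M (2 * M), c n * (n : ℂ) ^ (-(I * u))‖ ^ 2 ∂ρ ≤
      2 * C * K * L * ((b - a) + 1 + M) * ∑ n ∈ Finset.Icc M (2 * M), ‖c n‖ ^ 2 := by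
  have hn1 : ∀ n ∈ Finset.Icc M (2 * M), 1 ≤ n := fun n hn => hM.trans (Finset.mem_Icc.1 hn).1
  set f : ℝ → ℂ := fun u => ∑ n ∈ Finset.Icc M (2 * M), c n * (n : ℂ) ^ (-(I * (u : ℂ))) with hf
  set f' : ℝ → ℂ := fun u => ∑ n ∈ Finset.Icc M (2 * M),
    (c n * (-(I * (Real.log n : ℝ)))) * (n : ℂ) ^ (-(I * (u : ℂ))) with hf'
  have hd : ∀ u, HasDerivAt f (f' u) u := by
    intro u
    have := HasDerivAt.fun_sum (u := Finset.Icc M (2 * M)) (A := fun n (u : ℝ) => c n * (n : ℂ) ^ (-(I * (u : ℂ))))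
      (A' := fun n => c n * (-(I * (Real.log n : ℝ)) * (n : ℂ) ^ (-(I * (u : ℂ))))) (x := u)
      (fun n hn => (cpow_deriv (hn1 n hn) u).const_mul (c n))
    simp only [← mul_assoc] at this
    exact this
  have hc' : Continuous f' := by
    rw [hf']
    exact continuous_finsetSum _ fun n hn => continuous_const.mul (cpow_cont (hn1 n hn))
  have h1 := int_le h hK hab hd hc'
  have h2 := hMV M a (b + 1) c hM (by linarith)
  have h3 := hMV M a (b + 1) (fun n => c n * (-(I * (Real.log n : ℝ)))) hM (by linarith)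
  have hS : 0 ≤ ∑ n ∈ Finset.Icc M (2 * M), ‖c n‖ ^ 2 := Finset.sum_nonneg fun _ _ => by positivity
  have hM0 : (0 : ℝ) < M := by exact_mod_cast hM
  have h4 : ∑ n ∈ Finset.Icc M (2 * M), ‖c n * (-(I * (Real.log n : ℝ)))‖ ^ 2 ≤
      Real.log (2 * M) ^ 2 * ∑ n ∈ Finset.Icc M (2 * M), ‖c n‖ ^ 2 := by
    rw [Finset.mul_sum]
    refine Finset.sum_le_sum fun n hn => ?_
    have h5 : (1 : ℝ) ≤ n := by exact_mod_cast hn1 n hn
    have h6 : (n : ℝ) ≤ 2 * M := by exact_mod_cast (Finset.mem_Icc.1 hn).2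
    have h7 : 0 ≤ Real.log n := Real.log_nonneg h5
    have h8 : Real.log n ≤ Real.log (2 * M) := Real.log_le_log (by linarith) h6
    have e : ‖c n * (-(I * ((Real.log n : ℝ) : ℂ)))‖ ^ 2 = Real.log n ^ 2 * ‖c n‖ ^ 2 := by
      rw [norm_mul, norm_neg, norm_mul, Complex.norm_I, one_mul, Complex.norm_real, Real.norm_of_nonneg h7]
      ring
    rw [e]
    gcongr
  have hnn : 0 ≤ C * ((b + 1 - a) + M) := by
    have : 0 ≤ (b + 1 - a) + M := by linarith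
    positivity
  calc ∫ u, ‖∑ n ∈ Finset.Icc M (2 * M), c n * (n : ℂ) ^ (-(I * u))‖ ^ 2 ∂ρ
      ≤ K * (2 * (∫ s in a..(b + 1), ‖f s‖ ^ 2) + 2 * ∫ s in a..(b + 1), ‖f' s‖ ^ 2) := h1
    _ ≤ K * (2 * (C * ((b + 1 - a) + M) * ∑ n ∈ Finset.Icc M (2 * M), ‖c n‖ ^ 2) +
        2 * (C * ((b + 1 - a) + M) * (Real.log (2 * M) ^ 2 * ∑ n ∈ Finset.Icc M (2 * M), ‖c n‖ ^ 2))) := by
        have h3' := h3.trans (mul_le_mul_of_nonneg_left h4 hnn)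
        exact mul_le_mul_of_nonneg_left (by linarith) hK
    _ = 2 * C * K * (1 + Real.log (2 * M) ^ 2) * ((b - a) + 1 + M) *
        ∑ n ∈ Finset.Icc M (2 * M), ‖c n‖ ^ 2 := by ring
    _ ≤ _ := by
        have : 0 ≤ (b - a) + 1 + M := by linarith
        gcongr

lemma wb_intg [IsFiniteMeasure ρ] (h : Mc a b K ρ) {F g : ℝ → ℂ} (hF : Wb a b F) (hg : Continuous g) :
    Integrable (fun t => F t * g t) ρ := by
  obtain ⟨hm, M, hM⟩ := hF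
  obtain ⟨B, hB⟩ := isCompact_Icc.exists_bound_of_continuousOn (s := Icc a b) hg.continuousOn
  refine Integrable.of_bound (hm.aestronglyMeasurable.mul hg.aestronglyMeasurable) (M * B) ?_
  filter_upwards [h.ae] with t ht
  rw [norm_mul]
  exact mul_le_mul (hM t ht) (hB t ht) (norm_nonneg _) ((norm_nonneg _).trans (hM t ht))

lemma wb_sqi [IsFiniteMeasure ρ] (h : Mc a b K ρ) {F : ℝ → ℂ} (hF : Wb a b F) :
    Integrable (fun t => ‖F t‖ ^ 2) ρ := by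
  obtain ⟨hm, M, hM⟩ := hF
  refine Integrable.of_bound (hm.norm.pow_const 2).aestronglyMeasurable (M ^ 2) ?_
  filter_upwards [h.ae] with t ht
  rw [norm_pow, norm_norm]
  exact pow_le_pow_left₀ (norm_nonneg _) (hM t ht) 2

lemma wb_cont (a b : ℝ) {g : ℝ → ℂ} (hg : Continuous g) : Wb a b g := by
  obtain ⟨B, hB⟩ := isCompact_Icc.exists_bound_of_continuousOn (s := Icc a b) hg.continuousOn
  exact ⟨hg.measurable, B, hB⟩

/-- Cauchy-Schwarz -/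
lemma cs [IsFiniteMeasure ρ] (h : Mc a b K ρ) {F G : ℝ → ℂ} (hF : Wb a b F) (hG : Wb a b G) :
    ‖∫ t, F t * G t ∂ρ‖ ^ 2 ≤ (∫ t, ‖F t‖ ^ 2 ∂ρ) * ∫ t, ‖G t‖ ^ 2 ∂ρ := by
  have h2 := wb_sqi h hF
  have h3 := wb_sqi h hG
  have h4 : Integrable (fun t => ‖F t‖ * ‖G t‖) ρ := by
    obtain ⟨hm, M, hM⟩ := hF
    obtain ⟨hm', M', hM'⟩ := hG
    refine Integrable.of_bound (hm.norm.mul hm'.norm).aestronglyMeasurable (M * M') ?_
    filter_upwards [h.ae] with t ht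
    rw [norm_mul, norm_norm, norm_norm]
    exact mul_le_mul (hM t ht) (hM' t ht) (norm_nonneg _) ((norm_nonneg _).trans (hM t ht))
  have h5 : ‖∫ t, F t * G t ∂ρ‖ ≤ ∫ t, ‖F t‖ * ‖G t‖ ∂ρ := by
    refine (norm_integral_le_integral_norm _).trans (le_of_eq ?_)
    simp only [norm_mul]
  have h6 : ∀ s : ℝ, 0 ≤ (∫ t, ‖F t‖ ^ 2 ∂ρ) * (s * s) +
      (-2 * ∫ t, ‖F t‖ * ‖G t‖ ∂ρ) * s + ∫ t, ‖G t‖ ^ 2 ∂ρ := by
    intro s
    have e1 : (∫ t, ‖F t‖ ^ 2 ∂ρ) * (s * s) +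
        (-2 * ∫ t, ‖F t‖ * ‖G t‖ ∂ρ) * s + ∫ t, ‖G t‖ ^ 2 ∂ρ =
        ∫ t, ((s * s) * ‖F t‖ ^ 2 + (-2 * s) * (‖F t‖ * ‖G t‖) + ‖G t‖ ^ 2) ∂ρ := by
      have i1 : Integrable (fun t => (s * s) * ‖F t‖ ^ 2) ρ := h2.const_mul _
      have i2 : Integrable (fun t => (-2 * s) * (‖F t‖ * ‖G t‖)) ρ := h4.const_mul _
      have i3 : Integrable (fun t => (s * s) * ‖F t‖ ^ 2 + (-2 * s) * (‖F t‖ * ‖G t‖)) ρ := i1.add i2
      rw [integral_add i3 h3, integral_add i1 i2, integral_const_mul, integral_const_mul]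
      ring
    rw [e1]
    refine integral_nonneg fun t => ?_
    have : (s * s) * ‖F t‖ ^ 2 + (-2 * s) * (‖F t‖ * ‖G t‖) + ‖G t‖ ^ 2 =
        (s * ‖F t‖ - ‖G t‖) ^ 2 := by ring
    simp only [Pi.zero_apply]
    rw [this]
    positivity
  have h7 := discrim_le_zero h6
  unfold discrim at h7
  have h8 : (∫ t, ‖F t‖ * ‖G t‖ ∂ρ) ^ 2 ≤ (∫ t, ‖F t‖ ^ 2 ∂ρ) * ∫ t, ‖G t‖ ^ 2 ∂ρ := by nlinarith
  refine le_trans ?_ h8
  exact pow_le_pow_left₀ (norm_nonneg _) h5 2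

/-- the dual large sieve for a block -/
lemma mvt {D : ℝ} (hD0 : 0 ≤ D) {M : ℕ} (hM : 1 ≤ M) (h : Mc a b K ρ) (hK : 0 ≤ K) (hab : a ≤ b)
    (hls : ∀ c : ℕ → ℂ, ∫ u, ‖∑ n ∈ Finset.Icc M (2 * M), c n * (n : ℂ) ^ (-(I * u))‖ ^ 2 ∂ρ ≤
      D * ∑ n ∈ Finset.Icc M (2 * M), ‖c n‖ ^ 2) {F : ℝ → ℂ} (hF : Wb a b F) :
    ∑ n ∈ Finset.Icc M (2 * M), ‖∫ t, F t * (n : ℂ) ^ (-(I * t)) ∂ρ‖ ^ 2 ≤ D * ∫ t, ‖F t‖ ^ 2 ∂ρ := by
  have := h.fin hK hab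
  obtain ⟨ν, hν⟩ : ∃ ν : ℕ → ℂ, ν = fun (n : ℕ) => ∫ t, F t * (n : ℂ) ^ (-(I * (t : ℂ))) ∂ρ := ⟨_, rfl⟩
  obtain ⟨y, hy⟩ : ∃ y : ℕ → ℂ, y = fun n => (starRingEnd ℂ) (ν n) := ⟨_, rfl⟩
  obtain ⟨G, hG⟩ : ∃ G : ℝ → ℂ, G = fun (t : ℝ) => ∑ n ∈ Finset.Icc M (2 * M), y n * (n : ℂ) ^ (-(I * (t : ℂ))) :=
    ⟨_, rfl⟩
  have hc : ∀ n ∈ Finset.Icc M (2 * M), Continuous fun t : ℝ => (n : ℂ) ^ (-(I * (t : ℂ))) := by
    intro n hn
    exact cpow_cont (hM.trans (Finset.mem_Icc.1 hn).1)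
  have hGc : Continuous G := by
    rw [hG]
    exact continuous_finsetSum _ fun n hn => continuous_const.mul (hc n hn)
  obtain ⟨Z, hZ⟩ : ∃ Z : ℝ, Z = ∑ n ∈ Finset.Icc M (2 * M), ‖ν n‖ ^ 2 := ⟨_, rfl⟩
  have hZ0 : 0 ≤ Z := by rw [hZ]; exact Finset.sum_nonneg fun _ _ => by positivity
  have hyv : ∀ n, ‖y n‖ = ‖ν n‖ := fun n => by rw [hy]; exact Complex.norm_conj _
  have hGI : ∫ t, ‖G t‖ ^ 2 ∂ρ ≤ D * Z := by
    have := hls y
    simp only [hyv] at this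
    rw [hG, hZ]
    exact this
  have e1 : (Z : ℂ) = ∫ t, F t * G t ∂ρ := by
    have e2 : ∀ t : ℝ, F t * G t = ∑ n ∈ Finset.Icc M (2 * M), y n * (F t * (n : ℂ) ^ (-(I * t))) := by
      intro t
      rw [hG]
      simp only
      rw [Finset.mul_sum]
      refine Finset.sum_congr rfl fun p _ => ?_
      ring
    simp only [e2]
    rw [integral_finsetSum]
    · rw [hZ]
      push_cast
      refine Finset.sum_congr rfl fun n _ => ?_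
      rw [integral_const_mul]
      have e3 : (∫ t, F t * (n : ℂ) ^ (-(I * t)) ∂ρ) = ν n := by rw [hν]
      have e4 : y n = (starRingEnd ℂ) (ν n) := by rw [hy]
      rw [e3, e4, mul_comm, Complex.mul_conj, Complex.normSq_eq_norm_sq]
      push_cast
      rfl
    · intro n hn
      exact (wb_intg h hF (hc n hn)).const_mul _
  have h1 := cs h hF (wb_cont a b hGc)
  rw [← e1, Complex.norm_real, Real.norm_of_nonneg hZ0] at h1
  set P := ∫ t, ‖F t‖ ^ 2 ∂ρ with hP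
  have hP0 : 0 ≤ P := integral_nonneg fun t => by positivity
  have h2 : Z ^ 2 ≤ P * (D * Z) := h1.trans (mul_le_mul_of_nonneg_left hGI hP0)
  have h3 : Z ≤ D * P := by
    rcases hZ0.eq_or_lt with h4 | h4
    · rw [← h4]
      positivity
    · have : Z * Z ≤ (D * P) * Z := by nlinarith
      exact le_of_mul_le_mul_right this h4
  rw [hZ, hν] at h3
  exact h3

end

end Pool.Agent.J4.H35.AM
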