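import Pool.Agent.J4.H35.AMb
import Pool.Agent.N879.PU.Em

set_option autoImplicit false

/-!
Arbitrary measures, part c: zeta minus a short Dirichlet polynomial, as an operator from `L²(ρ)`.
-/

namespace Pool.Agent.J4.H35.AM

open Complex Filter Topology MeasureTheory Set
open Pool.Agent.TH612.GS (z zN PN mP SN SP GM zr Sep)
open Pool.Agent.N879.PZ (Wb)
open Pool.Agent.N879.PU (S_MVS S_EM)
open Pool.Agent.N879.PU.Kuaux (exists_blk norm_sum_sq en en_cont en_add term_eq norm_w z_cont PN_eq PN_cont PN_sub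
  log_blk)

noncomputable section

variable {K : ℝ} {ρ : Measure ℝ}

/-- one block -/
lemma blk {C2 : ℝ} (hC2 : 0 < C2)
    (hms : ∀ (M : ℕ) (a b : ℝ) (c : ℕ → ℂ), 1 ≤ M → a ≤ b →
      ∫ u in a..b, ‖∑ n ∈ Finset.Icc M (2 * M), c n * (n : ℂ) ^ (-(I * u))‖ ^ 2 ≤
        C2 * ((b - a) + M) * ∑ n ∈ Finset.Icc M (2 * M), ‖c n‖ ^ 2)
    {T H U L : ℝ} {N J : ℕ} {F : ℝ → ℂ} (hT : 3 ≤ T) (hH1 : 1 ≤ H) (hHT : H ≤ T)
    (hU1 : 1 ≤ U) (hUT : U ≤ T) (hN1 : 1 ≤ N) (h : Mc T (T + H) K ρ) (hK : 0 ≤ K) (hF : Wb T (T + H) F)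
    (hNJ : N ≤ J) (hJ : (J : ℝ) ≤ 8 * T) (hL0 : 0 ≤ L) (hL : 1 + Real.log (2 * J) ^ 2 ≤ L)
    (S : Finset ℕ) (hS : ∀ n ∈ S, J < n ∧ n ≤ 2 * J) :
    ∫ c in (0 : ℝ)..U, ‖∑ n ∈ S, ((n : ℂ) ^ (-(1 / 2) : ℂ) *
        ∫ t, F t * en n t ∂ρ) * en n c‖ ^ 2 ≤
      2 * C2 ^ 2 * K * L * (2 * (H * U / N) + 20 * T) * ∫ t, ‖F t‖ ^ 2 ∂ρ := by
  classical
  have hT0 : 0 < T := by linarith
  have hJ1 : 1 ≤ J := hN1.trans hNJ
  have hJ0 : (0 : ℝ) < J := by exact_mod_cast hJ1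
  have hN0 : (0 : ℝ) < N := by exact_mod_cast hN1
  have hNJ' : (N : ℝ) ≤ J := by exact_mod_cast hNJ
  have hab : T ≤ T + H := by linarith
  have := h.fin hK hab
  have hP0 : 0 ≤ ∫ t, ‖F t‖ ^ 2 ∂ρ := integral_nonneg fun t => by positivity
  set P := ∫ t, ‖F t‖ ^ 2 ∂ρ with hPd
  set α : ℕ → ℂ := fun n => ∫ t, F t * en n t ∂ρ with hα
  set cc : ℕ → ℂ := fun n => if n ∈ S then (n : ℂ) ^ (-(1 / 2) : ℂ) * α n else 0 with hcc
  have hSsub : S ⊆ Finset.Icc J (2 * J) := by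
    intro n hn
    have := hS n hn
    rw [Finset.mem_Icc]
    omega
  have e1 : ∀ c : ℝ, ∑ n ∈ S, ((n : ℂ) ^ (-(1 / 2) : ℂ) * α n) * en n c =
      ∑ n ∈ Finset.Icc J (2 * J), cc n * (n : ℂ) ^ (-(I * c)) := by
    intro c
    rw [← Finset.sum_subset hSsub (fun n _ hn => by
      show cc n * (n : ℂ) ^ (-(I * c)) = 0
      rw [hcc]
      simp only
      rw [if_neg hn, zero_mul])]
    refine Finset.sum_congr rfl fun n hn => ?_
    rw [hcc]
    simp only
    rw [if_pos hn]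
    rfl
  have h1 := hms J 0 U cc hJ1 (by linarith)
  have h2 := mvt (D := 2 * C2 * K * L * ((T + H - T) + 1 + J)) (by
      have : 0 ≤ (T + H - T) + 1 + J := by linarith
      positivity) hJ1 h hK hab (fun c => mvs hC2 hms h hK hab hJ1 hL c) hF
  have h3 : ∑ n ∈ Finset.Icc J (2 * J), ‖cc n‖ ^ 2 ≤
      (J : ℝ)⁻¹ * ∑ n ∈ Finset.Icc J (2 * J), ‖α n‖ ^ 2 := by
    rw [Finset.mul_sum]
    refine Finset.sum_le_sum fun n hn => ?_
    have hn1 : J ≤ n := (Finset.mem_Icc.1 hn).1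
    have hn0 : 1 ≤ n := hJ1.trans hn1
    rw [hcc]
    simp only
    split_ifs
    · rw [norm_mul, mul_pow, norm_w hn0]
      refine mul_le_mul_of_nonneg_right ?_ (by positivity)
      exact inv_anti₀ hJ0 (by exact_mod_cast hn1)
    · rw [norm_zero, zero_pow two_ne_zero]
      positivity
  have h4 : ∑ n ∈ Finset.Icc J (2 * J), ‖α n‖ ^ 2 ≤ 2 * C2 * K * L * (H + 1 + J) * P := by
    have e : T + H - T = H := by ring
    rw [e] at h2
    exact h2
  rw [sub_zero] at h1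
  have e2 : ∫ c in (0 : ℝ)..U, ‖∑ n ∈ S, ((n : ℂ) ^ (-(1 / 2) : ℂ) * α n) * en n c‖ ^ 2 =
      ∫ u in (0 : ℝ)..U, ‖∑ n ∈ Finset.Icc J (2 * J), cc n * (n : ℂ) ^ (-(I * u))‖ ^ 2 := by
    refine intervalIntegral.integral_congr fun c _ => ?_
    simp only [e1 c]
  rw [e2]
  have har : (U + J) * ((J : ℝ)⁻¹ * (H + 1 + J)) ≤ 2 * (H * U / N) + 20 * T := by
    have a1 : (U + J) * ((J : ℝ)⁻¹ * (H + 1 + J)) = (H + 1) * U / J + U + (H + 1) + J := by
      field_simp
      ring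
    have a2 : (H + 1) * U / J ≤ 2 * (H * U / N) := by
      rw [← mul_div_assoc]
      refine div_le_div₀ (by positivity) ?_ hN0 hNJ'
      nlinarith
    rw [a1]
    linarith
  calc ∫ u in (0 : ℝ)..U, ‖∑ n ∈ Finset.Icc J (2 * J), cc n * (n : ℂ) ^ (-(I * u))‖ ^ 2
      ≤ C2 * (U + J) * ∑ n ∈ Finset.Icc J (2 * J), ‖cc n‖ ^ 2 := h1
    _ ≤ C2 * (U + J) * ((J : ℝ)⁻¹ * (2 * C2 * K * L * (H + 1 + J) * P)) := by
        refine mul_le_mul_of_nonneg_left (h3.trans ?_) (by positivity)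
        exact mul_le_mul_of_nonneg_left h4 (by positivity)
    _ = 2 * C2 ^ 2 * K * L * ((U + J) * ((J : ℝ)⁻¹ * (H + 1 + J))) * P := by ring
    _ ≤ 2 * C2 ^ 2 * K * L * (2 * (H * U / N) + 20 * T) * P := by gcongr

/-- zeta minus a short Dirichlet polynomial -/
theorem ku (h1 : S_EM) (h2 : S_MVS) : ∃ (C : ℝ) (A : ℕ), 0 < C ∧
    ∀ (T H U K : ℝ) (N : ℕ) (ρ : Measure ℝ) (F : ℝ → ℂ), 3 ≤ T → 1 ≤ H → H ≤ T → 1 ≤ U →
    U ≤ T → 1 ≤ N → (N : ℝ) ≤ T → 0 ≤ K → Mc T (T + H) K ρ → Wb T (T + H) F →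
    ∫ c in (0 : ℝ)..U, ‖∫ t, F t * (z (t + c) - PN N (t + c)) ∂ρ‖ ^ 2 ≤
      C * K * Real.log T ^ A * (H * U / N + T) * ∫ t, ‖F t‖ ^ 2 ∂ρ := by
  classical
  obtain ⟨C1, hC1, hem⟩ := h1
  obtain ⟨C2, hC2, hms⟩ := h2
  refine ⟨196000 * C2 ^ 2 + 6 * C1 ^ 2, 4, by positivity, ?_⟩
  intro T H U K N ρ F hT hH1 hHT hU1 hUT hN1 hNT hK hρ hF
  have hT0 : 0 < T := by linarith
  have hU0 : 0 ≤ U := by linarith
  have hN0 : (0 : ℝ) < N := by exact_mod_cast hN1
  have hL : 1 ≤ Real.log T := by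
    rw [Real.le_log_iff_exp_le hT0]
    have := Real.exp_one_lt_d9
    linarith
  set L := Real.log T with hLd
  set X := ⌈4 * T⌉₊ with hX
  have hX1 : 4 * T ≤ X := Nat.le_ceil _
  have hX2 : (X : ℝ) ≤ 8 * T := by
    have := Nat.ceil_lt_add_one (by positivity : 0 ≤ 4 * T)
    linarith
  have hXn : 1 ≤ X := by
    have h : (1 : ℝ) ≤ X := by linarith
    exact_mod_cast h
  have hNX : N ≤ X := by
    have : (N : ℝ) ≤ X := by linarith
    exact_mod_cast this
  have hab : T ≤ T + H := by linarith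
  haveI := hρ.fin hK hab
  have hP0 : 0 ≤ ∫ t, ‖F t‖ ^ 2 ∂ρ := integral_nonneg fun t => by positivity
  set P := ∫ t, ‖F t‖ ^ 2 ∂ρ with hPd
  set S := Finset.Ioc N X with hS
  have hSn : ∀ n ∈ S, 1 ≤ n := fun n hn => by
    have := (Finset.mem_Ioc.1 hn).1
    omega
  set ζ : ℕ → ℂ := fun n => (n : ℂ) ^ (-(1 / 2) : ℂ) * ∫ t, F t * en n t ∂ρ with hζ
  set Er := K * (H + 2) * (C1 ^ 2 / T) with hEr
  have hEr0 : 0 ≤ Er := by positivity
  -- the pointwise bound
  have hpt : ∀ c ∈ Icc 0 U, ‖∫ t, F t * (z (t + c) - PN N (t + c)) ∂ρ‖ ^ 2 ≤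
      2 * ‖∑ n ∈ S, ζ n * en n c‖ ^ 2 + 2 * (P * Er) := by
    intro c hc
    set E : ℝ → ℂ := fun t => z (t + c) - PN X (t + c) with hE
    have hEc : Continuous E :=
      (z_cont.comp (by fun_prop : Continuous fun t : ℝ => t + c)).sub
        ((PN_cont X).comp (by fun_prop : Continuous fun t : ℝ => t + c))
    have h4 : ∀ t, z (t + c) - PN N (t + c) =
        (∑ n ∈ S, ((n : ℂ) ^ (-(1 / 2) : ℂ) * en n t) * en n c) + E t := by
      intro t
      have h5 := PN_sub hNX (t + c)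
      have h6 : ∑ n ∈ S, ((n : ℂ) ^ (-(1 / 2) : ℂ) * en n t) * en n c =
          PN X (t + c) - PN N (t + c) := by
        rw [h5]
        refine Finset.sum_congr rfl fun n hn => ?_
        rw [en_add (hSn n hn), mul_assoc]
      rw [h6, hE]
      ring
    have hFG : ∀ n ∈ S, Integrable
        (fun t => F t * ((n : ℂ) ^ (-(1 / 2) : ℂ) * en n t) * en n c) ρ :=
      fun n hn => (wb_intg hρ hF (continuous_const.mul (en_cont (hSn n hn)))).mul_const _
    have h5 : ∫ t, F t * (z (t + c) - PN N (t + c)) ∂ρ =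
        (∑ n ∈ S, ζ n * en n c) + ∫ t, F t * E t ∂ρ := by
      have e1 : ∀ t, F t * (z (t + c) - PN N (t + c)) =
          (∑ n ∈ S, F t * ((n : ℂ) ^ (-(1 / 2) : ℂ) * en n t) * en n c) + F t * E t := by
        intro t
        rw [h4, mul_add, Finset.mul_sum]
        congr 1
        refine Finset.sum_congr rfl fun n _ => ?_
        ring
      simp only [e1]
      have hsum : Integrable (fun t => ∑ n ∈ S, F t * ((n : ℂ) ^ (-(1 / 2) : ℂ) * en n t) *
          en n c) ρ := integrable_finsetSum S hFG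
      rw [integral_add hsum (wb_intg hρ hF hEc), integral_finsetSum S hFG]
      congr 1
      refine Finset.sum_congr rfl fun n _ => ?_
      rw [integral_mul_const]
      congr 1
      rw [hζ]
      simp only
      rw [← integral_const_mul]
      refine integral_congr_ae (Filter.Eventually.of_forall fun t => ?_)
      simp only
      ring
    have h6 : ‖∫ t, F t * E t ∂ρ‖ ^ 2 ≤ P * Er := by
      refine (cs hρ hF (wb_cont _ _ hEc)).trans ?_
      refine mul_le_mul_of_nonneg_left ?_ hP0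
      have h7 : ∀ t ∈ Icc T (T + H), ‖E t‖ ^ 2 ≤ C1 ^ 2 / T := by
        intro t ht
        have h8 := hem T (t + c) X hT (by linarith [ht.1, hc.1]) (by linarith [ht.2, hc.2]) hX1 hX2
        have h9 := pow_le_pow_left₀ (norm_nonneg _) h8 2
        refine h9.trans (le_of_eq ?_)
        rw [mul_pow, ← Real.rpow_natCast (T ^ (-(1 / 2) : ℝ)), ← Real.rpow_mul hT0.le]
        norm_num
        rw [Real.rpow_neg_one, div_eq_mul_inv]
      have h8 : ∫ t, ‖E t‖ ^ 2 ∂ρ ≤ ∫ t, C1 ^ 2 / T ∂ρ := by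
        refine integral_mono_ae (wb_sqi hρ (wb_cont _ _ hEc)) (integrable_const _) ?_
        filter_upwards [hρ.ae] with t ht
        exact h7 t ht
      refine h8.trans ?_
      rw [integral_const, smul_eq_mul, hEr]
      have h9 : ρ.real univ ≤ K * (H + 2) := by
        refine ENNReal.toReal_le_of_le_ofReal (by positivity) ((hρ.mass hK hab).trans (le_of_eq ?_))
        congr 1
        ring
      gcongr
    rw [h5]
    set x1 := ∑ n ∈ S, ζ n * en n c
    set x2 := ∫ t, F t * E t ∂ρ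
    have h7 : ‖x1 + x2‖ ^ 2 ≤ 2 * ‖x1‖ ^ 2 + 2 * ‖x2‖ ^ 2 := by
      have h8 := norm_add_le x1 x2
      have h9 := pow_le_pow_left₀ (norm_nonneg _) h8 2
      nlinarith [sq_nonneg (‖x1‖ - ‖x2‖)]
    linarith
  -- the blocks
  set r := Nat.log 2 X + 1 with hrd
  have hr : (r : ℝ) ≤ 7 * L := by
    rw [hrd]
    push_cast
    exact log_blk hT hXn hX2
  have hex : ∀ n ∈ S, ∃ i < r, N * 2 ^ i < n ∧ n ≤ N * 2 ^ (i + 1) := by
    intro n hn
    rw [hS, Finset.mem_Ioc] at hn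
    refine exists_blk r ?_ hn.1
    have h5 := Nat.lt_pow_succ_log_self (b := 2) (by norm_num) X
    have h6 : 2 ^ r ≤ N * 2 ^ r := Nat.le_mul_of_pos_left _ hN1
    have h7 : 2 ^ (Nat.log 2 X).succ = 2 ^ r := rfl
    have h8 := hn.2
    omega
  have hind : ∃ ind : ℕ → ℕ, ∀ n ∈ S, ind n < r ∧ N * 2 ^ (ind n) < n ∧
      n ≤ N * 2 ^ (ind n + 1) := by
    refine ⟨fun n => if h : n ∈ S then (hex n h).choose else 0, fun n hn => ?_⟩
    simp only [hn, dif_pos]
    exact (hex n hn).choose_spec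
  obtain ⟨ind, hind⟩ := hind
  have hc1 : ∀ S' : Finset ℕ, S' ⊆ S → Continuous fun c => ‖∑ n ∈ S', ζ n * en n c‖ ^ 2 := by
    intro S' hS'
    refine (Continuous.norm ?_).pow 2
    exact continuous_finsetSum _ fun n hn => continuous_const.mul (en_cont (hSn n (hS' hn)))
  have hlow : ∫ c in (0 : ℝ)..U, ‖∑ n ∈ S, ζ n * en n c‖ ^ 2 ≤
      49 * L ^ 2 * (2 * C2 ^ 2 * K * (50 * L ^ 2) * (2 * (H * U / N) + 20 * T) * P) := by
    set Bd := 2 * C2 ^ 2 * K * (50 * L ^ 2) * (2 * (H * U / N) + 20 * T) * P with hBd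
    have hBd0 : 0 ≤ Bd := by positivity
    have h4 : ∀ c : ℝ, ‖∑ n ∈ S, ζ n * en n c‖ ^ 2 ≤
        r * ∑ i ∈ Finset.range r, ‖∑ n ∈ S.filter (fun n => ind n = i), ζ n * en n c‖ ^ 2 := by
      intro c
      rw [← Finset.sum_fiberwise_of_maps_to (s := S) (t := Finset.range r) (g := ind)
        (fun n hn => Finset.mem_range.2 (hind n hn).1)]
      have := norm_sum_sq (Finset.range r)
        (fun i => ∑ n ∈ S.filter (fun n => ind n = i), ζ n * en n c)
      rwa [Finset.card_range] at this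
    have h5 : ∀ i ∈ Finset.range r, ∫ c in (0 : ℝ)..U,
        ‖∑ n ∈ S.filter (fun n => ind n = i), ζ n * en n c‖ ^ 2 ≤ Bd := by
      intro i hi
      rcases Finset.eq_empty_or_nonempty (S.filter (fun n => ind n = i)) with hem' | ⟨n₀, hn₀⟩
      · rw [hem']
        simpa using hBd0
      · rw [Finset.mem_filter] at hn₀
        have h6 := (hind n₀ hn₀.1).2.1
        rw [hn₀.2] at h6
        have h7 : n₀ ≤ X := (Finset.mem_Ioc.1 hn₀.1).2
        have h8 : N * 2 ^ i ≤ X := by omega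
        have h9 : ((N * 2 ^ i : ℕ) : ℝ) ≤ X := by exact_mod_cast h8
        have h10 : (1 : ℝ) ≤ ((N * 2 ^ i : ℕ) : ℝ) := by
          exact_mod_cast hN1.trans (Nat.le_mul_of_pos_right _ (by positivity))
        refine blk hC2 hms (J := N * 2 ^ i) hT hH1 hHT hU1 hUT hN1 hρ hK hF
          (Nat.le_mul_of_pos_right _ (by positivity)) (h9.trans hX2) (by positivity) ?_ _ ?_
        · have h11 : Real.log (2 * ((N * 2 ^ i : ℕ) : ℝ)) ≤ 4 * L := by
            have h12 : 2 * ((N * 2 ^ i : ℕ) : ℝ) ≤ T ^ 4 := by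
              have h13 : 9 ≤ T ^ 2 := by nlinarith
              have h14 : 16 * T ≤ T ^ 2 * T ^ 2 := by nlinarith
              calc 2 * ((N * 2 ^ i : ℕ) : ℝ) ≤ 16 * T := by linarith
                _ ≤ T ^ 2 * T ^ 2 := h14
                _ = T ^ 4 := by ring
            have h15 := Real.log_le_log (by linarith) h12
            rw [Real.log_pow] at h15
            simpa using h15
          have h16 : 0 ≤ Real.log (2 * ((N * 2 ^ i : ℕ) : ℝ)) := Real.log_nonneg (by linarith)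
          have h17 : Real.log (2 * ((N * 2 ^ i : ℕ) : ℝ)) ^ 2 ≤ (4 * L) ^ 2 := pow_le_pow_left₀ h16 h11 2
          nlinarith
        · intro n hn
          rw [Finset.mem_filter] at hn
          obtain ⟨-, h10, h11⟩ := hind n hn.1
          rw [hn.2] at h10 h11
          refine ⟨h10, ?_⟩
          rw [pow_succ] at h11
          linarith
    calc ∫ c in (0 : ℝ)..U, ‖∑ n ∈ S, ζ n * en n c‖ ^ 2
        ≤ ∫ c in (0 : ℝ)..U, r * ∑ i ∈ Finset.range r,
            ‖∑ n ∈ S.filter (fun n => ind n = i), ζ n * en n c‖ ^ 2 := by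
          refine intervalIntegral.integral_mono_on hU0 ?_ ?_ fun c _ => h4 c
          · exact (hc1 S (Finset.Subset.refl _)).intervalIntegrable _ _
          · exact (continuous_const.mul (continuous_finsetSum _ fun i _ =>
              hc1 _ (Finset.filter_subset _ _))).intervalIntegrable _ _
      _ = r * ∑ i ∈ Finset.range r, ∫ c in (0 : ℝ)..U,
            ‖∑ n ∈ S.filter (fun n => ind n = i), ζ n * en n c‖ ^ 2 := by
          rw [intervalIntegral.integral_const_mul, intervalIntegral.integral_finsetSum]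
          intro i _
          exact (hc1 _ (Finset.filter_subset _ _)).intervalIntegrable _ _
      _ ≤ r * ∑ i ∈ Finset.range r, Bd := by
          gcongr with i hi
          exact h5 i hi
      _ = (r : ℝ) ^ 2 * Bd := by
          rw [Finset.sum_const, Finset.card_range, nsmul_eq_mul]
          ring
      _ ≤ (7 * L) ^ 2 * Bd := by gcongr
      _ = _ := by ring
  -- the conclusion
  have hUE : U * (2 * (P * Er)) ≤ 6 * C1 ^ 2 * K * T * P := by
    have h4 : U * Er ≤ 3 * C1 ^ 2 * K * T := by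
      have h5 : U * Er = C1 ^ 2 * K * (U * (H + 2) / T) := by rw [hEr]; ring
      have h6 : U * (H + 2) / T ≤ 3 * T := by
        rw [div_le_iff₀ hT0]
        have : H + 2 ≤ 3 * T := by linarith
        calc U * (H + 2) ≤ T * (3 * T) := mul_le_mul hUT this (by linarith) (by linarith)
          _ = 3 * T * T := by ring
      rw [h5]
      calc C1 ^ 2 * K * (U * (H + 2) / T) ≤ C1 ^ 2 * K * (3 * T) := by gcongr
        _ = _ := by ring
    calc U * (2 * (P * Er)) = 2 * (U * Er) * P := by ring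
      _ ≤ 2 * (3 * C1 ^ 2 * K * T) * P := by gcongr
      _ = _ := by ring
  have hfin : 2 * (49 * L ^ 2 * (2 * C2 ^ 2 * K * (50 * L ^ 2) * (2 * (H * U / N) + 20 * T) * P)) +
      U * (2 * (P * Er)) ≤ (196000 * C2 ^ 2 + 6 * C1 ^ 2) * K * L ^ 4 * (H * U / N + T) * P := by
    have hHU : 0 ≤ H * U / N := by positivity
    have h4 : 2 * (49 * L ^ 2 * (2 * C2 ^ 2 * K * (50 * L ^ 2) * (2 * (H * U / N) + 20 * T) * P)) ≤
        196000 * C2 ^ 2 * K * L ^ 4 * (H * U / N + T) * P := by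
      calc 2 * (49 * L ^ 2 * (2 * C2 ^ 2 * K * (50 * L ^ 2) * (2 * (H * U / N) + 20 * T) * P))
          ≤ 2 * (49 * L ^ 2 * (2 * C2 ^ 2 * K * (50 * L ^ 2) * (20 * (H * U / N + T)) * P)) := by
            gcongr
            linarith
        _ = _ := by ring
    have h5 : 6 * C1 ^ 2 * K * T * P ≤ 6 * C1 ^ 2 * K * L ^ 4 * (H * U / N + T) * P := by
      have h6 : T ≤ L ^ 4 * (H * U / N + T) := by
        have h7 : 1 ≤ L ^ 4 := one_le_pow₀ hL
        nlinarith
      calc 6 * C1 ^ 2 * K * T * P ≤ 6 * C1 ^ 2 * K * (L ^ 4 * (H * U / N + T)) * P := by gcongr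
        _ = _ := by ring
    calc _ ≤ 196000 * C2 ^ 2 * K * L ^ 4 * (H * U / N + T) * P + 6 * C1 ^ 2 * K * T * P :=
          add_le_add h4 hUE
      _ ≤ 196000 * C2 ^ 2 * K * L ^ 4 * (H * U / N + T) * P +
          6 * C1 ^ 2 * K * L ^ 4 * (H * U / N + T) * P := by linarith
      _ = _ := by ring
  by_cases hint : IntervalIntegrable
      (fun c => ‖∫ t, F t * (z (t + c) - PN N (t + c)) ∂ρ‖ ^ 2) volume 0 U
  · have hc2 : Continuous fun c => 2 * ‖∑ n ∈ S, ζ n * en n c‖ ^ 2 :=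
      continuous_const.mul (hc1 S (Finset.Subset.refl _))
    calc ∫ c in (0 : ℝ)..U, ‖∫ t, F t * (z (t + c) - PN N (t + c)) ∂ρ‖ ^ 2
        ≤ ∫ c in (0 : ℝ)..U, (2 * ‖∑ n ∈ S, ζ n * en n c‖ ^ 2 + 2 * (P * Er)) := by
          refine intervalIntegral.integral_mono_on hU0 hint ?_ hpt
          exact (hc2.add continuous_const).intervalIntegrable _ _
      _ = 2 * (∫ c in (0 : ℝ)..U, ‖∑ n ∈ S, ζ n * en n c‖ ^ 2) + U * (2 * (P * Er)) := by
          rw [intervalIntegral.integral_add (hc2.intervalIntegrable _ _)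
            (continuous_const.intervalIntegrable _ _), intervalIntegral.integral_const_mul,
            intervalIntegral.integral_const, sub_zero, smul_eq_mul]
      _ ≤ 2 * (49 * L ^ 2 * (2 * C2 ^ 2 * K * (50 * L ^ 2) * (2 * (H * U / N) + 20 * T) * P)) +
          U * (2 * (P * Er)) := by
          gcongr
      _ ≤ _ := hfin
  · rw [intervalIntegral.integral_undef hint]
    positivity

end

end Pool.Agent.J4.H35.AM
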