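import Pool.Agent.J4.H35.AMc
import Pool.Agent.N879.PU.Telu
import Pool.Agent.N879.PU.Asm2

set_option autoImplicit false

/-!
Arbitrary measures, part d: replacement of the factors of a product, one at a time.
-/

namespace Pool.Agent.J4.H35.AM

open Complex Filter Topology MeasureTheory Set
open Pool.Agent.TH612.GS (mP z PN)
open Pool.Agent.N879.PZ (Wb)
open Pool.Agent.N879.PU (fs)
open Pool.Agent.N879.PU.Teluaux (pmom bb_le)
open Pool.Agent.N879.PZ.Telcaux (mor lint1 meas_int wb_mul bb bb_succ bb_nonneg)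
open Pool.Agent.TH521.GS (lint_prod lint_equiv)
open scoped ENNReal

noncomputable section

variable {a b U K W K₀ : ℝ} {G : Set ℝ} {ρ : Measure ℝ}

lemma wb_intg' [IsFiniteMeasure ρ] (h : Mc a b K₀ ρ) {F : ℝ → ℂ} (hF : Wb a b F) : Integrable F ρ := by
  obtain ⟨hm, M, hM⟩ := hF
  refine Integrable.of_bound hm.aestronglyMeasurable M ?_
  filter_upwards [h.ae] with t ht using hM t ht

/-- weighted integration over `t` -/
lemma wint' [IsFiniteMeasure ρ] (hρ : Mc a b K₀ ρ) {X : Type} [MeasurableSpace X] {μ : Measure X} [SFinite μ]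
    {C : ℝ} {v : ℝ → ℂ} (hv : Measurable v) (hG : ∀ t, t ∉ G → v t = 0) {h : ℝ → X → ℝ}
    (hm : Measurable (Function.uncurry h))
    (hi : ∀ t ∈ G, t ∈ Icc a b → ∫⁻ x, ENNReal.ofReal (h t x) ∂μ ≤ ENNReal.ofReal C) :
    ∫⁻ x, (∫⁻ t, ENNReal.ofReal (‖v t‖ ^ 2 * h t x) ∂ρ) ∂μ ≤
      ENNReal.ofReal C * ∫⁻ t, ENNReal.ofReal (‖v t‖ ^ 2) ∂ρ := by
  have hm2 : Measurable (Function.uncurry fun (x : X) (t : ℝ) => ENNReal.ofReal (‖v t‖ ^ 2 * h t x)) := by
    refine mor (((hv.comp measurable_snd).norm.pow_const 2).mul ?_)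
    exact hm.comp measurable_swap
  rw [lintegral_lintegral_swap hm2.aemeasurable, mul_comm, ← lintegral_mul_const' _ _ ENNReal.ofReal_ne_top]
  refine lintegral_mono_ae (hρ.ae.mono fun t ht => ?_)
  by_cases htG : t ∈ G
  · simp_rw [ENNReal.ofReal_mul (sq_nonneg ‖v t‖)]
    rw [lintegral_const_mul' _ _ ENNReal.ofReal_ne_top]
    exact mul_le_mul' le_rfl (hi t htG ht)
  · simp [hG t htG]

lemma core [IsFiniteMeasure ρ] (hρ : Mc a b K₀ ρ) (hK : 0 ≤ K) (hW : 0 ≤ W) : ∀ (n : ℕ) (f g : Fin n → ℝ → ℂ),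
    (∀ i, Continuous (f i)) → (∀ i, Continuous (g i)) →
    (∀ i, ∀ v : ℝ → ℂ, Wb a b v →
      ∫⁻ y, ENNReal.ofReal (‖∫ t, v t * (f i (t + y) - g i (t + y)) ∂ρ‖ ^ 2)
        ∂(volume.restrict (Icc 0 U)) ≤
      ENNReal.ofReal K * ∫⁻ t, ENNReal.ofReal (‖v t‖ ^ 2) ∂ρ) →
    (∀ i, ∀ t ∈ G, t ∈ Icc a b → ∫⁻ y, ENNReal.ofReal (‖f i (t + y)‖ ^ 2)
      ∂(volume.restrict (Icc 0 U)) ≤ ENNReal.ofReal W) →
    (∀ i, ∀ t ∈ G, t ∈ Icc a b → ∫⁻ y, ENNReal.ofReal (‖g i (t + y)‖ ^ 2)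
      ∂(volume.restrict (Icc 0 U)) ≤ ENNReal.ofReal W) →
    ∀ (v : ℝ → ℂ), Wb a b v → (∀ t, t ∉ G → v t = 0) →
      ∫⁻ c, ENNReal.ofReal (‖∫ t, v t *
        (∏ j : Fin n, f j (t + c j) - ∏ j, g j (t + c j)) ∂ρ‖ ^ 2) ∂(mP (Fin n) U) ≤
      ENNReal.ofReal (bb K W n) * ∫⁻ t, ENNReal.ofReal (‖v t‖ ^ 2) ∂ρ := by
  intro n
  induction n with
  | zero =>
    intro f g _ _ _ _ _ v _ _
    simp
  | succ n ih =>
    intro f g hf hg h1 h2 h3 v hv hG
    have hf0 := hf 0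
    have hg0 := hg 0
    have hm0 : Measurable fun c : Fin (n + 1) → ℝ => ∫ t, v t *
        (∏ j, f j (t + c j) - ∏ j, g j (t + c j)) ∂ρ := by
      refine meas_int ((hv.1.comp measurable_snd).mul (Continuous.measurable ?_))
      fun_prop
    rw [lint_prod U _ (mor (hm0.norm.pow_const 2))]
    obtain ⟨S1, hS1⟩ : ∃ S1 : ℝ × (Fin n → ℝ) → ℂ, S1 = fun p => ∫ t,
      (v t * ∏ j : Fin n, f j.succ (t + p.2 j)) * (f 0 (t + p.1) - g 0 (t + p.1)) ∂ρ := ⟨_, rfl⟩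
    obtain ⟨S2, hS2⟩ : ∃ S2 : ℝ × (Fin n → ℝ) → ℂ, S2 = fun p => ∫ t,
      (v t * g 0 (t + p.1)) * (∏ j : Fin n, f j.succ (t + p.2 j) -
        ∏ j : Fin n, g j.succ (t + p.2 j)) ∂ρ := ⟨_, rfl⟩
    have c1 : Measurable fun p => ‖S1 p‖ ^ 2 := by
      rw [hS1]
      refine (meas_int (X := ℝ × (Fin n → ℝ)) (((hv.1.comp measurable_snd).mul
        (Continuous.measurable ?_)).mul (Continuous.measurable ?_))).norm.pow_const 2
      · fun_prop
      · fun_prop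
    have c2 : Measurable fun p => ‖S2 p‖ ^ 2 := by
      rw [hS2]
      refine (meas_int (X := ℝ × (Fin n → ℝ)) (((hv.1.comp measurable_snd).mul
        (Continuous.measurable ?_)).mul (Continuous.measurable ?_))).norm.pow_const 2
      · fun_prop
      · fun_prop
    have hle : ∀ p : ℝ × (Fin n → ℝ), ENNReal.ofReal (‖∫ t, v t *
        (∏ j, f j (t + (Fin.cons p.1 p.2 : Fin (n + 1) → ℝ) j) -
          ∏ j, g j (t + (Fin.cons p.1 p.2 : Fin (n + 1) → ℝ) j)) ∂ρ‖ ^ 2) ≤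
        2 * ENNReal.ofReal (‖S1 p‖ ^ 2) + 2 * ENNReal.ofReal (‖S2 p‖ ^ 2) := by
      intro p
      have i1 : Integrable (fun t => (v t * ∏ j : Fin n, f j.succ (t + p.2 j)) *
          (f 0 (t + p.1) - g 0 (t + p.1))) ρ :=
        wb_intg' hρ (wb_mul (wb_mul hv (by fun_prop)) (by fun_prop))
      have i2 : Integrable (fun t => (v t * g 0 (t + p.1)) *
          (∏ j : Fin n, f j.succ (t + p.2 j) - ∏ j : Fin n, g j.succ (t + p.2 j)))
          ρ :=
        wb_intg' hρ (wb_mul (wb_mul hv (by fun_prop)) (by fun_prop))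
      have e1 : ∫ t, v t * (∏ j, f j (t + (Fin.cons p.1 p.2 : Fin (n + 1) → ℝ) j) -
          ∏ j, g j (t + (Fin.cons p.1 p.2 : Fin (n + 1) → ℝ) j)) ∂ρ = S1 p + S2 p := by
        rw [hS1, hS2]
        simp only
        rw [← integral_add i1 i2]
        congr 1
        funext t
        rw [Fin.prod_univ_succ, Fin.prod_univ_succ]
        simp only [Fin.cons_zero, Fin.cons_succ]
        ring
      rw [e1]
      have e2 : ‖S1 p + S2 p‖ ^ 2 ≤ 2 * ‖S1 p‖ ^ 2 + 2 * ‖S2 p‖ ^ 2 := by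
        have h4 := norm_add_le (S1 p) (S2 p)
        have h5 : ‖S1 p + S2 p‖ ^ 2 ≤ (‖S1 p‖ + ‖S2 p‖) ^ 2 := by gcongr
        nlinarith [sq_nonneg (‖S1 p‖ - ‖S2 p‖)]
      refine (ENNReal.ofReal_le_ofReal e2).trans ?_
      rw [ENNReal.ofReal_add (by positivity) (by positivity), ENNReal.ofReal_mul (by norm_num),
        ENNReal.ofReal_mul (by norm_num)]
      simp
    refine (lintegral_mono hle).trans ?_
    rw [lintegral_add_left ((mor c1).const_mul 2), lintegral_const_mul _ (mor c1),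
      lintegral_const_mul _ (mor c2)]
    obtain ⟨Q, hQ⟩ : ∃ Q : ℝ≥0∞, Q = ∫⁻ t, ENNReal.ofReal (‖v t‖ ^ 2) ∂ρ := ⟨_, rfl⟩
    -- the first part
    have b1 : ∫⁻ p, ENNReal.ofReal (‖S1 p‖ ^ 2)
        ∂((volume.restrict (Icc 0 U)).prod (mP (Fin n) U)) ≤ ENNReal.ofReal (K * W ^ n) * Q := by
      rw [lintegral_prod_symm _ (mor c1).aemeasurable]
      have e3 : ∀ γ : Fin n → ℝ, ∫⁻ x, ENNReal.ofReal (‖S1 (x, γ)‖ ^ 2)
          ∂(volume.restrict (Icc 0 U)) ≤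
          ENNReal.ofReal K * ∫⁻ t,
            ENNReal.ofReal (‖v t‖ ^ 2 * ‖∏ j : Fin n, f j.succ (t + γ j)‖ ^ 2) ∂ρ := by
        intro γ
        have h4 := h1 0 (fun t => v t * ∏ j : Fin n, f j.succ (t + γ j))
          (wb_mul hv (by fun_prop))
        simp only [norm_mul, mul_pow] at h4
        rw [hS1]
        exact h4
      refine (lintegral_mono e3).trans ?_
      rw [lintegral_const_mul' _ _ ENNReal.ofReal_ne_top, ENNReal.ofReal_mul hK, mul_assoc, hQ]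
      refine mul_le_mul' le_rfl ?_
      have cm : Measurable (Function.uncurry fun (t : ℝ) (γ : Fin n → ℝ) =>
          ‖∏ j : Fin n, f j.succ (t + γ j)‖ ^ 2) := by
        refine Continuous.measurable ?_
        fun_prop
      have cp : ∀ t ∈ G, t ∈ Icc a b → ∫⁻ γ : Fin n → ℝ,
          ENNReal.ofReal (‖∏ j : Fin n, f j.succ (t + γ j)‖ ^ 2) ∂(mP (Fin n) U) ≤
          ENNReal.ofReal (W ^ n) := fun t ht ht' =>
        pmom hW n (fun j y => f j.succ (t + y)) (fun j => by fun_prop)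
          fun j => h2 j.succ t ht ht'
      exact wint' (X := Fin n → ℝ) (μ := mP (Fin n) U) (C := W ^ n) hρ hv.1 hG
        (h := fun (t : ℝ) (γ : Fin n → ℝ) => ‖∏ j : Fin n, f j.succ (t + γ j)‖ ^ 2) cm cp
    -- the second part
    have b2 : ∫⁻ p, ENNReal.ofReal (‖S2 p‖ ^ 2)
        ∂((volume.restrict (Icc 0 U)).prod (mP (Fin n) U)) ≤
        ENNReal.ofReal (bb K W n * W) * Q := by
      rw [lintegral_prod _ (mor c2).aemeasurable]
      have e3 : ∀ x : ℝ, ∫⁻ γ, ENNReal.ofReal (‖S2 (x, γ)‖ ^ 2) ∂(mP (Fin n) U) ≤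
          ENNReal.ofReal (bb K W n) *
            ∫⁻ t, ENNReal.ofReal (‖v t‖ ^ 2 * ‖g 0 (t + x)‖ ^ 2) ∂ρ := by
        intro x
        have h4 := ih (fun j => f j.succ) (fun j => g j.succ) (fun j => hf j.succ)
          (fun j => hg j.succ) (fun j => h1 j.succ) (fun j => h2 j.succ) (fun j => h3 j.succ)
          (fun t => v t * g 0 (t + x)) (wb_mul hv (by fun_prop))
          (fun t ht => by rw [hG t ht, zero_mul])
        simp only [norm_mul, mul_pow] at h4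
        rw [hS2]
        exact h4
      refine (lintegral_mono e3).trans ?_
      rw [lintegral_const_mul' _ _ ENNReal.ofReal_ne_top, ENNReal.ofReal_mul (bb_nonneg hK hW n),
        mul_assoc, hQ]
      refine mul_le_mul' le_rfl ?_
      have cm : Measurable (Function.uncurry fun (t : ℝ) (x : ℝ) => ‖g 0 (t + x)‖ ^ 2) := by
        refine Continuous.measurable ?_
        fun_prop
      exact wint' (X := ℝ) (μ := volume.restrict (Icc 0 U)) (C := W) hρ hv.1 hG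
        (h := fun (t : ℝ) (x : ℝ) => ‖g 0 (t + x)‖ ^ 2) cm (h3 0)
    calc 2 * ∫⁻ p, ENNReal.ofReal (‖S1 p‖ ^ 2)
          ∂((volume.restrict (Icc 0 U)).prod (mP (Fin n) U)) +
        2 * ∫⁻ p, ENNReal.ofReal (‖S2 p‖ ^ 2)
          ∂((volume.restrict (Icc 0 U)).prod (mP (Fin n) U))
        ≤ 2 * (ENNReal.ofReal (K * W ^ n) * Q) + 2 * (ENNReal.ofReal (bb K W n * W) * Q) :=
          add_le_add (mul_le_mul' le_rfl b1) (mul_le_mul' le_rfl b2)
      _ = ENNReal.ofReal (2 * (K * W ^ n) + 2 * (bb K W n * W)) * Q := by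
          have t1 : 0 ≤ K * W ^ n := mul_nonneg hK (pow_nonneg hW n)
          have t2 : 0 ≤ bb K W n * W := mul_nonneg (bb_nonneg hK hW n) hW
          rw [ENNReal.ofReal_add (mul_nonneg (by norm_num) t1) (mul_nonneg (by norm_num) t2),
            ENNReal.ofReal_mul (by norm_num : (0 : ℝ) ≤ 2),
            ENNReal.ofReal_mul (by norm_num : (0 : ℝ) ≤ 2), add_mul, mul_assoc, mul_assoc]
          simp
      _ = ENNReal.ofReal (bb K W (n + 1)) * ∫⁻ t, ENNReal.ofReal (‖v t‖ ^ 2) ∂ρ := by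
          rw [bb_succ, hQ]


/-- bounded measurable functions of the shift -/
lemma hyp [IsFiniteMeasure ρ] (hρ : Mc a b K₀ ρ) (hab : a ≤ b) (hU : 0 < U) {f g : ℝ → ℂ} (hf : Continuous f)
    (hg : Continuous g) (hK : 0 ≤ K)
    (h1 : ∀ F : ℝ → ℂ, Wb a b F → ∫ c in (0 : ℝ)..U, ‖∫ t, F t * (f (t + c) - g (t + c)) ∂ρ‖ ^ 2 ≤
      K * ∫ t, ‖F t‖ ^ 2 ∂ρ) (v : ℝ → ℂ) (hv : Wb a b v) :
    ∫⁻ y, ENNReal.ofReal (‖∫ t, v t * (f (t + y) - g (t + y)) ∂ρ‖ ^ 2)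
        ∂(volume.restrict (Icc 0 U)) ≤
      ENNReal.ofReal K * ∫⁻ t, ENNReal.ofReal (‖v t‖ ^ 2) ∂ρ := by
  have hm : Measurable fun y : ℝ => ∫ t, v t * (f (t + y) - g (t + y)) ∂ρ := by
    refine meas_int ((hv.1.comp measurable_snd).mul (Continuous.measurable ?_))
    fun_prop
  obtain ⟨C, hC⟩ := isCompact_Icc.exists_bound_of_continuousOn (s := Icc a (b + U))
    (f := fun x => f x - g x) (hf.sub hg).continuousOn
  obtain ⟨M, hM⟩ := hv.2
  have hM0 : 0 ≤ M := (norm_nonneg _).trans (hM a ⟨le_rfl, hab⟩)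
  have hbd : ∀ y ∈ Icc (0 : ℝ) U, ‖∫ t, v t * (f (t + y) - g (t + y)) ∂ρ‖ ≤
      M * C * ρ.real univ := by
    intro y hy
    have h4 : ∀ᵐ t ∂ρ, ‖v t * (f (t + y) - g (t + y))‖ ≤ M * C := by
      filter_upwards [hρ.ae] with t ht
      rw [norm_mul]
      exact mul_le_mul (hM t ht) (hC (t + y) ⟨by linarith [ht.1, hy.1], by linarith [ht.2, hy.2]⟩)
        (norm_nonneg _) hM0
    exact norm_integral_le_of_norm_le_const h4
  have hint : IntegrableOn (fun y : ℝ => ‖∫ t, v t * (f (t + y) - g (t + y)) ∂ρ‖ ^ 2)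
      (Icc 0 U) := by
    refine Integrable.mono' (g := fun _ => (M * C * ρ.real univ) ^ 2) (integrable_const _)
      (hm.norm.pow_const 2).aestronglyMeasurable ?_
    refine (ae_restrict_mem measurableSet_Icc).mono fun y hy => ?_
    rw [Real.norm_of_nonneg (by positivity)]
    exact pow_le_pow_left₀ (norm_nonneg _) (hbd y hy) 2
  rw [lint1 hU.le hint (fun y => sq_nonneg _),
    ← ofReal_integral_eq_lintegral_ofReal (wb_sqi hρ hv) (Filter.Eventually.of_forall fun t => sq_nonneg _),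
    ← ENNReal.ofReal_mul hK]
  exact ENNReal.ofReal_le_ofReal (h1 v hv)

/-- replacement of all the factors -/
theorem telu (ι : Type) [Fintype ι] [IsFiniteMeasure ρ] (hρ : Mc a b K₀ ρ) (hab : a ≤ b) (hU : 0 < U) (hK : 0 ≤ K)
    (hW : 0 ≤ W) (f g : ι → ℝ → ℂ) (hf : ∀ i, Continuous (f i)) (hg : ∀ i, Continuous (g i))
    (h1 : ∀ i, ∀ F : ℝ → ℂ, Wb a b F → ∫ c in (0 : ℝ)..U, ‖∫ t, F t * (f i (t + c) - g i (t + c)) ∂ρ‖ ^ 2 ≤
      K * ∫ t, ‖F t‖ ^ 2 ∂ρ)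
    (h2 : ∀ i, ∀ t ∈ G, t ∈ Icc a b → ∫ c in (0 : ℝ)..U, ‖f i (t + c)‖ ^ 2 ≤ W)
    (h3 : ∀ i, ∀ t ∈ G, t ∈ Icc a b → ∫ c in (0 : ℝ)..U, ‖g i (t + c)‖ ^ 2 ≤ W)
    {v : ℝ → ℂ} (hv : Wb a b v) (hv0 : ∀ t, t ∉ G → v t = 0) :
    ∫⁻ γ, ENNReal.ofReal (‖∫ t, v t * (∏ i, f i (t + γ i) - ∏ i, g i (t + γ i)) ∂ρ‖ ^ 2) ∂(mP ι U) ≤
      ENNReal.ofReal (4 ^ Fintype.card ι * K * W ^ (Fintype.card ι - 1) * ∫ t, ‖v t‖ ^ 2 ∂ρ) := by
  set n := Fintype.card ι with hn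
  have e : ι ≃ Fin n := Fintype.equivFin ι
  have key := core (U := U) (G := G) hρ hK hW n (fun j => f (e.symm j))
    (fun j => g (e.symm j)) (fun j => hf _) (fun j => hg _)
    (fun j => hyp hρ hab hU (hf _) (hg _) hK (h1 _))
    (fun j t ht ht' => by
      have cf : Continuous fun y => ‖f (e.symm j) (t + y)‖ ^ 2 := by
        have := hf (e.symm j)
        fun_prop
      rw [lint1 hU.le cf.continuousOn.integrableOn_Icc fun y => sq_nonneg _]
      exact ENNReal.ofReal_le_ofReal (h2 _ t ht ht'))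
    (fun j t ht ht' => by
      have cg : Continuous fun y => ‖g (e.symm j) (t + y)‖ ^ 2 := by
        have := hg (e.symm j)
        fun_prop
      rw [lint1 hU.le cg.continuousOn.integrableOn_Icc fun y => sq_nonneg _]
      exact ENNReal.ofReal_le_ofReal (h3 _ t ht ht')) v hv hv0
  have e1 : ∀ (h : ι → ℝ → ℂ) (γ : Fin n → ℝ) (t : ℝ),
      ∏ j, h (e.symm j) (t + γ j) = ∏ i, h i (t + γ (e i)) := by
    intro h γ t
    rw [← Equiv.prod_comp e]
    simp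
  have hm0 : Measurable fun c : ι → ℝ => ∫ t, v t *
      (∏ i, f i (t + c i) - ∏ i, g i (t + c i)) ∂ρ := by
    refine meas_int ((hv.1.comp measurable_snd).mul (Continuous.measurable ?_))
    fun_prop
  rw [lint_equiv e U _ (mor (hm0.norm.pow_const 2))]
  simp only [e1] at key
  refine key.trans ?_
  rw [← ofReal_integral_eq_lintegral_ofReal (wb_sqi hρ hv) (Filter.Eventually.of_forall fun t => sq_nonneg _),
    ENNReal.ofReal_mul (by positivity)]
  exact mul_le_mul' (ENNReal.ofReal_le_ofReal (bb_le hK hW n)) le_rfl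

/-- the mean square of a product over the shifts -/
theorem msq (ι : Type) [Fintype ι] [IsFiniteMeasure ρ] (hρ : Mc a b K₀ ρ) (hU : 0 < U)
    (hW : 0 ≤ W) (g : ι → ℝ → ℂ) (hg : ∀ i, Continuous (g i))
    (h3 : ∀ i, ∀ t ∈ G, t ∈ Icc a b → ∫ c in (0 : ℝ)..U, ‖g i (t + c)‖ ^ 2 ≤ W)
    {v : ℝ → ℂ} (hv : Wb a b v) (hv0 : ∀ t, t ∉ G → v t = 0) (hGm : MeasurableSet G) :
    ∫⁻ γ, ENNReal.ofReal (‖∫ t, v t * ∏ i, g i (t + γ i) ∂ρ‖ ^ 2) ∂(mP ι U) ≤
      ENNReal.ofReal (ρ.real G * W ^ Fintype.card ι * ∫ t, ‖v t‖ ^ 2 ∂ρ) := by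
  set n := Fintype.card ι with hn
  have e : ι ≃ Fin n := Fintype.equivFin ι
  have hmP : SFinite (mP ι U) := by
    unfold Pool.Agent.TH612.GS.mP
    infer_instance
  set w : ℝ → ℂ := G.indicator fun _ => (1 : ℂ) with hw
  have hwm : Measurable w := measurable_const.indicator hGm
  have hw1 : ∀ t, ‖w t‖ ≤ 1 := fun t => by
    by_cases htG : t ∈ G
    · rw [hw, indicator_of_mem htG, norm_one]
    · rw [hw, indicator_of_notMem htG, norm_zero]
      norm_num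
  have hwb : Wb a b w := ⟨hwm, 1, fun t _ => hw1 t⟩
  have hw0 : ∀ t, t ∉ G → w t = 0 := fun t ht => indicator_of_notMem ht _
  have hV0 : 0 ≤ ∫ t, ‖v t‖ ^ 2 ∂ρ := integral_nonneg fun t => sq_nonneg _
  have hcp : ∀ γ : ι → ℝ, Continuous fun t : ℝ => ∏ i, g i (t + γ i) := by
    intro γ
    fun_prop
  -- pointwise
  have hpt : ∀ γ : ι → ℝ, ENNReal.ofReal (‖∫ t, v t * ∏ i, g i (t + γ i) ∂ρ‖ ^ 2) ≤
      ENNReal.ofReal (∫ t, ‖v t‖ ^ 2 ∂ρ) *
        ∫⁻ t, ENNReal.ofReal (‖w t‖ ^ 2 * ‖∏ i, g i (t + γ i)‖ ^ 2) ∂ρ := by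
    intro γ
    have hb := wb_mul hwb (hcp γ)
    have h1 := cs hρ hv hb
    have e1 : ∫ t, v t * (w t * ∏ i, g i (t + γ i)) ∂ρ = ∫ t, v t * ∏ i, g i (t + γ i) ∂ρ := by
      refine integral_congr_ae (Filter.Eventually.of_forall fun t => ?_)
      simp only
      by_cases htG : t ∈ G
      · rw [hw, indicator_of_mem htG, one_mul]
      · rw [hv0 t htG, zero_mul, zero_mul]
    rw [e1] at h1
    refine (ENNReal.ofReal_le_ofReal h1).trans ?_
    rw [ENNReal.ofReal_mul hV0]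
    refine mul_le_mul' le_rfl (le_of_eq ?_)
    rw [ofReal_integral_eq_lintegral_ofReal (wb_sqi hρ hb) (Filter.Eventually.of_forall fun t => sq_nonneg _)]
    refine lintegral_congr fun t => ?_
    rw [norm_mul, mul_pow]
  refine (lintegral_mono hpt).trans ?_
  rw [lintegral_const_mul' _ _ ENNReal.ofReal_ne_top]
  have cm : Measurable (Function.uncurry fun (t : ℝ) (γ : ι → ℝ) => ‖∏ i, g i (t + γ i)‖ ^ 2) := by
    refine Continuous.measurable ?_
    fun_prop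
  have cp : ∀ t ∈ G, t ∈ Icc a b → ∫⁻ γ : ι → ℝ,
      ENNReal.ofReal (‖∏ i, g i (t + γ i)‖ ^ 2) ∂(mP ι U) ≤ ENNReal.ofReal (W ^ n) := by
    intro t ht ht'
    have hc1 : Continuous fun γ : ι → ℝ => ‖∏ i, g i (t + γ i)‖ ^ 2 := by fun_prop
    rw [lint_equiv e U _ (mor hc1.measurable)]
    have e1 : ∀ γ : Fin n → ℝ, ∏ i, g i (t + γ (e i)) = ∏ j, g (e.symm j) (t + γ j) := by
      intro γ
      rw [← Equiv.prod_comp e]
      simp
    simp only [e1]
    refine pmom hW n (fun j y => g (e.symm j) (t + y)) (fun j => by fun_prop) fun j => ?_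
    have cg : Continuous fun y => ‖g (e.symm j) (t + y)‖ ^ 2 := by
      have := hg (e.symm j)
      fun_prop
    rw [lint1 hU.le cg.continuousOn.integrableOn_Icc fun y => sq_nonneg _]
    exact ENNReal.ofReal_le_ofReal (h3 _ t ht ht')
  have h5 := wint' (X := ι → ℝ) (μ := mP ι U) (C := W ^ n) hρ hwm hw0
    (h := fun (t : ℝ) (γ : ι → ℝ) => ‖∏ i, g i (t + γ i)‖ ^ 2) cm cp
  have h6 : ∫⁻ t, ENNReal.ofReal (‖w t‖ ^ 2) ∂ρ ≤ ENNReal.ofReal (ρ.real G) := by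
    have e2 : ∀ t, ENNReal.ofReal (‖w t‖ ^ 2) = G.indicator (fun _ => (1 : ℝ≥0∞)) t := by
      intro t
      by_cases htG : t ∈ G
      · rw [hw, indicator_of_mem htG, indicator_of_mem htG]; simp
      · rw [hw, indicator_of_notMem htG, indicator_of_notMem htG]; simp
    simp only [e2]
    rw [lintegral_indicator_const hGm, one_mul, measureReal_def, ENNReal.ofReal_toReal (measure_ne_top _ _)]
  refine (mul_le_mul' le_rfl (h5.trans (mul_le_mul' le_rfl h6))).trans (le_of_eq ?_)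
  rw [← ENNReal.ofReal_mul (by positivity), ← ENNReal.ofReal_mul hV0]
  congr 1
  ring

end

end Pool.Agent.J4.H35.AM
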