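import Pool.Agent.J4.H35.AMd
import Pool.Agent.N879.PU.Reg
import Pool.Agent.N879.PU.Sms

set_option autoImplicit false

/-!
Arbitrary measures, part e: the irregular points.
-/

namespace Pool.Agent.J4.H35.AM

open Complex Filter Topology MeasureTheory Set
open Pool.Agent.TH612.GS (mP z PN z_cont)
open Pool.Agent.N879.PZ (Wb)
open Pool.Agent.N879.PU (fs Gu Gu_meas S_SMS t_REG Regaux.mean_window)
open scoped ENNReal

noncomputable section

variable {a b K : ℝ} {ρ : Measure ℝ}

/-- a set and its neighbourhood -/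
lemma nbhd [IsFiniteMeasure ρ] (hρ : Mc a b K ρ) {E E' : Set ℝ} (hE : MeasurableSet E) (hE' : MeasurableSet E')
    (h : ∀ t ∈ E, ∀ x ∈ Icc (t - 1) t, x ∈ E') : ρ E ≤ ENNReal.ofReal K * volume E' := by
  set S : Set (ℝ × ℝ) := {p | p.2 ∈ E' ∧ p.2 ≤ p.1 ∧ p.1 ≤ p.2 + 1} with hS
  have hSm : MeasurableSet S := by
    refine (measurable_snd hE').inter ?_
    exact (isClosed_le continuous_snd continuous_fst).measurableSet.inter
      (isClosed_le continuous_fst (continuous_snd.add continuous_const)).measurableSet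
  set F : ℝ → ℝ → ℝ≥0∞ := fun t x => S.indicator (fun _ => (1 : ℝ≥0∞)) (t, x) with hF
  have hFm : Measurable (Function.uncurry F) := measurable_const.indicator hSm
  have h1 : ρ E ≤ ∫⁻ t, (∫⁻ x, F t x) ∂ρ := by
    have e1 : ρ E = ∫⁻ t, E.indicator (fun _ => (1 : ℝ≥0∞)) t ∂ρ := by
      rw [lintegral_indicator_const hE, one_mul]
    rw [e1]
    refine lintegral_mono fun t => ?_
    by_cases ht : t ∈ E
    · rw [indicator_of_mem ht]
      have h2 : ∫⁻ x, (Icc (t - 1) t).indicator (fun _ => (1 : ℝ≥0∞)) x = 1 := by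
        rw [lintegral_indicator_const measurableSet_Icc, Real.volume_Icc]
        simp
      rw [← h2]
      refine lintegral_mono fun x => ?_
      by_cases hx : x ∈ Icc (t - 1) t
      · rw [indicator_of_mem hx, hF]
        simp only
        rw [indicator_of_mem]
        exact ⟨h t ht x hx, hx.2, by linarith [hx.1]⟩
      · rw [indicator_of_notMem hx]
        exact zero_le
    · rw [indicator_of_notMem ht]
      exact zero_le
  refine h1.trans ?_
  rw [lintegral_lintegral_swap hFm.aemeasurable]
  have h3 : ∀ x, ∫⁻ t, F t x ∂ρ ≤ E'.indicator (fun _ => ENNReal.ofReal K) x := by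
    intro x
    by_cases hx : x ∈ E'
    · rw [indicator_of_mem hx]
      refine le_trans ?_ (hρ.cell x)
      have e2 : ρ (Icc x (x + 1)) = ∫⁻ t, (Icc x (x + 1)).indicator (fun _ => (1 : ℝ≥0∞)) t ∂ρ := by
        rw [lintegral_indicator_const measurableSet_Icc, one_mul]
      rw [e2]
      refine lintegral_mono fun t => ?_
      rw [hF]
      simp only
      by_cases ht : (t, x) ∈ S
      · rw [indicator_of_mem ht, indicator_of_mem]
        exact ⟨ht.2.1, ht.2.2⟩
      · rw [indicator_of_notMem ht]
        exact zero_le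
    · rw [indicator_of_notMem hx]
      have : ∀ t, F t x = 0 := by
        intro t
        rw [hF]
        simp only
        rw [indicator_of_notMem]
        exact fun h => hx h.1
      simp [this]
  refine (lintegral_mono h3).trans ?_
  rw [lintegral_indicator_const hE']

/-- the irregular points -/
theorem irr (hS : S_SMS) : ∃ (C : ℝ) (A : ℕ), 0 < C ∧ ∀ (T H U V K : ℝ) (ρ : Measure ℝ), 10 ≤ T → 1 ≤ H → H ≤ T →
    1 ≤ U → U ≤ T → T ≤ H * U → 0 < V → 0 ≤ K → Mc T (T + H) K ρ →
    ρ (Gu U V)ᶜ ≤ ENNReal.ofReal (C * K * H * Real.log T ^ A / V) ∧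
    (T ^ (1 / 2 : ℝ) ≤ U → ∀ t ∈ Icc T (T + H), ∫ u in t..(t + U), ‖z u‖ ^ 2 ≤ C * U * Real.log T ^ A) := by
  obtain ⟨C2, A2, hC2, h2⟩ := t_REG hS
  obtain ⟨C, A, hC, hM⟩ := hS
  set B := max A A2 with hB
  refine ⟨3 * C2 + 12 * C, B, by positivity, ?_⟩
  intro T H U V K ρ hT hH hHT hU hUT hHU hV hK hρ
  have hT0 : 0 < T := by linarith
  have hU0 : 0 < U := by linarith
  have hH0 : 0 < H := by linarith
  have hL : 1 ≤ Real.log T := by
    rw [Real.le_log_iff_exp_le hT0]
    have := Real.exp_one_lt_d9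
    linarith
  set L := Real.log T with hLd
  have hLA : L ^ A ≤ L ^ B := pow_le_pow_right₀ hL (le_max_left _ _)
  have hLA2 : L ^ A2 ≤ L ^ B := pow_le_pow_right₀ hL (le_max_right _ _)
  have hLA0 : 0 ≤ L ^ A := by positivity
  have hLA20 : 0 ≤ L ^ A2 := by positivity
  have := hρ.fin hK (by linarith)
  have hGm := Gu_meas U V
  obtain ⟨-, r2⟩ := h2 T H U V (by linarith) hH hHT hU hUT hHU hV
  have hwin : T ^ (1 / 2 : ℝ) ≤ U → ∀ t ∈ Icc T (T + H), ∫ u in t..(t + U), ‖z u‖ ^ 2 ≤ C2 * U * L ^ B :=
    fun hTU t ht => (r2 hTU t ht).trans (by gcongr)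
  refine ⟨?_, fun hTU t ht => (hwin hTU t ht).trans (by gcongr; linarith)⟩
  have hres : ρ (Gu U V)ᶜ = ρ ((Gu U V)ᶜ ∩ Icc T (T + H)) := by
    refine measure_congr ?_
    filter_upwards [hρ.ae] with t ht
    exact propext ⟨fun h => ⟨h, ht⟩, fun h => h.1⟩
  rcases le_or_gt (T ^ (1 / 2 : ℝ)) U with hcase | hcase
  · -- no irregular points
    rcases le_or_gt (C2 * L ^ B) V with hV2 | hV2
    · have hemp : (Gu U V)ᶜ ∩ Icc T (T + H) = ∅ := by
        ext t
        simp only [mem_inter_iff, mem_compl_iff, mem_empty_iff_false, iff_false, not_and]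
        intro h1 h3
        apply h1
        have := hwin hcase t h3
        refine this.trans ?_
        calc C2 * U * L ^ B = U * (C2 * L ^ B) := by ring
          _ ≤ U * V := by gcongr
      rw [hres, hemp, measure_empty]
      exact zero_le
    · refine (measure_mono (subset_univ _)).trans ((hρ.mass hK (by linarith)).trans (ENNReal.ofReal_le_ofReal ?_))
      have e : T + H - T + 2 ≤ 3 * H := by linarith
      calc K * (T + H - T + 2) ≤ K * (3 * H) := by gcongr
        _ = K * (3 * H) * V / V := by field_simp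
        _ ≤ K * (3 * H) * (C2 * L ^ B) / V := by gcongr
        _ = (3 * C2) * K * H * L ^ B / V := by ring
        _ ≤ (3 * C2 + 12 * C) * K * H * L ^ B / V := by gcongr; linarith
  · have hTH : T ^ (1 / 2 : ℝ) ≤ H := by
      by_contra hlt
      push Not at hlt
      have h3 : H * U < T ^ (1 / 2 : ℝ) * T ^ (1 / 2 : ℝ) := mul_lt_mul hlt hcase.le hU0 (by positivity)
      rw [← Real.rpow_add hT0] at h3
      norm_num at h3
      linarith
    have hc : Continuous fun u => ‖z u‖ ^ 2 := z_cont.norm.pow 2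
    set g : ℝ → ℝ := fun t => ∫ u in t..(t + (U + 1)), ‖z u‖ ^ 2 with hg
    have hfi : ∀ a b : ℝ, IntervalIntegrable (fun u => ‖z u‖ ^ 2) volume a b := fun a b =>
      hc.intervalIntegrable a b
    have hgc : Continuous g := by
      have hG : Continuous fun x : ℝ => ∫ u in (0 : ℝ)..x, ‖z u‖ ^ 2 :=
        intervalIntegral.continuous_primitive (fun a b => hfi a b) 0
      have : g = fun t => (∫ u in (0 : ℝ)..(t + (U + 1)), ‖z u‖ ^ 2) - ∫ u in (0 : ℝ)..t, ‖z u‖ ^ 2 := by
        funext t
        exact (intervalIntegral.integral_interval_sub_left (hfi 0 (t + (U + 1))) (hfi 0 t)).symm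
      rw [this]
      exact (hG.comp (continuous_id.add continuous_const)).sub hG
    have hg0 : ∀ t, 0 ≤ g t := fun t =>
      intervalIntegral.integral_nonneg (by linarith) fun u _ => sq_nonneg _
    have hmean : ∫ t in Icc (T - 1) (T + H), g t ≤ (U + 1) * (6 * C * H * L ^ A) := by
      have h1 := Regaux.mean_window (fun u => ‖z u‖ ^ 2) hc (fun x => sq_nonneg _) (T - 1) (H + 1) (U + 1)
        (by linarith) (by linarith)
      have e0 : T - 1 + (H + 1) = T + H := by ring
      rw [e0] at h1
      rw [integral_Icc_eq_integral_Ioc, ← intervalIntegral.integral_of_le (by linarith)]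
      refine h1.trans (mul_le_mul_of_nonneg_left ?_ (by linarith))
      have hsq : T ^ (1 / 2 : ℝ) ≤ T / 2 := by
        rw [← Real.sqrt_eq_rpow, Real.sqrt_le_left (by positivity)]
        nlinarith
      refine (hM (T - 1) (H + 1 + (U + 1)) (by linarith) (by linarith) (by linarith)).trans ?_
      have h4 : (T - 1) ^ (1 / 2 : ℝ) ≤ T ^ (1 / 2 : ℝ) :=
        Real.rpow_le_rpow (by linarith) (by linarith) (by norm_num)
      have h5 : Real.log (T - 1) ≤ L := Real.log_le_log (by linarith) (by linarith)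
      have h6 : 0 ≤ Real.log (T - 1) := Real.log_nonneg (by linarith)
      calc C * (H + 1 + (U + 1) + (T - 1) ^ (1 / 2 : ℝ)) * Real.log (T - 1) ^ A ≤
            C * (6 * H) * L ^ A := by
            gcongr
            linarith
        _ = 6 * C * H * L ^ A := by ring
    have hmk := mul_meas_ge_le_integral_of_nonneg (μ := volume.restrict (Icc (T - 1) (T + H)))
      (Filter.Eventually.of_forall hg0) (hgc.continuousOn.integrableOn_compact isCompact_Icc) (U * V)
    set E' : Set ℝ := {t | U * V ≤ g t} ∩ Icc (T - 1) (T + H) with hE'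
    have hmeas : MeasurableSet {t | U * V ≤ g t} := (isClosed_le continuous_const hgc).measurableSet
    have hreal : (volume.restrict (Icc (T - 1) (T + H))).real {t | U * V ≤ g t} ≤
        12 * C * H * L ^ A / V := by
      rw [le_div_iff₀ hV]
      have h5 := hmk.trans hmean
      have h6 : U * ((volume.restrict (Icc (T - 1) (T + H))).real {t | U * V ≤ g t} * V)
          ≤ U * (12 * C * H * L ^ A) := by
        calc U * ((volume.restrict (Icc (T - 1) (T + H))).real {t | U * V ≤ g t} * V)
            = U * V * (volume.restrict (Icc (T - 1) (T + H))).real {t | U * V ≤ g t} := by ring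
          _ ≤ (U + 1) * (6 * C * H * L ^ A) := h5
          _ ≤ (2 * U) * (6 * C * H * L ^ A) := by gcongr; linarith
          _ = U * (12 * C * H * L ^ A) := by ring
      exact le_of_mul_le_mul_left h6 hU0
    have hvol : volume E' ≤ ENNReal.ofReal (12 * C * H * L ^ A / V) := by
      rw [hE', ← Measure.restrict_apply hmeas, ← ENNReal.ofReal_toReal (measure_ne_top _ _)]
      exact ENNReal.ofReal_le_ofReal hreal
    have hnb := nbhd hρ (E := (Gu U V)ᶜ ∩ Icc T (T + H)) (E' := E') (hGm.compl.inter measurableSet_Icc)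
      (hmeas.inter measurableSet_Icc) (by
        rintro t ⟨ht1, ht2⟩ x hx
        refine ⟨?_, by linarith [ht2.1, hx.1], by linarith [ht2.2, hx.2]⟩
        have h7 : ¬ (∫ u in t..(t + U), ‖z u‖ ^ 2) ≤ U * V := ht1
        refine (not_le.1 h7).le.trans ?_
        exact intervalIntegral.integral_mono_interval hx.2 (by linarith) (by linarith [hx.1])
          (Filter.Eventually.of_forall fun u => sq_nonneg _) (hfi _ _))
    rw [hres]
    refine hnb.trans ((mul_le_mul' le_rfl hvol).trans ?_)
    rw [← ENNReal.ofReal_mul hK]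
    refine ENNReal.ofReal_le_ofReal ?_
    calc K * (12 * C * H * L ^ A / V) = (12 * C) * K * H * L ^ A / V := by ring
      _ ≤ (3 * C2 + 12 * C) * K * H * L ^ B / V := by gcongr; linarith

end

end Pool.Agent.J4.H35.AM
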