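import Pool.Agent.J4.H35.AMe
import Pool.Agent.N879.PU.Asm3
import Pool.Agent.TH509.GS.DIAG

set_option autoImplicit false

/-! Arbitrary measures, part f: parameters, expansion of the model, the sum of the correlations. -/

namespace Pool.Agent.J4.H35.AM

open Complex Filter Topology MeasureTheory Set
open Pool.Agent.TH612.GS (z zN PN mP SN SP GM zr Sep z_cont PN_cont tup ch wt S_FL2)
open Pool.Agent.TH509.GS (integrand_eq th th_eq one_le_prod_nat norm_ch wt_bd)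
open Pool.Agent.N879.PZ (Wb)
open Pool.Agent.N879.PU

noncomputable section

/-- the parameters -/
structure Pv (k : ℕ) (C : ℝ) (B M₀ : ℕ) (T H U y : ℝ) (N : ℕ) : Prop where
  hT : 3 ≤ T
  hL : 1 ≤ Real.log T
  hH1 : 1 ≤ H
  hHT : H ≤ T
  hU1 : 1 ≤ U
  hUT : U ≤ T
  hHU : T ≤ H * U
  hy216 : 216 ≤ y
  hC : C * Real.log T ^ B ≤ y
  hM : M₀ ≤ N
  hN2 : 2 ≤ N
  hNy : y ^ (6 * k + 48) / 2 ≤ N
  hNlam : (N : ℝ) ≤ H * U / T
  hNU : (N : ℝ) ≤ U ^ (1 / 2 : ℝ)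
  hNU1 : (N : ℝ) ≤ U
  hN1 : 2 * (N : ℝ) ^ (4 * k + 2) ≤ U
  hN3 : 2 * (N : ℝ) ^ (3 * k ^ 2) ≤ U
  hN8 : (N : ℝ) ^ (-(1 / 8) : ℝ) ≤ 2 / y ^ 6
  hUy : 48 * (k : ℝ) ^ 2 * y ≤ U ^ (1 / 2 : ℝ)
  hlogN : 1 + Real.log N ≤ 2 * Real.log T
  hNle : (N : ℝ) ≤ y ^ (6 * k + 48)

lemma paramsV (k : ℕ) : ∃ δ : ℝ, 0 < δ ∧ ∀ (C : ℝ) (B M₀ : ℕ), ∃ C₀ T₀ : ℝ, ∀ T H U y : ℝ, T₀ ≤ T → 0 < H → H ≤ T →
    0 < U → U ≤ T → Real.log T ^ C₀ ≤ y → y ≤ (H * U / T) ^ δ → ∃ N : ℕ, Pv k C B M₀ T H U y N := by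
  set Q : ℕ := 6 * k + 48 with hQ
  set D : ℝ := (k:ℝ) ^ 2 + k + 1 with hD
  have hk0 : (0:ℝ) ≤ k := Nat.cast_nonneg k
  have hD1 : 1 ≤ D := by rw [hD]; nlinarith [sq_nonneg (k:ℝ)]
  have hQ0 : (0:ℝ) < Q := by rw [hQ]; push_cast; linarith
  have hQ48 : (48:ℝ) ≤ Q := by rw [hQ]; push_cast; linarith
  set δ : ℝ := 1 / (8 * D * Q) with hδ
  have hδ0 : 0 < δ := by positivity
  have hδc : δ * Q = 1 / (8 * D) := by rw [hδ]; field_simp
  have hδs : δ * Q ≤ 1 / 8 := by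
    rw [hδc, div_le_div_iff₀ (by positivity) (by norm_num)]; linarith
  have hδ384 : δ ≤ 1 / 384 := by
    have : δ * 48 ≤ 1 / 8 := (mul_le_mul_of_nonneg_left hQ48 hδ0.le).trans hδs
    linarith
  refine ⟨δ, hδ0, fun C B M₀ => ?_⟩
  -- the exponent
  set C₀ : ℝ := B + 1 with hC₀
  have hB0 : (0:ℝ) ≤ B := Nat.cast_nonneg B
  have hM0 : (0:ℝ) ≤ M₀ := Nat.cast_nonneg M₀
  refine ⟨C₀, max 3 (Real.exp (|C| + 10000 + 2 * M₀ + 48 * k ^ 2)), fun T H U y hT hH0 hHT hU0 hUT hLy0 hylam => ?_⟩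
  have hT3 : 3 ≤ T := (le_max_left _ _).trans hT
  have hT0 : 0 < T := by linarith
  have hLL : |C| + 10000 + 2 * M₀ + 48 * k ^ 2 ≤ Real.log T := by
    rw [Real.le_log_iff_exp_le hT0]
    exact (le_max_right _ _).trans hT
  have hCa : C ≤ |C| := le_abs_self C
  have hCb : 0 ≤ |C| := abs_nonneg C
  have hk2 : (0:ℝ) ≤ 48 * k ^ 2 := by positivity
  set L := Real.log T with hLdef
  have hL1 : 1 ≤ L := by linarith
  have hL0 : 0 < L := by linarith
  set lam : ℝ := H * U / T with hlam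
  have hlam0 : 0 < lam := by positivity
  have hyL : L ^ (B + 1) ≤ y := by
    calc L ^ (B + 1) = L ^ C₀ := by
          rw [hC₀, ← Real.rpow_natCast]; push_cast; rfl
      _ ≤ y := hLy0
  have hLy : L ≤ y := (le_self_pow₀ hL1 (by omega)).trans hyL
  have hy0 : 0 < y := by linarith
  have hy1 : 1 ≤ y := by linarith
  have hlam2 : 1 ≤ lam := by
    by_contra h
    push Not at h
    have := Real.rpow_lt_one hlam0.le h hδ0
    linarith
  have hHU0 : T ≤ H * U := by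
    have := hlam2
    rw [hlam, le_div_iff₀ hT0, one_mul] at this
    exact this
  have hlamU : lam ≤ U := by
    rw [hlam, div_le_iff₀ hT0, mul_comm]
    gcongr
  have hlamH : lam ≤ H := by
    rw [hlam, div_le_iff₀ hT0]
    gcongr
  have ypow : ∀ n : ℕ, y ^ n ≤ lam ^ (δ * n) := by
    intro n
    rw [Real.rpow_mul hlam0.le, Real.rpow_natCast]
    exact pow_le_pow_left₀ hy0.le hylam n
  set N : ℕ := ⌊y ^ Q⌋₊ with hN
  have hyQ : y ≤ y ^ Q := le_self_pow₀ hy1 (by omega)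
  have hNle : (N : ℝ) ≤ y ^ Q := Nat.floor_le (by positivity)
  have hNge : y ^ Q - 1 < N := by
    have := Nat.lt_floor_add_one (y ^ Q)
    linarith
  have hNhalf : y ^ Q / 2 ≤ N := by linarith
  have hN8 : (8:ℝ) ≤ N := by linarith
  have hNpow : ∀ m : ℕ, (m:ℝ) ≤ 4 * D → (N:ℝ) ^ m ≤ lam ^ (1 / 2 : ℝ) := by
    intro m hm
    calc (N:ℝ) ^ m ≤ (y ^ Q) ^ m := by gcongr
      _ ≤ lam ^ (δ * (Q * m : ℕ)) := by rw [← pow_mul]; exact ypow _
      _ ≤ lam ^ (1 / 2 : ℝ) := by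
          refine Real.rpow_le_rpow_of_exponent_le hlam2 ?_
          push_cast
          have : δ * (Q * m) = (δ * Q) * m := by ring
          rw [this, hδc, div_mul_eq_mul_div, div_le_div_iff₀ (by positivity) (by norm_num)]
          linarith
  have hyy : y * y ^ 3 ≤ lam ^ (1 / 2 : ℝ) := by
    have : y * y ^ 3 = y ^ 4 := by ring
    rw [this]
    refine (ypow 4).trans (Real.rpow_le_rpow_of_exponent_le hlam2 ?_)
    push_cast; linarith
  have hsq : lam = lam ^ (1 / 2 : ℝ) * lam ^ (1 / 2 : ℝ) := by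
    rw [← Real.rpow_add hlam0]; norm_num
  have hlh0 : 0 < lam ^ (1 / 2 : ℝ) := by positivity
  have hylh : y ≤ lam ^ (1 / 2 : ℝ) := by
    refine le_trans ?_ hyy
    have : 1 ≤ y ^ 3 := one_le_pow₀ hy1
    exact le_mul_of_one_le_right hy0.le this
  have hlh2 : 2 ≤ lam ^ (1 / 2 : ℝ) := by linarith
  have hlhlam : lam ^ (1 / 2 : ℝ) ≤ lam := by
    calc lam ^ (1 / 2 : ℝ) = lam ^ (1 / 2 : ℝ) * 1 := (mul_one _).symm
      _ ≤ lam ^ (1 / 2 : ℝ) * lam ^ (1 / 2 : ℝ) := by gcongr; linarith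
      _ = lam := hsq.symm
  have hlhU : lam ^ (1 / 2 : ℝ) ≤ U ^ (1 / 2 : ℝ) := Real.rpow_le_rpow hlam0.le hlamU (by norm_num)
  have hhalf : 2 * lam ^ (1 / 2 : ℝ) ≤ U := by
    refine le_trans ?_ hlamU
    calc 2 * lam ^ (1 / 2 : ℝ) ≤ lam ^ (1 / 2 : ℝ) * lam ^ (1 / 2 : ℝ) := by gcongr
      _ = lam := hsq.symm
  have hNp1 : (N:ℝ) ≤ lam ^ (1 / 2 : ℝ) := by
    have := hNpow 1 (by push_cast; linarith)
    rwa [pow_one] at this
  refine ⟨N, ⟨hT3, hL1, ?_, hHT, ?_, hUT, hHU0, by linarith, ?_, ?_, ?_, hNhalf, ?_, ?_, ?_, ?_, ?_,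
    ?_, ?_, ?_, hNle⟩⟩
  · linarith
  · linarith
  · calc C * L ^ B ≤ L * L ^ B := by gcongr; linarith
      _ = L ^ (B + 1) := by ring
      _ ≤ y := hyL
  · have : (M₀:ℝ) ≤ N := by linarith
    exact_mod_cast this
  · have : (2:ℝ) ≤ N := by linarith
    exact_mod_cast this
  · linarith
  · linarith
  · linarith
  · refine (mul_le_mul_of_nonneg_left (hNpow (4 * k + 2) ?_) (by norm_num)).trans hhalf
    push_cast; rw [hD]; nlinarith
  · refine (mul_le_mul_of_nonneg_left (hNpow (3 * k ^ 2) ?_) (by norm_num)).trans hhalf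
    push_cast; rw [hD]; nlinarith
  · have e3 : (y ^ Q / 2 : ℝ) ^ (-(1 / 8) : ℝ) ≤ 2 / y ^ 6 := by
      rw [Real.div_rpow (by positivity) (by norm_num), Real.rpow_neg (by positivity),
        Real.rpow_neg (by norm_num)]
      have e4 : y ^ 6 ≤ (y ^ Q : ℝ) ^ (1 / 8 : ℝ) := by
        rw [← Real.rpow_natCast y Q, ← Real.rpow_mul hy0.le, ← Real.rpow_natCast]
        refine Real.rpow_le_rpow_of_exponent_le hy1 ?_
        push_cast; linarith
      have e5 : (2:ℝ) ^ (1 / 8 : ℝ) ≤ 2 := by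
        calc (2:ℝ) ^ (1 / 8 : ℝ) ≤ 2 ^ (1:ℝ) :=
              Real.rpow_le_rpow_of_exponent_le (by norm_num) (by norm_num)
          _ = 2 := Real.rpow_one 2
      rw [div_inv_eq_mul, mul_comm, ← div_eq_mul_inv]
      gcongr
    refine le_trans ?_ e3
    exact Real.rpow_le_rpow_of_nonpos (by positivity) hNhalf (by norm_num)
  · refine le_trans ?_ hlhU
    refine le_trans ?_ hyy
    have h48 : 48 * (k:ℝ) ^ 2 ≤ y := by linarith
    have : y ≤ y ^ 3 := le_self_pow₀ hy1 (by norm_num)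
    calc 48 * (k:ℝ) ^ 2 * y ≤ y * y := mul_le_mul_of_nonneg_right h48 hy0.le
      _ ≤ y * y ^ 3 := mul_le_mul_of_nonneg_left this hy0.le
  · have hNT : (N:ℝ) ≤ T := by linarith
    have : Real.log N ≤ Real.log T := Real.log_le_log (by linarith) hNT
    linarith

variable {k : ℕ} {a b K : ℝ} {ρ : Measure ℝ}

/-- the correlation with a power of a rational number -/
def cor (ρ : Measure ℝ) (v : ℝ → ℂ) (m n : ℕ) : ℂ :=
  ∫ t, v t * cexp (I * t * ((Real.log n - Real.log m : ℝ) : ℂ)) ∂ρ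

/-- the number of factorisations -/
def dk (k n : ℕ) : ℕ := (Nat.finMulAntidiag k n).card

/-- the sum of the correlations -/
def offD (k : ℕ) (ρ : Measure ℝ) (v : ℝ → ℂ) (X : ℕ) : ℝ :=
  ∑ m ∈ Finset.Icc 1 X, ∑ n ∈ (Finset.Icc 1 X).erase m,
    (dk k m : ℝ) * dk k n / (m * n) * ‖cor ρ v m n‖ ^ 2

/-- the coefficients off the diagonal -/
def cf (k : ℕ) (ρ : Measure ℝ) (v : ℝ → ℂ) (ν : Fin k ⊕ Fin k → ℕ) : ℂ :=
  if ∏ j, ν (Sum.inl j) = ∏ j, ν (Sum.inr j) then 0 else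
    (wt ν : ℂ) * cor ρ v (∏ j, ν (Sum.inl j)) (∏ j, ν (Sum.inr j))

lemma cor_self (v : ℝ → ℂ) (m : ℕ) : cor ρ v m m = ∫ t, v t ∂ρ := by
  unfold cor
  simp

lemma expand [IsFiniteMeasure ρ] (hρ : Mc a b K ρ) {v : ℝ → ℂ} (hv : Wb a b v) (N : ℕ) (γ : Fin k ⊕ Fin k → ℝ) :
    ∫ t, v t * ∏ i, fs (PN N) i (t + γ i) ∂ρ =
      (∫ t, v t ∂ρ) * SN N γ + ∑ ν ∈ tup k N, cf k ρ v ν * ch ν γ := by
  have hpos : ∀ ν ∈ tup k N, ∀ i, 1 ≤ ν i := fun ν hν i =>
    (Finset.mem_Icc.1 (Fintype.mem_piFinset.1 hν i)).1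
  have e1 : ∫ t, v t * ∏ i, fs (PN N) i (t + γ i) ∂ρ =
      ∑ ν ∈ tup k N, (wt ν : ℂ) * ch ν γ * cor ρ v (∏ j, ν (Sum.inl j)) (∏ j, ν (Sum.inr j)) := by
    simp_rw [fs_prod, integrand_eq, Finset.mul_sum]
    rw [integral_finsetSum]
    · refine Finset.sum_congr rfl fun ν hν => ?_
      unfold cor
      rw [← integral_const_mul]
      refine integral_congr_ae (Filter.Eventually.of_forall fun t => ?_)
      simp only
      rw [← th_eq ν (hpos ν hν)]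
      ring
    · intro ν _
      exact wb_intg hρ hv (by fun_prop)
  rw [e1]
  unfold SN cf
  rw [Finset.mul_sum, ← Finset.sum_add_distrib]
  refine Finset.sum_congr rfl fun ν _ => ?_
  split_ifs with h
  · rw [h, cor_self]
    ring
  · ring

lemma cor_le [IsFiniteMeasure ρ] (hρ : Mc a b K ρ) (hK : 0 ≤ K) (hab : a ≤ b) {v : ℝ → ℂ} (hv : Wb a b v) (m n : ℕ) :
    ‖cor ρ v m n‖ ^ 2 ≤ K * (b - a + 2) * ∫ t, ‖v t‖ ^ 2 ∂ρ := by
  have h1 := cs hρ hv (wb_cont a b (g := fun t : ℝ => cexp (I * t * ((Real.log n - Real.log m : ℝ) : ℂ)))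
    (by fun_prop))
  have h2 : ∀ t : ℝ, ‖cexp (I * t * ((Real.log n - Real.log m : ℝ) : ℂ))‖ ^ 2 = 1 := by
    intro t
    have e : I * (t : ℂ) * ((Real.log n - Real.log m : ℝ) : ℂ) = ((t * (Real.log n - Real.log m) : ℝ) : ℂ) * I := by
      push_cast; ring
    rw [e, Complex.norm_exp_ofReal_mul_I, one_pow]
  simp only [h2] at h1
  rw [integral_const, smul_eq_mul, mul_one] at h1
  have h3 : ρ.real univ ≤ K * (b - a + 2) :=
    ENNReal.toReal_le_of_le_ofReal (mul_nonneg hK (by linarith)) (hρ.mass hK hab)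
  refine h1.trans ?_
  rw [mul_comm]
  exact mul_le_mul_of_nonneg_right h3 (integral_nonneg fun t => sq_nonneg _)

lemma wt_sq {ν : Fin k ⊕ Fin k → ℕ} :
    wt ν ^ 2 = (((∏ j, ν (Sum.inl j) : ℕ) : ℝ) * ((∏ j, ν (Sum.inr j) : ℕ) : ℝ))⁻¹ := by
  unfold wt
  have h0 : 0 ≤ ∏ i, (ν i : ℝ) := Finset.prod_nonneg fun _ _ => Nat.cast_nonneg _
  rw [← Real.rpow_natCast, ← Real.rpow_mul h0]
  have e : (-(1 / 2 : ℝ)) * ((2 : ℕ) : ℝ) = -1 := by norm_num
  rw [e, Real.rpow_neg_one, Fintype.prod_sum_type]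
  push_cast
  rfl

/-- the sum over the tuples -/
lemma cf_sum {N X : ℕ} (hX : N ^ k ≤ X) (v : ℝ → ℂ) :
    ∑ ν ∈ tup k N, ‖cf k ρ v ν‖ ^ 2 ≤ offD k ρ v X := by
  classical
  have hpos : ∀ ν ∈ tup k N, ∀ i, 1 ≤ ν i := fun ν hν i =>
    (Finset.mem_Icc.1 (Fintype.mem_piFinset.1 hν i)).1
  have hle : ∀ ν ∈ tup k N, ∀ i, ν i ≤ N := fun ν hν i =>
    (Finset.mem_Icc.1 (Fintype.mem_piFinset.1 hν i)).2
  set A : (Fin k ⊕ Fin k → ℕ) → ℕ := fun ν => ∏ j, ν (Sum.inl j) with hA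
  set B : (Fin k ⊕ Fin k → ℕ) → ℕ := fun ν => ∏ j, ν (Sum.inr j) with hB
  set F : ℕ → ℕ → ℝ := fun m n => ((m : ℝ) * n)⁻¹ * ‖cor ρ v m n‖ ^ 2 with hF
  have hF0 : ∀ m n, 0 ≤ F m n := fun m n => by rw [hF]; positivity
  have hAm : ∀ ν ∈ tup k N, A ν ∈ Finset.Icc 1 X := by
    intro ν hν
    rw [Finset.mem_Icc]
    refine ⟨one_le_prod_nat _ fun j => hpos ν hν _, le_trans ?_ hX⟩
    calc ∏ j : Fin k, ν (Sum.inl j) ≤ ∏ _j : Fin k, N := Finset.prod_le_prod' fun j _ => hle ν hν _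
      _ = N ^ k := by simp
  have hBm : ∀ ν ∈ tup k N, B ν ∈ Finset.Icc 1 X := by
    intro ν hν
    rw [Finset.mem_Icc]
    refine ⟨one_le_prod_nat _ fun j => hpos ν hν _, le_trans ?_ hX⟩
    calc ∏ j : Fin k, ν (Sum.inr j) ≤ ∏ _j : Fin k, N := Finset.prod_le_prod' fun j _ => hle ν hν _
      _ = N ^ k := by simp
  have e1 : ∀ ν ∈ tup k N, ‖cf k ρ v ν‖ ^ 2 =
      ∑ m ∈ Finset.Icc 1 X, ∑ n ∈ (Finset.Icc 1 X).erase m, if A ν = m ∧ B ν = n then F m n else 0 := by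
    intro ν hν
    rw [Finset.sum_eq_single (A ν)]
    · by_cases h : A ν = B ν
      · have h0 : cf k ρ v ν = 0 := by
          unfold cf
          rw [if_pos h]
        rw [h0, norm_zero, zero_pow two_ne_zero]
        symm
        refine Finset.sum_eq_zero fun n hn => ?_
        rw [if_neg]
        rintro ⟨-, h2⟩
        exact (Finset.mem_erase.1 hn).1 (h2 ▸ h.symm)
      · rw [Finset.sum_eq_single (B ν)]
        · rw [if_pos ⟨rfl, rfl⟩]
          unfold cf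
          rw [if_neg h, norm_mul, mul_pow, Complex.norm_real, Real.norm_eq_abs, sq_abs, wt_sq]
        · intro n _ hne
          rw [if_neg]
          exact fun h2 => hne h2.2.symm
        · intro hn
          exact absurd (Finset.mem_erase.2 ⟨Ne.symm h, hBm ν hν⟩) hn
    · intro m _ hne
      refine Finset.sum_eq_zero fun n _ => ?_
      rw [if_neg]
      exact fun h2 => hne h2.1.symm
    · intro hn
      exact absurd (hAm ν hν) hn
  rw [Finset.sum_congr rfl e1, Finset.sum_comm]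
  unfold offD
  refine Finset.sum_le_sum fun m hm => ?_
  rw [Finset.sum_comm]
  refine Finset.sum_le_sum fun n hn => ?_
  have hm0 : m ≠ 0 := by have := (Finset.mem_Icc.1 hm).1; omega
  have hn0 : n ≠ 0 := by have := (Finset.mem_Icc.1 (Finset.mem_of_mem_erase hn)).1; omega
  rw [← Finset.sum_filter, Finset.sum_const, nsmul_eq_mul]
  have hcard : (((tup k N).filter fun ν => A ν = m ∧ B ν = n).card : ℝ) ≤ (dk k m : ℝ) * dk k n := by
    have h1 : ((tup k N).filter fun ν => A ν = m ∧ B ν = n).card ≤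
        (Nat.finMulAntidiag k m ×ˢ Nat.finMulAntidiag k n).card := by
      refine Finset.card_le_card_of_injOn (fun ν => (fun j => ν (Sum.inl j), fun j => ν (Sum.inr j))) ?_ ?_
      · intro ν hν
        rw [Finset.mem_coe, Finset.mem_filter] at hν
        rw [Finset.mem_coe, Finset.mem_product, Nat.mem_finMulAntidiag, Nat.mem_finMulAntidiag]
        exact ⟨⟨hν.2.1, hm0⟩, hν.2.2, hn0⟩
      · intro ν _ ν' _ h
        simp only [Prod.mk.injEq] at h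
        funext i
        rcases i with j | j
        · exact congrFun h.1 j
        · exact congrFun h.2 j
    rw [Finset.card_product] at h1
    unfold dk
    exact_mod_cast h1
  calc (((tup k N).filter fun ν => A ν = m ∧ B ν = n).card : ℝ) * F m n ≤
      ((dk k m : ℝ) * dk k n) * F m n := mul_le_mul_of_nonneg_right hcard (hF0 m n)
    _ = (dk k m : ℝ) * dk k n / (m * n) * ‖cor ρ v m n‖ ^ 2 := by rw [hF]; simp only; ring

/-- the mean square of the terms off the diagonal -/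
lemma off_sq (hFL : S_FL2) [IsFiniteMeasure ρ] (hρ : Mc a b K ρ) (hK : 0 ≤ K) (hab : a ≤ b) {v : ℝ → ℂ}
    (hv : Wb a b v) {N X : ℕ} (hN : 1 ≤ N) (hX : N ^ k ≤ X) {U : ℝ} (hU : 2 * (N : ℝ) ^ (4 * k + 2) ≤ U) :
    ∫⁻ γ, ENNReal.ofReal (‖∑ ν ∈ tup k N, cf k ρ v ν * ch ν γ‖ ^ 2) ∂(mP (Fin k ⊕ Fin k) U) ≤
      ENNReal.ofReal (U ^ (2 * k) * (offD k ρ v X + 1 / N * (K * (b - a + 2) * ∫ t, ‖v t‖ ^ 2 ∂ρ))) := by
  have hN1 : (1 : ℝ) ≤ N := by exact_mod_cast hN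
  have hU0 : 0 < U := lt_of_lt_of_le (by positivity) hU
  set P := K * (b - a + 2) * ∫ t, ‖v t‖ ^ 2 ∂ρ with hP
  have hP0 : 0 ≤ P := mul_nonneg (mul_nonneg hK (by linarith)) (integral_nonneg fun t => sq_nonneg _)
  refine (hFL k N U (cf k ρ v) hN hU0).trans (ENNReal.ofReal_le_ofReal ?_)
  have h1 := cf_sum (k := k) (ρ := ρ) hX v
  have hpos : ∀ ν ∈ tup k N, ∀ i, 1 ≤ ν i := fun ν hν i =>
    (Finset.mem_Icc.1 (Fintype.mem_piFinset.1 hν i)).1
  have h2 : 2 * N * U ^ (2 * k - 1) * (∑ ν ∈ tup k N, ‖cf k ρ v ν‖) ^ 2 ≤ U ^ (2 * k) * (1 / N * P) := by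
    rcases Nat.eq_zero_or_pos k with hk | hk
    · subst hk
      have h0 : ∀ ν ∈ tup 0 N, ‖cf 0 ρ v ν‖ = 0 := by
        intro ν _
        unfold cf
        rw [if_pos (by simp), norm_zero]
      rw [Finset.sum_eq_zero h0]
      have : 0 ≤ U ^ (2 * 0) * (1 / (N : ℝ) * P) := by positivity
      simpa using this
    · have h3 : ∀ ν ∈ tup k N, ‖cf k ρ v ν‖ ≤ √P := by
        intro ν hν
        unfold cf
        split_ifs
        · rw [norm_zero]; exact Real.sqrt_nonneg _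
        · rw [norm_mul, Complex.norm_real, Real.norm_of_nonneg (wt_bd (hpos ν hν)).1]
          have h4 := cor_le hρ hK hab hv (∏ j, ν (Sum.inl j)) (∏ j, ν (Sum.inr j))
          have h5 : ‖cor ρ v (∏ j, ν (Sum.inl j)) (∏ j, ν (Sum.inr j))‖ ≤ √P := Real.le_sqrt_of_sq_le h4
          calc wt ν * ‖cor ρ v (∏ j, ν (Sum.inl j)) (∏ j, ν (Sum.inr j))‖ ≤ 1 * √P :=
                mul_le_mul (wt_bd (hpos ν hν)).2 h5 (norm_nonneg _) zero_le_one
            _ = √P := one_mul _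
      have h4 : ∑ ν ∈ tup k N, ‖cf k ρ v ν‖ ≤ (N : ℝ) ^ (2 * k) * √P := by
        refine (Finset.sum_le_sum h3).trans (le_of_eq ?_)
        rw [Finset.sum_const, nsmul_eq_mul]
        congr 1
        have : (tup k N).card = N ^ (2 * k) := by
          unfold tup
          rw [Fintype.card_piFinset]
          simp only [Nat.card_Icc, add_tsub_cancel_right, Finset.prod_const, Finset.card_univ]
          rw [card_ii]
        rw [this]
        push_cast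
        rfl
      have h5 : (∑ ν ∈ tup k N, ‖cf k ρ v ν‖) ^ 2 ≤ (N : ℝ) ^ (4 * k) * P := by
        refine (pow_le_pow_left₀ (Finset.sum_nonneg fun _ _ => norm_nonneg _) h4 2).trans (le_of_eq ?_)
        rw [mul_pow, Real.sq_sqrt hP0, ← pow_mul]
        congr 2
        ring
      have e : U ^ (2 * k) = U ^ (2 * k - 1) * U := by
        rw [← pow_succ]
        congr 1
        omega
      have hN0 : (0 : ℝ) < N := by linarith
      calc 2 * N * U ^ (2 * k - 1) * (∑ ν ∈ tup k N, ‖cf k ρ v ν‖) ^ 2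
          ≤ 2 * N * U ^ (2 * k - 1) * ((N : ℝ) ^ (4 * k) * P) := by gcongr
        _ = U ^ (2 * k - 1) * (2 * (N : ℝ) ^ (4 * k + 2)) * (1 / N * P) := by
            rw [pow_add]
            field_simp
        _ ≤ U ^ (2 * k - 1) * U * (1 / N * P) := by gcongr
        _ = U ^ (2 * k) * (1 / N * P) := by rw [e]
  calc U ^ (2 * k) * ∑ ν ∈ tup k N, ‖cf k ρ v ν‖ ^ 2 +
        2 * N * U ^ (2 * k - 1) * (∑ ν ∈ tup k N, ‖cf k ρ v ν‖) ^ 2
      ≤ U ^ (2 * k) * offD k ρ v X + U ^ (2 * k) * (1 / N * P) := by gcongr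
    _ = U ^ (2 * k) * (offD k ρ v X + 1 / N * P) := by ring

end

end Pool.Agent.J4.H35.AM
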