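import Pool.Agent.J4.H35.AMf

set_option autoImplicit false

/-! Arbitrary measures, part g: the reduction to short Dirichlet polynomials. -/

namespace Pool.Agent.J4.H35.AM

open Complex Filter Topology MeasureTheory Set
open Pool.Agent.TH612.GS (z zN PN mP SN SP GM zr Sep z_cont PN_cont tup ch wt S_FL2)
open Pool.Agent.N879.PZ (Wb)
open Pool.Agent.N879.PZ.Telcaux (mor meas_int wb_mul)
open Pool.Agent.N879.PU

noncomputable section

variable {k : ℕ} {a b K : ℝ} {ρ : Measure ℝ}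

/-- the kernel for the conjugated factors -/
lemma ker {K1 U : ℝ} {N : ℕ} (i : Fin k ⊕ Fin k)
    (h : ∀ F : ℝ → ℂ, Wb a b F →
      ∫ c in (0 : ℝ)..U, ‖∫ t, F t * (z (t + c) - PN N (t + c)) ∂ρ‖ ^ 2 ≤ K1 * ∫ t, ‖F t‖ ^ 2 ∂ρ)
    (F : ℝ → ℂ) (hF : Wb a b F) :
    ∫ c in (0 : ℝ)..U, ‖∫ t, F t * (fs z i (t + c) - fs (PN N) i (t + c)) ∂ρ‖ ^ 2 ≤
      K1 * ∫ t, ‖F t‖ ^ 2 ∂ρ := by
  cases i with
  | inl j => exact h F hF
  | inr j =>
    obtain ⟨hm, M, hM⟩ := hF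
    have hF' : Wb a b fun t => (starRingEnd ℂ) (F t) :=
      ⟨Complex.continuous_conj.measurable.comp hm, M, fun t ht => by rw [RCLike.norm_conj]; exact hM t ht⟩
    have h1 := h _ hF'
    have e1 : ∀ c : ℝ, ‖∫ t, F t * (fs z (Sum.inr j) (t + c) - fs (PN N) (Sum.inr j) (t + c)) ∂ρ‖ ^ 2 =
        ‖∫ t, (starRingEnd ℂ) (F t) * (z (t + c) - PN N (t + c)) ∂ρ‖ ^ 2 := by
      intro c
      have e2 : ∫ t, F t * (fs z (Sum.inr j) (t + c) - fs (PN N) (Sum.inr j) (t + c)) ∂ρ =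
          (starRingEnd ℂ) (∫ t, (starRingEnd ℂ) (F t) * (z (t + c) - PN N (t + c)) ∂ρ) := by
        rw [← integral_conj]
        refine integral_congr_ae (Filter.Eventually.of_forall fun t => ?_)
        simp only [map_mul, map_sub, Complex.conj_conj]
        rfl
      rw [e2, RCLike.norm_conj]
    simp only [e1]
    refine h1.trans (le_of_eq ?_)
    simp only [RCLike.norm_conj]

lemma wb_ind {v : ℝ → ℂ} (hv : Wb a b v) {G : Set ℝ} (hG : MeasurableSet G) : Wb a b (G.indicator v) := by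
  obtain ⟨hm, M, hM⟩ := hv
  refine ⟨hm.indicator hG, M, fun t ht => ?_⟩
  exact (norm_indicator_le_norm_self v t).trans (hM t ht)

lemma ind_le [IsFiniteMeasure ρ] (hρ : Mc a b K ρ) {v : ℝ → ℂ} (hv : Wb a b v) {G : Set ℝ} (hG : MeasurableSet G) :
    ∫ t, ‖G.indicator v t‖ ^ 2 ∂ρ ≤ ∫ t, ‖v t‖ ^ 2 ∂ρ := by
  refine integral_mono (wb_sqi hρ (wb_ind hv hG)) (wb_sqi hρ hv) fun t => ?_
  exact pow_le_pow_left₀ (norm_nonneg _) (norm_indicator_le_norm_self v t) 2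

/-- measurability of the integrals -/
lemma meas_fs [IsFiniteMeasure ρ] {v : ℝ → ℂ} (hv : Measurable v) {f : ℝ → ℂ} (hf : Continuous f) :
    Measurable fun γ : Fin k ⊕ Fin k → ℝ => ∫ t, v t * ∏ i, fs f i (t + γ i) ∂ρ := by
  refine meas_int ((hv.comp measurable_snd).mul (Continuous.measurable ?_))
  exact continuous_finsetProd _ fun i _ => (fs_cont hf i).comp (by fun_prop)

/-- the reduction -/
theorem red (hEM : S_EM) (hMVS : S_MVS) (hSMS : S_SMS) (hWINU : S_WINU) (k : ℕ) :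
    ∃ (Ct : ℝ) (Bt : ℕ), 0 < Ct ∧ ∀ (C : ℝ) (B M₀ : ℕ) (T H U y : ℝ) (N : ℕ) (K : ℝ) (ρ : Measure ℝ) (v : ℝ → ℂ),
    Pv k C B M₀ T H U y N → Ct ≤ C → Bt ≤ B → 0 ≤ K → Mc T (T + H) K ρ → Wb T (T + H) v →
    ρ (Gu U (y ^ 3))ᶜ ≤ ENNReal.ofReal (K * H * (1 / y)) ∧
    (T ^ (1 / 2 : ℝ) ≤ U → Icc T (T + H) ⊆ Gu U (y ^ 3)) ∧
    ∫⁻ γ, ENNReal.ofReal (‖(∫ t in Gu U (y ^ 3), v t * ∏ i, fs z i (t + γ i) ∂ρ) -
      ∫ t, v t * ∏ i, fs (PN N) i (t + γ i) ∂ρ‖ ^ 2) ∂(mP (Fin k ⊕ Fin k) U) ≤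
      ENNReal.ofReal (U ^ (2 * k) * (3 / y ^ 2) * (K * H * ∫ t, ‖v t‖ ^ 2 ∂ρ)) := by
  obtain ⟨C1, A1, hC1, h1⟩ := ku hEM hMVS
  obtain ⟨C2, A2, hC2, h2⟩ := irr hSMS
  obtain ⟨Cw, hCw, hw⟩ := hWINU
  set K1 : ℝ := 4 ^ (2 * k) * (2 * C1) with hK1
  set K2 : ℝ := C2 * (4 * Cw) ^ (2 * k) with hK2
  have hK10 : 0 < K1 := by positivity
  have hK20 : 0 < K2 := by positivity
  refine ⟨K1 + K2 + C2 + 4 * Cw, A1 + A2 + 4 * k + 2, by positivity, ?_⟩
  intro C B M₀ T H U y N K ρ v P hC hB hK hρ hv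
  have hL := P.hL
  have hT3 := P.hT
  have hTp : 0 < T := by linarith
  have hy216 := P.hy216
  have hy0 : 0 < y := by linarith
  have hy1 : 1 ≤ y := by linarith
  have hU1 := P.hU1
  have hU0 : 0 < U := by linarith
  have hH1 := P.hH1
  have hH0 : 0 < H := by linarith
  have hHT := P.hHT
  have hUT := P.hUT
  have hN2 := P.hN2
  have hN1 : 1 ≤ N := by omega
  have hN0 : (0:ℝ) < N := by exact_mod_cast (by omega : 0 < N)
  have hN1r : (1:ℝ) ≤ N := by exact_mod_cast hN1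
  have hNy := P.hNy
  have hT10 : 10 ≤ T := by
    have : y ≤ y ^ (6 * k + 48) := le_self_pow₀ hy1 (by omega)
    linarith [P.hNU1]
  set L := Real.log T with hLdef
  have hL0 : 0 < L := by linarith
  have cst : ∀ (c : ℝ) (m : ℕ), 0 ≤ c → c ≤ K1 + K2 + C2 + 4 * Cw → m ≤ A1 + A2 + 4 * k + 2 → c * L ^ m ≤ y := by
    intro c m hc0 hc hm
    refine le_trans ?_ P.hC
    have : L ^ m ≤ L ^ B := pow_le_pow_right₀ hL (by omega)
    have h3 : c ≤ C := hc.trans hC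
    exact mul_le_mul h3 this (by positivity) (hc0.trans h3)
  have c1 : K1 * L ^ A1 ≤ y := cst K1 _ hK10.le (by linarith) (by omega)
  have c2 : K2 * L ^ (A2 + 4 * k) ≤ y := cst K2 _ hK20.le (by linarith) (by omega)
  have c2' : C2 * L ^ A2 ≤ y := cst C2 _ hC2.le (by linarith) (by omega)
  have cw : 4 * Cw * L ^ 2 ≤ y := cst (4 * Cw) _ (by positivity) (by linarith) (by omega)
  set V : ℝ := y ^ 3 with hV
  have hV0 : 0 < V := by positivity
  have hyV : y ≤ V := le_self_pow₀ hy1 (by norm_num)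
  obtain ⟨r1, r2⟩ := h2 T H U V K ρ hT10 hH1 hHT hU1 hUT P.hHU hV0 hK hρ
  have := hρ.fin hK (by linarith)
  have hGm : MeasurableSet (Gu U V) := Gu_meas U V
  -- windows of the model
  set W2 : ℝ := 4 * Cw * L ^ 2 with hW2
  have hW20 : 0 ≤ W2 := by positivity
  have hlogN0 : 0 ≤ Real.log N := Real.log_nonneg hN1r
  have hwin : ∀ t : ℝ, ∫ c in (0 : ℝ)..U, ‖PN N (t + c)‖ ^ 2 ≤ U * W2 := by
    intro t
    refine (hw U t N hU1 hN1 P.hNU1).trans ?_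
    have e : (1 + Real.log N) ^ 2 ≤ (2 * L) ^ 2 := pow_le_pow_left₀ (by linarith) P.hlogN 2
    calc Cw * U * (1 + Real.log N) ^ 2 ≤ Cw * U * (2 * L) ^ 2 := by gcongr
      _ = U * W2 := by rw [hW2]; ring
  have hwinV : ∀ t : ℝ, ∫ c in (0 : ℝ)..U, ‖PN N (t + c)‖ ^ 2 ≤ U * V := fun t =>
    (hwin t).trans (by gcongr; exact cw.trans hyV)
  have hS0 : 0 ≤ ∫ t, ‖v t‖ ^ 2 ∂ρ := integral_nonneg fun t => sq_nonneg _
  refine ⟨r1.trans (ENNReal.ofReal_le_ofReal ?_), ?_, ?_⟩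
  · calc C2 * K * H * L ^ A2 / V = (C2 * L ^ A2) * (K * H) / y ^ 3 := by rw [hV]; ring
      _ ≤ y * (K * H) / y ^ 3 := by gcongr
      _ = K * H * (1 / y) * (1 / y) := by field_simp
      _ ≤ K * H * (1 / y) * 1 := by
          gcongr
          rw [div_le_one hy0]; exact hy1
      _ = K * H * (1 / y) := mul_one _
  · intro hUh t ht
    have := r2 hUh t ht
    refine this.trans ?_
    calc C2 * U * L ^ A2 = U * (C2 * L ^ A2) := by ring
      _ ≤ U * V := by gcongr; exact c2'.trans hyV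
  -- the two parts
  set Q : ℝ := K * H * ∫ t, ‖v t‖ ^ 2 ∂ρ with hQ
  have hQ0 : 0 ≤ Q := by positivity
  set vG : ℝ → ℂ := (Gu U V).indicator v with hvG
  set vI : ℝ → ℂ := (Gu U V)ᶜ.indicator v with hvI
  have bG : Wb T (T + H) vG := wb_ind hv hGm
  have bI : Wb T (T + H) vI := wb_ind hv hGm.compl
  set I1 : (Fin k ⊕ Fin k → ℝ) → ℂ := fun γ =>
    ∫ t, vG t * (∏ i, fs z i (t + γ i) - ∏ i, fs (PN N) i (t + γ i)) ∂ρ with hI1
  set I2 : (Fin k ⊕ Fin k → ℝ) → ℂ := fun γ => ∫ t, vI t * ∏ i, fs (PN N) i (t + γ i) ∂ρ with hI2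
  have cfs : ∀ {f : ℝ → ℂ}, Continuous f → ∀ γ : Fin k ⊕ Fin k → ℝ,
      Continuous fun t : ℝ => ∏ i, fs f i (t + γ i) := fun hf γ =>
    continuous_finsetProd _ fun i _ => (fs_cont hf i).comp (by fun_prop)
  have hdec : ∀ γ : Fin k ⊕ Fin k → ℝ, (∫ t in Gu U V, v t * ∏ i, fs z i (t + γ i) ∂ρ) -
      ∫ t, v t * ∏ i, fs (PN N) i (t + γ i) ∂ρ = I1 γ - I2 γ := by
    intro γ
    have i1 := wb_intg hρ bG (cfs z_cont γ)
    have i2 := wb_intg hρ bG (cfs (PN_cont N) γ)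
    have i3 := wb_intg hρ bI (cfs (PN_cont N) γ)
    have e1 : ∫ t in Gu U V, v t * ∏ i, fs z i (t + γ i) ∂ρ = ∫ t, vG t * ∏ i, fs z i (t + γ i) ∂ρ := by
      rw [← integral_indicator hGm]
      refine integral_congr_ae (Filter.Eventually.of_forall fun t => ?_)
      simp only
      rw [hvG]
      by_cases htG : t ∈ Gu U V
      · rw [indicator_of_mem htG, indicator_of_mem htG]
      · rw [indicator_of_notMem htG, indicator_of_notMem htG, zero_mul]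
    have e2 : ∫ t, v t * ∏ i, fs (PN N) i (t + γ i) ∂ρ =
        (∫ t, vG t * ∏ i, fs (PN N) i (t + γ i) ∂ρ) + ∫ t, vI t * ∏ i, fs (PN N) i (t + γ i) ∂ρ := by
      rw [← integral_add i2 i3]
      refine integral_congr_ae (Filter.Eventually.of_forall fun t => ?_)
      simp only
      rw [← add_mul, hvG, hvI]
      congr 1
      exact (congrFun (Set.indicator_self_add_compl (Gu U V) v) t).symm
    rw [e1, e2, hI1, hI2]
    simp only [mul_sub]
    rw [integral_sub i1 i2]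
    ring
  have m1 : Measurable I1 := by
    rw [hI1]
    refine meas_int ((bG.1.comp measurable_snd).mul (Continuous.measurable ?_))
    refine Continuous.sub ?_ ?_
    · exact continuous_finsetProd _ fun i _ => (fs_cont z_cont i).comp (by fun_prop)
    · exact continuous_finsetProd _ fun i _ => (fs_cont (PN_cont N) i).comp (by fun_prop)
  have b1 : ∫⁻ γ, ENNReal.ofReal (‖I1 γ‖ ^ 2) ∂(mP (Fin k ⊕ Fin k) U) ≤
      ENNReal.ofReal (U ^ (2 * k) * (2 / y ^ 50) * Q) := by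
    rcases Nat.eq_zero_or_pos k with hk | hk
    · subst hk
      have h0 : ∀ γ : Fin 0 ⊕ Fin 0 → ℝ, I1 γ = 0 := by
        intro γ
        rw [hI1]
        simp
      simp [h0]
    · have ht := telu (G := Gu U V) (U := U) (K := C1 * K * L ^ A1 * (H * U / N + T)) (W := U * V) (Fin k ⊕ Fin k)
        hρ (by linarith) hU0 (by positivity) (by positivity) (fun i => fs z i) (fun i => fs (PN N) i)
        (fun i => fs_cont z_cont i) (fun i => fs_cont (PN_cont N) i)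
        (fun i F hF => ker i (fun F hF => h1 T H U K N ρ F hT3 hH1 hHT hU1 hUT hN1 (P.hNU1.trans hUT) hK hρ hF) F hF)
        (fun i t ht _ => win_z ht i) (fun i t _ _ => by simp only [fs_norm]; exact hwinV t) bG
        (fun t ht => indicator_of_notMem ht _)
      rw [card_ii] at ht
      refine ht.trans (ENNReal.ofReal_le_ofReal ?_)
      have hT' : T ≤ H * U / N := by
        rw [le_div_iff₀ hN0]
        have := P.hNlam
        rw [le_div_iff₀ hTp] at this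
        linarith
      have hNinv : 1 / (N:ℝ) ≤ 2 / y ^ (6 * k + 48) := by
        rw [div_le_div_iff₀ hN0 (by positivity)]
        linarith
      obtain ⟨m, hm⟩ : ∃ m, 2 * k = m + 1 := ⟨2 * k - 1, by omega⟩
      have e1 : 2 * k - 1 = m := by omega
      have e2 : 6 * k = 3 * m + 3 := by omega
      rw [e1]
      have hle := ind_le hρ hv hGm
      calc 4 ^ (2 * k) * (C1 * K * L ^ A1 * (H * U / N + T)) * (U * V) ^ m * ∫ t, ‖vG t‖ ^ 2 ∂ρ
          ≤ 4 ^ (2 * k) * (C1 * K * L ^ A1 * (H * U / N + H * U / N)) * (U * V) ^ m * ∫ t, ‖v t‖ ^ 2 ∂ρ := by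
            gcongr
        _ = (K1 * L ^ A1) * U ^ (2 * k) * (1 / N) * (y ^ (3 * m)) * Q := by
            rw [hK1, mul_pow, hV, ← pow_mul, hm, pow_succ U m, hQ]
            field_simp
            ring
        _ ≤ y * U ^ (2 * k) * (2 / y ^ (6 * k + 48)) * (y ^ (3 * m)) * Q := by gcongr
        _ = U ^ (2 * k) * (2 / y ^ 50) * Q := by
            rw [e2]
            have e4 : y ^ (3 * m + 3 + 48) = y ^ (3 * m) * y ^ 51 := by rw [← pow_add]
            rw [e4]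
            field_simp
  have b2 : ∫⁻ γ, ENNReal.ofReal (‖I2 γ‖ ^ 2) ∂(mP (Fin k ⊕ Fin k) U) ≤
      ENNReal.ofReal (U ^ (2 * k) * (1 / y ^ 2) * Q) := by
    have ht := msq (G := (Gu U V)ᶜ) (U := U) (W := U * W2) (Fin k ⊕ Fin k)
      hρ hU0 (by positivity) (fun i => fs (PN N) i) (fun i => fs_cont (PN_cont N) i)
      (fun i t _ _ => by simp only [fs_norm]; exact hwin t) bI
      (fun t ht => indicator_of_notMem ht _) hGm.compl
    rw [card_ii] at ht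
    refine ht.trans (ENNReal.ofReal_le_ofReal ?_)
    have hvol : ρ.real (Gu U V)ᶜ ≤ C2 * K * H * L ^ A2 / V :=
      ENNReal.toReal_le_of_le_ofReal (by positivity) r1
    have hle := ind_le hρ hv hGm.compl
    calc ρ.real (Gu U V)ᶜ * (U * W2) ^ (2 * k) * ∫ t, ‖vI t‖ ^ 2 ∂ρ
        ≤ (C2 * K * H * L ^ A2 / V) * (U * W2) ^ (2 * k) * ∫ t, ‖v t‖ ^ 2 ∂ρ := by gcongr
      _ = (K2 * L ^ (A2 + 4 * k)) * U ^ (2 * k) * (1 / y ^ 3) * Q := by
          rw [hK2, hV, hW2, hQ, mul_pow U, mul_pow (4 * Cw), pow_add, ← pow_mul,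
            show 2 * (2 * k) = 4 * k by ring]
          field_simp
      _ ≤ y * U ^ (2 * k) * (1 / y ^ 3) * Q := by gcongr
      _ = U ^ (2 * k) * (1 / y ^ 2) * Q := by field_simp
  have hle : ∀ γ : Fin k ⊕ Fin k → ℝ, ENNReal.ofReal (‖(∫ t in Gu U V, v t * ∏ i, fs z i (t + γ i) ∂ρ) -
      ∫ t, v t * ∏ i, fs (PN N) i (t + γ i) ∂ρ‖ ^ 2) ≤
      2 * ENNReal.ofReal (‖I1 γ‖ ^ 2) + 2 * ENNReal.ofReal (‖I2 γ‖ ^ 2) := by
    intro γ
    rw [hdec γ]
    have e2 : ‖I1 γ - I2 γ‖ ^ 2 ≤ 2 * ‖I1 γ‖ ^ 2 + 2 * ‖I2 γ‖ ^ 2 := by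
      have h4 := norm_sub_le (I1 γ) (I2 γ)
      have h5 : ‖I1 γ - I2 γ‖ ^ 2 ≤ (‖I1 γ‖ + ‖I2 γ‖) ^ 2 := by gcongr
      nlinarith [sq_nonneg (‖I1 γ‖ - ‖I2 γ‖)]
    refine (ENNReal.ofReal_le_ofReal e2).trans ?_
    rw [ENNReal.ofReal_add (by positivity) (by positivity), ENNReal.ofReal_mul (by norm_num),
      ENNReal.ofReal_mul (by norm_num)]
    simp
  refine (lintegral_mono hle).trans ?_
  have hm1 : Measurable fun γ : Fin k ⊕ Fin k → ℝ => ENNReal.ofReal (‖I1 γ‖ ^ 2) := mor (m1.norm.pow_const 2)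
  have hm2 : Measurable fun γ : Fin k ⊕ Fin k → ℝ => ENNReal.ofReal (‖I2 γ‖ ^ 2) :=
    mor ((meas_fs bI.1 (PN_cont N)).norm.pow_const 2)
  rw [lintegral_add_left (hm1.const_mul 2), lintegral_const_mul _ hm1, lintegral_const_mul _ hm2]
  have e2 : (2 : ENNReal) = ENNReal.ofReal 2 := by simp
  refine (add_le_add (mul_le_mul' le_rfl b1) (mul_le_mul' le_rfl b2)).trans ?_
  rw [e2, ← ENNReal.ofReal_mul (by norm_num), ← ENNReal.ofReal_mul (by norm_num),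
    ← ENNReal.ofReal_add (by positivity) (by positivity)]
  refine ENNReal.ofReal_le_ofReal ?_
  have h50 : 2 / y ^ 50 ≤ (1 / 2) * (1 / y ^ 2) := by
    have e : y ^ 50 = y ^ 2 * y ^ 48 := by ring
    have h48 : 216 ≤ y ^ 48 := hy216.trans (le_self_pow₀ hy1 (by norm_num))
    rw [e, show (2 : ℝ) / (y ^ 2 * y ^ 48) = (2 / y ^ 48) * (1 / y ^ 2) by field_simp]
    refine mul_le_mul_of_nonneg_right ?_ (by positivity)
    rw [div_le_iff₀ (by positivity)]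
    linarith
  calc 2 * (U ^ (2 * k) * (2 / y ^ 50) * Q) + 2 * (U ^ (2 * k) * (1 / y ^ 2) * Q)
      ≤ 2 * (U ^ (2 * k) * ((1 / 2) * (1 / y ^ 2)) * Q) + 2 * (U ^ (2 * k) * (1 / y ^ 2) * Q) := by gcongr
    _ = U ^ (2 * k) * (3 / y ^ 2) * Q := by ring

end

end Pool.Agent.J4.H35.AM
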