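import Pool.Agent.J4.H35.AMg
import Pool.Agent.N879.PU.All

set_option autoImplicit false

/-! Arbitrary measures, part h: the criterion. -/

namespace Pool.Agent.J4.H35.AM

open Complex Filter Topology MeasureTheory Set
open Pool.Agent.TH612.GS (z zN PN mP SN SP GM zr Sep z_cont PN_cont tup ch wt S_FL2 SN_cont SP_cont exists_cut cheb
  GM0_cont zr_cont Sep_meas)
open Pool.Agent.N879.PZ (Wb)
open Pool.Agent.N879.PZ.Telcaux (mor meas_int wb_mul)
open Pool.Agent.N879.PU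

noncomputable section

variable {k : ℕ} {a b K : ℝ} {ρ : Measure ℝ}

/-- the diagonal sum of the model and the diagonal term of the recipe -/
theorem model (hSS : Pool.Agent.TH612.GS.S_SS) (hA4 : Pool.Agent.TH612.GS.S_A4)
    (hZM : Pool.Agent.TH612.GS.S_ZM) (hNS : Pool.Agent.TH612.GS.S_NS) (k : ℕ) :
    ∃ (Ct : ℝ) (Bt Mt : ℕ), 0 < Ct ∧ ∀ (C : ℝ) (B M₀ : ℕ) (T H U y : ℝ) (N : ℕ),
    Pv k C B M₀ T H U y N → Ct ≤ C → Bt ≤ B → Mt ≤ M₀ →
    mP (Fin k ⊕ Fin k) U {γ | 1 / (2 * y) < ‖SN N γ - zr γ‖} ≤ ENNReal.ofReal (U ^ (2 * k) / y) := by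
  obtain ⟨ψ, hψ⟩ := exists_cut
  obtain ⟨C3, hC3, h3⟩ := hSS k ψ hψ
  obtain ⟨C4, M0, hC4, hM0, h4⟩ := hA4 k ψ hψ
  obtain ⟨C5, T5, B5, hC5, hT5, h5⟩ := hZM k
  refine ⟨C3 + C4 + C5, B5 + 1, M0 + ⌈T5⌉₊, by positivity, ?_⟩
  intro C B M₀ T H U y N P hC hB hM
  have hL := P.hL
  have hT3 := P.hT
  have hTp : 0 < T := by linarith
  have hy216 := P.hy216
  have hy0 : 0 < y := by linarith
  have hy1 : 1 ≤ y := by linarith
  have hU1 := P.hU1
  have hU0 : 0 < U := by linarith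
  have hUT := P.hUT
  have hN2 := P.hN2
  have hN1 : 1 ≤ N := by omega
  have hN0 : (0:ℝ) < N := by exact_mod_cast (by omega : 0 < N)
  set L := Real.log T with hLdef
  have hL0 : 0 < L := by linarith
  have cst : ∀ (c : ℝ) (m : ℕ), 0 ≤ c → c ≤ C3 + C4 + C5 → m ≤ B5 + 1 → c * L ^ m ≤ y := by
    intro c m hc0 hc hm
    refine le_trans ?_ P.hC
    have : L ^ m ≤ L ^ B := pow_le_pow_right₀ hL (by omega)
    have h3 : c ≤ C := hc.trans hC
    exact mul_le_mul h3 this (by positivity) (hc0.trans h3)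
  have c3 : C3 ≤ y := by simpa using cst C3 0 hC3.le (by linarith) (by omega)
  have c4 : C4 ≤ y := by simpa using cst C4 0 hC4.le (by linarith) (by omega)
  have c5 : C5 * L ^ B5 ≤ y := cst C5 _ hC5.le (by linarith) (by omega)
  have hMN : M0 ≤ N := by have := P.hM; omega
  have hT5U : T5 ≤ U := by
    have a1 : T5 ≤ ⌈T5⌉₊ := Nat.le_ceil _
    have a2 : ((⌈T5⌉₊ : ℕ) : ℝ) ≤ N := by
      have := P.hM
      exact_mod_cast (by omega : ⌈T5⌉₊ ≤ N)
    linarith [P.hNU1]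
  have hyn : ∀ n : ℕ, 1 ≤ n → 216 ≤ y ^ n := fun n hn => hy216.trans (le_self_pow₀ hy1 (by omega))
  have hU2k : 0 < U ^ (2 * k) := by positivity
  set b : ℝ := U ^ (2 * k) / (6 * y) with hb
  have hb0 : 0 < b := by positivity
  have hNy := P.hNy
  have hNinv : 1 / (N:ℝ) ≤ 2 / y ^ (6 * k + 48) := by
    rw [div_le_div_iff₀ hN0 (by positivity)]
    linarith
  have hN8 := P.hN8
  have u3 : mP (Fin k ⊕ Fin k) U {γ | 1 / (6 * y) < ‖SN N γ - SP ψ N γ‖} ≤ ENNReal.ofReal b := by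
    refine (cheb (((SN_cont N).sub (SP_cont ψ N)).norm.aemeasurable) (by positivity)
      (h3 U N P.hN2 P.hN1)).trans (ENNReal.ofReal_le_ofReal ?_)
    calc C3 * U ^ (2 * k) * (N:ℝ) ^ (-(1 / 8) : ℝ) / (1 / (6 * y)) ^ 2
        ≤ y * U ^ (2 * k) * (2 / y ^ 6) / (1 / (6 * y)) ^ 2 := by gcongr
      _ = U ^ (2 * k) / (6 * y) * (432 / y ^ 2) := by field_simp; ring
      _ ≤ U ^ (2 * k) / (6 * y) * 1 := by
          gcongr
          rw [div_le_one (by positivity)]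
          nlinarith
      _ = b := by rw [mul_one]
  have u4 : mP (Fin k ⊕ Fin k) U {γ | 1 / (6 * y) < ‖SP ψ N γ - GM N γ 0‖} ≤ ENNReal.ofReal b := by
    refine (cheb (((SP_cont ψ N).sub (GM0_cont N)).norm.aemeasurable) (by positivity)
      (h4 U N hMN (by linarith) P.hN3)).trans (ENNReal.ofReal_le_ofReal ?_)
    calc C4 * U ^ (2 * k) * (N:ℝ) ^ (-(1 / 8) : ℝ) / (1 / (6 * y)) ^ 2
        ≤ y * U ^ (2 * k) * (2 / y ^ 6) / (1 / (6 * y)) ^ 2 := by gcongr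
      _ = U ^ (2 * k) / (6 * y) * (432 / y ^ 2) := by field_simp; ring
      _ ≤ U ^ (2 * k) / (6 * y) * 1 := by
          gcongr
          rw [div_le_one (by positivity)]
          nlinarith
      _ = b := by rw [mul_one]
  have u5 : mP (Fin k ⊕ Fin k) U (Sep k U ∩ {γ | 1 / (6 * y) < ‖GM N γ 0 - zr γ‖}) ≤ ENNReal.ofReal b := by
    have hm : AEMeasurable (fun γ : Fin k ⊕ Fin k → ℝ => ‖GM N γ 0 - zr γ‖)
        ((mP (Fin k ⊕ Fin k) U).restrict (Sep k U)) :=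
      (((GM0_cont N).continuousOn.sub (zr_cont (by linarith))).norm).aemeasurable (Sep_meas k U)
    have hcb := cheb hm (lam := 1 / (6 * y)) (by positivity) (h5 U N hT5U hN1 P.hNU)
    have e0 : mP (Fin k ⊕ Fin k) U (Sep k U ∩ {γ | 1 / (6 * y) < ‖GM N γ 0 - zr γ‖}) ≤
        ((mP (Fin k ⊕ Fin k) U).restrict (Sep k U)) {γ | 1 / (6 * y) < ‖GM N γ 0 - zr γ‖} := by
      rw [inter_comm]
      exact Measure.le_restrict_apply _ _
    refine e0.trans (hcb.trans (ENNReal.ofReal_le_ofReal ?_))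
    have hlU : Real.log U ≤ L := Real.log_le_log hU0 hUT
    have hlU0 : 0 ≤ Real.log U := Real.log_nonneg hU1
    calc C5 * Real.log U ^ B5 * U ^ (2 * k) / N / (1 / (6 * y)) ^ 2
        = (C5 * Real.log U ^ B5) * U ^ (2 * k) * (1 / N) * (36 * y ^ 2) := by field_simp; ring
      _ ≤ (C5 * L ^ B5) * U ^ (2 * k) * (1 / N) * (36 * y ^ 2) := by gcongr
      _ ≤ y * U ^ (2 * k) * (2 / y ^ (6 * k + 48)) * (36 * y ^ 2) := by gcongr
      _ ≤ y * U ^ (2 * k) * (2 / y ^ 48) * (36 * y ^ 2) := by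
          have : y ^ 48 ≤ y ^ (6 * k + 48) := pow_le_pow_right₀ hy1 (by omega)
          gcongr
      _ = U ^ (2 * k) / (6 * y) * (432 / y ^ 44) := by field_simp; ring
      _ ≤ U ^ (2 * k) / (6 * y) * 1 := by
          gcongr
          rw [div_le_one (by positivity)]
          have a1 := hyn 43 (by norm_num)
          calc (432:ℝ) ≤ 216 * y := by linarith
            _ ≤ y ^ 43 * y := by gcongr
            _ = y ^ 44 := by ring
      _ = b := by rw [mul_one]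
  have u8 : mP (Fin k ⊕ Fin k) U (Sep k U)ᶜ ≤ ENNReal.ofReal b := by
    refine (hNS k U (by linarith)).trans (ENNReal.ofReal_le_ofReal ?_)
    have e : U ^ (2 * k - 1 / 2 : ℝ) = U ^ (2 * k) / U ^ (1 / 2 : ℝ) := by
      rw [Real.rpow_sub hU0]
      congr 1
      rw [← Real.rpow_natCast]; push_cast; rfl
    have hUh : 0 < U ^ (1 / 2 : ℝ) := by positivity
    rw [e, hb, ← mul_div_assoc, div_le_div_iff₀ hUh (by positivity)]
    calc 8 * (k:ℝ) ^ 2 * U ^ (2 * k) * (6 * y) = (48 * (k:ℝ) ^ 2 * y) * U ^ (2 * k) := by ring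
      _ ≤ U ^ (1 / 2 : ℝ) * U ^ (2 * k) := by
          have := P.hUy
          gcongr
      _ = _ := by ring
  have hsub : {γ : Fin k ⊕ Fin k → ℝ | 1 / (2 * y) < ‖SN N γ - zr γ‖} ⊆
      ((((Sep k U)ᶜ ∪ {γ | 1 / (6 * y) < ‖SN N γ - SP ψ N γ‖}) ∪
      {γ | 1 / (6 * y) < ‖SP ψ N γ - GM N γ 0‖}) ∪ (Sep k U ∩ {γ | 1 / (6 * y) < ‖GM N γ 0 - zr γ‖})) := by
    intro γ hγ
    by_contra hcon
    simp only [mem_union, not_or, mem_ofPred_eq, not_lt, mem_compl_iff, not_not, mem_inter_iff, not_and] at hcon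
    obtain ⟨⟨⟨g1, g2⟩, g3⟩, g4⟩ := hcon
    have e : SN N γ - zr γ = (SN N γ - SP ψ N γ) + (SP ψ N γ - GM N γ 0) + (GM N γ 0 - zr γ) := by ring
    have h6 : ‖SN N γ - zr γ‖ ≤ 1 / (6 * y) + 1 / (6 * y) + 1 / (6 * y) := by
      rw [e]
      exact (norm_add_le _ _).trans (add_le_add ((norm_add_le _ _).trans (add_le_add g2 g3)) (g4 g1))
    have e2 : 1 / (6 * y) + 1 / (6 * y) + 1 / (6 * y) = 1 / (2 * y) := by
      field_simp
      norm_num
    rw [e2] at h6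
    exact absurd hγ (not_lt.mpr h6)
  have step : ∀ {A B : Set (Fin k ⊕ Fin k → ℝ)} {x z : ℝ}, 0 ≤ x → 0 ≤ z →
      mP (Fin k ⊕ Fin k) U A ≤ ENNReal.ofReal x → mP (Fin k ⊕ Fin k) U B ≤ ENNReal.ofReal z →
      mP (Fin k ⊕ Fin k) U (A ∪ B) ≤ ENNReal.ofReal (x + z) := by
    intro A B x z hx hz hA hB
    rw [ENNReal.ofReal_add hx hz]
    exact (measure_union_le _ _).trans (add_le_add hA hB)
  have tot := step (by positivity) (by positivity) (step (by positivity) (by positivity)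
    (step (by positivity) (by positivity) u8 u3) u4) u5
  refine ((measure_mono hsub).trans tot).trans (ENNReal.ofReal_le_ofReal ?_)
  rw [hb]
  have : U ^ (2 * k) / (6 * y) + U ^ (2 * k) / (6 * y) + U ^ (2 * k) / (6 * y) + U ^ (2 * k) / (6 * y) =
      (2 / 3) * (U ^ (2 * k) / y) := by
    field_simp
    norm_num
  rw [this]
  have : 0 ≤ U ^ (2 * k) / y := by positivity
  linarith

end

end Pool.Agent.J4.H35.AM
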