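import Pool.Agent.J4.H35.AMh

set_option autoImplicit false

/-! Arbitrary measures, part i: the theorem. -/

namespace Pool.Agent.J4.H35.AM

open Complex Filter Topology MeasureTheory Set
open Pool.Agent.TH612.GS (z zN PN mP SN SP GM zr Sep z_cont PN_cont tup ch wt S_FL2 SN_cont cheb)
open Pool.Agent.N879.PZ (Wb)
open Pool.Agent.N879.PZ.Telcaux (mor meas_int wb_mul)
open Pool.Agent.N879.PU

noncomputable section

variable {k : ℕ} {a b K : ℝ} {ρ : Measure ℝ}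

lemma ch_cont (ν : Fin k ⊕ Fin k → ℕ) (hν : ∀ i, 1 ≤ ν i) : Continuous fun γ : Fin k ⊕ Fin k → ℝ => ch ν γ := by
  unfold ch
  refine (continuous_finsetProd _ fun j _ => ?_).mul (continuous_finsetProd _ fun j _ => ?_)
  · have h0 : (ν (Sum.inl j) : ℂ) ≠ 0 := by
      have := hν (Sum.inl j)
      exact_mod_cast (by omega : ν (Sum.inl j) ≠ 0)
    exact Continuous.const_cpow (by fun_prop) (Or.inl h0)
  · have h0 : (ν (Sum.inr j) : ℂ) ≠ 0 := by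
      have := hν (Sum.inr j)
      exact_mod_cast (by omega : ν (Sum.inr j) ≠ 0)
    exact Continuous.const_cpow (by fun_prop) (Or.inl h0)

/-- the exceptional set -/
lemma bad {C : ℝ} {B M₀ : ℕ} {T H U y : ℝ} {N X : ℕ} {v : ℝ → ℂ} (P : Pv k C B M₀ T H U y N)
    (hy : 10 ^ 12 ≤ y) (hK : 0 ≤ K) (hρ : Mc T (T + H) K ρ) (hv : Wb T (T + H) v) (hX : N ^ k ≤ X)
    (hFL : S_FL2)
    (hred : ∫⁻ γ, ENNReal.ofReal (‖(∫ t in Gu U (y ^ 3), v t * ∏ i, fs z i (t + γ i) ∂ρ) -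
      ∫ t, v t * ∏ i, fs (PN N) i (t + γ i) ∂ρ‖ ^ 2) ∂(mP (Fin k ⊕ Fin k) U) ≤
      ENNReal.ofReal (U ^ (2 * k) * (3 / y ^ 2) * (K * H * ∫ t, ‖v t‖ ^ 2 ∂ρ)))
    (hmod : mP (Fin k ⊕ Fin k) U {γ | 1 / (2 * y) < ‖SN N γ - zr γ‖} ≤ ENNReal.ofReal (U ^ (2 * k) / y))
    {ε w : ℝ} (hw : 0 < w) (hwy : w ^ 4 = y) (hε : 1 ≤ ε * w)
    (hD : 100 * offD k ρ v X ≤ ε ^ 3 * (K * H * ∫ t, ‖v t‖ ^ 2 ∂ρ)) :
    mP (Fin k ⊕ Fin k) U {γ | ε * √(K * H * ∫ t, ‖v t‖ ^ 2 ∂ρ) <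
      ‖(∫ t in Gu U (y ^ 3), v t * ∏ i, fs z i (t + γ i) ∂ρ) - (∫ t, v t ∂ρ) * zr γ‖} ≤
      ENNReal.ofReal (ε * U ^ (2 * k)) := by
  have hy0 : 0 < y := by linarith
  have hT3 := P.hT
  have hH1 := P.hH1
  have hU1 := P.hU1
  have hU0 : 0 < U := by linarith
  have hN1 : 1 ≤ N := by have := P.hN2; omega
  have hN0 : (0:ℝ) < N := by exact_mod_cast (by omega : 0 < N)
  have hfin := hρ.fin hK (by linarith)
  have hS0 : 0 ≤ ∫ t, ‖v t‖ ^ 2 ∂ρ := integral_nonneg fun t => sq_nonneg _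
  set S := ∫ t, ‖v t‖ ^ 2 ∂ρ with hS
  set Q : ℝ := K * H * S with hQ
  have hQ0 : 0 ≤ Q := by positivity
  have hε0 : 0 < ε := by
    by_contra h
    push Not at h
    have : ε * w ≤ 0 := mul_nonpos_of_nonpos_of_nonneg h hw.le
    linarith
  have hGm : MeasurableSet (Gu U (y ^ 3)) := Gu_meas U _
  rcases hQ0.eq_or_lt with hQz | hQp
  · -- the weight vanishes
    have hSz : S = 0 := by
      rcases (mul_eq_zero.1 hQz.symm) with h | h
      · rcases mul_eq_zero.1 h with h | h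
        · have h1 := hρ.mass hK (by linarith)
          rw [h, zero_mul, ENNReal.ofReal_zero, nonpos_iff_eq_zero, Measure.measure_univ_eq_zero] at h1
          rw [hS, h1, integral_zero_measure]
        · exact absurd h (by linarith)
      · exact h
    have hae : ∀ᵐ t ∂ρ, v t = 0 := by
      have h1 := (integral_eq_zero_iff_of_nonneg (fun t => sq_nonneg ‖v t‖) (wb_sqi hρ hv)).1 hSz
      filter_upwards [h1] with t ht
      simpa using ht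
    have h2 : ∫ t, v t ∂ρ = 0 := by
      rw [← integral_zero ℝ ℂ (μ := ρ)]
      exact integral_congr_ae hae
    have h3 : ∀ γ : Fin k ⊕ Fin k → ℝ, ∫ t in Gu U (y ^ 3), v t * ∏ i, fs z i (t + γ i) ∂ρ = 0 := by
      intro γ
      rw [← integral_zero ℝ ℂ (μ := ρ.restrict (Gu U (y ^ 3)))]
      refine integral_congr_ae (ae_restrict_of_ae ?_)
      filter_upwards [hae] with t ht
      rw [ht, zero_mul]
    have hemp : {γ : Fin k ⊕ Fin k → ℝ | ε * √Q <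
        ‖(∫ t in Gu U (y ^ 3), v t * ∏ i, fs z i (t + γ i) ∂ρ) - (∫ t, v t ∂ρ) * zr γ‖} = ∅ := by
      ext γ
      simp only [mem_ofPred_eq, mem_empty_iff_false, iff_false, not_lt, h2, h3, zero_mul, sub_zero, norm_zero]
      positivity
    rw [hemp, measure_empty]
    exact zero_le
  have hsQ : 0 < √Q := Real.sqrt_pos.2 hQp
  have hsQ2 : √Q ^ 2 = Q := Real.sq_sqrt hQ0
  have hw3 : 1000 ≤ w := by
    by_contra h
    push Not at h
    have h1 : w ^ 4 < 1000 ^ 4 := by gcongr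
    rw [hwy] at h1
    norm_num at h1
    linarith
  have hw1 : 1 ≤ w := by linarith
  have hU2k : 0 < U ^ (2 * k) := by positivity
  set lam : ℝ := ε / 4 * √Q with hlam
  have hlam0 : 0 < lam := by positivity
  have hlam2 : lam ^ 2 = ε ^ 2 * Q / 16 := by rw [hlam, mul_pow, hsQ2]; ring
  -- powers
  have p1 : ∀ n : ℕ, 1 ≤ n → 1000 ≤ w ^ n := fun n hn => hw3.trans (le_self_pow₀ hw1 (by omega))
  have hεw3 : 1 ≤ (ε * w) ^ 3 := one_le_pow₀ hε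
  have q1 : 480 ≤ y ^ 2 * ε ^ 3 := by
    have e : y ^ 2 * ε ^ 3 = w ^ 5 * (ε * w) ^ 3 := by rw [← hwy]; ring
    rw [e]
    calc (480 : ℝ) ≤ w ^ 5 * 1 := by linarith [p1 5 (by norm_num)]
      _ ≤ w ^ 5 * (ε * w) ^ 3 := by gcongr
  have q2 : 480 ≤ y * ε ^ 3 := by
    have e : y * ε ^ 3 = w * (ε * w) ^ 3 := by rw [← hwy]; ring
    rw [e]
    calc (480 : ℝ) ≤ w * 1 := by linarith
      _ ≤ w * (ε * w) ^ 3 := by gcongr
  have q3 : 1000 ≤ y * ε := by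
    have e : y * ε = w ^ 3 * (ε * w) := by rw [← hwy]; ring
    rw [e]
    calc (1000 : ℝ) ≤ w ^ 3 * 1 := by linarith [p1 3 (by norm_num)]
      _ ≤ w ^ 3 * (ε * w) := by gcongr
  have hyN : y ≤ N := by
    refine le_trans ?_ P.hNy
    have hy1 : 1 ≤ y := by linarith
    have : y ^ 2 ≤ y ^ (6 * k + 48) := pow_le_pow_right₀ hy1 (by omega)
    have : y * 2 ≤ y ^ 2 := by nlinarith
    linarith
  -- the three sets
  have cfsm : Measurable fun γ : Fin k ⊕ Fin k → ℝ => (∫ t in Gu U (y ^ 3), v t * ∏ i, fs z i (t + γ i) ∂ρ) -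
      ∫ t, v t * ∏ i, fs (PN N) i (t + γ i) ∂ρ :=
    (meas_fs hv.1 z_cont).sub (meas_fs hv.1 (PN_cont N))
  have s1 : mP (Fin k ⊕ Fin k) U {γ | lam < ‖(∫ t in Gu U (y ^ 3), v t * ∏ i, fs z i (t + γ i) ∂ρ) -
      ∫ t, v t * ∏ i, fs (PN N) i (t + γ i) ∂ρ‖} ≤ ENNReal.ofReal (ε * U ^ (2 * k) / 10) := by
    refine (cheb cfsm.norm.aemeasurable hlam0 hred).trans (ENNReal.ofReal_le_ofReal ?_)
    rw [hlam2]
    calc U ^ (2 * k) * (3 / y ^ 2) * Q / (ε ^ 2 * Q / 16) = ε * U ^ (2 * k) * (48 / (y ^ 2 * ε ^ 3)) := by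
          field_simp
          norm_num
      _ ≤ ε * U ^ (2 * k) * (1 / 10) := by
          refine mul_le_mul_of_nonneg_left ?_ (by positivity)
          rw [div_le_div_iff₀ (by positivity) (by norm_num)]
          linarith
      _ = ε * U ^ (2 * k) / 10 := by ring
  have s2 : mP (Fin k ⊕ Fin k) U {γ | lam < ‖∑ ν ∈ tup k N, cf k ρ v ν * ch ν γ‖} ≤
      ENNReal.ofReal (3 * (ε * U ^ (2 * k)) / 10) := by
    have hoff := off_sq hFL hρ hK (by linarith) hv hN1 hX P.hN1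
    have hm : Continuous fun γ : Fin k ⊕ Fin k → ℝ => ∑ ν ∈ tup k N, cf k ρ v ν * ch ν γ := by
      refine continuous_finsetSum _ fun ν hν => continuous_const.mul (ch_cont ν fun i => ?_)
      exact (Finset.mem_Icc.1 (Fintype.mem_piFinset.1 hν i)).1
    refine (cheb hm.norm.aemeasurable hlam0 hoff).trans (ENNReal.ofReal_le_ofReal ?_)
    rw [hlam2]
    have e1 : K * (T + H - T + 2) * S ≤ 3 * Q := by
      have : T + H - T + 2 ≤ 3 * H := by linarith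
      calc K * (T + H - T + 2) * S ≤ K * (3 * H) * S := by gcongr
        _ = 3 * Q := by rw [hQ]; ring
    have e0 : 0 ≤ K * (T + H - T + 2) * S := by
      have : 0 ≤ T + H - T + 2 := by linarith
      positivity
    have e2 : 1 / (N : ℝ) * (K * (T + H - T + 2) * S) ≤ 1 / y * (3 * Q) :=
      mul_le_mul (one_div_le_one_div_of_le hy0 hyN) e1 e0 (by positivity)
    calc U ^ (2 * k) * (offD k ρ v X + 1 / N * (K * (T + H - T + 2) * S)) / (ε ^ 2 * Q / 16)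
        ≤ U ^ (2 * k) * (ε ^ 3 * Q / 100 + 1 / y * (3 * Q)) / (ε ^ 2 * Q / 16) := by
          refine div_le_div_of_nonneg_right (mul_le_mul_of_nonneg_left (add_le_add ?_ e2) hU2k.le) (by positivity)
          linarith
      _ = ε * U ^ (2 * k) * (16 / 100 + 48 / (y * ε ^ 3)) := by
          field_simp
          ring
      _ ≤ ε * U ^ (2 * k) * (16 / 100 + 1 / 10) := by
          refine mul_le_mul_of_nonneg_left (add_le_add le_rfl ?_) (by positivity)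
          rw [div_le_div_iff₀ (by positivity) (by norm_num)]
          linarith
      _ ≤ 3 * (ε * U ^ (2 * k)) / 10 := by
          have : 0 < ε * U ^ (2 * k) := by positivity
          linarith
  have s3 : mP (Fin k ⊕ Fin k) U {γ | 1 / (2 * y) < ‖SN N γ - zr γ‖} ≤ ENNReal.ofReal (ε * U ^ (2 * k) / 10) := by
    refine hmod.trans (ENNReal.ofReal_le_ofReal ?_)
    rw [div_le_div_iff₀ hy0 (by norm_num)]
    calc U ^ (2 * k) * 10 ≤ U ^ (2 * k) * (y * ε) := by gcongr; linarith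
      _ = ε * U ^ (2 * k) * y := by ring
  have hsub : {γ : Fin k ⊕ Fin k → ℝ | ε * √Q <
      ‖(∫ t in Gu U (y ^ 3), v t * ∏ i, fs z i (t + γ i) ∂ρ) - (∫ t, v t ∂ρ) * zr γ‖} ⊆
      ({γ | lam < ‖(∫ t in Gu U (y ^ 3), v t * ∏ i, fs z i (t + γ i) ∂ρ) -
        ∫ t, v t * ∏ i, fs (PN N) i (t + γ i) ∂ρ‖} ∪ {γ | lam < ‖∑ ν ∈ tup k N, cf k ρ v ν * ch ν γ‖}) ∪
      {γ | 1 / (2 * y) < ‖SN N γ - zr γ‖} := by
    intro γ hγ
    by_contra hcon
    simp only [mem_union, not_or, mem_ofPred_eq, not_lt] at hcon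
    obtain ⟨⟨g1, g2⟩, g3⟩ := hcon
    have e : (∫ t in Gu U (y ^ 3), v t * ∏ i, fs z i (t + γ i) ∂ρ) - (∫ t, v t ∂ρ) * zr γ =
        ((∫ t in Gu U (y ^ 3), v t * ∏ i, fs z i (t + γ i) ∂ρ) - ∫ t, v t * ∏ i, fs (PN N) i (t + γ i) ∂ρ) +
        (∑ ν ∈ tup k N, cf k ρ v ν * ch ν γ) + (∫ t, v t ∂ρ) * (SN N γ - zr γ) := by
      rw [expand hρ hv N γ]
      ring
    have h6 : ‖(∫ t, v t ∂ρ) * (SN N γ - zr γ)‖ ≤ ε / 2 * √Q := by
      rw [norm_mul]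
      have h7 := cor_le hρ hK (by linarith : T ≤ T + H) hv 1 1
      rw [cor_self] at h7
      have h8 : ‖∫ t, v t ∂ρ‖ ^ 2 ≤ (2 * √Q) ^ 2 := by
        rw [mul_pow, hsQ2]
        refine h7.trans ?_
        have : T + H - T + 2 ≤ 3 * H := by linarith
        calc K * (T + H - T + 2) * S ≤ K * (3 * H) * S := by gcongr
          _ = 3 * Q := by rw [hQ]; ring
          _ ≤ 2 ^ 2 * Q := by linarith
      have h9 : ‖∫ t, v t ∂ρ‖ ≤ 2 * √Q := (pow_le_pow_iff_left₀ (norm_nonneg _) (by positivity) two_ne_zero).1 h8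
      calc ‖∫ t, v t ∂ρ‖ * ‖SN N γ - zr γ‖ ≤ (2 * √Q) * (1 / (2 * y)) := by gcongr
        _ = 1 / y * √Q := by field_simp
        _ ≤ ε / 2 * √Q := by
            refine mul_le_mul_of_nonneg_right ?_ hsQ.le
            rw [div_le_div_iff₀ hy0 (by norm_num)]
            linarith
    have h7 : ‖(∫ t in Gu U (y ^ 3), v t * ∏ i, fs z i (t + γ i) ∂ρ) - (∫ t, v t ∂ρ) * zr γ‖ ≤ ε * √Q := by
      rw [e]
      refine (norm_add_le _ _).trans ((add_le_add ((norm_add_le _ _).trans (add_le_add g1 g2)) h6).trans (le_of_eq ?_))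
      rw [hlam]
      ring
    exact absurd hγ (not_lt.mpr h7)
  have step : ∀ {A B : Set (Fin k ⊕ Fin k → ℝ)} {x z : ℝ}, 0 ≤ x → 0 ≤ z →
      mP (Fin k ⊕ Fin k) U A ≤ ENNReal.ofReal x → mP (Fin k ⊕ Fin k) U B ≤ ENNReal.ofReal z →
      mP (Fin k ⊕ Fin k) U (A ∪ B) ≤ ENNReal.ofReal (x + z) := by
    intro A B x z hx hz hA hB
    rw [ENNReal.ofReal_add hx hz]
    exact (measure_union_le _ _).trans (add_le_add hA hB)
  have tot := step (by positivity) (by positivity) (step (by positivity) (by positivity) s1 s2) s3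
  refine ((measure_mono hsub).trans tot).trans (ENNReal.ofReal_le_ofReal ?_)
  have : 0 < ε * U ^ (2 * k) := by positivity
  linarith

/-- the theorem -/
theorem main (k : ℕ) : ∃ δ C₀ T₀ : ℝ, 0 < δ ∧ ∀ T H U K y : ℝ, T₀ ≤ T → 0 < H → H ≤ T → 0 < U →
    U ≤ T → Real.log T ^ C₀ ≤ y → y ≤ (H * U / T) ^ δ → 0 ≤ K → ∀ ρ : Measure ℝ, Mc T (T + H) K ρ →
    (ρ (Gu U (y ^ 3))ᶜ ≤ ENNReal.ofReal (K * H / y) ∧
      (T ^ (1 / 2 : ℝ) ≤ U → ρ (Gu U (y ^ 3))ᶜ = 0)) ∧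
    ∀ v : ℝ → ℂ, Wb T (T + H) v →
    (∃ N : ℕ, y ≤ N ∧ (N : ℝ) ≤ y ^ (6 * k + 48) ∧
      ∫⁻ γ, ENNReal.ofReal (‖(∫ t in Gu U (y ^ 3), v t * ∏ i, fs z i (t + γ i) ∂ρ) -
        ∫ t, v t * ∏ i, fs (PN N) i (t + γ i) ∂ρ‖ ^ 2) ∂(mP (Fin k ⊕ Fin k) U) ≤
        ENNReal.ofReal (U ^ (2 * k) / y * (K * H * ∫ t, ‖v t‖ ^ 2 ∂ρ))) ∧
    ∀ ε : ℝ, 1 ≤ y * ε ^ 4 → 0 < ε →
      100 * offD k ρ v ⌊y ^ (k * (6 * k + 48))⌋₊ ≤ ε ^ 3 * (K * H * ∫ t, ‖v t‖ ^ 2 ∂ρ) →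
      mP (Fin k ⊕ Fin k) U {γ | ε * √(K * H * ∫ t, ‖v t‖ ^ 2 ∂ρ) <
        ‖(∫ t in Gu U (y ^ 3), v t * ∏ i, fs z i (t + γ i) ∂ρ) - (∫ t, v t ∂ρ) * zr γ‖} ≤
        ENNReal.ofReal (ε * U ^ (2 * k)) := by
  obtain ⟨C1, B1, hC1, h1⟩ := red t_EM t_MVS t_SMS (t_WINU t_MVS) k
  obtain ⟨C2, B2, M2, hC2, h2⟩ := model (Pool.Agent.TH367.GS.t_SS Pool.Agent.TH448.GS.t_FL2)
    (Pool.Agent.TH347.GS.t_A4 Pool.Agent.TH757.GS.t_CONT (Pool.Agent.TH753.GS.t_GL2 Pool.Agent.TH448.GS.t_FL2))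
    (Pool.Agent.TH228.GS.t_ZM (Pool.Agent.TH811.GS.t_ONE Pool.Agent.TH928.GS.t_MV)) Pool.Agent.TH767.GS.t_NS k
  obtain ⟨δ, hδ, hpar⟩ := paramsV k
  obtain ⟨C₀, T₀, hT₀⟩ := hpar (C1 + C2 + 10 ^ 12) (B1 + B2) M2
  refine ⟨δ, C₀, T₀, hδ, ?_⟩
  intro T H U K y hT hH0 hHT hU0 hUT hLy hyl hK ρ hρ
  obtain ⟨N, P⟩ := hT₀ T H U y hT hH0 hHT hU0 hUT hLy hyl
  have hL := P.hL
  have hT3 := P.hT
  have hy216 := P.hy216
  have hy0 : 0 < y := by linarith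
  have hy1 : 1 ≤ y := by linarith
  have hy12 : 10 ^ 12 ≤ y := by
    refine le_trans ?_ P.hC
    have : (1 : ℝ) ≤ Real.log T ^ (B1 + B2) := one_le_pow₀ hL
    calc (10 : ℝ) ^ 12 = 10 ^ 12 * 1 := (mul_one _).symm
      _ ≤ (C1 + C2 + 10 ^ 12) * Real.log T ^ (B1 + B2) := by
          refine mul_le_mul (by linarith) this (by norm_num) (by positivity)
  obtain ⟨r1, r2, -⟩ := h1 _ _ _ T H U y N K ρ (fun _ => 0) P (by linarith) (by omega) hK hρ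
    ⟨measurable_const, 0, fun t _ => by simp⟩
  refine ⟨⟨r1.trans (ENNReal.ofReal_le_ofReal (le_of_eq (by ring))), fun hUh => ?_⟩, fun v hv => ?_⟩
  · have h3 := r2 hUh
    refine measure_mono_null ?_ hρ.supp
    exact compl_subset_compl.2 h3
  · obtain ⟨-, -, r3⟩ := h1 _ _ _ T H U y N K ρ v P (by linarith) (by omega) hK hρ hv
    have hmod := h2 _ _ _ T H U y N P (by linarith) (by omega) le_rfl
    refine ⟨⟨N, ?_, P.hNle, r3.trans (ENNReal.ofReal_le_ofReal ?_)⟩, fun ε hε hε0 hD => ?_⟩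
    · refine le_trans ?_ P.hNy
      have : y ^ 2 ≤ y ^ (6 * k + 48) := pow_le_pow_right₀ hy1 (by omega)
      have : y * 2 ≤ y ^ 2 := by nlinarith
      linarith
    · have hS0 : 0 ≤ ∫ t, ‖v t‖ ^ 2 ∂ρ := integral_nonneg fun t => sq_nonneg _
      have e1 : 3 / y ^ 2 ≤ 1 / y := by
        rw [div_le_div_iff₀ (by positivity) hy0]
        nlinarith
      rw [div_eq_mul_one_div (U ^ (2 * k)) y]
      gcongr
    · have hw0 : 0 < y ^ (1 / 4 : ℝ) := by positivity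
      have hwy : (y ^ (1 / 4 : ℝ)) ^ 4 = y := by
        rw [← Real.rpow_natCast, ← Real.rpow_mul hy0.le]
        norm_num
      refine bad P hy12 hK hρ hv (X := ⌊y ^ (k * (6 * k + 48))⌋₊) ?_ Pool.Agent.TH448.GS.t_FL2 r3 hmod hw0 hwy
        ?_ hD
      · refine Nat.le_floor ?_
        push_cast
        rw [mul_comm k, pow_mul]
        exact pow_le_pow_left₀ (Nat.cast_nonneg _) P.hNle k
      · by_contra h
        push Not at h
        have h4 : (ε * y ^ (1 / 4 : ℝ)) ^ 4 < 1 := pow_lt_one₀ (by positivity) h (by norm_num)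
        rw [mul_pow, hwy] at h4
        linarith

end

end Pool.Agent.J4.H35.AM
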