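import Mathlib
import Pool.Agent.Y959.Sv.Up
import Pool.Agent.Helper923.HMertens

set_option autoImplicit false

/-! The integers of an interval without small prime factors, except for those which divide a given
number: the upper bound of the sieve (helper35). -/

namespace Pool.Agent.J4.H35.Ev

open Finset Filter
open Pool.Agent.Y959.Sv (nu up_sieve)
open Pool.Agent.Helper923.HMertens (mertens_ratio)

open scoped Classical

lemma totient_prod (d : ℕ) : ((d.totient : ℕ) : ℝ) = d * ∏ p ∈ d.primeFactors, (1 - 1 / (p : ℝ)) := by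
  have h := Nat.totient_eq_mul_prod_factors d
  have h2 : ((d.totient : ℚ) : ℝ) = ((d * ∏ p ∈ d.primeFactors, (1 - (p : ℚ)⁻¹) : ℚ) : ℝ) := by
    rw [h]
  push_cast at h2
  simpa only [one_div] using h2

/-- the product over the primes of `(a, b]` which do not divide `d` -/
theorem prod_le {C₁ : ℝ} (hC₁ : ∀ a b : ℕ, 2 ≤ a → a ≤ b →
    |∑ p ∈ (Finset.Ioc a b).filter Nat.Prime, (1 : ℝ) / p
      - Real.log (Real.log b / Real.log a)| ≤ C₁ / Real.log a) (a b d : ℕ) (ha : 2 ≤ a)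
    (hab : a ≤ b) (hd : 1 ≤ d) :
    ∏ p ∈ (Ioc a b).filter (fun p => p.Prime ∧ ¬ p ∣ d), (1 - 1 / (p : ℝ)) ≤
      Real.exp (C₁ / Real.log a) * (Real.log a / Real.log b) * (d / (d.totient : ℝ)) := by
  have hφ : (0 : ℝ) < d.totient := by exact_mod_cast Nat.totient_pos.mpr hd
  have hd0 : (0 : ℝ) < d := by exact_mod_cast hd
  have hfac : ∀ p : ℕ, p.Prime → 0 < 1 - 1 / (p : ℝ) ∧ 1 - 1 / (p : ℝ) ≤ 1 := by
    intro p hp
    have h2 : (2 : ℝ) ≤ p := by exact_mod_cast hp.two_le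
    have h3 : 1 / (p : ℝ) ≤ 1 / 2 := one_div_le_one_div_of_le (by norm_num) h2
    have h4 : 0 ≤ 1 / (p : ℝ) := by positivity
    constructor <;> linarith
  set S := (Ioc a b).filter Nat.Prime with hS
  have hSp : ∀ p ∈ S, p.Prime := fun p hp => (mem_filter.1 hp).2
  -- the product over all the primes
  have h1 : ∏ p ∈ S, (1 - 1 / (p : ℝ)) ≤ Real.exp (C₁ / Real.log a) * (Real.log a / Real.log b) := by
    have hla : 0 < Real.log a := Real.log_pos (by exact_mod_cast (by omega : 1 < a))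
    have hlb : 0 < Real.log b := Real.log_pos (by exact_mod_cast (by omega : 1 < b))
    have h2 := (abs_le.1 (hC₁ a b ha hab)).1
    calc ∏ p ∈ S, (1 - 1 / (p : ℝ)) ≤ ∏ p ∈ S, Real.exp (-(1 / (p : ℝ))) := by
          refine prod_le_prod (fun p hp => (hfac p (hSp p hp)).1.le) fun p hp => ?_
          have := Real.add_one_le_exp (-(1 / (p : ℝ)))
          linarith
      _ = Real.exp (-∑ p ∈ S, 1 / (p : ℝ)) := by rw [← Real.exp_sum, sum_neg_distrib]
      _ ≤ Real.exp (C₁ / Real.log a + -Real.log (Real.log b / Real.log a)) := by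
          apply Real.exp_le_exp.2
          linarith
      _ = _ := by
          rw [Real.exp_add, Real.exp_neg, Real.exp_log (by positivity), inv_div]
  -- the prime factors of `d`
  have h2 : (d.totient : ℝ) / d ≤ ∏ p ∈ S.filter (fun p => p ∣ d), (1 - 1 / (p : ℝ)) := by
    rw [totient_prod, mul_div_cancel_left₀ _ hd0.ne']
    have hsub : S.filter (fun p => p ∣ d) ⊆ d.primeFactors := by
      intro p hp
      obtain ⟨h3, h4⟩ := mem_filter.1 hp
      exact Nat.mem_primeFactors.2 ⟨hSp p h3, h4, by omega⟩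
    rw [← prod_sdiff hsub]
    refine mul_le_of_le_one_left (prod_nonneg fun p hp =>
      (hfac p (hSp p (mem_filter.1 hp).1)).1.le) ?_
    refine prod_le_one (fun p hp => ?_) fun p hp => ?_
    · exact (hfac p (Nat.prime_of_mem_primeFactors (mem_sdiff.1 hp).1)).1.le
    · exact (hfac p (Nat.prime_of_mem_primeFactors (mem_sdiff.1 hp).1)).2
  have h3 : ∏ p ∈ S, (1 - 1 / (p : ℝ)) = (∏ p ∈ S.filter (fun p => p ∣ d), (1 - 1 / (p : ℝ))) *
      ∏ p ∈ S.filter (fun p => ¬ p ∣ d), (1 - 1 / (p : ℝ)) := (prod_filter_mul_prod_filter_not _ _ _).symm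
  have h4 : (Ioc a b).filter (fun p => p.Prime ∧ ¬ p ∣ d) = S.filter (fun p => ¬ p ∣ d) := by
    rw [hS, filter_filter]
  rw [h4]
  have h5 : 0 ≤ ∏ p ∈ S.filter (fun p => ¬ p ∣ d), (1 - 1 / (p : ℝ)) :=
    prod_nonneg fun p hp => (hfac p (hSp p (mem_filter.1 hp).1)).1.le
  have h6 : (d.totient : ℝ) / d * ∏ p ∈ S.filter (fun p => ¬ p ∣ d), (1 - 1 / (p : ℝ)) ≤
      Real.exp (C₁ / Real.log a) * (Real.log a / Real.log b) :=
    (mul_le_mul_of_nonneg_right h2 h5).trans (h3 ▸ h1)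
  calc ∏ p ∈ S.filter (fun p => ¬ p ∣ d), (1 - 1 / (p : ℝ)) =
      ((d.totient : ℝ) / d * ∏ p ∈ S.filter (fun p => ¬ p ∣ d), (1 - 1 / (p : ℝ))) * (d / d.totient) := by
        field_simp
    _ ≤ _ := mul_le_mul_of_nonneg_right h6 (by positivity)

/-- the sifted class -/
def Qs (s : ℤ) (p k : ℕ) : Prop := (p : ℤ) ∣ (k : ℤ) + s

/-- **the sieve** -/
theorem sieve_le : ∃ C : ℝ, 0 < C ∧ ∃ L₀ : ℕ, ∀ L : ℕ, L₀ ≤ L → ∀ d : ℕ, 1 ≤ d → ∀ y : ℝ, 0 ≤ y →
    (L : ℝ) ≤ y ^ 2 → ∀ s : ℤ,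
    (((Icc 1 L).filter (fun k : ℕ => ∀ p : ℕ, p.Prime → (p : ℝ) ≤ y → ¬ p ∣ d →
      ¬ (p : ℤ) ∣ (k : ℤ) + s)).card : ℝ) ≤ C * L * (d / (d.totient : ℝ)) / Real.log L := by
  obtain ⟨K, z0, hK, hup⟩ := up_sieve 1
  obtain ⟨C₁, hC₁0, hC₁⟩ := mertens_ratio
  obtain ⟨a, ha⟩ : ∃ a, a = z0 + 2 := ⟨_, rfl⟩
  obtain ⟨K', hK'⟩ : ∃ K' : ℕ, K' = K + 2 := ⟨_, rfl⟩
  have hK'0 : (0 : ℝ) < K' := by
    rw [hK']
    positivity
  have hla : 0 < Real.log a := Real.log_pos (by exact_mod_cast (by omega : 1 < a))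
  -- large `L`
  have hev : ∀ᶠ L : ℕ in atTop, (max 3 (a : ℝ)) + 1 ≤ (L : ℝ) ^ (1 / (K' : ℝ)) ∧
      2 ≤ (L : ℝ) ^ (1 / (2 * (K' : ℝ))) ∧ Real.log L ≤ (L : ℝ) ^ (1 / 2 : ℝ) ∧ 3 ≤ L := by
    have t : Tendsto (fun L : ℕ => (L : ℝ)) atTop atTop := tendsto_natCast_atTop_atTop
    have t1 : Tendsto (fun L : ℕ => (L : ℝ) ^ (1 / (K' : ℝ))) atTop atTop :=
      (tendsto_rpow_atTop (by positivity)).comp t
    have t2 : Tendsto (fun L : ℕ => (L : ℝ) ^ (1 / (2 * (K' : ℝ)))) atTop atTop :=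
      (tendsto_rpow_atTop (by positivity)).comp t
    have h3 := (isLittleO_log_rpow_atTop (show (0 : ℝ) < 1 / 2 by norm_num)).def
      (show (0 : ℝ) < 1 by norm_num)
    filter_upwards [t1.eventually_ge_atTop ((max 3 (a : ℝ)) + 1), t2.eventually_ge_atTop 2,
      t.eventually h3, eventually_ge_atTop 3] with L e1 e2 e3 e4
    refine ⟨e1, e2, ?_, e4⟩
    have hL1 : (1 : ℝ) ≤ L := by exact_mod_cast (by omega : 1 ≤ L)
    rw [Real.norm_eq_abs, abs_of_nonneg (Real.log_nonneg hL1), Real.norm_eq_abs,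
      abs_of_nonneg (Real.rpow_nonneg (by linarith) _), one_mul] at e3
    exact e3
  obtain ⟨L₀, hL₀⟩ := eventually_atTop.1 hev
  refine ⟨2 * (Real.exp (C₁ / Real.log a) * Real.log a * (2 * K')) + 1, by positivity, L₀, ?_⟩
  intro L hL d hd y hy hLy s
  obtain ⟨e1, e2, e3, e4⟩ := hL₀ L hL
  have hL1 : (1 : ℝ) < L := by exact_mod_cast (by omega : 1 < L)
  have hLpos : (0 : ℝ) < L := by linarith
  have hlogL : 0 < Real.log L := Real.log_pos hL1
  have hφ : (0 : ℝ) < d.totient := by exact_mod_cast Nat.totient_pos.mpr hd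
  have hd0 : (0 : ℝ) < d := by exact_mod_cast hd
  have hdφ : 1 ≤ (d : ℝ) / d.totient := by
    rw [one_le_div hφ]
    exact_mod_cast Nat.totient_le d
  -- the sieving limit
  obtain ⟨u, hu⟩ : ∃ u : ℝ, u = (L : ℝ) ^ (1 / (K' : ℝ)) := ⟨_, rfl⟩
  obtain ⟨Y, hY⟩ : ∃ Y : ℕ, Y = ⌊u⌋₊ := ⟨_, rfl⟩
  rw [← hu] at e1
  have hu1 : 1 ≤ u := by
    have := le_max_left (3 : ℝ) (a : ℝ)
    linarith
  have hYu : (Y : ℝ) ≤ u := by rw [hY]; exact Nat.floor_le (by linarith)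
  have huY : u < Y + 1 := by rw [hY]; exact Nat.lt_floor_add_one _
  have hY3 : 3 ≤ Y := by
    have h1 : (3 : ℝ) < Y + 1 := by
      have := le_max_left (3 : ℝ) (a : ℝ)
      linarith
    have h2 : 3 < Y + 1 := by exact_mod_cast h1
    omega
  have haY : a ≤ Y := by
    have h1 : (a : ℝ) < Y + 1 := by
      have := le_max_right (3 : ℝ) (a : ℝ)
      linarith
    have h2 : a < Y + 1 := by exact_mod_cast h1
    omega
  have hupow : u ^ K' = L := by
    rw [hu, ← Real.rpow_natCast, ← Real.rpow_mul hLpos.le, one_div_mul_cancel hK'0.ne',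
      Real.rpow_one]
  have hYpow : (Y : ℝ) ^ K' ≤ L := by
    rw [← hupow]
    exact pow_le_pow_left₀ (Nat.cast_nonneg _) hYu _
  have hYK : Y ^ K ≤ L := by
    have h1 : Y ^ K ≤ Y ^ K' := Nat.pow_le_pow_right (by omega) (by omega)
    have h2 : Y ^ K' ≤ L := by exact_mod_cast hYpow
    exact h1.trans h2
  have hY2 : Y ^ 2 ≤ L := by
    have h1 : Y ^ 2 ≤ Y ^ K' := Nat.pow_le_pow_right (by omega) (by omega)
    have h2 : Y ^ K' ≤ L := by exact_mod_cast hYpow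
    exact h1.trans h2
  have hYy : (Y : ℝ) ≤ y := by
    have h1 : (Y : ℝ) ^ 2 ≤ y ^ 2 := by
      refine le_trans ?_ hLy
      exact_mod_cast hY2
    exact le_of_sq_le_sq h1 hy
  have hlogY : Real.log L / (2 * K') ≤ Real.log Y := by
    have h1 : u / 2 ≤ Y := by
      have : (1 : ℝ) ≤ Y := by exact_mod_cast (by omega : 1 ≤ Y)
      linarith
    have h2 : u = (L : ℝ) ^ (1 / (2 * (K' : ℝ))) * (L : ℝ) ^ (1 / (2 * (K' : ℝ))) := by
      rw [hu, ← Real.rpow_add hLpos]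
      congr 1
      field_simp
      norm_num
    have h3 : (L : ℝ) ^ (1 / (2 * (K' : ℝ))) ≤ Y := by
      refine le_trans ?_ h1
      rw [h2, le_div_iff₀ (by norm_num)]
      exact mul_le_mul_of_nonneg_left e2 (by positivity)
    have h4 := Real.log_le_log (by positivity) h3
    rw [Real.log_rpow hLpos] at h4
    calc Real.log L / (2 * K') = 1 / (2 * K') * Real.log L := by ring
      _ ≤ _ := h4
  have hlogY0 : 0 < Real.log Y := lt_of_lt_of_le (by positivity) hlogY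
  -- the classes
  obtain ⟨Q, hQ⟩ : ∃ Q, Q = Qs s := ⟨_, rfl⟩
  have hQd : ∀ p k, Q p k ↔ (p : ℤ) ∣ (k : ℤ) + s := fun p k => by rw [hQ]; exact Iff.rfl
  have hper : ∀ p n, Q p n ↔ Q p (n % p) := by
    intro p n
    have h : ((n % p : ℕ) : ℤ) + p * ((n / p : ℕ) : ℤ) = n := by exact_mod_cast Nat.mod_add_div n p
    rw [hQd, hQd]
    have e : (n : ℤ) + s = (((n % p : ℕ) : ℤ) + s) + p * ((n / p : ℕ) : ℤ) := by rw [← h]; ring
    rw [e, dvd_add_left (Dvd.intro _ rfl)]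
  have hnu : ∀ p : ℕ, p.Prime → nu Q p = 1 := by
    intro p hp
    have hp0 : (0 : ℤ) < p := by exact_mod_cast hp.pos
    unfold nu
    rw [card_eq_one]
    refine ⟨((-s) % p).toNat, ?_⟩
    have h0 : 0 ≤ (-s) % (p : ℤ) := Int.emod_nonneg _ hp0.ne'
    have h1 : (-s) % (p : ℤ) < p := Int.emod_lt_of_pos _ hp0
    have h2 : (((((-s) % (p : ℤ)).toNat : ℕ)) : ℤ) = (-s) % p := Int.toNat_of_nonneg h0
    have h3 : (p : ℤ) ∣ (-s) % p + s := by
      have h4 := Int.emod_add_mul_ediv (-s) (p : ℤ)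
      have h5 : (-s) % (p : ℤ) + s = (p : ℤ) * (-((-s) / p)) := by linear_combination h4
      rw [h5]
      exact Dvd.intro _ rfl
    ext r
    constructor
    · intro h45
      obtain ⟨h4, h5⟩ := mem_filter.1 h45
      rw [mem_range] at h4
      rw [mem_singleton]
      rw [hQd] at h5
      have h6 : (p : ℤ) ∣ (r : ℤ) - (-s) % p := by
        have := dvd_sub h5 h3
        have e : (r : ℤ) + s - ((-s) % p + s) = r - (-s) % p := by ring
        rwa [e] at this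
      have h7 : (r : ℤ) - (-s) % p = 0 := by
        apply Int.eq_zero_of_abs_lt_dvd h6
        have h8 : (0 : ℤ) ≤ r := Int.natCast_nonneg r
        have h9 : (r : ℤ) < p := by exact_mod_cast h4
        rw [abs_lt]
        constructor <;> linarith
      omega
    · intro h45
      rw [mem_singleton] at h45
      subst h45
      refine mem_filter.2 ⟨mem_range.2 (by omega), ?_⟩
      rw [hQd, h2]
      exact h3
  set P : Finset ℕ := (Ioc a Y).filter (fun p => p.Prime ∧ ¬ p ∣ d) with hP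
  have hPmem : ∀ p ∈ P, p.Prime ∧ z0 < p ∧ p ≤ Y ∧ nu Q p ≤ 1 := by
    intro p hp
    rw [hP, mem_filter, mem_Ioc] at hp
    exact ⟨hp.2.1, by omega, hp.1.2, (hnu p hp.2.1).le⟩
  have hmain := hup Y L hY3 hYK Q hper P hPmem
  have hprod : ∏ p ∈ P, (1 - (nu Q p : ℝ) / p) = ∏ p ∈ P, (1 - 1 / (p : ℝ)) := by
    refine prod_congr rfl fun p hp => ?_
    rw [hnu p (hPmem p hp).1, Nat.cast_one]
  rw [hprod] at hmain
  have hpl := prod_le hC₁ a Y d (by omega) haY hd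
  have hmain2 : (((Icc 1 L).filter (fun k : ℕ => ∀ p : ℕ, p.Prime → (p : ℝ) ≤ y → ¬ p ∣ d →
      ¬ (p : ℤ) ∣ (k : ℤ) + s)).card : ℝ) ≤ 2 * (L * ∏ p ∈ P, (1 - 1 / (p : ℝ))) + √(L : ℝ) := by
    refine le_trans (Nat.cast_le.2 (card_le_card ?_)) hmain
    intro k hk
    obtain ⟨hk1, hk2⟩ := mem_filter.1 hk
    refine mem_filter.2 ⟨hk1, fun p hp => ?_⟩
    have h1 := hPmem p hp
    rw [hP, mem_filter] at hp
    rw [hQd]
    exact hk2 p h1.1 (le_trans (by exact_mod_cast h1.2.2.1) hYy) hp.2.2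
  have hsqrt : √(L : ℝ) ≤ L * (d / (d.totient : ℝ)) / Real.log L := by
    rw [le_div_iff₀ hlogL, Real.sqrt_eq_rpow]
    calc (L : ℝ) ^ (1 / 2 : ℝ) * Real.log L ≤ (L : ℝ) ^ (1 / 2 : ℝ) * (L : ℝ) ^ (1 / 2 : ℝ) :=
          mul_le_mul_of_nonneg_left e3 (by positivity)
      _ = L := by rw [← Real.rpow_add hLpos]; norm_num
      _ = L * 1 := (mul_one _).symm
      _ ≤ L * (d / (d.totient : ℝ)) := mul_le_mul_of_nonneg_left hdφ hLpos.le
  have hla2 : Real.log a / Real.log Y ≤ Real.log a * (2 * K') / Real.log L := by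
    rw [div_le_div_iff₀ hlogY0 hlogL]
    rw [div_le_iff₀ (by positivity)] at hlogY
    nlinarith
  have hprod2 : ∏ p ∈ P, (1 - 1 / (p : ℝ)) ≤ Real.exp (C₁ / Real.log a) *
      (Real.log a * (2 * K') / Real.log L) * (d / (d.totient : ℝ)) := by
    refine hpl.trans ?_
    exact mul_le_mul_of_nonneg_right (mul_le_mul_of_nonneg_left hla2 (Real.exp_pos _).le) (by positivity)
  calc (((Icc 1 L).filter (fun k : ℕ => ∀ p : ℕ, p.Prime → (p : ℝ) ≤ y → ¬ p ∣ d →
      ¬ (p : ℤ) ∣ (k : ℤ) + s)).card : ℝ) ≤ 2 * (L * ∏ p ∈ P, (1 - 1 / (p : ℝ))) + √(L : ℝ) :=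
        hmain2
    _ ≤ 2 * (L * (Real.exp (C₁ / Real.log a) *
      (Real.log a * (2 * K') / Real.log L) * (d / (d.totient : ℝ)))) +
        L * (d / (d.totient : ℝ)) / Real.log L := by
        refine add_le_add (mul_le_mul_of_nonneg_left (mul_le_mul_of_nonneg_left hprod2 hLpos.le)
          (by norm_num)) hsqrt
    _ = _ := by
        field_simp

end Pool.Agent.J4.H35.Ev
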