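import Pool.Agent.J4.H35.EvA
import Pool.Agent.TH915.PW.Crit

set_option autoImplicit false

/-! Coverings of the translates of the members of a residue class, for every modulus (helper35). -/

namespace Pool.Agent.J4.H35.Ev

open Finset Filter
open Pool.Agent.TH915.PW (coveringG crt_small)
open Pool.Agent.H256R2.SC (ff params survivors)

open scoped Classical

/-- the integers of a residue class in an interval -/
lemma count_class (M : ℤ) (N q : ℕ) (hq : 1 ≤ q) (r : ℤ) :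
    |(((Ioc M (M + N)).filter (fun m => (q : ℤ) ∣ m - r)).card : ℝ) - (N : ℝ) / q| ≤ 1 := by
  have hq0 : (0 : ℤ) < q := by exact_mod_cast hq
  have hqr : (0 : ℝ) < q := by exact_mod_cast hq
  have h1 : (Ioc M (M + N)).filter (fun m => (q : ℤ) ∣ m - r) =
      (Ioc M (M + N)).filter (fun m => m ≡ r [ZMOD q]) := by
    apply filter_congr
    intro m _
    rw [Int.modEq_comm, Int.modEq_iff_dvd]
  rw [h1]
  have h2 := Int.Ioc_filter_modEq_card M (M + N) hq0 r
  have e : ∀ t : ℤ, ⌊((t - r : ℚ)) / ((q : ℤ) : ℚ)⌋ = ⌊((t - r : ℝ)) / (q : ℝ)⌋ := by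
    intro t
    have e2 : ((t - r : ℝ)) / (q : ℝ) = ((((t - r : ℚ)) / ((q : ℤ) : ℚ) : ℚ) : ℝ) := by push_cast; rfl
    rw [e2, Rat.floor_cast]
  have h3 : (((Ioc M (M + N)).filter (fun m => m ≡ r [ZMOD q])).card : ℤ) =
      max (⌊(((M + N : ℤ) : ℝ) - r) / (q : ℝ)⌋ - ⌊((M : ℝ) - r) / (q : ℝ)⌋) 0 := by
    rw [h2, ← e M, ← e (M + N)]
  have h4 : (((Ioc M (M + N)).filter (fun m => m ≡ r [ZMOD q])).card : ℝ) =
      ((max (⌊(((M + N : ℤ) : ℝ) - r) / (q : ℝ)⌋ - ⌊((M : ℝ) - r) / (q : ℝ)⌋) 0 : ℤ) : ℝ) := by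
    rw [← h3]
    push_cast
    rfl
  rw [h4]
  have h5 := Int.floor_le ((((M + N : ℤ) : ℝ) - r) / (q : ℝ))
  have h6 := Int.lt_floor_add_one ((((M + N : ℤ) : ℝ) - r) / (q : ℝ))
  have h7 := Int.floor_le (((M : ℝ) - r) / (q : ℝ))
  have h8 := Int.lt_floor_add_one (((M : ℝ) - r) / (q : ℝ))
  have h9 : ((((M + N : ℤ) : ℝ) - r) / (q : ℝ)) = ((M : ℝ) - r) / (q : ℝ) + N / q := by
    push_cast
    ring
  rw [h9] at h5 h6 ⊢
  have h10 : (0 : ℝ) ≤ (N : ℝ) / q := by positivity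
  rw [Int.cast_max, Int.cast_sub, Int.cast_zero, abs_le]
  constructor
  · have := le_max_left ((⌊((M : ℝ) - r) / (q : ℝ) + N / q⌋ : ℝ) - ⌊((M : ℝ) - r) / (q : ℝ)⌋) 0
    linarith
  · rw [sub_le_iff_le_add, max_le_iff]
    constructor <;> linarith

lemma inv_mod {p d : ℕ} (hp : p.Prime) (hpd : ¬ p ∣ d) :
    (p : ℤ) ∣ (d : ℤ) * Nat.gcdA d p - 1 := by
  have h1 : Nat.gcd d p = 1 := ((Nat.Prime.coprime_iff_not_dvd hp).2 hpd).symm
  have h2 := Nat.gcd_eq_gcd_ab d p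
  rw [h1] at h2
  have h3 : (d : ℤ) * Nat.gcdA d p - 1 = p * (-Nat.gcdB d p) := by
    push_cast at h2
    linear_combination -h2
  rw [h3]
  exact Dvd.intro _ rfl

/-- **the covering** -/
theorem assemble : ∃ c₁ : ℝ, 0 < c₁ ∧ ∃ X₀ : ℝ, ∀ X : ℝ, X₀ ≤ X → ∀ d : ℕ, 1 ≤ d →
    ((d.primeFactors.filter (fun p : ℕ => (Real.log X) ^ 2 < (p : ℝ))).card : ℝ) ≤ 2 * Real.log X →
    ∀ (κ : Type) [Fintype κ] [DecidableEq κ] (w : κ → ℤ) (a m₀ : ℤ),
    (∀ p : ℕ, p.Prime → (Real.log X) ^ 2 < (p : ℝ) → ¬ p ∣ d → ∀ k l, k ≠ l →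
      ¬ (p : ℤ) ∣ w k - w l) →
    ((univ.filter (fun k : κ => ∀ p : ℕ, p.Prime → (p : ℝ) ≤ Real.log X / 10 →
      ¬ (p : ℤ) ∣ a + d * m₀ + w k)).card : ℝ) ≤ c₁ * Real.log X →
    ∀ (M : ℤ) (N : ℕ), X ≤ N → ∃ m ∈ Ioc M (M + N), ∀ k, ∃ p : ℕ, p.Prime ∧
      (p : ℝ) ≤ X ^ (1 / 10 : ℝ) ∧ (p : ℤ) ∣ a + d * m + w k := by
  obtain ⟨c₁, hc₁, X₁, hcov⟩ := coveringG
  obtain ⟨c, hc, X₂, hpar⟩ := params survivors 1 one_pos
  have hlogx : ∀ᶠ X : ℝ in atTop, Real.log X / 10 ≤ X ^ (1 / 10 : ℝ) := by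
    have h := (isLittleO_log_rpow_atTop (show (0 : ℝ) < 1 / 10 by norm_num)).def
      (show (0 : ℝ) < 1 by norm_num)
    filter_upwards [h, eventually_ge_atTop (1 : ℝ)] with X hX hX1
    rw [Real.norm_eq_abs, abs_of_nonneg (Real.log_nonneg hX1), Real.norm_eq_abs,
      abs_of_nonneg (Real.rpow_nonneg (by linarith) _)] at hX
    have := Real.log_nonneg hX1
    linarith
  obtain ⟨X₃, hX₃⟩ := eventually_atTop.mp hlogx
  have hL16 : ∀ᶠ X : ℝ in atTop, 160 ≤ Real.log X := Real.tendsto_log_atTop.eventually_ge_atTop _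
  obtain ⟨X₄, hX₄⟩ := eventually_atTop.mp hL16
  refine ⟨c₁, hc₁, max (max X₁ X₂) (max X₃ (max X₄ 1)), ?_⟩
  intro X hX d hd hB κ _ _ w a m₀ hw hsurv M N hN
  have hXX1 : X₁ ≤ X := ((le_max_left _ _).trans (le_max_left _ _)).trans hX
  have hXX2 : X₂ ≤ X := ((le_max_right _ _).trans (le_max_left _ _)).trans hX
  have hXX3 : X₃ ≤ X := ((le_max_left _ _).trans (le_max_right _ _)).trans hX
  have hXX4 : X₄ ≤ X := (((le_max_left _ _).trans (le_max_right _ _)).trans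
    (le_max_right _ _)).trans hX
  have hX1 : 1 ≤ X := (((le_max_right _ _).trans (le_max_right _ _)).trans
    (le_max_right _ _)).trans hX
  have hX0 : 0 < X := by linarith
  obtain ⟨-, -, -, hprim, -⟩ := hpar X hXX2
  have h3 := hX₃ X hXX3
  have h4 := hX₄ X hXX4
  set l : ℝ := Real.log X with hl
  set Ny : ℕ := ⌊l / 10⌋₊ with hNy
  set P : ℕ := primorial Ny with hP
  set S : Finset ℕ := (Finset.range (Ny + 1)).filter Nat.Prime with hS
  have hPS : P = ∏ p ∈ S, p := rfl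
  have hSp : ∀ p ∈ S, p.Prime := fun p hp => (Finset.mem_filter.mp hp).2
  have hSle : ∀ p ∈ S, (p : ℝ) ≤ l / 10 := by
    intro p hp
    have h5 := Finset.mem_range.mp (Finset.mem_filter.mp hp).1
    have h6 : (p : ℝ) ≤ Ny := by exact_mod_cast Nat.lt_succ_iff.mp h5
    exact h6.trans (Nat.floor_le (by linarith))
  have hSmem : ∀ p : ℕ, p.Prime → (p : ℝ) ≤ l / 10 → p ∈ S := by
    intro p hp hpl
    rw [hS, Finset.mem_filter, Finset.mem_range]
    exact ⟨Nat.lt_succ_of_le (Nat.le_floor hpl), hp⟩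
  have hPpos : 0 < P := primorial_pos _
  have hPr : (0 : ℝ) < P := by exact_mod_cast hPpos
  set 𝒜 : Finset ℤ := (Ioc M (M + N)).filter (fun m => (P : ℤ) ∣ m - m₀) with h𝒜
  set U : Finset κ := univ.filter (fun k : κ => ∀ p : ℕ, p.Prime → (p : ℝ) ≤ l / 10 →
      ¬ (p : ℤ) ∣ a + d * m₀ + w k) with hU
  set B : Finset ℕ := d.primeFactors.filter (fun p : ℕ => l ^ 2 < (p : ℝ)) with hBdef
  have hcard : (Fintype.card {k // k ∈ U} : ℝ) ≤ c₁ * l := by
    rw [Fintype.card_coe]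
    exact hsurv
  set res : ℕ → {k // k ∈ U} → ℤ := fun p k => -(a + w k.1) * Nat.gcdA d p with hres
  have hnd : ∀ p : ℕ, p.Prime → l ^ 2 < (p : ℝ) → p ∉ B → ¬ p ∣ d := by
    intro p hp hpl hpB hpd
    exact hpB (mem_filter.2 ⟨Nat.mem_primeFactors.2 ⟨hp, hpd, by omega⟩, hpl⟩)
  have hinj : ∀ p : ℕ, p.Prime → l ^ 2 < p → (p : ℝ) ≤ X ^ (1 / 10 : ℝ) →
      p ∉ B → ∀ k k' : {k // k ∈ U}, k ≠ k' → ¬ ((p : ℤ) ∣ res p k - res p k') := by
    intro p hp hpl _ hpB k k' hkk hdv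
    have hpd := hnd p hp hpl hpB
    have hne : k.1 ≠ k'.1 := fun h => hkk (Subtype.ext h)
    apply hw p hp hpl hpd k.1 k'.1 hne
    have h5 : w k.1 - w k'.1 = -(d : ℤ) * (res p k - res p k') -
        (w k.1 - w k'.1) * ((d : ℤ) * Nat.gcdA d p - 1) := by
      rw [hres]
      ring
    rw [h5]
    exact dvd_sub (Dvd.dvd.mul_left hdv _) (Dvd.dvd.mul_left (inv_mod hp hpd) _)
  obtain ⟨m, hm, hcovm⟩ := hcov X hXX1 B hB {k // k ∈ U} hcard res hinj ℤ 𝒜 (fun m => m)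
    ((N : ℝ) / P) 1 (by
      have : (0 : ℝ) < N := by linarith
      positivity) zero_le_one (by
      have h5 : X ^ (9 / 20 : ℝ) ≤ (N : ℝ) / P * X ^ (-(2 / 5) : ℝ) := by
        rw [div_mul_eq_mul_div, le_div_iff₀ hPr]
        calc X ^ (9 / 20 : ℝ) * P ≤ X ^ (9 / 20 : ℝ) * X ^ (3 / 20 : ℝ) := by gcongr
          _ = X ^ (3 / 5 : ℝ) := by rw [← Real.rpow_add hX0]; norm_num
          _ = X ^ (1 : ℝ) * X ^ (-(2 / 5) : ℝ) := by rw [← Real.rpow_add hX0]; norm_num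
          _ ≤ N * X ^ (-(2 / 5) : ℝ) := by
              rw [Real.rpow_one]
              gcongr
      exact (Real.one_le_rpow hX1 (by norm_num)).trans h5) (by
      intro q hq hqX hqp r
      have hcop : Nat.Coprime P q := by
        rw [Nat.coprime_comm, hPS]
        apply Nat.Coprime.prod_right
        intro p hp
        rw [Nat.coprime_comm, Nat.Prime.coprime_iff_not_dvd (hSp p hp)]
        intro hdv
        have h5 : p ∈ q.primeFactors := Nat.mem_primeFactors.mpr ⟨hSp p hp, hdv, hq.ne_zero⟩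
        have h6 := (hqp p h5).1
        have h7 := hSle p hp
        have h8 : l ≤ l ^ 2 := by nlinarith
        linarith
      have hq1 : 1 ≤ q := Nat.one_le_iff_ne_zero.mpr hq.ne_zero
      obtain ⟨u, v, huv⟩ := Nat.isCoprime_iff_coprime.2 hcop
      set r' : ℤ := m₀ * (v * q) + r * (u * P) with hr'
      have hiff : ∀ x : ℤ, ((P : ℤ) ∣ x - m₀ ∧ (q : ℤ) ∣ x - r) ↔ ((P * q : ℕ) : ℤ) ∣ x - r' := by
        intro x
        have e1 : m₀ - r' = (m₀ - r) * u * P := by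
          rw [hr']
          linear_combination (-(m₀ : ℤ)) * huv
        have e2 : r - r' = (r - m₀) * v * q := by
          rw [hr']
          linear_combination (-(r : ℤ)) * huv
        constructor
        · rintro ⟨h5, h6⟩
          have h7 : (P : ℤ) ∣ x - r' := by
            have : x - r' = (x - m₀) + (m₀ - r) * u * P := by rw [← e1]; ring
            rw [this]
            exact dvd_add h5 (Dvd.intro_left _ rfl)
          have h8 : (q : ℤ) ∣ x - r' := by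
            have : x - r' = (x - r) + (r - m₀) * v * q := by rw [← e2]; ring
            rw [this]
            exact dvd_add h6 (Dvd.intro_left _ rfl)
          push_cast
          exact IsCoprime.mul_dvd (Nat.isCoprime_iff_coprime.2 hcop) h7 h8
        · intro h5
          push_cast at h5
          constructor
          · have h6 : (P : ℤ) ∣ x - r' := (dvd_mul_right _ _).trans h5
            have : x - m₀ = (x - r') - (m₀ - r) * u * P := by rw [← e1]; ring
            rw [this]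
            exact dvd_sub h6 (Dvd.intro_left _ rfl)
          · have h6 : (q : ℤ) ∣ x - r' := (dvd_mul_left _ _).trans h5
            have : x - r = (x - r') - (r - m₀) * v * q := by rw [← e2]; ring
            rw [this]
            exact dvd_sub h6 (Dvd.intro_left _ rfl)
      have h5 : 𝒜.filter (fun x => (q : ℤ) ∣ x - r) =
          (Ioc M (M + N)).filter (fun x => ((P * q : ℕ) : ℤ) ∣ x - r') := by
        rw [h𝒜, Finset.filter_filter]
        apply Finset.filter_congr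
        intro x _
        exact hiff x
      rw [h5]
      have h6 : (N : ℝ) / P / q = N / ((P * q : ℕ) : ℝ) := by
        push_cast
        rw [div_div]
      rw [h6]
      exact count_class M N (P * q) (Nat.mul_pos hPpos hq1) r')
  rw [h𝒜, mem_filter] at hm
  refine ⟨m, hm.1, fun k => ?_⟩
  by_cases hkU : k ∈ U
  · obtain ⟨p, hp, hpl, hpX, hpB, hdv⟩ := hcovm ⟨k, hkU⟩
    have hpd := hnd p hp hpl hpB
    refine ⟨p, hp, hpX, ?_⟩
    have h5 : a + d * m + w k = (d : ℤ) * (m - res p ⟨k, hkU⟩) -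
        (a + w k) * ((d : ℤ) * Nat.gcdA d p - 1) := by
      rw [hres]
      ring
    rw [h5]
    exact dvd_sub (Dvd.dvd.mul_left hdv _) (Dvd.dvd.mul_left (inv_mod hp hpd) _)
  · have h5 : ∃ p : ℕ, p.Prime ∧ (p : ℝ) ≤ l / 10 ∧ (p : ℤ) ∣ a + d * m₀ + w k := by
      by_contra hcon
      push Not at hcon
      exact hkU (mem_filter.2 ⟨mem_univ _, hcon⟩)
    obtain ⟨p, hp, hpl, hdv⟩ := h5
    refine ⟨p, hp, hpl.trans h3, ?_⟩
    have h6 : (p : ℤ) ∣ m - m₀ := by
      refine dvd_trans ?_ hm.2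
      rw [hPS]
      exact Int.natCast_dvd_natCast.mpr (Finset.dvd_prod_of_mem _ (hSmem p hp hpl))
    have h7 : a + d * m + w k = (a + d * m₀ + w k) + d * (m - m₀) := by ring
    rw [h7]
    exact dvd_add hdv (Dvd.dvd.mul_left h6 _)

end Pool.Agent.J4.H35.Ev
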