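import Pool.Agent.J4.H35.EvB

set_option autoImplicit false

/-! Prime-free neighbourhoods and prime-free stretches of residue classes for every modulus (helper35). -/

namespace Pool.Agent.J4.H35.Ev

open Finset Filter
open Pool.Agent.TH915.PW (crt_small)

open scoped Classical

lemma ev_facts (c' c₁ L₀ : ℝ) (hc' : 0 < c') (hc₁ : 0 < c₁) : ∀ᶠ l : ℝ in atTop,
    1 ≤ Real.log l ∧ 1 / c' ≤ Real.log l ∧ 20 ≤ l ∧ L₀ ≤ l ∧ L₀ ≤ c₁ * l ∧
    Real.log l ≤ l / (400 * c') ∧ Real.log l ≤ l / 200 ∧ Real.log l / 2 ≤ Real.log (c₁ * l) := by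
  have t := Real.tendsto_log_atTop
  have h1 := (Real.isLittleO_log_id_atTop).def (show (0 : ℝ) < 1 / (400 * c') by positivity)
  have h2 := (Real.isLittleO_log_id_atTop).def (show (0 : ℝ) < 1 / 200 by norm_num)
  filter_upwards [t.eventually_ge_atTop 1, t.eventually_ge_atTop (1 / c'), eventually_ge_atTop 20,
    eventually_ge_atTop L₀, (tendsto_id.const_mul_atTop hc₁).eventually_ge_atTop L₀, h1, h2,
    t.eventually_ge_atTop (2 * |Real.log c₁|)] with l a1 a2 a3 a4 a5 a6 a7 a8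
  have hl0 : 0 < l := by linarith
  rw [Real.norm_eq_abs, Real.norm_eq_abs, id, abs_of_nonneg hl0.le, abs_of_nonneg (by linarith)] at a6 a7
  refine ⟨a1, a2, a3, a4, a5, ?_, ?_, ?_⟩
  · calc Real.log l ≤ 1 / (400 * c') * l := a6
      _ = _ := by ring
  · calc Real.log l ≤ 1 / 200 * l := a7
      _ = _ := by ring
  · rw [Real.log_mul hc₁.ne' hl0.ne']
    have := neg_abs_le (Real.log c₁)
    linarith

/-- **prime-free neighbourhoods** -/
theorem centre : ∃ c' : ℝ, 0 < c' ∧ ∃ X₀ : ℝ, ∀ X : ℝ, X₀ ≤ X → ∀ d : ℕ, 1 ≤ d →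
    ((d.primeFactors.filter (fun p : ℕ => (Real.log X) ^ 2 < (p : ℝ))).card : ℝ) ≤ 2 * Real.log X →
    ∀ (a M : ℤ) (N : ℕ), X ≤ N → ∃ m ∈ Ioc M (M + N), ∀ k : ℤ,
      |(k : ℝ)| ≤ c' * (Real.log X * Real.log (Real.log X)) → ∃ p : ℕ, p.Prime ∧
      (p : ℝ) ≤ X ^ (1 / 10 : ℝ) ∧ (p : ℤ) ∣ a + d * m + k := by
  obtain ⟨c₁, hc₁, X₁, hasm⟩ := assemble
  obtain ⟨C, hC, L₀, hsv⟩ := sieve_le
  obtain ⟨c', hc'def⟩ : ∃ c', c' = min 1 (c₁ / (6 * C)) := ⟨_, rfl⟩
  have hc' : 0 < c' := by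
    rw [hc'def]
    exact lt_min one_pos (by positivity)
  have hc'1 : c' ≤ 1 := by rw [hc'def]; exact min_le_left _ _
  have hc'2 : 6 * C * c' ≤ c₁ := by
    have : c' ≤ c₁ / (6 * C) := by rw [hc'def]; exact min_le_right _ _
    rw [le_div_iff₀ (by positivity)] at this
    linarith
  obtain ⟨X₂, hX₂⟩ := eventually_atTop.1 (Real.tendsto_log_atTop.eventually
    (ev_facts c' c₁ L₀ hc' hc₁))
  refine ⟨c', hc', max X₁ X₂, ?_⟩
  intro X hX d hd hB a M N hN
  obtain ⟨f1, f2, f3, f4, f5, f6, f7, f8⟩ := hX₂ X ((le_max_right _ _).trans hX)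
  obtain ⟨l, hl⟩ : ∃ l, l = Real.log X := ⟨_, rfl⟩
  rw [← hl] at f1 f2 f3 f4 f5 f6 f7 f8 hB ⊢
  obtain ⟨ll, hll⟩ : ∃ ll, ll = Real.log l := ⟨_, rfl⟩
  rw [← hll] at f1 f2 f6 f7 f8 ⊢
  have hl0 : 0 < l := by linarith
  have hll0 : 0 < ll := by linarith
  have g1 : 1 ≤ c' * ll := by
    rw [div_le_iff₀ hc'] at f2
    linarith
  have g2 : l ≤ c' * (l * ll) := by nlinarith
  have g3 : c' * (l * ll) ≤ l ^ 2 / 400 := by
    rw [le_div_iff₀ (by positivity)] at f6
    nlinarith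
  obtain ⟨L, hL⟩ : ∃ L : ℕ, L = ⌊c' * (l * ll)⌋₊ := ⟨_, rfl⟩
  have hL1 : (L : ℝ) ≤ c' * (l * ll) := by rw [hL]; exact Nat.floor_le (by positivity)
  have hL2 : c' * (l * ll) < L + 1 := by rw [hL]; exact Nat.lt_floor_add_one _
  have hLl : l - 1 ≤ L := by linarith
  have hL'2 : ((2 * L + 1 : ℕ) : ℝ) ≤ l ^ 2 / 100 := by
    push_cast
    nlinarith
  have hres := hasm X ((le_max_left _ _).trans hX) d hd (by rw [← hl]; exact hB) (Fin (2 * L + 1))
    (fun k => (k.1 : ℤ) - L) a 0 (by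
      intro p hp hpl _ k k' hkk hdv
      rw [← hl] at hpl
      have h5 : (k.1 : ℤ) - L - ((k'.1 : ℤ) - L) = (k.1 : ℤ) - k'.1 := by ring
      rw [h5] at hdv
      have hne : k.1 ≠ k'.1 := fun h => hkk (Fin.ext h)
      have hk := k.2
      have hk' := k'.2
      have hLp : 2 * L + 1 < p := by
        have : ((2 * L + 1 : ℕ) : ℝ) < p := by nlinarith
        exact_mod_cast this
      have h0 := Int.eq_zero_of_abs_lt_dvd hdv (by rw [abs_lt]; omega)
      omega) (by
      rw [← hl]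
      set s : ℤ := a + d * 0 - L - 1 with hs
      have h1 : (univ.filter (fun k : Fin (2 * L + 1) => ∀ p : ℕ, p.Prime → (p : ℝ) ≤ l / 10 →
          ¬ (p : ℤ) ∣ a + d * 0 + ((k.1 : ℤ) - L))).card ≤
          ((Icc 1 (2 * L + 1)).filter (fun k : ℕ => ∀ p : ℕ, p.Prime → (p : ℝ) ≤ l / 10 → ¬ p ∣ 1 →
            ¬ (p : ℤ) ∣ (k : ℤ) + s)).card := by
        apply card_le_card_of_injOn (fun k => k.1 + 1)
        · intro k hk
          have hk1 := (mem_filter.1 (mem_coe.1 hk)).2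
          refine mem_coe.2 (mem_filter.2 ⟨mem_Icc.2 ⟨by simp, Nat.succ_le_of_lt k.2⟩, ?_⟩)
          intro p hp hpl _
          have h2 := hk1 p hp hpl
          have e : (((k.1 + 1 : ℕ)) : ℤ) + s = a + d * 0 + ((k.1 : ℤ) - L) := by
            rw [hs]
            push_cast
            ring
          rw [e]
          exact h2
        · intro k _ k' _ h
          have h : k.1 + 1 = k'.1 + 1 := h
          exact Fin.ext (by omega)
      have hL0 : L₀ ≤ 2 * L + 1 := by
        have h2 : (L₀ : ℝ) ≤ ((2 * L + 1 : ℕ) : ℝ) := by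
          push_cast
          linarith
        exact_mod_cast h2
      have h2 := hsv (2 * L + 1) hL0 1 le_rfl (l / 10) (by positivity) (by
        refine hL'2.trans (le_of_eq ?_)
        ring) s
      rw [Nat.totient_one, Nat.cast_one, div_one, mul_one] at h2
      have hlog : ll / 2 ≤ Real.log ((2 * L + 1 : ℕ) : ℝ) := by
        have h3 : l ≤ ((2 * L + 1 : ℕ) : ℝ) := by
          push_cast
          linarith
        have h4 := Real.log_le_log hl0 h3
        rw [← hll] at h4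
        linarith
      have hlogpos : 0 < Real.log ((2 * L + 1 : ℕ) : ℝ) := by linarith
      have h3 : C * ((2 * L + 1 : ℕ) : ℝ) / Real.log ((2 * L + 1 : ℕ) : ℝ) ≤ c₁ * l := by
        rw [div_le_iff₀ hlogpos]
        have h4 : ((2 * L + 1 : ℕ) : ℝ) ≤ 3 * (c' * (l * ll)) := by
          push_cast
          linarith
        calc C * ((2 * L + 1 : ℕ) : ℝ) ≤ C * (3 * (c' * (l * ll))) :=
              mul_le_mul_of_nonneg_left h4 hC.le
          _ = (6 * C * c') * l * (ll / 2) := by ring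
          _ ≤ c₁ * l * (ll / 2) := by
              refine mul_le_mul_of_nonneg_right (mul_le_mul_of_nonneg_right hc'2 hl0.le) (by positivity)
          _ ≤ _ := mul_le_mul_of_nonneg_left hlog (by positivity)
      refine le_trans (Nat.cast_le.2 h1) (h2.trans h3)) M N hN
  obtain ⟨m, hm, h⟩ := hres
  refine ⟨m, hm, fun k hk => ?_⟩
  have hkL : |k| ≤ L := by
    have h1 : |k| ≤ ⌊c' * (l * ll)⌋ := by
      rw [Int.le_floor]
      push_cast
      exact hk
    have h2 : ((⌊c' * (l * ll)⌋₊ : ℕ) : ℤ) = ⌊c' * (l * ll)⌋ := Int.natCast_floor_eq_floor (by positivity)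
    rw [hL]
    omega
  rw [abs_le] at hkL
  obtain ⟨p, hp, hpX, hdv⟩ := h ⟨(k + L).toNat, by omega⟩
  refine ⟨p, hp, hpX, ?_⟩
  have e : ((((k + L).toNat : ℕ)) : ℤ) - L = k := by omega
  have hdv : (p : ℤ) ∣ a + d * m + (((((k + L).toNat : ℕ)) : ℤ) - L) := hdv
  rw [e] at hdv
  exact hdv

/-- **prime-free stretches** -/
theorem window : ∃ c' : ℝ, 0 < c' ∧ ∃ X₀ : ℝ, ∀ X : ℝ, X₀ ≤ X → ∀ d : ℕ, 1 ≤ d →
    ((d.primeFactors.filter (fun p : ℕ => (Real.log X) ^ 2 < (p : ℝ))).card : ℝ) ≤ 2 * Real.log X →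
    ∀ (a M : ℤ) (N : ℕ), X ≤ N → ∃ m ∈ Ioc M (M + N), ∀ k : ℕ, 1 ≤ k →
      (k : ℝ) ≤ c' * ((d.totient : ℝ) / d) * (Real.log X * Real.log (Real.log X)) → ∃ p : ℕ, p.Prime ∧
      (p : ℝ) ≤ X ^ (1 / 10 : ℝ) ∧ (p : ℤ) ∣ a + d * (m + k) := by
  obtain ⟨c₁, hc₁, X₁, hasm⟩ := assemble
  obtain ⟨C, hC, L₀, hsv⟩ := sieve_le
  obtain ⟨c', hc'def⟩ : ∃ c', c' = min 1 (c₁ / (6 * C)) := ⟨_, rfl⟩
  have hc' : 0 < c' := by
    rw [hc'def]
    exact lt_min one_pos (by positivity)
  have hc'1 : c' ≤ 1 := by rw [hc'def]; exact min_le_left _ _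
  have hc'2 : 6 * C * c' ≤ c₁ := by
    have : c' ≤ c₁ / (6 * C) := by rw [hc'def]; exact min_le_right _ _
    rw [le_div_iff₀ (by positivity)] at this
    linarith
  obtain ⟨X₂, hX₂⟩ := eventually_atTop.1 (Real.tendsto_log_atTop.eventually
    (ev_facts c' c₁ L₀ hc' hc₁))
  refine ⟨c', hc', max X₁ X₂, ?_⟩
  intro X hX d hd hB a M N hN
  obtain ⟨f1, f2, f3, f4, f5, f6, f7, f8⟩ := hX₂ X ((le_max_right _ _).trans hX)
  obtain ⟨l, hl⟩ : ∃ l, l = Real.log X := ⟨_, rfl⟩
  rw [← hl] at f1 f2 f3 f4 f5 f6 f7 f8 hB ⊢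
  obtain ⟨ll, hll⟩ : ∃ ll, ll = Real.log l := ⟨_, rfl⟩
  rw [← hll] at f1 f2 f6 f7 f8 ⊢
  have hl0 : 0 < l := by linarith
  have hll0 : 0 < ll := by linarith
  have hφ : (0 : ℝ) < d.totient := by exact_mod_cast Nat.totient_pos.mpr hd
  have hd0 : (0 : ℝ) < d := by exact_mod_cast hd
  have hφd : (d.totient : ℝ) / d ≤ 1 := by
    rw [div_le_one hd0]
    exact_mod_cast Nat.totient_le d
  have g3 : c' * (l * ll) ≤ l ^ 2 / 400 := by
    rw [le_div_iff₀ (by positivity)] at f6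
    nlinarith
  obtain ⟨W, hW⟩ : ∃ W, W = c' * ((d.totient : ℝ) / d) * (l * ll) := ⟨_, rfl⟩
  have hW0 : 0 ≤ W := by rw [hW]; positivity
  have hW1 : W ≤ c' * (l * ll) := by
    rw [hW]
    calc c' * ((d.totient : ℝ) / d) * (l * ll) = (c' * (l * ll)) * ((d.totient : ℝ) / d) := by ring
      _ ≤ _ := mul_le_of_le_one_right (by positivity) hφd
  rw [← hW]
  obtain ⟨L, hL⟩ : ∃ L : ℕ, L = ⌊W⌋₊ := ⟨_, rfl⟩
  have hL1 : (L : ℝ) ≤ W := by rw [hL]; exact Nat.floor_le hW0
  have hLl2 : (L : ℝ) ≤ l ^ 2 / 400 := by linarith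
  -- the start of the stretch
  obtain ⟨S, hS⟩ : ∃ S : Finset ℕ, S = (range (⌊l / 10⌋₊ + 1)).filter (fun p => p.Prime ∧ ¬ p ∣ d) :=
    ⟨_, rfl⟩
  have hSp : ∀ p ∈ S, p.Prime := by
    intro p hp
    rw [hS, mem_filter] at hp
    exact hp.2.1
  obtain ⟨b0, hb0⟩ := crt_small S hSp (fun p => ((a * Nat.gcdA d p) % p).toNat)
  have hm₀ : ∀ p : ℕ, p.Prime → (p : ℝ) ≤ l / 10 → ¬ p ∣ d → (p : ℤ) ∣ a + d * (b0 : ℤ) := by
    intro p hp hpl hpd
    have hpS : p ∈ S := by
      rw [hS, mem_filter, mem_range]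
      exact ⟨Nat.lt_succ_of_le (Nat.le_floor hpl), hp, hpd⟩
    have hp0 : (0 : ℤ) < p := by exact_mod_cast hp.pos
    have h1 := hb0 p hpS
    have h2 : (p : ℤ) ∣ (b0 : ℤ) + (a * Nat.gcdA d p) % p := by
      have h3 := Int.natCast_dvd_natCast.mpr h1
      push_cast at h3
      rw [Int.toNat_of_nonneg (Int.emod_nonneg _ hp0.ne')] at h3
      exact h3
    have h3 : (p : ℤ) ∣ (a * Nat.gcdA d p) % p - a * Nat.gcdA d p := by
      have h4 := Int.emod_add_mul_ediv (a * Nat.gcdA d p) (p : ℤ)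
      have h5 : (a * Nat.gcdA d p) % p - a * Nat.gcdA d p = p * (-((a * Nat.gcdA d p) / p)) := by
        linear_combination h4
      rw [h5]
      exact Dvd.intro _ rfl
    have h4 := inv_mod hp hpd
    have h5 : a + d * (b0 : ℤ) = d * ((b0 : ℤ) + (a * Nat.gcdA d p) % p) -
        d * ((a * Nat.gcdA d p) % p - a * Nat.gcdA d p) - a * ((d : ℤ) * Nat.gcdA d p - 1) := by ring
    rw [h5]
    exact dvd_sub (dvd_sub (Dvd.dvd.mul_left h2 _) (Dvd.dvd.mul_left h3 _)) (Dvd.dvd.mul_left h4 _)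
  have hres := hasm X ((le_max_left _ _).trans hX) d hd (by rw [← hl]; exact hB) (Fin L)
    (fun k => (d : ℤ) * ((k.1 : ℤ) + 1)) a b0 (by
      intro p hp hpl hpd k k' hkk hdv
      rw [← hl] at hpl
      have h5 : (d : ℤ) * ((k.1 : ℤ) + 1) - (d : ℤ) * ((k'.1 : ℤ) + 1) = d * ((k.1 : ℤ) - k'.1) := by ring
      rw [h5] at hdv
      have h6 : (p : ℤ) ∣ (k.1 : ℤ) - k'.1 := by
        rcases (Nat.prime_iff_prime_int.1 hp).dvd_or_dvd hdv with h | h
        · exact absurd (Int.natCast_dvd_natCast.1 h) hpd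
        · exact h
      have hne : k.1 ≠ k'.1 := fun h => hkk (Fin.ext h)
      have hk := k.2
      have hk' := k'.2
      have hLp : L < p := by
        have : (L : ℝ) < p := by nlinarith
        exact_mod_cast this
      have h0 := Int.eq_zero_of_abs_lt_dvd h6 (by rw [abs_lt]; omega)
      omega) (by
      rw [← hl]
      by_cases hcase : (L : ℝ) ≤ c₁ * l
      · refine le_trans ?_ hcase
        have h1 : (univ.filter (fun k : Fin L => ∀ p : ℕ, p.Prime → (p : ℝ) ≤ l / 10 →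
          ¬ (p : ℤ) ∣ a + d * (b0 : ℤ) + (d : ℤ) * ((k.1 : ℤ) + 1))).card ≤ L := by
          refine (card_filter_le _ _).trans ?_
          simp
        exact_mod_cast h1
      rw [not_le] at hcase
      have h1 : (univ.filter (fun k : Fin L => ∀ p : ℕ, p.Prime → (p : ℝ) ≤ l / 10 →
          ¬ (p : ℤ) ∣ a + d * (b0 : ℤ) + (d : ℤ) * ((k.1 : ℤ) + 1))).card ≤
          ((Icc 1 L).filter (fun k : ℕ => ∀ p : ℕ, p.Prime → (p : ℝ) ≤ l / 10 → ¬ p ∣ d →
            ¬ (p : ℤ) ∣ (k : ℤ) + 0)).card := by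
        apply card_le_card_of_injOn (fun k => k.1 + 1)
        · intro k hk
          have hk1 := (mem_filter.1 (mem_coe.1 hk)).2
          refine mem_coe.2 (mem_filter.2 ⟨mem_Icc.2 ⟨by simp, Nat.succ_le_of_lt k.2⟩, ?_⟩)
          intro p hp hpl hpd h3
          apply hk1 p hp hpl
          have h4 := hm₀ p hp hpl hpd
          have e : (((k.1 + 1 : ℕ)) : ℤ) + 0 = (k.1 : ℤ) + 1 := by push_cast; ring
          rw [e] at h3
          exact dvd_add h4 (Dvd.dvd.mul_left h3 _)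
        · intro k _ k' _ h
          have h : k.1 + 1 = k'.1 + 1 := h
          exact Fin.ext (by omega)
      have hL0 : L₀ ≤ L := by
        have h2 : (L₀ : ℝ) ≤ (L : ℝ) := by linarith
        exact_mod_cast h2
      have h2 := hsv L hL0 d hd (l / 10) (by positivity) (by nlinarith) 0
      have hlog : ll / 2 ≤ Real.log (L : ℝ) := by
        have h4 := Real.log_le_log (by positivity) hcase.le
        linarith
      have hlogpos : 0 < Real.log (L : ℝ) := by linarith
      have h3 : C * (L : ℝ) * (d / (d.totient : ℝ)) / Real.log (L : ℝ) ≤ c₁ * l := by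
        rw [div_le_iff₀ hlogpos]
        have h4 : (L : ℝ) * (d / (d.totient : ℝ)) ≤ c' * (l * ll) := by
          calc (L : ℝ) * (d / (d.totient : ℝ)) ≤ W * (d / (d.totient : ℝ)) :=
                mul_le_mul_of_nonneg_right hL1 (by positivity)
            _ = c' * (l * ll) := by
                rw [hW]
                field_simp
        calc C * (L : ℝ) * (d / (d.totient : ℝ)) = C * ((L : ℝ) * (d / (d.totient : ℝ))) := by ring
          _ ≤ C * (c' * (l * ll)) := mul_le_mul_of_nonneg_left h4 hC.le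
          _ = (2 * C * c') * l * (ll / 2) := by ring
          _ ≤ c₁ * l * (ll / 2) := by
              refine mul_le_mul_of_nonneg_right (mul_le_mul_of_nonneg_right ?_ hl0.le) (by positivity)
              nlinarith [mul_pos hC hc']
          _ ≤ _ := mul_le_mul_of_nonneg_left hlog (by positivity)
      refine le_trans (Nat.cast_le.2 h1) (h2.trans h3)) M N hN
  obtain ⟨m, hm, h⟩ := hres
  refine ⟨m, hm, fun k hk1 hk => ?_⟩
  have hkL : k ≤ L := by
    rw [hL]
    exact Nat.le_floor hk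
  obtain ⟨p, hp, hpX, hdv⟩ := h ⟨k - 1, by omega⟩
  refine ⟨p, hp, hpX, ?_⟩
  have hdv : (p : ℤ) ∣ a + d * m + (d : ℤ) * (((k - 1 : ℕ) : ℤ) + 1) := hdv
  have e : a + d * m + (d : ℤ) * (((k - 1 : ℕ) : ℤ) + 1) = a + d * (m + k) := by
    have : (((k - 1 : ℕ)) : ℤ) = (k : ℤ) - 1 := by omega
    rw [this]
    ring
  rw [e] at hdv
  exact hdv

/-- few large prime factors -/
lemma card_factors {x : ℝ} {d : ℕ} (hd : 1 ≤ d) (hdx : (d : ℝ) ≤ x) {l : ℝ} (hl : 1 < l) :
    ((d.primeFactors.filter (fun p : ℕ => l ^ 2 < (p : ℝ))).card : ℝ) * (2 * Real.log l) ≤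
      Real.log x := by
  have hd0 : (0 : ℝ) < d := by exact_mod_cast hd
  have h1 : ((d.primeFactors.filter (fun p : ℕ => l ^ 2 < (p : ℝ))).card : ℝ) * (2 * Real.log l) ≤
      ∑ p ∈ d.primeFactors.filter (fun p : ℕ => l ^ 2 < (p : ℝ)), Real.log p := by
    rw [← nsmul_eq_mul]
    refine card_nsmul_le_sum _ _ _ fun p hp => ?_
    have h2 := (mem_filter.1 hp).2
    have h3 := Real.log_le_log (by positivity) h2.le
    rw [Real.log_pow] at h3
    exact_mod_cast h3
  refine h1.trans ?_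
  have h2 : ∑ p ∈ d.primeFactors.filter (fun p : ℕ => l ^ 2 < (p : ℝ)), Real.log p ≤
      ∑ p ∈ d.primeFactors, Real.log p := by
    refine sum_le_sum_of_subset_of_nonneg (filter_subset _ _) fun p hp _ => ?_
    exact Real.log_nonneg (by exact_mod_cast (Nat.prime_of_mem_primeFactors hp).one_le)
  refine h2.trans ?_
  rw [← Real.log_prod (fun p hp => by
    have := (Nat.prime_of_mem_primeFactors hp).pos
    positivity)]
  refine Real.log_le_log (prod_pos fun p hp => by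
    have := (Nat.prime_of_mem_primeFactors hp).pos
    positivity) (le_trans ?_ hdx)
  have h3 := Nat.le_of_dvd hd (Nat.prod_primeFactors_dvd d)
  rw [← Nat.cast_prod]
  exact Nat.cast_le.2 h3

/-- **main theorem** -/
theorem main (δ : ℝ) (hδ : 0 < δ) (hδ1 : δ ≤ 1) : ∃ c : ℝ, 0 < c ∧ ∃ x₀ : ℝ, ∀ x : ℝ, x₀ ≤ x →
    ∀ d : ℕ, 1 ≤ d → (d : ℝ) ≤ x ^ (1 - δ) → ∀ (a : ℤ) (z : ℝ), 0 ≤ z →
    (∃ n : ℤ, z < n ∧ (n : ℝ) ≤ z + x ∧ (d : ℤ) ∣ n - a ∧
      ∀ q : ℕ, q.Prime → c * (Real.log x * Real.log (Real.log x)) < |(q : ℝ) - n|) ∧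
    (∃ u : ℤ, z < u ∧ (u : ℝ) + c * (d.totient * (Real.log x * Real.log (Real.log x))) ≤ z + x ∧
      ∀ q : ℕ, q.Prime → (d : ℤ) ∣ q - a → (u : ℝ) < q →
        (u : ℝ) + c * (d.totient * (Real.log x * Real.log (Real.log x))) < q) := by
  obtain ⟨c₁, hc₁, X₁, h1⟩ := centre
  obtain ⟨c₂, hc₂, X₂, h2⟩ := window
  obtain ⟨c₀, hc₀⟩ : ∃ c₀, c₀ = min 1 (min c₁ c₂) := ⟨_, rfl⟩
  have hc₀0 : 0 < c₀ := by rw [hc₀]; exact lt_min one_pos (lt_min hc₁ hc₂)
  have hc₀1 : c₀ ≤ 1 := by rw [hc₀]; exact min_le_left _ _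
  have hc₀2 : c₀ ≤ c₁ := by rw [hc₀]; exact (min_le_right _ _).trans (min_le_left _ _)
  have hc₀3 : c₀ ≤ c₂ := by rw [hc₀]; exact (min_le_right _ _).trans (min_le_right _ _)
  -- large `x`
  have hev : ∀ᶠ x : ℝ in atTop, max X₁ X₂ ≤ x ^ (δ / 2) ∧ 2 ≤ Real.log (Real.log x) ∧
      2 * |Real.log (δ / 2)| ≤ Real.log (Real.log x) ∧ 1 / δ ≤ Real.log (Real.log x) ∧
      x ^ (δ / 2) + 1 ≤ x ^ δ / 4 ∧
      Real.log x * Real.log (Real.log x) ≤ x ^ δ / 4 ∧
      x ^ δ / 4 + x ^ (δ / 2 : ℝ) < x / 2 ∧ 3 / 4 * x + x ^ (1 - δ) * (x ^ δ / 4) ≤ x ∧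
      2 / δ < Real.log x ∧ 1 < x := by
    have t1 := Real.tendsto_log_atTop.comp Real.tendsto_log_atTop
    have t2 := tendsto_rpow_atTop (show 0 < δ / 2 by positivity)
    have e1 : ∀ᶠ x : ℝ in atTop, x ^ (δ / 2) + 1 ≤ x ^ δ / 4 := by
      filter_upwards [t2.eventually_ge_atTop 5, eventually_gt_atTop (0 : ℝ)] with x hx hx0
      have e : x ^ δ = x ^ (δ / 2) * x ^ (δ / 2) := by rw [← Real.rpow_add hx0]; congr 1; ring
      rw [e]
      nlinarith
    have e2 : ∀ᶠ x : ℝ in atTop, Real.log x * Real.log (Real.log x) ≤ x ^ δ / 4 := by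
      have h3 := (isLittleO_log_rpow_atTop (show (0 : ℝ) < δ / 2 by positivity)).def
        (show (0 : ℝ) < 1 / 4 by norm_num)
      filter_upwards [h3, eventually_gt_atTop (1 : ℝ), Real.tendsto_log_atTop.eventually_ge_atTop 1]
        with x hx hx0 hl
      rw [Real.norm_eq_abs, Real.norm_eq_abs, abs_of_nonneg (by linarith),
        abs_of_nonneg (by positivity)] at hx
      have h5 : Real.log (Real.log x) ≤ Real.log x := by
        have := Real.log_le_sub_one_of_pos (show 0 < Real.log x by linarith)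
        linarith
      have e : x ^ δ = x ^ (δ / 2) * x ^ (δ / 2) := by
        rw [← Real.rpow_add (by linarith)]; congr 1; ring
      rw [e]
      have h6 : Real.log x * Real.log (Real.log x) ≤ Real.log x * Real.log x :=
        mul_le_mul_of_nonneg_left h5 (by linarith)
      nlinarith
    have e3 : ∀ᶠ x : ℝ in atTop, x ^ δ / 4 + x ^ (δ / 2 : ℝ) < x / 2 := by
      have t3 := tendsto_rpow_atTop (show (0 : ℝ) < 1 / 2 by norm_num)
      filter_upwards [t3.eventually_gt_atTop 4, eventually_gt_atTop (1 : ℝ)] with x hx hx0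
      have h5 : x ^ δ ≤ x := by
        calc x ^ δ ≤ x ^ (1 : ℝ) := Real.rpow_le_rpow_of_exponent_le hx0.le hδ1
          _ = x := Real.rpow_one x
      have h6 : x ^ (δ / 2) ≤ x ^ (1 / 2 : ℝ) :=
        Real.rpow_le_rpow_of_exponent_le hx0.le (by linarith)
      have e : x = x ^ (1 / 2 : ℝ) * x ^ (1 / 2 : ℝ) := by
        rw [← Real.rpow_add (by linarith)]; norm_num
      have h7 : x ^ (1 / 2 : ℝ) < x / 4 := by
        rw [lt_div_iff₀ (by norm_num)]
        calc x ^ (1 / 2 : ℝ) * 4 < x ^ (1 / 2 : ℝ) * x ^ (1 / 2 : ℝ) :=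
              mul_lt_mul_of_pos_left hx (by positivity)
          _ = x := e.symm
      linarith
    filter_upwards [t2.eventually_ge_atTop (max X₁ X₂), t1.eventually_ge_atTop 2,
      t1.eventually_ge_atTop (2 * |Real.log (δ / 2)|), t1.eventually_ge_atTop (1 / δ), e1, e2, e3,
      Real.tendsto_log_atTop.eventually_gt_atTop (2 / δ), eventually_gt_atTop (1 : ℝ)]
      with x a1 a2 a3 a4 a5 a6 a7 a8 a9
    refine ⟨a1, a2, a3, a4, a5, a6, a7, ?_, a8, a9⟩
    have e : x ^ (1 - δ) * (x ^ δ / 4) = x / 4 := by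
      rw [← mul_div_assoc, ← Real.rpow_add (by linarith)]
      norm_num
    rw [e]
    linarith
  obtain ⟨x₀, hx₀⟩ := eventually_atTop.1 hev
  refine ⟨c₀ * (δ / 4), by positivity, x₀, ?_⟩
  intro x hx d hd hdx a z hz
  obtain ⟨b1, b2, b3, b4, b5, b6, b7, b8, b9, b10⟩ := hx₀ x hx
  have hx0 : 0 < x := by linarith
  obtain ⟨X, hX⟩ : ∃ X, X = x ^ (δ / 2) := ⟨_, rfl⟩
  rw [← hX] at b1 b5 b7
  have hX0 : 0 < X := by rw [hX]; positivity
  have hlX : Real.log X = δ / 2 * Real.log x := by rw [hX, Real.log_rpow hx0]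
  have hlx : 0 < Real.log x := Real.log_pos b10
  have hl1 : 1 < Real.log X := by
    rw [hlX]
    rw [div_lt_iff₀ hδ] at b9
    linarith
  have hllX : Real.log (Real.log X) = Real.log (δ / 2) + Real.log (Real.log x) := by
    rw [hlX, Real.log_mul (by positivity) hlx.ne']
  have hll1 : Real.log (Real.log x) / 2 ≤ Real.log (Real.log X) := by
    rw [hllX]
    have := neg_abs_le (Real.log (δ / 2))
    linarith
  have hll0 : 0 < Real.log (Real.log X) := by linarith
  have hR : c₀ * (δ / 4) * (Real.log x * Real.log (Real.log x)) ≤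
      c₀ * (Real.log X * Real.log (Real.log X)) := by
    rw [hlX]
    have h3 := mul_le_mul_of_nonneg_left hll1 (show 0 ≤ c₀ * (δ / 2 * Real.log x) by positivity)
    calc c₀ * (δ / 4) * (Real.log x * Real.log (Real.log x)) =
        c₀ * (δ / 2 * Real.log x) * (Real.log (Real.log x) / 2) := by ring
      _ ≤ _ := h3
      _ = _ := by rw [hlX]; ring
  have hRx : c₀ * (δ / 4) * (Real.log x * Real.log (Real.log x)) ≤ x ^ δ / 4 := by
    refine le_trans ?_ b6
    refine mul_le_of_le_one_left (by positivity) ?_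
    nlinarith
  have hd0 : (0 : ℝ) < d := by exact_mod_cast hd
  have hdx' : (d : ℝ) ≤ x := by
    refine hdx.trans ?_
    calc x ^ (1 - δ) ≤ x ^ (1 : ℝ) := Real.rpow_le_rpow_of_exponent_le b10.le (by linarith)
      _ = x := Real.rpow_one x
  -- the large prime factors of `d`
  have hB : ((d.primeFactors.filter (fun p : ℕ => (Real.log X) ^ 2 < (p : ℝ))).card : ℝ) ≤
      2 * Real.log X := by
    have h3 := card_factors hd hdx' hl1
    have h4 : Real.log x ≤ (2 * Real.log X) * (2 * Real.log (Real.log X)) := by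
      rw [hlX]
      have h5 : 1 ≤ 2 * δ * (Real.log (Real.log x) / 2) := by
        rw [div_le_iff₀ hδ] at b4
        linarith
      have h6 : 1 ≤ 2 * δ * Real.log (Real.log X) := by
        refine h5.trans (mul_le_mul_of_nonneg_left hll1 (by positivity))
      calc Real.log x = Real.log x * 1 := (mul_one _).symm
        _ ≤ Real.log x * (2 * δ * Real.log (Real.log X)) := mul_le_mul_of_nonneg_left h6 hlx.le
        _ = _ := by rw [hlX]; ring
    exact le_of_mul_le_mul_right (h3.trans h4) (by positivity)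
  -- the interval
  obtain ⟨M, hM⟩ : ∃ M : ℤ, M = ⌊(z + x / 2 - a) / d⌋ := ⟨_, rfl⟩
  obtain ⟨N, hN⟩ : ∃ N : ℕ, N = ⌊x / (4 * d)⌋₊ := ⟨_, rfl⟩
  have hMle : (M : ℝ) ≤ (z + x / 2 - a) / d := by rw [hM]; exact Int.floor_le _
  have hMlt : (z + x / 2 - a) / d < M + 1 := by rw [hM]; exact Int.lt_floor_add_one _
  have hNle : (N : ℝ) ≤ x / (4 * d) := by rw [hN]; exact Nat.floor_le (by positivity)
  have hNlt : x / (4 * d) < N + 1 := by rw [hN]; exact Nat.lt_floor_add_one _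
  have hXN : X ≤ N := by
    have h3 : x ^ δ / 4 ≤ x / (4 * d) := by
      rw [div_le_div_iff₀ (by norm_num) (by positivity)]
      have h4 : x ^ δ * d ≤ x := by
        calc x ^ δ * d ≤ x ^ δ * x ^ (1 - δ) := mul_le_mul_of_nonneg_left hdx (by positivity)
          _ = x := by rw [← Real.rpow_add hx0]; norm_num
      linarith
    linarith
  have hmem : ∀ m ∈ Ioc M (M + N), z + x / 2 < ((a + d * m : ℤ) : ℝ) ∧
      ((a + d * m : ℤ) : ℝ) ≤ z + 3 / 4 * x := by
    intro m hm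
    rw [mem_Ioc] at hm
    have h3 : ((M + 1 : ℤ) : ℝ) ≤ m := by exact_mod_cast hm.1
    have h4 : (m : ℝ) ≤ ((M + N : ℤ) : ℝ) := by exact_mod_cast hm.2
    push_cast at h3 h4 ⊢
    constructor
    · have h5 : (z + x / 2 - a) / d < m := by linarith
      rw [div_lt_iff₀ hd0] at h5
      linarith
    · have h5 : (m : ℝ) ≤ (z + x / 2 - a) / d + x / (4 * d) := by linarith
      have h6 : (z + x / 2 - a) / d + x / (4 * d) = (z + 3 / 4 * x - a) / d := by
        field_simp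
        ring
      rw [h6, le_div_iff₀ hd0] at h5
      linarith
  have hXX : X ^ (1 / 10 : ℝ) ≤ X := by
    have hX1 : 1 ≤ X := by
      by_contra hcon
      have := Real.log_neg hX0 (not_le.1 hcon)
      linarith
    calc X ^ (1 / 10 : ℝ) ≤ X ^ (1 : ℝ) := Real.rpow_le_rpow_of_exponent_le hX1 (by norm_num)
      _ = X := Real.rpow_one X
  constructor
  · obtain ⟨m, hm, h⟩ := h1 X ((le_max_left _ _).trans b1) d hd hB a M N hXN
    obtain ⟨h3, h4⟩ := hmem m hm
    refine ⟨a + d * m, by linarith, by linarith, ⟨m, by ring⟩, ?_⟩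
    intro q hq
    by_contra hcon
    rw [not_lt] at hcon
    obtain ⟨p, hp, hpX, hdv⟩ := h ((q : ℤ) - (a + d * m)) (by
      push_cast at hcon ⊢
      refine hcon.trans (hR.trans ?_)
      exact mul_le_mul_of_nonneg_right hc₀2 (by positivity))
    have e : a + d * m + ((q : ℤ) - (a + d * m)) = q := by ring
    rw [e] at hdv
    have hpq : p = q := (Nat.prime_dvd_prime_iff_eq hp hq).1 (Int.natCast_dvd_natCast.1 hdv)
    rw [hpq] at hpX
    have h5 := (abs_le.1 hcon).1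
    linarith
  · obtain ⟨m, hm, h⟩ := h2 X ((le_max_right _ _).trans b1) d hd hB a M N hXN
    obtain ⟨h3, h4⟩ := hmem m hm
    have hφd : ((d.totient : ℕ) : ℝ) ≤ d := by exact_mod_cast Nat.totient_le d
    refine ⟨a + d * m, by linarith, ?_, ?_⟩
    · have h5 : c₀ * (δ / 4) * (d.totient * (Real.log x * Real.log (Real.log x))) ≤
          x ^ (1 - δ) * (x ^ δ / 4) := by
        calc c₀ * (δ / 4) * (d.totient * (Real.log x * Real.log (Real.log x))) =
            d.totient * (c₀ * (δ / 4) * (Real.log x * Real.log (Real.log x))) := by ring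
          _ ≤ d.totient * (x ^ δ / 4) := mul_le_mul_of_nonneg_left hRx (Nat.cast_nonneg _)
          _ ≤ x ^ (1 - δ) * (x ^ δ / 4) :=
              mul_le_mul_of_nonneg_right (hφd.trans hdx) (by positivity)
      linarith
    · intro q hq hqa huq
      by_contra hcon
      rw [not_lt] at hcon
      obtain ⟨t, ht⟩ := hqa
      have e1 : (q : ℤ) = a + d * m + d * (t - m) := by linear_combination ht
      have e2 : (q : ℝ) = ((a + d * m : ℤ) : ℝ) + d * ((t - m : ℤ) : ℝ) := by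
        exact_mod_cast e1
      have h5 : 0 < (t - m : ℤ) := by
        have h6 : 0 < (d : ℝ) * ((t - m : ℤ) : ℝ) := by linarith
        have h7 : 0 < ((t - m : ℤ) : ℝ) := by
          by_contra h8
          have := mul_nonpos_of_nonneg_of_nonpos hd0.le (not_lt.1 h8)
          linarith
        exact_mod_cast h7
      obtain ⟨k, hk⟩ := Int.eq_ofNat_of_zero_le h5.le
      have hk1 : 1 ≤ k := by omega
      rw [hk] at e2
      have h6 : (k : ℝ) ≤ c₂ * ((d.totient : ℝ) / d) * (Real.log X * Real.log (Real.log X)) := by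
        have h7 : (d : ℝ) * k ≤ c₀ * (δ / 4) * (d.totient * (Real.log x * Real.log (Real.log x))) := by
          rw [e2] at hcon
          have : (((k : ℕ) : ℤ) : ℝ) = k := Int.cast_natCast k
          rw [this] at hcon
          linarith
        have h8 : (k : ℝ) ≤ ((d.totient : ℝ) / d) * (c₀ * (Real.log X * Real.log (Real.log X))) := by
          rw [div_mul_eq_mul_div, le_div_iff₀ hd0]
          calc (k : ℝ) * d ≤ d.totient * (c₀ * (δ / 4) * (Real.log x * Real.log (Real.log x))) := by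
                linarith
            _ ≤ _ := mul_le_mul_of_nonneg_left hR (Nat.cast_nonneg _)
        refine h8.trans ?_
        calc ((d.totient : ℝ) / d) * (c₀ * (Real.log X * Real.log (Real.log X))) =
            c₀ * (((d.totient : ℝ) / d) * (Real.log X * Real.log (Real.log X))) := by ring
          _ ≤ c₂ * (((d.totient : ℝ) / d) * (Real.log X * Real.log (Real.log X))) :=
              mul_le_mul_of_nonneg_right hc₀3 (by positivity)
          _ = _ := by ring
      obtain ⟨p, hp, hpX, hdv⟩ := h k hk1 h6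
      have e3 : a + d * (m + (k : ℤ)) = q := by
        rw [e1, hk]
        push_cast
        ring
      rw [e3] at hdv
      have hpq : p = q := (Nat.prime_dvd_prime_iff_eq hp hq).1 (Int.natCast_dvd_natCast.1 hdv)
      rw [hpq] at hpX
      linarith

end Pool.Agent.J4.H35.Ev
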