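import Mathlib

/-!
# Factorisations of Fermat numbers: the odd parts of `d - 1`

The combinatorial core: if `∏ (1 + k_i 2 ^ n_i) = 1 + 2 ^ Λ` with `r ≥ 2` factors, then
`(1 + 2 ^ Λ) ^ (2 ^ (r - 1)) ≤ (∏ (1 + k_i)) ^ (2 * 3 ^ (r - 1))`.
-/

set_option autoImplicit false

namespace Pool.Agent.J4.H35.FO

open Finset

/-- the data of a sorted factorisation -/
structure Dat (r L : ℕ) (k n : ℕ → ℕ) : Prop where
  hr : 2 ≤ r
  hk : ∀ i < r, 1 ≤ k i
  hn : ∀ i < r, 1 ≤ n i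
  mono : ∀ i j, i ≤ j → j < r → n i ≤ n j
  prod : ∏ i ∈ range r, (1 + k i * 2 ^ n i) = 1 + 2 ^ L

variable {r L : ℕ} {k n : ℕ → ℕ}

/-- partial products -/
def PP (k n : ℕ → ℕ) (t : ℕ) : ℕ := ∏ i ∈ range t, (1 + k i * 2 ^ n i)

lemma PP_succ (t : ℕ) : PP k n (t + 1) = PP k n t * (1 + k t * 2 ^ n t) := by
  unfold PP
  rw [prod_range_succ]

lemma PP_pos (t : ℕ) : 0 < PP k n t := by
  unfold PP
  exact prod_pos fun i _ => by positivity

lemma split (t : ℕ) (ht : t ≤ r) :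
    PP k n t * ∏ i ∈ Ico t r, (1 + k i * 2 ^ n i) = ∏ i ∈ range r, (1 + k i * 2 ^ n i) := by
  unfold PP
  exact prod_range_mul_prod_Ico _ ht

lemma Dat.n_le (h : Dat r L k n) (t : ℕ) (ht : t < r) : n t ≤ L := by
  have h1 : 1 + k t * 2 ^ n t ≤ ∏ i ∈ range r, (1 + k i * 2 ^ n i) := by
    refine single_le_prod' (f := fun i => 1 + k i * 2 ^ n i) (fun i _ => by omega) ?_
    exact mem_range.mpr ht
  rw [h.prod] at h1
  have h2 := h.hk t ht
  have h3 : 2 ^ n t ≤ k t * 2 ^ n t := Nat.le_mul_of_pos_left _ (by omega)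
  have h4 : 2 ^ n t ≤ 2 ^ L := by omega
  exact (Nat.pow_le_pow_iff_right (by norm_num)).mp h4

/-- `2 ^ n_t` divides `P_t - 1` -/
lemma Dat.modP (h : Dat r L k n) (t : ℕ) (ht : t < r) : 2 ^ n t ∣ PP k n t - 1 := by
  have h1 : ∏ i ∈ Ico t r, (1 + k i * 2 ^ n i) ≡ 1 [MOD 2 ^ n t] := by
    have h2 : ∀ s : Finset ℕ, (∀ i ∈ s, t ≤ i ∧ i < r) →
        ∏ i ∈ s, (1 + k i * 2 ^ n i) ≡ 1 [MOD 2 ^ n t] := by
      intro s
      induction s using Finset.induction_on with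
      | empty => intro _; simp; rfl
      | insert a s ha ih =>
        intro hs
        rw [prod_insert ha]
        have h3 := ih fun i hi => hs i (mem_insert_of_mem hi)
        have h4 := hs a (mem_insert_self _ _)
        have h5 : 1 + k a * 2 ^ n a ≡ 1 [MOD 2 ^ n t] := by
          have h6 : 2 ^ n t ∣ k a * 2 ^ n a :=
            dvd_mul_of_dvd_right (pow_dvd_pow 2 (h.mono t a h4.1 h4.2)) _
          have h7 : 1 + k a * 2 ^ n a ≡ 1 + 0 [MOD 2 ^ n t] :=
            Nat.ModEq.add_left 1 ((Nat.modEq_zero_iff_dvd).mpr h6)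
          simpa using h7
        simpa using h5.mul h3
    exact h2 _ fun i hi => by rw [mem_Ico] at hi; exact hi
  have h2 : PP k n t * ∏ i ∈ Ico t r, (1 + k i * 2 ^ n i) ≡ PP k n t [MOD 2 ^ n t] := by
    simpa using (Nat.ModEq.refl (PP k n t)).mul h1
  rw [split t ht.le, h.prod] at h2
  have h3 : 1 + 2 ^ L ≡ 1 [MOD 2 ^ n t] := by
    have h6 : 2 ^ n t ∣ 2 ^ L := pow_dvd_pow 2 (h.n_le t ht)
    have h7 : 1 + 2 ^ L ≡ 1 + 0 [MOD 2 ^ n t] :=
      Nat.ModEq.add_left 1 ((Nat.modEq_zero_iff_dvd).mpr h6)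
    simpa using h7
  exact (Nat.modEq_iff_dvd' (PP_pos t)).mp (h3.symm.trans h2)

lemma Dat.P_gt (h : Dat r L k n) (t : ℕ) (h0 : 1 ≤ t) : 1 < PP k n t := by
  have h1 : 1 + k 0 * 2 ^ n 0 ≤ PP k n t := by
    unfold PP
    refine single_le_prod' (f := fun i => 1 + k i * 2 ^ n i) (fun i _ => by omega) ?_
    exact mem_range.mpr (by omega)
  have h2 := h.hk 0 (by have := h.hr; omega)
  have h3 : 0 < k 0 * 2 ^ n 0 := by positivity
  omega

lemma Dat.two_n_le (h : Dat r L k n) (t : ℕ) (h0 : 1 ≤ t) (ht : t < r) : 2 * n t ≤ L := by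
  have h1 := h.P_gt t h0
  have h2 : 2 ^ n t ≤ PP k n t - 1 := Nat.le_of_dvd (by omega) (h.modP t ht)
  have h3 : PP k n (t + 1) ≤ 1 + 2 ^ L := by
    rw [← h.prod, ← split (k := k) (n := n) (t + 1) ht]
    refine Nat.le_mul_of_pos_right _ (prod_pos fun i _ => by positivity)
  rw [PP_succ] at h3
  have h4 : 2 ^ n t ≤ k t * 2 ^ n t := Nat.le_mul_of_pos_left _ (by have := h.hk t ht; omega)
  have h5 : (2 ^ n t + 1) * (1 + 2 ^ n t) ≤ PP k n t * (1 + k t * 2 ^ n t) :=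
    Nat.mul_le_mul (by omega) (by omega)
  have h6 : 2 ^ n t * 2 ^ n t ≤ 2 ^ L := by
    have : 0 < 2 ^ n t := by positivity
    nlinarith
  rw [← pow_add] at h6
  have := (Nat.pow_le_pow_iff_right (by norm_num : 1 < 2)).mp h6
  omega

/-- the sums `P_j - 1 + ∑_{j ≤ i < t} x_i` -/
def SS (k n : ℕ → ℕ) (j t : ℕ) : ℕ := PP k n j - 1 + ∑ i ∈ Ico j t, k i * 2 ^ n i

lemma SS_succ (j t : ℕ) (h : j ≤ t) : SS k n j (t + 1) = SS k n j t + k t * 2 ^ n t := by
  unfold SS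
  rw [sum_Ico_succ_top h]
  ring

/-- the congruence modulo `2 ^ (2 n_j)` -/
lemma Dat.modS (h : Dat r L k n) (j : ℕ) (hj : j < r) (t : ℕ) (hjt : j ≤ t) (ht : t ≤ r) :
    2 ^ n j ∣ SS k n j t ∧ PP k n t ≡ 1 + SS k n j t [MOD 2 ^ (2 * n j)] := by
  induction t, hjt using Nat.le_induction with
  | base =>
    unfold SS
    rw [Ico_self, sum_empty, add_zero]
    refine ⟨h.modP j hj, ?_⟩
    have := PP_pos (k := k) (n := n) j
    rw [show 1 + (PP k n j - 1) = PP k n j by omega]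
  | succ t hjt ih =>
    obtain ⟨h1, h2⟩ := ih (by omega)
    have h3 : 2 ^ n j ∣ k t * 2 ^ n t :=
      dvd_mul_of_dvd_right (pow_dvd_pow 2 (h.mono j t hjt (by omega))) _
    rw [SS_succ j t hjt]
    refine ⟨dvd_add h1 h3, ?_⟩
    rw [PP_succ]
    have h4 : 2 ^ (2 * n j) ∣ SS k n j t * (k t * 2 ^ n t) := by
      rw [two_mul, pow_add]
      exact mul_dvd_mul h1 h3
    have h5 : (1 + SS k n j t) * (1 + k t * 2 ^ n t) ≡
        1 + (SS k n j t + k t * 2 ^ n t) + 0 [MOD 2 ^ (2 * n j)] := by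
      have e : (1 + SS k n j t) * (1 + k t * 2 ^ n t) =
          1 + (SS k n j t + k t * 2 ^ n t) + SS k n j t * (k t * 2 ^ n t) := by ring
      rw [e]
      exact Nat.ModEq.add_left _ ((Nat.modEq_zero_iff_dvd).mpr h4)
    exact (h2.mul_right _).trans h5

lemma Dat.key (h : Dat r L k n) (j : ℕ) (h0 : 1 ≤ j) (hj : j < r) :
    2 ^ (2 * n j) ≤ (PP k n j - 1) * ∏ i ∈ Ico j r, (1 + k i) := by
  by_contra hcon
  push Not at hcon
  have hP := h.P_gt j h0
  have hn0 := h.hn j hj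
  have main : ∀ t, j ≤ t → t ≤ r →
      SS k n j t ≤ (PP k n j - 1) * ∏ i ∈ Ico j t, (1 + k i) := by
    intro t hjt
    induction t, hjt using Nat.le_induction with
    | base => intro _; unfold SS; simp
    | succ t hjt ih =>
      intro ht
      have ih' := ih (by omega)
      obtain ⟨h1, h2⟩ := h.modS j hj t hjt (by omega)
      have hSpos : 0 < SS k n j t := by unfold SS; omega
      have hle : ∏ i ∈ Ico j t, (1 + k i) ≤ ∏ i ∈ Ico j r, (1 + k i) := by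
        refine prod_le_prod_of_subset_of_one_le' (Ico_subset_Ico_right (by omega)) ?_
        intro i _ _; omega
      have hS2 : SS k n j t < 2 ^ (2 * n j) :=
        (ih'.trans (Nat.mul_le_mul_left _ hle)).trans_lt hcon
      -- `n t ≤ 2 n j`
      have hd : 2 ^ (min (n t) (2 * n j)) ∣ SS k n j t := by
        have e1 : 2 ^ (min (n t) (2 * n j)) ∣ PP k n t - 1 :=
          (pow_dvd_pow 2 (min_le_left _ _)).trans (h.modP t (by omega))
        have e2 : PP k n t ≡ 1 + SS k n j t [MOD 2 ^ (min (n t) (2 * n j))] :=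
          h2.of_dvd (pow_dvd_pow 2 (min_le_right _ _))
        have e3 : 1 ≡ PP k n t [MOD 2 ^ (min (n t) (2 * n j))] :=
          (Nat.modEq_iff_dvd' (PP_pos t)).mpr e1
        have e4 : 1 + 0 ≡ 1 + SS k n j t [MOD 2 ^ (min (n t) (2 * n j))] := by
          simpa using e3.trans e2
        exact (Nat.modEq_zero_iff_dvd).mp (Nat.ModEq.add_left_cancel' 1 e4).symm
      have hlt : min (n t) (2 * n j) < 2 * n j := by
        by_contra hge
        have : min (n t) (2 * n j) = 2 * n j := le_antisymm (min_le_right _ _) (not_lt.mp hge)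
        rw [this] at hd
        have := Nat.le_of_dvd hSpos hd
        omega
      have hnt : min (n t) (2 * n j) = n t := by
        rcases min_choice (n t) (2 * n j) with h5 | h5
        · exact h5
        · omega
      rw [hnt] at hd
      have h6 := Nat.le_of_dvd hSpos hd
      rw [SS_succ j t hjt, prod_Ico_succ_top hjt]
      calc SS k n j t + k t * 2 ^ n t ≤ SS k n j t + k t * SS k n j t := by gcongr
        _ = SS k n j t * (1 + k t) := by ring
        _ ≤ ((PP k n j - 1) * ∏ i ∈ Ico j t, (1 + k i)) * (1 + k t) := by gcongr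
        _ = _ := by ring
  have h1 := main r hj.le le_rfl
  obtain ⟨-, h2⟩ := h.modS j hj r hj.le le_rfl
  have hSpos : 0 < SS k n j r := by unfold SS; omega
  have hd : 2 ^ (2 * n j) ∣ SS k n j r := by
    have e3 : 1 + 0 ≡ 1 + SS k n j r [MOD 2 ^ (2 * n j)] := by
      have e1 : PP k n r = 1 + 2 ^ L := h.prod
      have e2 : 1 + 2 ^ L ≡ 1 + 0 [MOD 2 ^ (2 * n j)] :=
        Nat.ModEq.add_left 1 ((Nat.modEq_zero_iff_dvd).mpr (pow_dvd_pow 2 (h.two_n_le j h0 hj)))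
      rw [e1] at h2
      exact e2.symm.trans h2
    exact (Nat.modEq_zero_iff_dvd).mp (Nat.ModEq.add_left_cancel' 1 e3).symm
  have h3 := Nat.le_of_dvd hSpos hd
  omega

/-- `P_t ≤ 2 ^ N_t ∏ (1 + k_i)` -/
lemma PP_le (t : ℕ) : PP k n t ≤ 2 ^ (∑ i ∈ range t, n i) * ∏ i ∈ range t, (1 + k i) := by
  rw [← prod_pow_eq_pow_sum, ← prod_mul_distrib]
  unfold PP
  refine prod_le_prod' fun i _ => ?_
  have : 0 < 2 ^ n i := by positivity
  nlinarith

lemma Dat.key2 (h : Dat r L k n) (j : ℕ) (h0 : 1 ≤ j) (hj : j < r) :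
    2 ^ (2 * n j) ≤ 2 ^ (∑ i ∈ range j, n i) * ∏ i ∈ range r, (1 + k i) := by
  refine (h.key j h0 hj).trans ?_
  rw [← prod_range_mul_prod_Ico (fun i => 1 + k i) hj.le, ← mul_assoc]
  refine Nat.mul_le_mul_right _ (le_trans (Nat.sub_le _ _) (PP_le j))

/-- the main inequality -/
theorem Dat.main (h : Dat r L k n) :
    (1 + 2 ^ L) ^ (2 ^ (r - 1)) ≤ (∏ i ∈ range r, (1 + k i)) ^ (2 * 3 ^ (r - 1)) := by
  obtain ⟨K, hK⟩ : ∃ K, K = ∏ i ∈ range r, (1 + k i) := ⟨_, rfl⟩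
  have hr := h.hr
  have hK1 : 1 ≤ K := by rw [hK]; exact Nat.one_le_iff_ne_zero.mpr (prod_ne_zero_iff.mpr fun i _ => by omega)
  have h1 : 2 ^ n 0 ≤ K := by
    have h2 := h.key2 1 le_rfl (by omega)
    rw [← hK, sum_range_one] at h2
    have h3 : 2 * n 0 ≤ 2 * n 1 := by have := h.mono 0 1 (by omega) (by omega); omega
    have h4 : 2 ^ n 0 * 2 ^ n 0 ≤ 2 ^ n 0 * K := by
      rw [← pow_add, ← two_mul]
      exact (Nat.pow_le_pow_right (by norm_num) h3).trans h2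
    exact Nat.le_of_mul_le_mul_left h4 (by positivity)
  have hstep : ∀ t, 1 ≤ t → t ≤ r →
      (2 ^ (∑ i ∈ range t, n i) * K) ^ (2 ^ (t - 1)) ≤ K ^ (2 * 3 ^ (t - 1)) := by
    intro t ht1
    induction t, ht1 using Nat.le_induction with
    | base =>
      intro _
      rw [sum_range_one]
      simp only [Nat.sub_self, pow_zero, pow_one, mul_one]
      rw [sq]
      exact Nat.mul_le_mul_right _ h1
    | succ t ht1 ih =>
      intro ht
      have ih' := ih (by omega)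
      have h2 := h.key2 t ht1 (by omega)
      rw [← hK] at h2
      obtain ⟨M, hM⟩ : ∃ M, M = 2 ^ (∑ i ∈ range t, n i) := ⟨_, rfl⟩
      rw [← hM] at h2 ih'
      have e1 : 2 ^ (∑ i ∈ range (t + 1), n i) = M * 2 ^ n t := by
        rw [sum_range_succ, pow_add, hM]
      rw [e1, show t + 1 - 1 = (t - 1) + 1 by omega, pow_succ' 2 (t - 1), pow_mul]
      have e2 : (M * 2 ^ n t * K) ^ 2 ≤ (M * K) ^ 3 := by
        calc (M * 2 ^ n t * K) ^ 2 = M ^ 2 * 2 ^ (2 * n t) * K ^ 2 := by ring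
          _ ≤ M ^ 2 * (M * K) * K ^ 2 := by gcongr
          _ = (M * K) ^ 3 := by ring
      calc ((M * 2 ^ n t * K) ^ 2) ^ 2 ^ (t - 1) ≤ ((M * K) ^ 3) ^ 2 ^ (t - 1) :=
            Nat.pow_le_pow_left e2 _
        _ = ((M * K) ^ 2 ^ (t - 1)) ^ 3 := by rw [← pow_mul, ← pow_mul]; congr 1; ring
        _ ≤ (K ^ (2 * 3 ^ (t - 1))) ^ 3 := Nat.pow_le_pow_left ih' _
        _ = K ^ (2 * 3 ^ (t - 1 + 1)) := by rw [← pow_mul]; ring_nf
  have h2 := hstep r (by omega) le_rfl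
  have h3 : 1 + 2 ^ L ≤ 2 ^ (∑ i ∈ range r, n i) * K := by
    rw [← h.prod, hK]
    exact PP_le r
  rw [← hK]
  exact (Nat.pow_le_pow_left h3 _).trans h2

end Pool.Agent.J4.H35.FO
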