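import Mathlib
import Pool.Agent.J4.H35.FermatOdd

/-!
# Factorisations of Fermat numbers: arbitrary factorisations, the totient
-/

set_option autoImplicit false

namespace Pool.Agent.J4.H35.FO

open Finset

/-- the largest odd divisor of `x` (and `0` if `x = 0`) -/
def oddPart (x : ℕ) : ℕ := x / 2 ^ x.factorization 2

lemma oddPart_mul (a b : ℕ) : oddPart (a * b) = oddPart a * oddPart b := Nat.ordCompl_mul a b 2

lemma oddPart_one : oddPart 1 = 1 := by simp [oddPart]

lemma oddPart_spec (x : ℕ) : x = oddPart x * 2 ^ x.factorization 2 := by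
  unfold oddPart
  rw [mul_comm]
  exact (Nat.ordProj_mul_ordCompl_eq_self x 2).symm

lemma oddPart_pos {x : ℕ} (hx : x ≠ 0) : 0 < oddPart x := Nat.ordCompl_pos 2 hx

lemma oddPart_odd {x : ℕ} (hx : x ≠ 0) : Odd (oddPart x) := by
  have := Nat.not_dvd_ordCompl Nat.prime_two hx
  rw [← Nat.not_even_iff_odd, even_iff_two_dvd]
  exact this

lemma oddPart_of_odd {x : ℕ} (hx : Odd x) : oddPart x = x := by
  unfold oddPart
  rw [Nat.factorization_eq_zero_of_not_dvd (by rwa [← even_iff_two_dvd, Nat.not_even_iff_odd])]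
  simp

lemma oddPart_le (x : ℕ) : oddPart x ≤ x := Nat.div_le_self _ _

/-- the core inequality for arbitrary factorisations -/
theorem fin_main (r L : ℕ) (hr : 2 ≤ r) (hL : 1 ≤ L) (d : Fin r → ℕ) (hd : ∀ i, 1 < d i)
    (hp : ∏ i, d i = 1 + 2 ^ L) :
    (1 + 2 ^ L) ^ (2 ^ (r - 1)) ≤ (∏ i, (1 + oddPart (d i - 1))) ^ (2 * 3 ^ (r - 1)) := by
  obtain ⟨nn, hnn⟩ : ∃ nn : Fin r → ℕ, nn = fun i => (d i - 1).factorization 2 := ⟨_, rfl⟩
  obtain ⟨σ, hσ⟩ : ∃ σ : Equiv.Perm (Fin r), Monotone (nn ∘ σ) :=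
    ⟨Tuple.sort nn, Tuple.monotone_sort nn⟩
  have hodd : ∀ i, Odd (d i) := by
    intro i
    have h1 : d i ∣ 1 + 2 ^ L := by rw [← hp]; exact dvd_prod_of_mem d (mem_univ i)
    have h2 : Odd (1 + 2 ^ L) := by
      rw [add_comm]
      exact (Even.pow_of_ne_zero (by decide) (by omega)).add_one
    exact h2.of_dvd_nat h1
  obtain ⟨k, hk⟩ : ∃ k : ℕ → ℕ, k = fun i => if h : i < r then oddPart (d (σ ⟨i, h⟩) - 1) else 1 :=
    ⟨_, rfl⟩
  obtain ⟨n, hn⟩ : ∃ n : ℕ → ℕ, n = fun i => if h : i < r then nn (σ ⟨i, h⟩) else 1 := ⟨_, rfl⟩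
  have hkv : ∀ i : Fin r, k i = oddPart (d (σ i) - 1) := by
    intro i; rw [hk]; simp
  have hnv : ∀ i : Fin r, n i = nn (σ i) := by
    intro i; rw [hn]; simp
  have hval : ∀ i : Fin r, 1 + k i * 2 ^ n i = d (σ i) := by
    intro i
    rw [hkv, hnv, hnn]
    have h1 := oddPart_spec (d (σ i) - 1)
    have h2 := hd (σ i)
    simp only
    omega
  have D : Dat r L k n := by
    refine ⟨hr, ?_, ?_, ?_, ?_⟩
    · intro i hi
      have := hkv ⟨i, hi⟩
      simp only at this
      rw [this]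
      exact oddPart_pos (by have := hd (σ ⟨i, hi⟩); omega)
    · intro i hi
      have := hnv ⟨i, hi⟩
      simp only at this
      rw [this, hnn]
      simp only
      have h1 : 2 ∣ d (σ ⟨i, hi⟩) - 1 := by
        have h2 := hodd (σ ⟨i, hi⟩)
        have h3 := hd (σ ⟨i, hi⟩)
        obtain ⟨c, hc⟩ := h2
        exact ⟨c, by omega⟩
      exact Nat.Prime.factorization_pos_of_dvd Nat.prime_two
        (by have := hd (σ ⟨i, hi⟩); omega) h1
    · intro i j hij hj
      have h1 := hnv ⟨i, by omega⟩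
      have h2 := hnv ⟨j, hj⟩
      simp only at h1 h2
      rw [h1, h2]
      exact hσ (by exact hij)
    · rw [prod_range]
      rw [Finset.prod_congr rfl fun i _ => hval i, ← hp]
      exact Equiv.prod_comp σ d
  have h1 := D.main
  rw [prod_range, Finset.prod_congr rfl fun i _ => by rw [hkv i]] at h1
  rw [← Equiv.prod_comp σ (fun i => 1 + oddPart (d i - 1))]
  exact h1

/-- the odd part of `p - 1` is at least three for a prime divisor of a composite Fermat number -/
lemma three_le (m p : ℕ) (hF : ¬ (Nat.fermatNumber m).Prime) (hp : p.Prime)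
    (hpF : p ∣ Nat.fermatNumber m) : 3 ≤ oddPart (p - 1) := by
  have hp2 := hp.two_le
  have hodd := oddPart_odd (x := p - 1) (by omega)
  have hne : oddPart (p - 1) ≠ 1 := by
    intro h1
    have h2 := oddPart_spec (p - 1)
    rw [h1, one_mul] at h2
    obtain ⟨n, hn⟩ : ∃ n, n = (p - 1).factorization 2 := ⟨_, rfl⟩
    rw [← hn] at h2
    have h3 : 2 ^ n + 1 = p := by omega
    have hFodd : Odd (Nat.fermatNumber m) := Nat.odd_fermatNumber m
    have hn0 : n ≠ 0 := by
      intro h0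
      rw [h0] at h3
      have : Odd p := hFodd.of_dvd_nat hpF
      rw [← h3] at this
      exact absurd this (by decide)
    obtain ⟨a, ha⟩ := Nat.pow_of_pow_add_prime (by norm_num : 1 < 2) hn0 (by rw [h3]; exact hp)
    have h4 : p = Nat.fermatNumber a := by
      rw [← h3, ha]; rfl
    by_cases ham : a = m
    · rw [ham] at h4
      exact hF (h4 ▸ hp)
    · have h5 := Nat.coprime_fermatNumber_fermatNumber ham
      rw [← h4] at h5
      have h6 : p ∣ Nat.gcd p (Nat.fermatNumber m) := Nat.dvd_gcd dvd_rfl hpF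
      rw [h5] at h6
      exact hp.one_lt.ne' (Nat.dvd_one.mp h6)
  obtain ⟨c, hc⟩ := hodd
  omega

/-- `oddPart` as a homomorphism -/
def oddHom : ℕ →* ℕ where
  toFun := oddPart
  map_one' := oddPart_one
  map_mul' := oddPart_mul

lemma list_le (N : ℕ) (hN : Odd N) :
    (N.primeFactorsList.map fun p => oddPart (p - 1)).prod ≤ oddPart N.totient := by
  have hN0 : N ≠ 0 := by rintro rfl; exact absurd hN (by decide)
  have h1 : oddPart N.totient =
      ∏ p ∈ N.primeFactors, (p ^ (N.factorization p - 1) * oddPart (p - 1)) := by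
    rw [Nat.totient_eq_prod_factorization hN0, Finsupp.prod, Nat.support_factorization]
    have h2 := map_prod oddHom (fun p => p ^ (N.factorization p - 1) * (p - 1)) N.primeFactors
    change oddPart _ = _ at h2
    rw [h2]
    refine prod_congr rfl fun p hp => ?_
    change oddPart _ = _
    rw [oddPart_mul]
    have h3 : Odd p := hN.of_dvd_nat (Nat.dvd_of_mem_primeFactors hp)
    rw [oddPart_of_odd h3.pow]
  rw [h1, Finset.prod_list_map_count]
  refine le_of_eq_of_le (b := ∏ p ∈ N.primeFactors, oddPart (p - 1) ^ N.factorization p) ?_ ?_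
  · refine prod_congr rfl fun p _ => ?_
    rw [Nat.primeFactorsList_count_eq]
  · refine prod_le_prod' fun p hp => ?_
    have h2 : 1 ≤ N.factorization p := by
      have := (Nat.prime_of_mem_primeFactors hp).factorization_pos_of_dvd hN0
        (Nat.dvd_of_mem_primeFactors hp)
      omega
    have h3 : oddPart (p - 1) ≤ p := (oddPart_le _).trans (Nat.sub_le _ _)
    calc oddPart (p - 1) ^ N.factorization p
        = oddPart (p - 1) ^ (N.factorization p - 1) * oddPart (p - 1) := by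
          rw [← pow_succ]; congr 1; omega
      _ ≤ _ := by gcongr

lemma real_root (r : ℕ) (hr : 1 ≤ r) (F Q : ℕ)
    (h1 : F ^ (2 ^ (r - 1)) ≤ Q ^ (2 * 3 ^ (r - 1))) :
    (F : ℝ) ^ ((3 / 4 : ℝ) * (2 / 3 : ℝ) ^ r) ≤ Q := by
  obtain ⟨s, rfl⟩ : ∃ s, r = s + 1 := ⟨r - 1, by omega⟩
  rw [Nat.add_sub_cancel] at h1
  have h2 : (F : ℝ) ^ (2 ^ s) ≤ (Q : ℝ) ^ (2 * 3 ^ s) := by exact_mod_cast h1
  have hpos : (0 : ℝ) < 2 * 3 ^ s := by positivity
  have h3 : ((F : ℝ) ^ (2 ^ s)) ^ (1 / (2 * 3 ^ s) : ℝ) ≤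
      ((Q : ℝ) ^ (2 * 3 ^ s)) ^ (1 / (2 * 3 ^ s) : ℝ) :=
    Real.rpow_le_rpow (by positivity) h2 (by positivity)
  have e1 : ((Q : ℝ) ^ (2 * 3 ^ s)) ^ (1 / (2 * 3 ^ s) : ℝ) = Q := by
    rw [← Real.rpow_natCast, ← Real.rpow_mul (by positivity)]
    push_cast
    rw [mul_one_div_cancel hpos.ne', Real.rpow_one]
  have e2 : ((F : ℝ) ^ (2 ^ s)) ^ (1 / (2 * 3 ^ s) : ℝ) =
      (F : ℝ) ^ ((3 / 4 : ℝ) * (2 / 3 : ℝ) ^ (s + 1)) := by
    rw [← Real.rpow_natCast, ← Real.rpow_mul (by positivity)]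
    congr 1
    push_cast
    rw [div_pow, pow_succ, pow_succ]
    field_simp
    ring
  rw [e1, e2] at h3
  exact h3

/-- from the integral to the real form -/
lemma real_form (r : ℕ) (hr : 1 ≤ r) (F Q K T : ℕ)
    (h1 : F ^ (2 ^ (r - 1)) ≤ Q ^ (2 * 3 ^ (r - 1))) (h2 : 3 ^ r * Q ≤ 4 ^ r * K) (h3 : K ≤ T) :
    (F : ℝ) ^ ((3 / 4 : ℝ) * (2 / 3 : ℝ) ^ r) ≤ (4 / 3 : ℝ) ^ r * T := by
  have hQ : (F : ℝ) ^ ((3 / 4 : ℝ) * (2 / 3 : ℝ) ^ r) ≤ Q := real_root r hr F Q h1
  refine hQ.trans ?_
  have h4 : (3 : ℝ) ^ r * Q ≤ 4 ^ r * K := by exact_mod_cast h2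
  have h5 : (K : ℝ) ≤ T := by exact_mod_cast h3
  rw [div_pow, div_mul_eq_mul_div, le_div_iff₀ (by positivity)]
  calc (Q : ℝ) * 3 ^ r = 3 ^ r * Q := by ring
    _ ≤ 4 ^ r * K := h4
    _ ≤ 4 ^ r * T := by gcongr

/-- the two inequalities for the totient, `r` the number of prime factors with multiplicity -/
theorem totient_main (m : ℕ) (hF : ¬ (Nat.fermatNumber m).Prime) :
    3 ^ (Nat.fermatNumber m).primeFactorsList.length ≤
      oddPart (Nat.fermatNumber m).totient ∧
    (Nat.fermatNumber m : ℝ) ^ ((3 / 4 : ℝ) * (2 / 3 : ℝ) ^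
      (Nat.fermatNumber m).primeFactorsList.length) ≤
      (4 / 3 : ℝ) ^ (Nat.fermatNumber m).primeFactorsList.length *
        oddPart (Nat.fermatNumber m).totient := by
  obtain ⟨F, hFd⟩ : ∃ F, F = Nat.fermatNumber m := ⟨_, rfl⟩
  have hF3 : 3 ≤ F := by rw [hFd]; exact Nat.three_le_fermatNumber m
  have hFodd : Odd F := by rw [hFd]; exact Nat.odd_fermatNumber m
  have hlist := list_le F hFodd
  have hprod : F.primeFactorsList.prod = F := Nat.prod_primeFactorsList (by omega)
  have hmem : ∀ p ∈ F.primeFactorsList, p.Prime ∧ p ∣ F := fun p hp =>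
    ⟨Nat.prime_of_mem_primeFactorsList hp, Nat.dvd_of_mem_primeFactorsList hp⟩
  have hthree : ∀ p ∈ F.primeFactorsList, 3 ≤ oddPart (p - 1) := by
    intro p hp
    have := hmem p hp
    rw [hFd] at this
    exact three_le m p hF this.1 this.2
  rw [← hFd] at hF ⊢
  obtain ⟨r, hr⟩ : ∃ r, r = F.primeFactorsList.length := ⟨_, rfl⟩
  rw [← hr]
  have hr2 : 2 ≤ r := by
    by_contra hlt
    have h0 : r = 0 ∨ r = 1 := by omega
    rcases h0 with h0 | h0
    · rw [hr] at h0
      rw [List.length_eq_zero_iff.mp h0] at hprod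
      simp at hprod
      omega
    · rw [hr] at h0
      obtain ⟨a, ha⟩ := List.length_eq_one_iff.mp h0
      have h1 := hmem a (by rw [ha]; simp)
      rw [ha] at hprod
      simp at hprod
      rw [hprod] at h1
      exact hF h1.1
  obtain ⟨K, hK⟩ : ∃ K, K = (F.primeFactorsList.map fun p => oddPart (p - 1)).prod := ⟨_, rfl⟩
  rw [← hK] at hlist
  have hK3 : 3 ^ r ≤ K := by
    rw [hK, hr]
    have : ∀ l : List ℕ, (∀ p ∈ l, 3 ≤ oddPart (p - 1)) →
        3 ^ l.length ≤ (l.map fun p => oddPart (p - 1)).prod := by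
      intro l
      induction l with
      | nil => intro _; simp
      | cons a l ih =>
        intro h
        rw [List.length_cons, List.map_cons, List.prod_cons, pow_succ']
        exact Nat.mul_le_mul (h a (by simp)) (ih fun p hp => h p (by simp [hp]))
    exact this _ hthree
  refine ⟨hK3.trans hlist, ?_⟩
  -- the product of the `1 + k`
  have hL : F = 1 + 2 ^ (2 ^ m) := by rw [hFd, Nat.fermatNumber, add_comm]
  have hm : F ^ (2 ^ (r - 1)) ≤
      ((F.primeFactorsList.map fun p => 1 + oddPart (p - 1)).prod) ^ (2 * 3 ^ (r - 1)) := by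
    have h1 := fin_main F.primeFactorsList.length (2 ^ m) (by omega) Nat.one_le_two_pow
      (fun i => F.primeFactorsList[(i : ℕ)])
      (fun i => (hmem _ (List.getElem_mem _)).1.one_lt) (by
        rw [Fin.prod_univ_getElem, hprod, hL])
    rw [Fin.prod_univ_fun_getElem F.primeFactorsList (fun p => 1 + oddPart (p - 1))] at h1
    rw [← hL, ← hr] at h1
    exact h1
  have hKK : 3 ^ r * (F.primeFactorsList.map fun p => 1 + oddPart (p - 1)).prod ≤ 4 ^ r * K := by
    rw [hK, hr]
    have : ∀ l : List ℕ, (∀ p ∈ l, 3 ≤ oddPart (p - 1)) →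
        3 ^ l.length * (l.map fun p => 1 + oddPart (p - 1)).prod ≤
          4 ^ l.length * (l.map fun p => oddPart (p - 1)).prod := by
      intro l
      induction l with
      | nil => intro _; simp
      | cons a l ih =>
        intro h
        have h1 := ih fun p hp => h p (by simp [hp])
        have h2 := h a (by simp)
        rw [List.length_cons, List.map_cons, List.prod_cons, List.map_cons, List.prod_cons,
          pow_succ', pow_succ']
        calc 3 * 3 ^ l.length * ((1 + oddPart (a - 1)) *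
              (l.map fun p => 1 + oddPart (p - 1)).prod)
            = (3 * (1 + oddPart (a - 1))) * (3 ^ l.length *
              (l.map fun p => 1 + oddPart (p - 1)).prod) := by ring
          _ ≤ (4 * oddPart (a - 1)) * (4 ^ l.length *
              (l.map fun p => oddPart (p - 1)).prod) := Nat.mul_le_mul (by omega) h1
          _ = _ := by ring
    exact this _ hthree
  exact real_form r (by omega) F _ K _ hm hKK hlist

end Pool.Agent.J4.H35.FO
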