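import Mathlib
import Pool.Agent.J4.H35.FermatOdd2

/-!
# The odd part of the totient of a composite Fermat number: asymptotics and pseudoprime bases
-/

set_option autoImplicit false

namespace Pool.Agent.J4.H35.FO

open Finset Filter Topology

/-- few elements of `2`-power order -/
lemma liars (N e : ℕ) (hN : N ≠ 0) :
    Set.ncard {b : ZMod N | b ^ (2 ^ e) = 1} * oddPart N.totient ≤ N := by
  have hNe : NeZero N := ⟨hN⟩
  classical
  let H : Subgroup (ZMod N)ˣ := (powMonoidHom (2 ^ e) : (ZMod N)ˣ →* (ZMod N)ˣ).ker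
  have hp : IsPGroup 2 H := by
    intro g
    refine ⟨e, ?_⟩
    have h1 : (g : (ZMod N)ˣ) ^ (2 ^ e) = 1 := g.2
    exact Subtype.ext h1
  have h2p : Fact (Nat.Prime 2) := ⟨Nat.prime_two⟩
  obtain ⟨a, ha⟩ := (IsPGroup.iff_card).mp hp
  have hdvd : Nat.card H ∣ N.totient := by
    have := Subgroup.card_subgroup_dvd_card H
    rwa [Nat.card_eq_fintype_card (α := (ZMod N)ˣ), ZMod.card_units_eq_totient] at this
  have hφ : N.totient ≠ 0 := (Nat.totient_pos.mpr (by omega)).ne'
  have hale : a ≤ N.totient.factorization 2 := by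
    rw [ha] at hdvd
    exact (Nat.prime_two.pow_dvd_iff_le_factorization hφ).mp hdvd
  have hcard : Set.ncard {b : ZMod N | b ^ (2 ^ e) = 1} ≤ Nat.card H := by
    have hset : {b : ZMod N | b ^ (2 ^ e) = 1} ⊆ (fun u : (ZMod N)ˣ => (u : ZMod N)) '' (H : Set (ZMod N)ˣ) := by
      intro b hb
      have hb' : b ^ (2 ^ e) = 1 := hb
      have hu : IsUnit b := IsUnit.of_pow_eq_one hb' (by positivity)
      refine ⟨hu.unit, ?_, rfl⟩
      change hu.unit ^ (2 ^ e) = 1
      apply Units.ext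
      simpa using hb'
    calc Set.ncard {b : ZMod N | b ^ (2 ^ e) = 1}
        ≤ Set.ncard ((fun u : (ZMod N)ˣ => (u : ZMod N)) '' (H : Set (ZMod N)ˣ)) :=
          Set.ncard_le_ncard hset (Set.toFinite _)
      _ ≤ Set.ncard (H : Set (ZMod N)ˣ) := Set.ncard_image_le (Set.toFinite _)
      _ = Nat.card H := rfl
  calc Set.ncard {b : ZMod N | b ^ (2 ^ e) = 1} * oddPart N.totient
      ≤ 2 ^ N.totient.factorization 2 * oddPart N.totient := by
        refine Nat.mul_le_mul_right _ (hcard.trans ?_)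
        rw [ha]
        exact Nat.pow_le_pow_right (by norm_num) hale
    _ = N.totient := by rw [mul_comm]; exact (oddPart_spec _).symm
    _ ≤ N := Nat.totient_le N

lemma ev (c : ℝ) (hc : 0 < c) (hcA : c < Real.log 3 / Real.log (3 / 2)) :
    ∀ᶠ y : ℝ in atTop,
      y ^ (2 * c) ≤ Real.exp (3 / 4 * y ^ (1 - c * Real.log (3 / 2) / Real.log 3)) := by
  have h3 : 0 < Real.log 3 := Real.log_pos (by norm_num)
  have h32 : 0 < Real.log (3 / 2) := Real.log_pos (by norm_num)
  have hβ : 0 < 1 - c * Real.log (3 / 2) / Real.log 3 := by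
    rw [lt_div_iff₀ h32] at hcA
    rw [sub_pos, div_lt_one h3]
    exact hcA
  have h1 := (isLittleO_log_rpow_atTop hβ).bound (show (0 : ℝ) < 3 / (8 * c) by positivity)
  filter_upwards [h1, eventually_gt_atTop 1] with y hy hy1
  have hy0 : 0 < y := by linarith
  rw [Real.norm_of_nonneg (Real.log_nonneg hy1.le), Real.norm_of_nonneg (by positivity)] at hy
  rw [Real.rpow_def_of_pos hy0]
  apply Real.exp_le_exp.mpr
  calc Real.log y * (2 * c)
      ≤ (3 / (8 * c) * y ^ (1 - c * Real.log (3 / 2) / Real.log 3)) * (2 * c) := by gcongr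
    _ = _ := by field_simp; ring

lemma tendsto_logF : Tendsto (fun m : ℕ => Real.log (Nat.fermatNumber m)) atTop atTop :=
  Real.tendsto_log_atTop.comp
    (tendsto_natCast_atTop_atTop.comp Nat.fermatNumber_strictMono.tendsto_atTop)

/-- the lower bound for the odd part of the totient -/
theorem odd_lower (c : ℝ) (hc : 0 < c) (hcA : c < Real.log 3 / Real.log (3 / 2)) :
    ∀ᶠ m : ℕ in atTop, ¬ (Nat.fermatNumber m).Prime →
      Real.log (Nat.fermatNumber m) ^ c ≤ (oddPart (Nat.fermatNumber m).totient : ℝ) := by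
  have h3 : 0 < Real.log 3 := Real.log_pos (by norm_num)
  have h32 : 0 < Real.log (3 / 2) := Real.log_pos (by norm_num)
  filter_upwards [tendsto_logF.eventually (ev c hc hcA),
    tendsto_logF.eventually (eventually_gt_atTop 1)] with m h1 h2 hF
  obtain ⟨y, hy⟩ : ∃ y, y = Real.log (Nat.fermatNumber m) := ⟨_, rfl⟩
  rw [← hy] at h1 h2 ⊢
  have hy0 : 0 < y := by linarith
  by_contra hcon
  push Not at hcon
  obtain ⟨k1, k2⟩ := totient_main m hF
  obtain ⟨r, hr⟩ : ∃ r, r = (Nat.fermatNumber m).primeFactorsList.length := ⟨_, rfl⟩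
  obtain ⟨T, hT⟩ : ∃ T, T = oddPart (Nat.fermatNumber m).totient := ⟨_, rfl⟩
  rw [← hr, ← hT] at k1 k2
  rw [← hT] at hcon
  have k1' : (3 : ℝ) ^ r ≤ T := by exact_mod_cast k1
  have hF0 : (0 : ℝ) < Nat.fermatNumber m := by
    have := Nat.three_le_fermatNumber m
    exact_mod_cast (by omega : 0 < Nat.fermatNumber m)
  -- bound for `r`
  have hlt : (r : ℝ) * Real.log 3 < c * Real.log y := by
    have h4 : (3 : ℝ) ^ r < y ^ c := k1'.trans_lt hcon
    have h5 := Real.log_lt_log (by positivity) h4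
    rwa [Real.log_pow, Real.log_rpow hy0] at h5
  -- lower bound for `(2/3)^r`
  have hpow : y ^ (-(c * Real.log (3 / 2) / Real.log 3)) ≤ (2 / 3 : ℝ) ^ r := by
    rw [Real.rpow_def_of_pos hy0, ← Real.rpow_natCast, Real.rpow_def_of_pos (by norm_num)]
    apply Real.exp_le_exp.mpr
    have e1 : Real.log (2 / 3) = - Real.log (3 / 2) := by
      rw [← Real.log_inv]; norm_num
    rw [e1]
    have h6 : (r : ℝ) ≤ c * Real.log y / Real.log 3 := by
      rw [le_div_iff₀ h3]; exact hlt.le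
    have h7 : Real.log (3 / 2) * r ≤ Real.log (3 / 2) * (c * Real.log y / Real.log 3) := by
      gcongr
    have e2 : Real.log y * -(c * Real.log (3 / 2) / Real.log 3) =
        - (Real.log (3 / 2) * (c * Real.log y / Real.log 3)) := by ring
    rw [e2]
    linarith
  have h8 : Real.exp (3 / 4 * y ^ (1 - c * Real.log (3 / 2) / Real.log 3)) ≤
      (Nat.fermatNumber m : ℝ) ^ ((3 / 4 : ℝ) * (2 / 3 : ℝ) ^ r) := by
    rw [Real.rpow_def_of_pos hF0, ← hy]
    apply Real.exp_le_exp.mpr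
    rw [show (1 : ℝ) - c * Real.log (3 / 2) / Real.log 3 =
      1 + -(c * Real.log (3 / 2) / Real.log 3) by ring, Real.rpow_add hy0, Real.rpow_one]
    calc 3 / 4 * (y * y ^ (-(c * Real.log (3 / 2) / Real.log 3)))
        ≤ 3 / 4 * (y * (2 / 3 : ℝ) ^ r) := by gcongr
      _ = _ := by ring
  have hT0 : (0 : ℝ) ≤ T := Nat.cast_nonneg T
  have h9 : (4 / 3 : ℝ) ^ r * T ≤ T * T := by
    have : (4 / 3 : ℝ) ^ r ≤ 3 ^ r := pow_le_pow_left₀ (by norm_num) (by norm_num) r
    exact mul_le_mul_of_nonneg_right (this.trans k1') hT0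
  have h10 : (T : ℝ) * T < y ^ (2 * c) := by
    rw [two_mul, Real.rpow_add hy0]
    have hTpos : (0 : ℝ) < T := lt_of_lt_of_le (by positivity) k1'
    exact mul_lt_mul'' hcon hcon hT0 hT0
  linarith

end Pool.Agent.J4.H35.FO
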