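import Mathlib
import Pool.Agent.J4.H35.FermatOdd3

/-!
# The totient of a composite Fermat number is far from being a power of two

`F_m = 2 ^ (2 ^ m) + 1`. By Gauss the regular `F_m`-gon is constructible, and `F_m` is prime, if and
only if `φ(F_m)` is a power of two, that is if its odd part is `1`. We show that otherwise the odd
part of `φ(F_m)` is large: at least about `F_m ^ ((3/4) (2/3) ^ r)` if `F_m` has `r` prime factors,
and at least `(log F_m) ^ c` for every `c < log 3 / log (3/2) = 2.7095...` and all large `m`, without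
any hypothesis on the number of prime factors. So `F_m` has few bases to which it is a pseudoprime.

Proof. Let `F_m = d_1 ⋯ d_r`, `d_i = 1 + k_i 2 ^ n_i` with `k_i` odd and `n_1 ≤ ⋯ ≤ n_r`, and
`P_t = d_1 ⋯ d_t`. The product of the remaining factors is `1` modulo `2 ^ n_(t+1)`, so the same
is true for `P_t`. Fix `1 ≤ j < r` and let `n = n_(j+1)`. Modulo `2 ^ (2 n)` the number `P_t - 1`,
`t ≥ j`, is the sum `S_t` of `P_j - 1` and of the `d_i - 1` with `j < i ≤ t`. As long as
`n_(t+1) ≤ 2 n`, the number `2 ^ n_(t+1)` divides `S_t`, so `S_(t+1) ≤ (1 + k_(t+1)) S_t`; at the end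
`2 ^ (2 n)` divides `S_t`. Hence `2 ^ (2 n_(j+1)) ≤ P_j ∏_(i > j) (1 + k_i) ≤ 2 ^ (n_1 + ⋯ + n_j) K`
with `K = ∏ (1 + k_i)`: the exponents grow at most by a factor `3/2` from one partial sum to the
next, and the first one is at most `log_2 K`.
-/

set_option autoImplicit false

namespace Pool.Agent.J4.H35.OddPartOfTotient

open Finset Filter Topology Pool.Agent.J4.H35

/-- The odd part of a natural number: `x` divided by the largest power of `2` that divides it. -/
def oddPart (x : ℕ) : ℕ := x / 2 ^ x.factorization 2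

/-- (1) For every factorisation `F_m = ∏ d_i` into `r ≥ 2` factors `d_i > 1`, with `k_i` the odd
part of `d_i - 1`: `∏ (1 + k_i) ≥ F_m ^ ((3/4) (2/3) ^ r)`.

(2) If `F_m` is composite and `r` is the number of its prime factors, counted with multiplicity,
then the odd part `K` of `φ(F_m)` satisfies `K ≥ 3 ^ r` and `(4/3) ^ r K ≥ F_m ^ ((3/4) (2/3) ^ r)`.

(3) Let `0 < c < log 3 / log (3/2) = 2.7095...`. For all large `m` the number `F_m` is prime if and
only if the odd part of `φ(F_m)` is less than `(log F_m) ^ c`, and if `F_m` is composite then it is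
a pseudoprime to few bases: at most `F_m / (log F_m) ^ c` residues `b` modulo `F_m` satisfy
`b ^ (F_m - 1) ≡ 1`. -/
theorem result :
    (∀ (m r : ℕ) (d : Fin r → ℕ), 2 ≤ r → (∀ i, 1 < d i) → ∏ i, d i = Nat.fermatNumber m →
      (Nat.fermatNumber m : ℝ) ^ ((3 / 4 : ℝ) * (2 / 3 : ℝ) ^ r) ≤
        ∏ i, (1 + (oddPart (d i - 1) : ℝ))) ∧
    (∀ m : ℕ, ¬ (Nat.fermatNumber m).Prime →
      ∀ r : ℕ, r = (Nat.fermatNumber m).primeFactorsList.length →
        3 ^ r ≤ oddPart (Nat.fermatNumber m).totient ∧
        (Nat.fermatNumber m : ℝ) ^ ((3 / 4 : ℝ) * (2 / 3 : ℝ) ^ r) ≤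
          (4 / 3 : ℝ) ^ r * oddPart (Nat.fermatNumber m).totient) ∧
    (∀ c : ℝ, 0 < c → c < Real.log 3 / Real.log (3 / 2) → ∀ᶠ m : ℕ in atTop,
      ((Nat.fermatNumber m).Prime ↔
        (oddPart (Nat.fermatNumber m).totient : ℝ) < Real.log (Nat.fermatNumber m) ^ c) ∧
      (¬ (Nat.fermatNumber m).Prime →
        (Set.ncard {b : ZMod (Nat.fermatNumber m) | b ^ (Nat.fermatNumber m - 1) = 1} : ℝ) ≤
          Nat.fermatNumber m / Real.log (Nat.fermatNumber m) ^ c)) := by
  refine ⟨?_, ?_, ?_⟩
  · intro m r d hr hd hp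
    have hF : Nat.fermatNumber m = 1 + 2 ^ (2 ^ m) := by rw [Nat.fermatNumber, add_comm]
    have h1 := FO.fin_main r (2 ^ m) hr Nat.one_le_two_pow d hd (by rw [hp, hF])
    rw [← hF] at h1
    have h2 := FO.real_root r (by omega) _ _ h1
    push_cast at h2
    exact h2
  · intro m hF r hr
    rw [hr]
    exact FO.totient_main m hF
  · intro c hc hcA
    filter_upwards [FO.odd_lower c hc hcA, FO.tendsto_logF.eventually (eventually_gt_atTop 1)]
      with m h1 h2
    have hFpos : 0 < Nat.fermatNumber m := by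
      have := Nat.three_le_fermatNumber m
      omega
    have hpos : 0 < Real.log (Nat.fermatNumber m) ^ c := Real.rpow_pos_of_pos (by linarith) c
    refine ⟨⟨fun hp => ?_, fun hlt => ?_⟩, fun hF => ?_⟩
    · have h3 : oddPart (Nat.fermatNumber m).totient = 1 := by
        rw [Nat.totient_prime hp, Nat.fermatNumber, Nat.add_sub_cancel]
        unfold oddPart
        rw [Nat.Prime.factorization_pow Nat.prime_two]
        simp
      rw [h3, Nat.cast_one]
      exact Real.one_lt_rpow h2 hc
    · by_contra hF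
      exact absurd (h1 hF) (not_le.mpr hlt)
    · rw [le_div_iff₀ hpos]
      have h3 := FO.liars (Nat.fermatNumber m) (2 ^ m) hFpos.ne'
      have h4 : Nat.fermatNumber m - 1 = 2 ^ (2 ^ m) := by
        rw [Nat.fermatNumber, Nat.add_sub_cancel]
      rw [h4]
      calc (Set.ncard {b : ZMod (Nat.fermatNumber m) | b ^ (2 ^ (2 ^ m)) = 1} : ℝ) *
            Real.log (Nat.fermatNumber m) ^ c
          ≤ (Set.ncard {b : ZMod (Nat.fermatNumber m) | b ^ (2 ^ (2 ^ m)) = 1} : ℝ) *
            (FO.oddPart (Nat.fermatNumber m).totient : ℝ) := by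
            gcongr
            exact h1 hF
        _ ≤ Nat.fermatNumber m := by exact_mod_cast h3

end Pool.Agent.J4.H35.OddPartOfTotient
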