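import Pool.Agent.N666.PS.Near

set_option autoImplicit false

/-!
Exponential sums and additive energies of `α n ^ c`, uniformly in `α`, for every real exponent `c` which is
not a natural number (helper35). The proofs are those of `N666/PS` for fixed generalised polynomials.
-/

namespace Pool.Agent.J4.H35.PP

open Finset Filter
open Pool.Agent.H469R2.NK (e Cq Cq_pos norm_sum_neg)
open Pool.Agent.TH915.PW (Hy)
open Pool.Agent.N666.PS
open Pool.Agent.TH935.GF (En)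

lemma cc_ne {c : ℝ} (hn : ∀ m : ℕ, c ≠ m) (m : ℕ) : cc c m ≠ 0 := by
  unfold cc
  exact prod_ne_zero_iff.2 fun j _ => sub_ne_zero.2 (hn j)

/-- size of powers on dyadic intervals -/
lemma rpow_size (s : ℝ) : ∃ lo hi : ℝ, 0 < lo ∧ 0 < hi ∧ ∀ X : ℝ, 0 < X → ∀ t ∈ Set.Icc (X / 2) (2 * X),
    lo * X ^ s ≤ t ^ s ∧ t ^ s ≤ hi * X ^ s := by
  obtain ⟨u, hu⟩ : ∃ u : ℝ, u = (1 / 2) ^ s := ⟨_, rfl⟩
  obtain ⟨v, hv⟩ : ∃ v : ℝ, v = 2 ^ s := ⟨_, rfl⟩
  have hu0 : 0 < u := by rw [hu]; positivity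
  have hv0 : 0 < v := by rw [hv]; positivity
  refine ⟨min u v, max u v, by positivity, by positivity, fun X hX0 t ht => ?_⟩
  have hX2 : 0 < X / 2 := by linarith
  have ht0 : 0 < t := hX2.trans_le ht.1
  have hXp : 0 < X ^ s := Real.rpow_pos_of_pos hX0 _
  have e2 : (X / 2) ^ s = u * X ^ s := by
    rw [hu, ← Real.mul_rpow (by norm_num) hX0.le]
    congr 1
    ring
  have e3 : (2 * X) ^ s = v * X ^ s := by
    rw [hv, ← Real.mul_rpow (by norm_num) hX0.le]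
  rcases le_total 0 s with h0 | h0
  · constructor
    · calc min u v * X ^ s ≤ u * X ^ s := by
            gcongr; exact min_le_left _ _
        _ = (X / 2) ^ s := e2.symm
        _ ≤ t ^ s := Real.rpow_le_rpow hX2.le ht.1 h0
    · calc t ^ s ≤ (2 * X) ^ s := Real.rpow_le_rpow ht0.le ht.2 h0
        _ = v * X ^ s := e3
        _ ≤ _ := by gcongr; exact le_max_right _ _
  · constructor
    · calc min u v * X ^ s ≤ v * X ^ s := by
            gcongr; exact min_le_right _ _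
        _ = (2 * X) ^ s := e3.symm
        _ ≤ t ^ s := Real.rpow_le_rpow_of_nonpos ht0 ht.2 h0
    · calc t ^ s ≤ (X / 2) ^ s := Real.rpow_le_rpow_of_nonpos hX2 ht.1 h0
        _ = u * X ^ s := e2
        _ ≤ _ := by gcongr; exact le_max_left _ _

/-- the inequality of van der Corput for all orders -/
lemma vdc {c : ℝ} (hn : ∀ m : ℕ, c ≠ m) (j : ℕ) :
    ∃ lo hi : ℝ, 0 < lo ∧ 0 < hi ∧ ∀ X : ℝ, 2 ≤ X → ∀ N : ℕ, (N : ℝ) = X → ∀ θ : ℝ, 0 < θ →
      ∀ L ≤ N, ∀ H : ℕ, 1 ≤ H → (H : ℝ) ≤ X →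
      2 * (hi * (θ * X ^ (c - (j + 1 : ℕ))) * (H : ℝ) ^ j) ≤ 1 →
      (‖∑ n ∈ range L, e (θ * (X + n) ^ c)‖ / X) ^ (2 ^ j) ≤
        Cq j * (1 / H + 2 / (lo * (θ * X ^ (c - (j + 1 : ℕ)))) / X * ((1 + Real.log H) / H) ^ j) := by
  obtain ⟨lo, hi, hlo, hhi, hb⟩ := rpow_size (c - (j + 1 : ℕ))
  -- the sign
  obtain ⟨σ, hσ1, hσ2⟩ : ∃ σ : ℝ, (σ = 1 ∨ σ = -1) ∧ 0 < σ * cc c (j + 1) := by
    rcases lt_or_gt_of_ne (cc_ne hn (j + 1)) with h | h
    · exact ⟨-1, Or.inr rfl, by linarith⟩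
    · exact ⟨1, Or.inl rfl, by linarith⟩
  obtain ⟨D, hD⟩ : ∃ D, D = σ * cc c (j + 1) := ⟨_, rfl⟩
  rw [← hD] at hσ2
  have hφ1 : ∀ t, pw σ c (j + 1) t = D * t ^ (c - (j + 1 : ℕ)) := by
    intro t
    rw [hD]
    unfold pw cc
    ring
  have hφ2 : ∀ t, pw σ c (j + 2) t = D * (c - (j + 1 : ℕ)) * t ^ (c - (j + 2 : ℕ)) := by
    intro t
    rw [hD]
    unfold pw cc
    rw [show j + 2 = (j + 1) + 1 by ring, prod_range_succ]
    ring
  have hφ0 : ∀ t, pw σ c 0 t = σ * t ^ c := by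
    intro t
    unfold pw
    simp
  refine ⟨D * lo, D * hi, by positivity, by positivity, ?_⟩
  intro X hX N hN θ hθ L hL H hH hHX hup
  have hX0 : 0 < X := by linarith
  have hp : 0 < X ^ (c - (j + 1 : ℕ)) := Real.rpow_pos_of_pos hX0 _
  have hN1 : 1 ≤ N := by
    have : (1 : ℝ) ≤ N := by rw [hN]; linarith
    exact_mod_cast this
  have hLX : (L : ℝ) ≤ X := by rw [← hN]; exact_mod_cast hL
  have hlo' : ∀ t ∈ Set.Icc (X / 2) (2 * X), D * lo * X ^ (c - (j + 1 : ℕ)) ≤ pw σ c (j + 1) t := by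
    intro t ht
    rw [hφ1, mul_assoc]
    exact mul_le_mul_of_nonneg_left (hb X hX0 t ht).1 hσ2.le
  have hhi' : ∀ t ∈ Set.Icc (X / 2) (2 * X), pw σ c (j + 1) t ≤ D * hi * X ^ (c - (j + 1 : ℕ)) := by
    intro t ht
    rw [hφ1, mul_assoc]
    exact mul_le_mul_of_nonneg_left (hb X hX0 t ht).2 hσ2.le
  have hnorm : ‖∑ n ∈ range L, e (θ * pw σ c 0 (X + n))‖ = ‖∑ n ∈ range L, e (θ * (X + n) ^ c)‖ := by
    have h1 := norm_sum_sign σ hσ1 L (fun n => θ * (X + n) ^ c)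
    rw [← h1]
    congr 1
    refine sum_congr rfl fun n _ => ?_
    rw [hφ0]
    congr 1
    ring
  rw [← hnorm]
  rcases le_or_gt ((j + 1 : ℕ) : ℝ) c with hlt | hge
  · have hHy : Hy' j (X / 2) (2 * X) (D * lo * X ^ (c - (j + 1 : ℕ))) (D * hi * X ^ (c - (j + 1 : ℕ)))
        (pw σ c) := by
      refine ⟨fun m _ t ht => pw_der σ c m t ((by linarith : 0 < X / 2).trans_le ht.1), hlo',
        hhi', fun t ht => ?_⟩
      rw [hφ2]
      have ht0 : 0 < t := (by linarith : 0 < X / 2).trans_le ht.1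
      have : 0 ≤ c - (j + 1 : ℕ) := by linarith
      positivity
    have key := exp_bound_inc (by positivity) (by positivity) θ hθ hHy X N L H hN1 hL (by linarith)
      (by linarith) hH (by rw [← hN] at hHX; exact_mod_cast hHX) (by
        refine le_trans (le_of_eq ?_) hup
        ring)
    rw [hN] at key
    refine key.trans (le_of_eq ?_)
    congr 3
    ring
  · have hHy : Hy j (X / 2) (2 * X) (D * lo * X ^ (c - (j + 1 : ℕ))) (D * hi * X ^ (c - (j + 1 : ℕ)))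
        (pw σ c) := by
      refine ⟨fun m _ t ht => pw_der σ c m t ((by linarith : 0 < X / 2).trans_le ht.1), hlo',
        hhi', fun t ht => ?_⟩
      rw [hφ2]
      have ht0 : 0 < t := (by linarith : 0 < X / 2).trans_le ht.1
      have h1 : c - (j + 1 : ℕ) ≤ 0 := by linarith
      exact mul_nonpos_of_nonpos_of_nonneg (mul_nonpos_of_nonneg_of_nonpos hσ2.le h1) (by positivity)
    have key := exp_bound' (by positivity) (by positivity) θ hθ hHy X N L H hN1 hL (by linarith)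
      (by linarith) hH (by rw [← hN] at hHX; exact_mod_cast hHX) (by
        refine le_trans (le_of_eq ?_) hup
        ring)
    rw [hN] at key
    refine key.trans (le_of_eq ?_)
    congr 3
    ring

/-- the power savings of all orders at once -/
lemma saving {c : ℝ} (hn : ∀ m : ℕ, c ≠ m) (δ : ℝ) (hδ : 0 < δ) (hδ1 : δ ≤ 1 / 2) (K : ℕ) :
    ∃ η : ℝ, 0 < η ∧ ∀ᶠ X : ℝ in atTop, ∀ N : ℕ, (N : ℝ) = X → ∀ θ : ℝ, 0 < θ →
      ∀ L ≤ N, ∀ j : ℕ, 1 ≤ j → j ≤ K → X ^ (-1 - δ) ≤ θ * X ^ (c - (j + 1 : ℕ)) →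
        θ * X ^ (c - (j + 1 : ℕ)) ≤ X ^ (-δ) →
      ‖∑ n ∈ range L, e (θ * (X + n) ^ c)‖ ≤ X ^ (1 - η) := by
  induction K with
  | zero =>
    refine ⟨1, one_pos, Eventually.of_forall ?_⟩
    intro X N _ θ _ L _ j h1 h2
    omega
  | succ K ih =>
    obtain ⟨η, hη, h1⟩ := ih
    obtain ⟨lo, hi, hlo, hhi, h2⟩ := vdc hn (K + 1)
    obtain ⟨η', hη', h3⟩ := core (K + 1) (by omega) lo hi δ (Cq (K + 1)) hlo hhi hδ hδ1 (Cq_pos _).le
    refine ⟨min η η', lt_min hη hη', ?_⟩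
    filter_upwards [h1, h3, eventually_ge_atTop (2 : ℝ)] with X e1 e3 hX2 N hN θ hθ L hL j hj1 hj2 hl1 hl2
    have hX : 1 ≤ X := by linarith
    rcases Nat.lt_or_ge j (K + 1) with hlt | hge
    · refine (e1 N hN θ hθ L hL j hj1 (by omega) hl1 hl2).trans ?_
      apply Real.rpow_le_rpow_of_exponent_le hX
      have := min_le_left η η'
      linarith
    · have hjK : j = K + 1 := le_antisymm hj2 hge
      subst hjK
      refine (e3 _ hl1 hl2 _ (norm_nonneg _) (fun H hH hHX hup => h2 X hX2 N hN θ hθ L hL H hH hHX hup)).trans ?_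
      apply Real.rpow_le_rpow_of_exponent_le hX
      have := min_le_right η η'
      linarith

/-- **Exponential sums.** -/
theorem exp_main {c : ℝ} (hn : ∀ m : ℕ, c ≠ m) (K₀ : ℝ) :
    ∃ η C : ℝ, 0 < η ∧ 0 < C ∧ ∀ᶠ X : ℝ in atTop, ∀ N : ℕ, (N : ℝ) = X → ∀ θ : ℝ, 0 < θ →
      θ * X ^ c ≤ X ^ K₀ →
      ∀ L ≤ N, ‖∑ n ∈ range L, e (θ * (X + n) ^ c)‖ ≤ C * (X ^ (1 - c) / θ) + X ^ (1 - η) := by
  obtain ⟨k, hk⟩ : ∃ k : ℕ, k = ⌈K₀⌉₊ + 1 := ⟨_, rfl⟩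
  have hk1 : 1 ≤ k := by omega
  have hkc : K₀ + 1 ≤ k := by
    rw [hk]
    push_cast
    have := Nat.le_ceil K₀
    linarith
  obtain ⟨δ, hδd⟩ : ∃ δ : ℝ, δ = 1 / 2 := ⟨_, rfl⟩
  have hδ : 0 < δ := by rw [hδd]; norm_num
  have hδ1 : δ ≤ 1 / 2 := hδd.le
  obtain ⟨η, hη, h1⟩ := saving hn δ hδ hδ1 k
  obtain ⟨lo, hi, hlo, hhi, e2⟩ := vdc hn 0
  have hC0 := Cq_pos 0
  refine ⟨η, Cq 0 * (1 / (2 * hi) + 2 / lo), hη, by positivity, ?_⟩
  filter_upwards [h1, eventually_ge_atTop (2 : ℝ), ev_pow (-1 - δ) (-1) (2 * hi) (by linarith)]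
    with X e1 hX2 e3 N hN θ hθ hθ1 L hL
  have hX : 1 ≤ X := by linarith
  have hX0 : 0 < X := by linarith
  have hXc : 0 < X ^ (1 - c) := Real.rpow_pos_of_pos hX0 _
  have hXη : 0 < X ^ (1 - η) := Real.rpow_pos_of_pos hX0 _
  rcases le_or_gt θ (X ^ (1 - c) / (2 * hi)) with hA | hB
  · -- small frequencies
    have hN1 : 1 ≤ N := by
      have : (1 : ℝ) ≤ N := by rw [hN]; exact hX
      exact_mod_cast this
    have e4 : X ^ (1 - c) * X ^ (c - 1) = 1 := by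
      rw [← Real.rpow_add hX0]; simp
    have hXc1 : 0 < X ^ (c - 1) := Real.rpow_pos_of_pos hX0 _
    have key := e2 X hX2 N hN θ hθ L hL N hN1 hN.le (by
      simp only [zero_add, Nat.cast_one, pow_zero, mul_one]
      rw [le_div_iff₀ (by positivity)] at hA
      calc 2 * (hi * (θ * X ^ (c - 1))) = (θ * (2 * hi)) * X ^ (c - 1) := by ring
        _ ≤ X ^ (1 - c) * X ^ (c - 1) := by gcongr
        _ = 1 := e4)
    simp only [pow_zero, pow_one, zero_add, Nat.cast_one, mul_one] at key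
    rw [div_le_iff₀ hX0, hN] at key
    have e5 : X ^ (c - 1) = 1 / X ^ (1 - c) := by
      rw [eq_div_iff hXc.ne', mul_comm]; exact e4
    have e6 : 1 ≤ 1 / (2 * hi) * (X ^ (1 - c) / θ) := by
      have h7 : 1 / (2 * hi) * (X ^ (1 - c) / θ) = (X ^ (1 - c) / (2 * hi)) / θ := by ring
      rw [h7, one_le_div hθ]
      exact hA
    calc ‖∑ n ∈ range L, e (θ * (X + n) ^ c)‖
        ≤ Cq 0 * (1 / X + 2 / (lo * (θ * X ^ (c - 1))) / X) * X := key
      _ = Cq 0 * (1 + 2 / lo * (X ^ (1 - c) / θ)) := by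
          rw [e5]
          field_simp
      _ ≤ Cq 0 * (1 / (2 * hi) * (X ^ (1 - c) / θ) + 2 / lo * (X ^ (1 - c) / θ)) := by
          gcongr
      _ = Cq 0 * (1 / (2 * hi) + 2 / lo) * (X ^ (1 - c) / θ) := by ring
      _ ≤ _ := by linarith
  · -- the other frequencies
    have hkk : 1 ≤ k ∧ θ * X ^ (c - (k + 1 : ℕ)) ≤ X ^ (-δ) := by
      refine ⟨hk1, ?_⟩
      calc θ * X ^ (c - (k + 1 : ℕ)) = (θ * X ^ c) * X ^ (-((k + 1 : ℕ) : ℝ)) := by
            rw [mul_assoc, ← Real.rpow_add hX0]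
            rfl
        _ ≤ X ^ K₀ * X ^ (-((k + 1 : ℕ) : ℝ)) := by gcongr
        _ = X ^ (K₀ + -((k + 1 : ℕ) : ℝ)) := by rw [Real.rpow_add hX0]
        _ ≤ X ^ (-δ) := by
            apply Real.rpow_le_rpow_of_exponent_le hX
            push_cast
            linarith
    have hex : ∃ j : ℕ, 1 ≤ j ∧ θ * X ^ (c - (j + 1 : ℕ)) ≤ X ^ (-δ) := ⟨k, hkk⟩
    classical
    obtain ⟨j, hj⟩ : ∃ j : ℕ, j = Nat.find hex := ⟨_, rfl⟩
    have hj1 := Nat.find_spec hex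
    rw [← hj] at hj1
    have hjk : j ≤ k := by
      rw [hj]
      exact Nat.find_min' hex hkk
    have hlow : X ^ (-1 - δ) ≤ θ * X ^ (c - (j + 1 : ℕ)) := by
      rcases Nat.lt_or_ge 1 j with hgt | hle
      · have hnot : ¬ (1 ≤ j - 1 ∧ θ * X ^ (c - (j - 1 + 1 : ℕ)) ≤ X ^ (-δ)) :=
          Nat.find_min hex (by omega)
        rw [not_and] at hnot
        have h8 := not_le.mp (hnot (by omega))
        rw [show (j - 1 + 1 : ℕ) = j by omega] at h8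
        have e7 : θ * X ^ (c - (j + 1 : ℕ)) = θ * X ^ (c - j) * X ^ (-1 : ℝ) := by
          rw [mul_assoc, ← Real.rpow_add hX0]
          congr 2
          push_cast
          ring
        have e8 : X ^ (-1 - δ) = X ^ (-δ) * X ^ (-1 : ℝ) := by
          rw [← Real.rpow_add hX0]
          congr 1
          ring
        rw [e7, e8]
        gcongr
      · have hj11 : j = 1 := le_antisymm hle hj1.1
        rw [hj11]
        rw [div_lt_iff₀ (by positivity)] at hB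
        have e7 : X ^ (1 - c) * X ^ (c - (1 + 1 : ℕ)) = X ^ (-1 : ℝ) := by
          rw [← Real.rpow_add hX0]
          congr 1
          push_cast
          ring
        have h9 : 2 * hi * X ^ (-1 - δ) ≤ 2 * hi * (θ * X ^ (c - (1 + 1 : ℕ))) := by
          calc 2 * hi * X ^ (-1 - δ) ≤ X ^ (-1 : ℝ) := e3
            _ = X ^ (1 - c) * X ^ (c - (1 + 1 : ℕ)) := e7.symm
            _ ≤ (θ * (2 * hi)) * X ^ (c - (1 + 1 : ℕ)) := by gcongr
            _ = _ := by ring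
        exact le_of_mul_le_mul_left h9 (by positivity)
    have key := e1 N hN θ hθ L hL j hj1.1 hjk hlow hj1.2
    have : 0 ≤ Cq 0 * (1 / (2 * hi) + 2 / lo) * (X ^ (1 - c) / θ) := by positivity
    linarith

/-- **The energy.** -/
theorem energy_main {c : ℝ} (hn : ∀ m : ℕ, c ≠ m) (K₀ : ℝ) :
    ∃ r : ℕ, 1 ≤ r ∧ ∀ w : ℝ, 1 ≤ w → ∃ K : ℝ, 0 < K ∧ ∀ᶠ X : ℝ in atTop, ∀ N : ℕ, (N : ℝ) = X →
      ∀ α : ℝ, 0 < α → 1 ≤ α * X ^ c → α * X ^ c ≤ X ^ K₀ →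
      (cl r (fun i : Fin N => α * (X + (i : ℕ)) ^ c) w : ℝ) ≤ K * (X ^ (2 * r) / (α * X ^ c)) := by
  obtain ⟨η, C, hη, hC, h1⟩ := exp_main hn K₀
  obtain ⟨r, hrd⟩ : ∃ r : ℕ, r = ⌈|K₀| / η⌉₊ + 1 := ⟨_, rfl⟩
  have hr1 : 1 ≤ r := by omega
  refine ⟨r, hr1, fun w hw => ?_⟩
  have hrη : K₀ ≤ 2 * r * η := by
    have h2 : |K₀| / η ≤ ⌈|K₀| / η⌉₊ := Nat.le_ceil _
    have h3 : ((⌈|K₀| / η⌉₊ + 1 : ℕ) : ℝ) = r := by rw [hrd]
    push_cast at h3
    rw [div_le_iff₀ hη] at h2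
    have h4 : (⌈|K₀| / η⌉₊ : ℝ) * η ≤ r * η := by
      apply mul_le_mul_of_nonneg_right _ hη.le
      linarith
    have h5 : 0 ≤ (r : ℝ) * η := by positivity
    have h6 := le_abs_self K₀
    linarith
  obtain ⟨D, hD⟩ : ∃ D : ℝ, D = 16 * w * C := ⟨_, rfl⟩
  have hD0 : 0 < D := by rw [hD]; positivity
  refine ⟨4 * (1 + 2 ^ (2 * r) * D ^ (2 * r) * 2) + 4 * 2 ^ (2 * r), by positivity, ?_⟩
  filter_upwards [h1, eventually_ge_atTop (1 : ℝ)] with X e1 hX N hN α hα hT1 hT2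
  have hX0 : 0 < X := by linarith
  obtain ⟨T, hT⟩ : ∃ T : ℝ, T = α * X ^ c := ⟨_, rfl⟩
  rw [← hT] at hT1 hT2 ⊢
  have hT0 : 0 < T := by linarith
  obtain ⟨R, hR⟩ : ∃ R : ℕ, R = ⌈T⌉₊ := ⟨_, rfl⟩
  have hR1 : T ≤ R := by rw [hR]; exact Nat.le_ceil _
  have hR2 : (R : ℝ) ≤ 2 * T := by
    have := Nat.ceil_lt_add_one hT0.le
    rw [← hR] at this
    linarith
  have hR0 : (1 : ℝ) ≤ R := hT1.trans hR1
  have hRn : 1 ≤ R := by exact_mod_cast hR0
  refine (cl_le r _ w (by linarith) R hRn).trans ?_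
  have hXr : 0 < X ^ (2 * r) := by positivity
  have hS0 : ‖Fz (fun i : Fin N => α * (X + (i : ℕ)) ^ c) 0‖ ^ (2 * r) = X ^ (2 * r) := by
    rw [Fz_zero, Fintype.card_fin, Complex.norm_natCast, hN]
  have hS : ∀ m : ℕ, 1 ≤ m → m < R → ‖Fz (fun i : Fin N => α * (X + (i : ℕ)) ^ c) (m / (8 * w * R))‖ ^ (2 * r) ≤
      2 ^ (2 * r) * (D ^ (2 * r) * X ^ (2 * r) * (((m : ℝ) ^ 2)⁻¹) + X ^ (2 * r) / T) := by
    intro m hm hmR
    have hm' : (1 : ℝ) ≤ m := by exact_mod_cast hm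
    have hmR' : (m : ℝ) ≤ R := by exact_mod_cast hmR.le
    have hθ0 : 0 < (m : ℝ) / (8 * w * R) := by positivity
    have hθ1 : (m : ℝ) / (8 * w * R) ≤ 1 := by
      rw [div_le_one (by positivity)]
      nlinarith
    have e2 := e1 N hN (m / (8 * w * R) * α) (by positivity) (by
      calc (m : ℝ) / (8 * w * R) * α * X ^ c = (m : ℝ) / (8 * w * R) * T := by rw [hT]; ring
        _ ≤ 1 * T := mul_le_mul_of_nonneg_right hθ1 hT0.le
        _ ≤ X ^ K₀ := by rw [one_mul]; exact hT2) N le_rfl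
    have e3 : Fz (fun i : Fin N => α * (X + (i : ℕ)) ^ c) (m / (8 * w * R)) =
        ∑ n ∈ range N, e (m / (8 * w * R) * α * (X + n) ^ c) := by
      unfold Fz
      rw [← Fin.sum_univ_eq_sum_range (fun n => e ((m : ℝ) / (8 * w * R) * α * (X + (n : ℕ)) ^ c))]
      refine sum_congr rfl fun i _ => ?_
      congr 1
      ring
    rw [e3]
    have e4 : C * (X ^ (1 - c) / (m / (8 * w * R) * α)) ≤ D * X / m := by
      have h5 : X ^ (1 - c) / α = X / T := by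
        rw [hT, div_eq_div_iff hα.ne' (by positivity)]
        calc X ^ (1 - c) * (α * X ^ c) = α * (X ^ (1 - c) * X ^ c) := by ring
          _ = α * X := by rw [← Real.rpow_add hX0]; simp
          _ = X * α := mul_comm _ _
      calc C * (X ^ (1 - c) / (m / (8 * w * R) * α)) = C * ((X ^ (1 - c) / α) * (8 * w * R) / m) := by
            field_simp
        _ = 8 * w * C * X * (R / T) / m := by rw [h5]; ring
        _ ≤ 8 * w * C * X * 2 / m := by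
            gcongr
            rw [div_le_iff₀ hT0]
            exact hR2
        _ = D * X / m := by rw [hD]; ring
    have h7 : 0 < X ^ (1 - η) := Real.rpow_pos_of_pos hX0 _
    have h8 : (X ^ (1 - η)) ^ (2 * r) ≤ X ^ (2 * r) / T := by
      rw [le_div_iff₀ hT0]
      calc (X ^ (1 - η)) ^ (2 * r) * T ≤ (X ^ (1 - η)) ^ (2 * r) * X ^ (2 * r * η) := by
            gcongr
            exact hT2.trans (Real.rpow_le_rpow_of_exponent_le hX hrη)
        _ = X ^ (2 * r) := by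
            rw [← Real.rpow_natCast, ← Real.rpow_mul hX0.le, ← Real.rpow_add hX0, ← Real.rpow_natCast]
            congr 1
            push_cast
            ring
    have h9 : ((m : ℝ) ^ (2 * r))⁻¹ ≤ ((m : ℝ) ^ 2)⁻¹ := by
      apply inv_anti₀ (by positivity)
      apply pow_le_pow_right₀ hm'
      omega
    calc ‖∑ n ∈ range N, e (m / (8 * w * R) * α * (X + n) ^ c)‖ ^ (2 * r)
        ≤ (D * X / m + X ^ (1 - η)) ^ (2 * r) := by
          apply pow_le_pow_left₀ (norm_nonneg _)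
          linarith
      _ ≤ 2 ^ (2 * r - 1) * ((D * X / m) ^ (2 * r) + (X ^ (1 - η)) ^ (2 * r)) :=
          add_pow_le (by positivity) h7.le _
      _ ≤ 2 ^ (2 * r) * (D ^ (2 * r) * X ^ (2 * r) * (((m : ℝ) ^ 2)⁻¹) + X ^ (2 * r) / T) := by
          have h10 : (2 : ℝ) ^ (2 * r - 1) ≤ 2 ^ (2 * r) := pow_le_pow_right₀ (by norm_num) (by omega)
          have h11 : (D * X / m) ^ (2 * r) ≤ D ^ (2 * r) * X ^ (2 * r) * (((m : ℝ) ^ 2)⁻¹) := by
            rw [div_pow, mul_pow, div_eq_mul_inv]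
            gcongr
          gcongr
  have hsplit : ∑ m ∈ range R, ‖Fz (fun i : Fin N => α * (X + (i : ℕ)) ^ c) (m / (8 * w * R))‖ ^ (2 * r) ≤
      X ^ (2 * r) + 2 ^ (2 * r) * (D ^ (2 * r) * X ^ (2 * r) * 2 + R * (X ^ (2 * r) / T)) := by
    have hr' : range R = insert 0 (Ioo 0 R) := by
      ext m
      simp only [mem_range, mem_insert, mem_Ioo]
      omega
    rw [hr', sum_insert (by simp)]
    simp only [Nat.cast_zero, zero_div]
    rw [hS0]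
    gcongr
    calc ∑ m ∈ Ioo 0 R, ‖Fz (fun i : Fin N => α * (X + (i : ℕ)) ^ c) (m / (8 * w * R))‖ ^ (2 * r)
        ≤ ∑ m ∈ Ioo 0 R, 2 ^ (2 * r) * (D ^ (2 * r) * X ^ (2 * r) * (((m : ℝ) ^ 2)⁻¹) + X ^ (2 * r) / T) := by
          apply sum_le_sum
          intro m hm
          rw [mem_Ioo] at hm
          exact hS m (by omega) hm.2
      _ = 2 ^ (2 * r) * (D ^ (2 * r) * X ^ (2 * r) * (∑ m ∈ Ioo 0 R, ((m : ℝ) ^ 2)⁻¹) +
            (Ioo 0 R).card * (X ^ (2 * r) / T)) := by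
          rw [← mul_sum, sum_add_distrib, ← mul_sum, sum_const, nsmul_eq_mul]
      _ ≤ _ := by
          have h13 : ∑ m ∈ Ioo 0 R, ((m : ℝ) ^ 2)⁻¹ ≤ 2 := by
            have := sum_Ioo_inv_sq_le (α := ℝ) 0 R
            simpa using this
          have h14 : (((Ioo 0 R).card : ℕ) : ℝ) ≤ R := by
            rw [Nat.card_Ioo]
            exact_mod_cast (by omega : R - 0 - 1 ≤ R)
          gcongr
  calc 4 / R * ∑ m ∈ range R, ‖Fz (fun i : Fin N => α * (X + (i : ℕ)) ^ c) (m / (8 * w * R))‖ ^ (2 * r)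
      ≤ 4 / R * (X ^ (2 * r) + 2 ^ (2 * r) * (D ^ (2 * r) * X ^ (2 * r) * 2 + R * (X ^ (2 * r) / T))) := by
        gcongr
    _ = 4 * (1 + 2 ^ (2 * r) * D ^ (2 * r) * 2) * (X ^ (2 * r) / R) + 4 * 2 ^ (2 * r) * (X ^ (2 * r) / T) := by
        have h17 : (R : ℝ) ≠ 0 := by positivity
        field_simp
        ring
    _ ≤ 4 * (1 + 2 ^ (2 * r) * D ^ (2 * r) * 2) * (X ^ (2 * r) / T) + 4 * 2 ^ (2 * r) * (X ^ (2 * r) / T) := by
        gcongr
    _ = _ := by ring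

/-- **All the even integers near almost all values.** -/
theorem near_pw {c : ℝ} (hn : ∀ m : ℕ, c ≠ m) (δ K₀ : ℝ) (hδ : 0 < δ) (A W U m₀ : ℕ) (ε : ℝ) (hε : 0 < ε)
    (P : ℕ → Prop) (hP : ∀ m : ℕ, m₀ ≤ m → 2 ∣ m → Pool.Agent.W93.PG.WinP ε A m → P m) :
    ∃ N₀ : ℕ, ∀ N : ℕ, N₀ ≤ N → ∀ α : ℝ, 0 < α → (N : ℝ) ^ δ ≤ α * (N : ℝ) ^ c →
      α * (N : ℝ) ^ c ≤ (N : ℝ) ^ K₀ → ∀ S : Finset (Fin N), (∀ i ∈ S, ∃ m : ℕ, 0 < m ∧ Even m ∧
      |(m : ℝ) - α * ((N : ℝ) + (i : ℕ)) ^ c| ≤ Real.log N ^ W ∧ ¬ P m) → (S.card : ℝ) ≤ N / Real.log N ^ U := by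
  obtain ⟨r, hr1, h1⟩ := energy_main hn K₀
  have hr1' : (1 : ℝ) ≤ r := by exact_mod_cast hr1
  obtain ⟨K, hK, h2⟩ := h1 (2 * r * 1) (by linarith)
  obtain ⟨lo, hi, hlo, hhi, h3⟩ := rpow_size c
  obtain ⟨n1, h5⟩ := Pool.Agent.R459.near_even r A ⌈hi⌉₊ 1 (W + 1) (U + 1) m₀ hr1 ε hε P hP
  have hev : ∀ᶠ X : ℝ in atTop, (n1 : ℝ) ≤ X ^ δ ∧ 1 ≤ X ^ δ ∧ 2 * K ≤ δ * Real.log X ∧ 3 ≤ X ∧
      1 ≤ δ * Real.log X ∧ 2 ≤ δ ^ (W + 1) * Real.log X ∧ 1 ≤ δ ^ (U + 1) * Real.log X ∧ 1 ≤ Real.log X := by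
    have t1 := tendsto_rpow_atTop hδ
    have t2 : Tendsto (fun X : ℝ => δ * Real.log X) atTop atTop :=
      Real.tendsto_log_atTop.const_mul_atTop hδ
    have t3 : Tendsto (fun X : ℝ => δ ^ (W + 1) * Real.log X) atTop atTop :=
      Real.tendsto_log_atTop.const_mul_atTop (by positivity)
    have t4 : Tendsto (fun X : ℝ => δ ^ (U + 1) * Real.log X) atTop atTop :=
      Real.tendsto_log_atTop.const_mul_atTop (by positivity)
    filter_upwards [t1.eventually_ge_atTop (n1 : ℝ), t1.eventually_ge_atTop 1,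
      t2.eventually_ge_atTop (2 * K), eventually_ge_atTop (3 : ℝ), t2.eventually_ge_atTop 1,
      t3.eventually_ge_atTop 2, t4.eventually_ge_atTop 1,
      Real.tendsto_log_atTop.eventually_ge_atTop 1] with X a1 a2 a3 a4 a5 a6 a7 a8
    exact ⟨a1, a2, a3, a4, a5, a6, a7, a8⟩
  obtain ⟨N₀, hN₀⟩ := eventually_atTop.1 (tendsto_natCast_atTop_atTop.eventually (h2.and hev))
  refine ⟨N₀, fun N hN α hα hα1 hα2 S hS => ?_⟩
  obtain ⟨g, b1, b2, b3, b4, b5, b6, b7, b8⟩ := hN₀ N hN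
  have hN0 : (0 : ℝ) < N := by linarith
  obtain ⟨t, ht⟩ : ∃ t : ℝ, t = α * (N : ℝ) ^ c := ⟨_, rfl⟩
  rw [← ht] at hα1 hα2
  have ht1 : 1 ≤ t := b2.trans hα1
  have ht0 : 0 < t := by linarith
  obtain ⟨T, hT⟩ : ∃ T : ℕ, T = ⌈t⌉₊ := ⟨_, rfl⟩
  have hT1 : t ≤ T := by rw [hT]; exact Nat.le_ceil _
  have hT2 : (T : ℝ) ≤ 2 * t := by
    have := Nat.ceil_lt_add_one ht0.le
    rw [← hT] at this
    linarith
  have hTn : n1 ≤ T := by
    have : (n1 : ℝ) ≤ T := b1.trans (hα1.trans hT1)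
    exact_mod_cast this
  have hlog : δ * Real.log N ≤ Real.log T := by
    rw [← Real.log_rpow hN0]
    exact Real.log_le_log (by positivity) (hα1.trans hT1)
  have hlogT1 : 1 ≤ Real.log T := b5.trans hlog
  have hlN : 0 < Real.log N := by linarith
  obtain ⟨v, hv⟩ : ∃ v : Fin N → ℤ, v = fun i : Fin N => ⌊α * ((N : ℝ) + (i : ℕ)) ^ c⌋ := ⟨_, rfl⟩
  have hv1 : ∀ i, |(v i : ℝ) - α * ((N : ℝ) + (i : ℕ)) ^ c| ≤ 1 := by
    intro i
    rw [hv]
    simp only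
    have h7 := Int.floor_le (α * ((N : ℝ) + (i : ℕ)) ^ c)
    have h8 := Int.lt_floor_add_one (α * ((N : ℝ) + (i : ℕ)) ^ c)
    rw [abs_le]
    constructor <;> linarith
  have hE := (Nat.cast_le (α := ℝ)).2 (En_le_cl r (fun i : Fin N => α * ((N : ℝ) + (i : ℕ)) ^ c) v 1 hv1)
  have hE2 := hE.trans (g N rfl α hα (by rw [← ht]; exact ht1) (by rw [← ht]; exact hα2))
  rw [← ht] at hE2
  have key := h5 T hTn (Fin N) v (fun i => by
    have hi' : ((i : ℕ) : ℝ) ≤ N := by exact_mod_cast i.2.le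
    have h7 := (h3 N hN0 ((N : ℝ) + (i : ℕ)) ⟨by linarith [Nat.cast_nonneg (α := ℝ) (i : ℕ)], by linarith⟩).2
    have h8 : (v i : ℝ) ≤ (⌈hi⌉₊ : ℝ) * T := by
      rw [hv]
      simp only
      refine (Int.floor_le _).trans ?_
      calc α * ((N : ℝ) + (i : ℕ)) ^ c ≤ α * (hi * (N : ℝ) ^ c) := mul_le_mul_of_nonneg_left h7 hα.le
        _ = hi * t := by rw [ht]; ring
        _ ≤ _ := mul_le_mul (Nat.le_ceil hi) hT1 (by positivity) (by positivity)
    exact_mod_cast h8) (by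
    rw [Fintype.card_fin, pow_one]
    calc (En r v : ℝ) * T ≤ (K * ((N : ℝ) ^ (2 * r) / t)) * (2 * t) := by gcongr
      _ = (2 * K) * (N : ℝ) ^ (2 * r) := by field_simp
      _ ≤ Real.log T * (N : ℝ) ^ (2 * r) := by
        gcongr
        linarith) S (fun i hi' => by
    obtain ⟨m, m1, m2, m3, m4⟩ := hS i hi'
    refine ⟨m, m1, m2, ?_, m4⟩
    have h7 := hv1 i
    have h8 : |(m : ℝ) - v i| ≤ |(m : ℝ) - α * ((N : ℝ) + (i : ℕ)) ^ c| + |(v i : ℝ) - α * ((N : ℝ) + (i : ℕ)) ^ c| := by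
      have e1 : (m : ℝ) - v i = ((m : ℝ) - α * ((N : ℝ) + (i : ℕ)) ^ c) - ((v i : ℝ) - α * ((N : ℝ) + (i : ℕ)) ^ c) := by ring
      rw [e1]
      exact abs_sub _ _
    have h9 : 2 * Real.log N ^ W ≤ Real.log T ^ (W + 1) := by
      calc 2 * Real.log N ^ W ≤ (δ ^ (W + 1) * Real.log N) * Real.log N ^ W := by gcongr
        _ = (δ * Real.log N) ^ (W + 1) := by rw [mul_pow, pow_succ (Real.log N)]; ring
        _ ≤ Real.log T ^ (W + 1) := pow_le_pow_left₀ (by positivity) hlog _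
    have h10 : 1 ≤ Real.log N ^ W := one_le_pow₀ b8
    push_cast
    linarith)
  rw [Fintype.card_fin] at key
  refine key.trans ?_
  have h11 : Real.log N ^ U ≤ Real.log T ^ (U + 1) := by
    calc Real.log N ^ U = 1 * Real.log N ^ U := (one_mul _).symm
      _ ≤ (δ ^ (U + 1) * Real.log N) * Real.log N ^ U := by gcongr
      _ = (δ * Real.log N) ^ (U + 1) := by rw [mul_pow, pow_succ (Real.log N)]; ring
      _ ≤ Real.log T ^ (U + 1) := pow_le_pow_left₀ (by positivity) hlog _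
  exact div_le_div_of_nonneg_left hN0.le (by positivity) h11

end Pool.Agent.J4.H35.PP
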