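import Pool.Agent.J4.H35.PPa
import Pool.Agent.N193.PS.Eqs2

set_option autoImplicit false

/-!
The characteristic function of `c₀ + κ ⌊α n ^ c⌋`, `N ≤ n < 2 N`, decays at all frequencies with many places far from the
integers, uniformly in `α`, for every real `c` which is not a natural number (helper35). Adapted from `N193/PS`.
-/

namespace Pool.Agent.J4.H35.PP

open Finset Filter Topology
open Pool.Agent.H469R2.NK (e norm_e e_add conj_e)
open Pool.Agent.H807R2.Dav (ee norm_ee ee_add)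
open Pool.Agent.R459.Eq
open Pool.Agent.TH872.Mir (Far farCount)
open Pool.Agent.N193.PS (floor_sum e_sub_le norm_neg_sum const_ev ee_eq_e e_int' far_dist card_or)

/-- The sums over the integer parts, with the exact dependence on the frequency. -/
theorem floor_main {c : ℝ} (hn : ∀ m : ℕ, c ≠ m) (δ K₀ : ℝ) (hδ : 0 < δ) :
    ∃ σ C : ℝ, 0 < σ ∧ 0 < C ∧ ∀ᶠ X : ℝ in atTop, ∀ N : ℕ, (N : ℝ) = X → ∀ α : ℝ, 0 < α →
      X ^ δ ≤ α * X ^ c → α * X ^ c ≤ X ^ K₀ → ∀ θ : ℝ, 0 < θ → θ ≤ 1 / 2 →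
      ‖∑ n ∈ range N, e (θ * ⌊α * (X + n) ^ c⌋)‖ ≤ C * (X / (θ * (α * X ^ c)) + X ^ (1 - σ)) := by
  obtain ⟨σ₀, C₀, hσ₀, hC₀, h1⟩ := exp_main hn (K₀ + 1)
  obtain ⟨η, hη⟩ : ∃ η, η = min (δ / 2) (1 / 8) := ⟨_, rfl⟩
  have hη0 : 0 < η := by rw [hη]; exact lt_min (by linarith) (by norm_num)
  have hη1 : η ≤ δ / 2 := by rw [hη]; exact min_le_left _ _
  obtain ⟨d, hd⟩ : ∃ d, d = min (min (δ / 2) σ₀) (1 / 4) / 8 := ⟨_, rfl⟩
  have hd0 : 0 < d := by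
    rw [hd]
    have : 0 < min (min (δ / 2) σ₀) (1 / 4) := lt_min (lt_min (by linarith) hσ₀) (by norm_num)
    linarith
  have hd1 : 8 * d ≤ δ / 2 := by
    rw [hd]
    have := (min_le_left (min (δ / 2) σ₀) (1 / 4)).trans (min_le_left _ _)
    linarith
  have hd2 : 8 * d ≤ σ₀ := by
    rw [hd]
    have := (min_le_left (min (δ / 2) σ₀) (1 / 4)).trans (min_le_right _ _)
    linarith
  have hd3 : 8 * d ≤ 1 / 4 := by
    rw [hd]
    have := min_le_right (min (δ / 2) σ₀) (1 / 4)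
    linarith
  refine ⟨min d η, C₀ + 8 + (1032 * (C₀ + 1) + 10), lt_min hd0 hη0, by positivity, ?_⟩
  filter_upwards [h1, const_ev 1025 (1 / 32) (by norm_num), eventually_ge_atTop (1 : ℝ)]
    with X g1 g2 g3 N hN α hα hα1 hα2 θ hθ hθ2
  have hX0 : (0 : ℝ) < X := by linarith
  have hpow : ∀ a b : ℝ, a ≤ b → X ^ a ≤ X ^ b := fun a b hab => Real.rpow_le_rpow_of_exponent_le g3 hab
  obtain ⟨T, hT⟩ : ∃ T, T = α * X ^ c := ⟨_, rfl⟩
  rw [← hT] at hα1 hα2 ⊢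
  have hT0 : 0 < T := lt_of_lt_of_le (by positivity) hα1
  have hXc0 : 0 < X ^ c := Real.rpow_pos_of_pos hX0 _
  have hmin1 : X ^ (1 - d) ≤ X ^ (1 - min d η) := hpow _ _ (by linarith [min_le_left d η])
  have hmin2 : X ^ (1 - η) ≤ X ^ (1 - min d η) := hpow _ _ (by linarith [min_le_right d η])
  have hmin3 : X ^ (1 - σ₀) ≤ X ^ (1 - min d η) := hpow _ _ (by linarith [min_le_left d η])
  have hxm0 : 0 < X ^ (1 - min d η) := by positivity
  have hθT : 0 < θ * T := by positivity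
  have hfrac0 : 0 < X / (θ * T) := by positivity
  have hone : (1 : ℝ) ≤ X ^ ((1 : ℝ) / 8) := Real.one_le_rpow g3 (by norm_num)
  have hNcard : (((range N).card : ℕ) : ℝ) = X := by rw [card_range, hN]
  -- the sums without integer parts
  have hfreq0 : ∀ t : ℝ, 0 < t → t ≤ X ^ ((1 : ℝ) / 8) →
      ‖∑ n ∈ range N, e (t * (α * (X + n) ^ c))‖ ≤ C₀ * (X / (t * T)) + X ^ (1 - σ₀) := by
    intro t ht ht1
    have h2 : t * α * X ^ c ≤ X ^ (K₀ + 1) := by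
      calc t * α * X ^ c = t * T := by rw [hT]; ring
        _ ≤ X ^ ((1 : ℝ) / 8) * X ^ K₀ := mul_le_mul ht1 hα2 hT0.le (by positivity)
        _ = X ^ (1 / 8 + K₀) := (Real.rpow_add hX0 _ _).symm
        _ ≤ _ := hpow _ _ (by linarith)
    have h3 := g1 N hN (t * α) (by positivity) h2 N le_rfl
    have h4 : ∀ n : ℕ, t * (α * (X + n) ^ c) = t * α * (X + n) ^ c := fun n => by ring
    simp only [h4]
    refine h3.trans (le_of_eq ?_)
    congr 2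
    rw [hT, Real.rpow_sub hX0, Real.rpow_one]
    field_simp
  rcases le_total θ (X ^ (-η)) with hc | hc
  · -- small frequencies
    have h2 := hfreq0 θ hθ (by linarith)
    have h3 : ‖∑ n ∈ range N, e (θ * ⌊α * (X + n) ^ c⌋) - ∑ n ∈ range N, e (θ * (α * (X + n) ^ c))‖ ≤ 7 * X ^ (1 - η) := by
      rw [← sum_sub_distrib]
      refine (norm_sum_le _ _).trans ?_
      calc ∑ n ∈ range N, ‖e (θ * ⌊α * (X + n) ^ c⌋) - e (θ * (α * (X + n) ^ c))‖ ≤ ∑ _n ∈ range N, (7 * X ^ (-η)) := by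
            apply sum_le_sum
            intro n _
            refine (e_sub_le _ _).trans ?_
            apply mul_le_mul_of_nonneg_left _ (by norm_num)
            rw [← mul_sub, abs_mul, abs_of_pos hθ]
            have h3 : |((⌊α * (X + n) ^ c⌋ : ℤ) : ℝ) - α * (X + n) ^ c| ≤ 1 := by
              rw [abs_le]
              constructor
              · linarith [Int.lt_floor_add_one (α * (X + n) ^ c)]
              · linarith [Int.floor_le (α * (X + n) ^ c)]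
            calc θ * |((⌊α * (X + n) ^ c⌋ : ℤ) : ℝ) - α * (X + n) ^ c| ≤ θ * 1 := mul_le_mul_of_nonneg_left h3 hθ.le
              _ ≤ _ := by linarith
        _ = 7 * X ^ (1 - η) := by
            rw [sum_const, nsmul_eq_mul, hNcard, sub_eq_add_neg, Real.rpow_add hX0, Real.rpow_one]
            ring
    have h4 := norm_add_le (∑ n ∈ range N, e (θ * ⌊α * (X + n) ^ c⌋) - ∑ n ∈ range N, e (θ * (α * (X + n) ^ c)))
      (∑ n ∈ range N, e (θ * (α * (X + n) ^ c)))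
    rw [sub_add_cancel] at h4
    have h5 : 0 ≤ 1032 * (C₀ + 1) + 10 := by positivity
    have h6 := mul_nonneg h5 hxm0.le
    have h7 := mul_nonneg h5 hfrac0.le
    have h8 := mul_nonneg hC₀.le hxm0.le
    nlinarith
  · -- large frequencies
    have hTlow : X ^ (δ / 2) ≤ θ * T := by
      calc X ^ (δ / 2) ≤ X ^ (-η + δ) := hpow _ _ (by linarith)
        _ = X ^ (-η) * X ^ δ := Real.rpow_add hX0 _ _
        _ ≤ θ * T := mul_le_mul hc hα1 (by positivity) hθ.le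
    obtain ⟨Q, hQ⟩ : ∃ Q : ℕ, Q = ⌈X ^ d⌉₊ := ⟨_, rfl⟩
    have hxδ1 : 1 ≤ X ^ d := Real.one_le_rpow g3 hd0.le
    have hQ1 : X ^ d ≤ Q := by rw [hQ]; exact Nat.le_ceil _
    have hQ2 : (Q : ℝ) ≤ 2 * X ^ d := by
      have : (Q : ℝ) < X ^ d + 1 := by rw [hQ]; exact Nat.ceil_lt_add_one (by positivity)
      linarith
    have hQ0 : (0 : ℝ) < Q := by linarith
    have hQ3 : 1 ≤ Q := by exact_mod_cast hQ0
    have hQc : (Q : ℝ) ^ 3 ≤ 8 * X ^ (3 * d) := by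
      calc (Q : ℝ) ^ 3 ≤ (2 * X ^ d) ^ 3 := pow_le_pow_left₀ hQ0.le hQ2 3
        _ = 8 * (X ^ d) ^ 3 := by ring
        _ = 8 * X ^ (3 * d) := by
            rw [← Real.rpow_natCast, ← Real.rpow_mul hX0.le]
            congr 2
            push_cast
            ring
    obtain ⟨E, hE⟩ : ∃ E : ℝ, E = C₀ * (X / (θ * T)) + X ^ (1 - σ₀) := ⟨_, rfl⟩
    have hE0 : 0 ≤ E := by rw [hE]; positivity
    have hEb : E ≤ (C₀ + 1) * X ^ (1 - 8 * d) := by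
      have k1 : X / (θ * T) ≤ X ^ (1 - 8 * d) := by
        calc X / (θ * T) ≤ X / X ^ (δ / 2) := div_le_div_of_nonneg_left hX0.le (by positivity) hTlow
          _ = X ^ (1 - δ / 2) := by rw [Real.rpow_sub hX0, Real.rpow_one]
          _ ≤ _ := hpow _ _ (by linarith)
      have k2 : X ^ (1 - σ₀) ≤ X ^ (1 - 8 * d) := hpow _ _ (by linarith)
      rw [hE]
      have := mul_le_mul_of_nonneg_left k1 hC₀.le
      linarith
    have hfreq : ∀ t : ℝ, θ ≤ |t| → |t| ≤ X ^ ((1 : ℝ) / 8) →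
        ‖∑ n ∈ range N, e (t * (α * (X + n) ^ c))‖ ≤ E := by
      intro t k1 k2
      have k3 : ‖∑ n ∈ range N, e (t * (α * (X + n) ^ c))‖ = ‖∑ n ∈ range N, e (|t| * (α * (X + n) ^ c))‖ := by
        rcases abs_choice t with k4 | k4
        · rw [k4]
        · rw [k4, norm_neg_sum]
      rw [k3]
      refine (hfreq0 |t| (by linarith) k2).trans ?_
      rw [hE]
      have k5 : X / (|t| * T) ≤ X / (θ * T) :=
        div_le_div_of_nonneg_left hX0.le hθT (mul_le_mul_of_nonneg_right k1 hT0.le)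
      have := mul_le_mul_of_nonneg_left k5 hC₀.le
      linarith
    have hMx : ∀ m : ℤ, |m| < (128 * Q ^ 3 : ℕ) → |(m : ℝ)| + 1 ≤ X ^ ((1 : ℝ) / 8) := by
      intro m hm
      have k1 : |(m : ℝ)| < 128 * (Q : ℝ) ^ 3 := by exact_mod_cast hm
      have k2 : X ^ (3 * d) ≤ X ^ ((3 : ℝ) / 32) := hpow _ _ (by linarith)
      have k3 : 1 ≤ X ^ ((3 : ℝ) / 32) := Real.one_le_rpow g3 (by norm_num)
      have k4 : 1025 * X ^ ((3 : ℝ) / 32) ≤ X ^ ((1 : ℝ) / 8) := by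
        calc 1025 * X ^ ((3 : ℝ) / 32) ≤ X ^ ((1 : ℝ) / 32) * X ^ ((3 : ℝ) / 32) :=
              mul_le_mul_of_nonneg_right g2 (by positivity)
          _ = _ := by
              rw [← Real.rpow_add hX0]
              norm_num
      linarith
    have hmain := floor_sum (range N) (fun n => α * (X + n) ^ c) Q hQ3 θ (by rw [abs_of_pos hθ]; linarith) E hE0
      (fun m hm => by
        have k1 := hMx m hm
        have k2 : |θ + m| ≤ |(m : ℝ)| + 1 := by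
          refine (abs_add_le _ _).trans ?_
          rw [abs_of_pos hθ]
          linarith
        refine hfreq (θ + m) ?_ (k2.trans k1)
        rcases le_or_gt 0 m with k3 | k3
        · have k4 : (0 : ℝ) ≤ m := by exact_mod_cast k3
          rw [abs_of_nonneg (by linarith)]
          linarith
        · have k4 : (m : ℝ) ≤ -1 := by exact_mod_cast (by omega : m ≤ -1)
          rw [abs_of_nonpos (by linarith)]
          linarith)
      (fun m hm0 hm => by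
        have k5 : |m| < ((128 * Q ^ 3 : ℕ) : ℤ) := by
          refine lt_of_lt_of_le hm ?_
          have : Q ≤ 128 * Q ^ 3 := by
            calc Q = 1 * Q ^ 1 := by ring
              _ ≤ 128 * Q ^ 3 := Nat.mul_le_mul (by norm_num) (Nat.pow_le_pow_right hQ3 (by norm_num))
          exact_mod_cast this
        have k1 := hMx m k5
        refine hfreq m ?_ (by linarith)
        have k6 : (1 : ℝ) ≤ |(m : ℝ)| := by
          have : 1 ≤ |m| := Int.one_le_abs hm0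
          exact_mod_cast this
        linarith)
    refine hmain.trans ?_
    rw [hNcard]
    have hp2 : 10 * (X / Q) ≤ 10 * X ^ (1 - d) := by
      apply mul_le_mul_of_nonneg_left _ (by norm_num)
      rw [Real.rpow_sub hX0, Real.rpow_one]
      exact div_le_div_of_nonneg_left hX0.le (by positivity) hQ1
    have hx3δ : 1 ≤ X ^ (3 * d) := Real.one_le_rpow g3 (by linarith)
    have hp1 : (128 * (Q : ℝ) ^ 3 + 8) * E ≤ 1032 * (C₀ + 1) * X ^ (1 - d) := by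
      calc (128 * (Q : ℝ) ^ 3 + 8) * E ≤ (1032 * X ^ (3 * d)) * ((C₀ + 1) * X ^ (1 - 8 * d)) := by
            apply mul_le_mul _ hEb hE0 (by positivity)
            linarith
        _ = 1032 * (C₀ + 1) * (X ^ (3 * d) * X ^ (1 - 8 * d)) := by ring
        _ = 1032 * (C₀ + 1) * X ^ (1 - 5 * d) := by
            rw [← Real.rpow_add hX0]
            congr 2
            ring
        _ ≤ _ := by
            apply mul_le_mul_of_nonneg_left _ (by positivity)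
            exact hpow _ _ (by linarith)
    have h5 := mul_le_mul_of_nonneg_left hmin1 (by positivity : (0 : ℝ) ≤ 1032 * (C₀ + 1) + 10)
    have h6 : 0 ≤ (C₀ + 8) * (X / (θ * T)) := by positivity
    have h7 : 0 ≤ (1032 * (C₀ + 1) + 10) * (X / (θ * T)) := by positivity
    have h8 : 0 ≤ (C₀ + 8) * X ^ (1 - min d η) := by positivity
    nlinarith

/-- The sums over the values at arbitrary frequencies. -/
theorem valsum {c : ℝ} (hn : ∀ m : ℕ, c ≠ m) (δ K₀ : ℝ) (hδ : 0 < δ) :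
    ∃ σ C : ℝ, 0 < σ ∧ 0 < C ∧ ∀ᶠ X : ℝ in atTop, ∀ N : ℕ, (N : ℝ) = X → ∀ α : ℝ, 0 < α →
      X ^ δ ≤ α * X ^ c → α * X ^ c ≤ X ^ K₀ → ∀ β : ℝ, 0 < |β - round β| →
      ‖∑ n ∈ range N, ee (β * ⌊α * (X + n) ^ c⌋)‖ ≤ C * (X / (|β - round β| * (α * X ^ c)) + X ^ (1 - σ)) := by
  obtain ⟨σ, C, hσ, hC, h1⟩ := floor_main hn δ K₀ hδ
  refine ⟨σ, C, hσ, hC, ?_⟩
  filter_upwards [h1] with X g1 N hN α hα hα1 hα2 β hβ
  obtain ⟨q, hq⟩ : ∃ q : ℤ, q = round β := ⟨_, rfl⟩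
  have hd := abs_sub_round β
  rw [← hq] at hd hβ ⊢
  have h2 : ‖∑ n ∈ range N, ee (β * ⌊α * (X + n) ^ c⌋)‖ = ‖∑ n ∈ range N, e (|β - q| * ⌊α * (X + n) ^ c⌋)‖ := by
    have h3 : ∀ n : ℕ, ee (β * ⌊α * (X + n) ^ c⌋) = e ((β - q) * ⌊α * (X + n) ^ c⌋) := by
      intro n
      rw [ee_eq_e]
      have : β * ⌊α * (X + n) ^ c⌋ = (β - q) * ⌊α * (X + n) ^ c⌋ + ((q * ⌊α * (X + n) ^ c⌋ : ℤ) : ℝ) := by
        push_cast; ring
      rw [this, e_add, e_int', mul_one]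
    simp only [h3]
    rcases abs_choice (β - q) with h4 | h4
    · rw [h4]
    · rw [h4]
      exact (norm_neg_sum (range N) (fun n => ((⌊α * (X + n) ^ c⌋ : ℤ) : ℝ)) (β - q)).symm
  rw [h2]
  exact g1 N hN α hα hα1 hα2 _ hβ hd

/-- the decay of the characteristic function -/
theorem decays_pw {c : ℝ} (hn : ∀ m : ℕ, c ≠ m) (δ K₀ : ℝ) (hδ : 0 < δ) : ∃ A N₀ : ℕ, ∀ N : ℕ, N₀ ≤ N →
    ∀ α : ℝ, 0 < α → (N : ℝ) ^ δ ≤ α * (N : ℝ) ^ c → α * (N : ℝ) ^ c ≤ (N : ℝ) ^ K₀ →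
    ∀ k : ℕ, (2 : ℝ) ^ k ≤ α * (N : ℝ) ^ c → ∀ c₀ κ : ℤ,
    Decays 2 1 A k (1 / 2) κ (Ico N (2 * N)) (fun _ => 1 / (N : ℝ)) (fun n => c₀ + κ * ⌊α * (n : ℝ) ^ c⌋) := by
  obtain ⟨σ, C, hσ, hC, hA⟩ := valsum hn δ K₀ hδ
  obtain ⟨m₀, hm₀⟩ := exists_nat_ge K₀
  obtain ⟨m, hm⟩ : ∃ m : ℕ, m = m₀ + 1 := ⟨_, rfl⟩
  have hmK : K₀ ≤ m := by
    rw [hm]
    push_cast
    linarith
  obtain ⟨s, hs⟩ := exists_nat_ge (1 / σ)
  obtain ⟨B, hB⟩ := pow_unbounded_of_one_lt (64 * (C + 1)) (by norm_num : (1 : ℝ) < 2)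
  have hm0 : 1 ≤ m := by omega
  have hs0' : (0 : ℝ) < s := lt_of_lt_of_le (by positivity) hs
  have hs0 : 1 ≤ s := by exact_mod_cast hs0'
  obtain ⟨A, hAd⟩ : ∃ A, A = m * s * (2 * B) := ⟨_, rfl⟩
  obtain ⟨X₀, hX₀⟩ := eventually_atTop.mp ((tendsto_natCast_atTop_atTop (R := ℝ)).eventually
    (hA.and (eventually_ge_atTop (1 : ℝ))))
  refine ⟨A, X₀, fun N hN α hα hα1 hα2 k hk c₀ κ => ?_⟩
  obtain ⟨g1, g3⟩ := hX₀ N hN
  have hx0 : (0 : ℝ) < N := by linarith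
  obtain ⟨T, hT⟩ : ∃ T, T = α * (N : ℝ) ^ c := ⟨_, rfl⟩
  have g2 := g1 N rfl α hα hα1 hα2
  rw [← hT] at hα1 hα2 hk g2
  have hcard : (Ico N (2 * N)).card = N := by
    rw [Nat.card_Ico]
    omega
  have hsum1 : ∑ _n ∈ Ico N (2 * N), (1 / (N : ℝ)) = 1 := by
    rw [sum_const, hcard, nsmul_eq_mul, mul_one_div, div_self hx0.ne']
  refine ⟨fun _ _ => by positivity, hsum1, fun θ J hfar hAN => ?_⟩
  obtain ⟨β, hβ⟩ : ∃ β : ℝ, β = κ * θ := ⟨_, rfl⟩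
  rw [← hβ] at hfar
  have hshift : ∑ n ∈ Ico N (2 * N), ee (β * ⌊α * (n : ℝ) ^ c⌋) = ∑ n ∈ range N, ee (β * ⌊α * ((N : ℝ) + n) ^ c⌋) := by
    rw [sum_Ico_eq_sum_range, show 2 * N - N = N by omega]
    refine sum_congr rfl fun n _ => ?_
    push_cast
    rfl
  have hnorm : ‖∑ n ∈ Ico N (2 * N), ((1 / (N : ℝ) : ℝ) : ℂ) * ee (((c₀ + κ * ⌊α * (n : ℝ) ^ c⌋ : ℤ) : ℝ) * θ)‖ =
      1 / (N : ℝ) * ‖∑ n ∈ range N, ee (β * ⌊α * ((N : ℝ) + n) ^ c⌋)‖ := by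
    rw [← hshift]
    have h1 : ∀ n ∈ Ico N (2 * N), ((1 / (N : ℝ) : ℝ) : ℂ) * ee (((c₀ + κ * ⌊α * (n : ℝ) ^ c⌋ : ℤ) : ℝ) * θ) =
        (((1 / (N : ℝ) : ℝ) : ℂ) * ee (c₀ * θ)) * ee (β * ⌊α * (n : ℝ) ^ c⌋) := by
      intro n _
      rw [mul_assoc, ← ee_add]
      congr 2
      rw [hβ]
      push_cast
      ring
    rw [sum_congr rfl h1, ← mul_sum, norm_mul, norm_mul, norm_ee, mul_one, Complex.norm_real, Real.norm_of_nonneg (by positivity)]
  rw [hnorm]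
  rcases Nat.eq_zero_or_pos J with hN0 | hN0
  · rw [hN0, pow_zero]
    have h1 : ‖∑ n ∈ range N, ee (β * ⌊α * ((N : ℝ) + n) ^ c⌋)‖ ≤ N := by
      refine (norm_sum_le _ _).trans ?_
      simp only [norm_ee, sum_const, card_range, nsmul_eq_mul, mul_one]
      exact le_refl _
    calc 1 / (N : ℝ) * ‖∑ n ∈ range N, ee (β * ⌊α * ((N : ℝ) + n) ^ c⌋)‖ ≤ 1 / (N : ℝ) * N :=
          mul_le_mul_of_nonneg_left h1 (by positivity)
      _ = 1 := by field_simp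
  have hB1 : 1 ≤ B := by
    by_contra hcon
    have : B = 0 := by omega
    rw [this, pow_zero] at hB
    linarith
  have hA1 : 1 ≤ A := by
    rw [hAd]
    exact Nat.mul_pos (Nat.mul_pos hm0 hs0) (by omega)
  obtain ⟨hMk, hdist⟩ := far_dist k (A * (J + 1)) (Nat.mul_pos hA1 (by omega)) β hfar
  have hδ0 : 0 < |β - round β| := by
    rcases (abs_nonneg (β - round β)).lt_or_eq with h1 | h1
    · exact h1
    · rw [← h1, zero_mul, mul_zero] at hdist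
      have : (0 : ℝ) < 2 ^ (A * (J + 1)) := by positivity
      linarith
  have hmain := g2 β hδ0
  -- the first part
  have hBN : 64 * (C + 1) ≤ (2 : ℝ) ^ (B * J) := by
    refine hB.le.trans ?_
    exact pow_le_pow_right₀ (by norm_num) (Nat.le_mul_of_pos_right _ hN0)
  have hBN1 : (2 : ℝ) ^ J ≤ (2 : ℝ) ^ (B * J) := pow_le_pow_right₀ (by norm_num) (Nat.le_mul_of_pos_left _ hB1)
  have hT1 : (2 : ℝ) ^ (A * (J + 1)) / 8 ≤ |β - round β| * T := by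
    have h1 : |β - round β| * 2 ^ k ≤ |β - round β| * T := mul_le_mul_of_nonneg_left hk hδ0.le
    linarith
  have hA2 : 2 * B * J ≤ A * (J + 1) := by
    have h1 : 2 * B ≤ A := by
      rw [hAd]
      calc 2 * B = 1 * 1 * (2 * B) := by ring
        _ ≤ m * s * (2 * B) := by gcongr
    calc 2 * B * J ≤ A * J := Nat.mul_le_mul_right _ h1
      _ ≤ A * (J + 1) := Nat.mul_le_mul_left _ (by omega)
  have hp1 : 1 / (|β - round β| * T) ≤ 8 / (2 : ℝ) ^ (2 * B * J) := by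
    have h1 : (2 : ℝ) ^ (2 * B * J) / 8 ≤ |β - round β| * T := by
      refine le_trans ?_ hT1
      have : (2 : ℝ) ^ (2 * B * J) ≤ 2 ^ (A * (J + 1)) := pow_le_pow_right₀ (by norm_num) hA2
      linarith
    have h2 : (0 : ℝ) < (2 : ℝ) ^ (2 * B * J) / 8 := by positivity
    calc 1 / (|β - round β| * T) ≤ 1 / ((2 : ℝ) ^ (2 * B * J) / 8) := one_div_le_one_div_of_le h2 h1
      _ = 8 / (2 : ℝ) ^ (2 * B * J) := by rw [one_div_div]
  -- the second part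
  have hp2 : (N : ℝ) ^ (-σ) ≤ 1 / (2 : ℝ) ^ (2 * B * J) := by
    have h1 : ((2 : ℝ) ^ (2 * B * J)) ^ (s * m) ≤ (N : ℝ) ^ m := by
      calc ((2 : ℝ) ^ (2 * B * J)) ^ (s * m) = 2 ^ (2 * B * J * (s * m)) := by rw [← pow_mul]
        _ ≤ 2 ^ k := by
            apply pow_le_pow_right₀ (by norm_num)
            refine le_trans (le_of_eq ?_) hAN
            rw [hAd]
            ring
        _ ≤ T := hk
        _ ≤ (N : ℝ) ^ K₀ := hα2
        _ ≤ (N : ℝ) ^ (m : ℝ) := Real.rpow_le_rpow_of_exponent_le g3 hmK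
        _ = (N : ℝ) ^ m := Real.rpow_natCast _ _
    rw [pow_mul] at h1
    have h2 : ((2 : ℝ) ^ (2 * B * J)) ^ s ≤ N := le_of_pow_le_pow_left₀ (by omega) hx0.le h1
    have h3 : (2 : ℝ) ^ (2 * B * J) ≤ (N : ℝ) ^ σ := by
      calc (2 : ℝ) ^ (2 * B * J) = (((2 : ℝ) ^ (2 * B * J)) ^ s) ^ (1 / (s : ℝ)) := by
            rw [← Real.rpow_natCast _ s, ← Real.rpow_mul (by positivity), mul_one_div_cancel hs0'.ne', Real.rpow_one]
        _ ≤ (N : ℝ) ^ (1 / (s : ℝ)) := Real.rpow_le_rpow (by positivity) h2 (by positivity)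
        _ ≤ (N : ℝ) ^ σ := by
            apply Real.rpow_le_rpow_of_exponent_le g3
            rw [div_le_iff₀ hs0']
            rw [div_le_iff₀ hσ] at hs
            linarith
    rw [Real.rpow_neg hx0.le, ← one_div]
    exact one_div_le_one_div_of_le (by positivity) h3
  have hxs : (N : ℝ) ^ (1 - σ) = N * (N : ℝ) ^ (-σ) := by
    rw [sub_eq_add_neg, Real.rpow_add hx0, Real.rpow_one]
  calc 1 / (N : ℝ) * ‖∑ n ∈ range N, ee (β * ⌊α * ((N : ℝ) + n) ^ c⌋)‖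
      ≤ 1 / (N : ℝ) * (C * (N / (|β - round β| * T) + (N : ℝ) ^ (1 - σ))) :=
        mul_le_mul_of_nonneg_left hmain (by positivity)
    _ = C * (1 / (|β - round β| * T) + (N : ℝ) ^ (-σ)) := by
        rw [hxs]
        field_simp
    _ ≤ C * (8 / (2 : ℝ) ^ (2 * B * J) + 1 / (2 : ℝ) ^ (2 * B * J)) :=
        mul_le_mul_of_nonneg_left (add_le_add hp1 hp2) hC.le
    _ = 9 * C / ((2 : ℝ) ^ (B * J) * (2 : ℝ) ^ (B * J)) := by
        rw [← pow_add, show B * J + B * J = 2 * B * J by ring]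
        ring
    _ ≤ (1 / 2) ^ J := by
        rw [div_le_iff₀ (by positivity), one_div, inv_pow, inv_mul_eq_div, le_div_iff₀ (by positivity)]
        have h1 : (0 : ℝ) < 2 ^ J := by positivity
        have h2 : (0 : ℝ) < 2 ^ (B * J) := by positivity
        calc 9 * C * 2 ^ J ≤ (2 : ℝ) ^ (B * J) * 2 ^ J := by
              apply mul_le_mul_of_nonneg_right _ h1.le
              linarith
          _ ≤ (2 : ℝ) ^ (B * J) * 2 ^ (B * J) := mul_le_mul_of_nonneg_left hBN1 h2.le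

open Classical in
/-- the property `P` of `c₀ + κ ⌊α n ^ c⌋` holds for all `N ≤ n < 2 N` up to a proportion of at most `τ` -/
def AlmostM (c α : ℝ) (N : ℕ) (κ c₀ : ℤ) (τ : ℝ) (P : ℤ → Prop) : Prop :=
  (((Ico N (2 * N)).filter (fun n : ℕ => ¬ P (c₀ + κ * ⌊α * (n : ℝ) ^ c⌋))).card : ℝ) ≤ τ * N

lemma AlmostM.mono {c α : ℝ} {N : ℕ} {κ c₀ : ℤ} {τ : ℝ} {P Q : ℤ → Prop} (h : AlmostM c α N κ c₀ τ P)
    (hPQ : ∀ n, P n → Q n) : AlmostM c α N κ c₀ τ Q := by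
  classical
  unfold AlmostM at h ⊢
  refine le_trans (Nat.cast_le.2 (card_le_card fun n hn => ?_)) h
  rw [mem_filter] at hn ⊢
  exact ⟨hn.1, fun hcon => hn.2 (hPQ _ hcon)⟩

/-- from the decay of the characteristic function to almost all the values -/
theorem pass_pw {c : ℝ} (hn : ∀ m : ℕ, c ≠ m) (δ K₀ : ℝ) (hδ : 0 < δ) :
    ∃ A N₀ : ℕ, ∀ W X : ℕ, 2 ≤ X → ∀ N : ℕ, N₀ ≤ N → ∀ α : ℝ, 0 < α →
      (N : ℝ) ^ δ ≤ α * (N : ℝ) ^ c → α * (N : ℝ) ^ c ≤ (N : ℝ) ^ K₀ →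
    ∀ (κ c₀ : ℤ) (Q : ℕ → ℤ → Prop) (τ : ℝ), 0 ≤ τ →
    (∀ (k : ℕ) (ι : Type) (Ω : Finset ι) (w : ι → ℝ) (v : ι → ℤ), Decays 2 1 A k (1 / 2) κ Ω w v →
      ∀ E : Finset ι, E ⊆ Ω → (∀ i ∈ E, ¬ ∀ x : ℕ, X ≤ x → x ^ W ≤ 2 ^ k → Q x (v i)) → ∑ i ∈ E, w i ≤ τ) →
    AlmostM c α N κ c₀ τ (fun n => ∀ x : ℕ, X ≤ x → (x : ℝ) ^ (W + 1) ≤ α * (N : ℝ) ^ c → Q x n) := by
  classical
  obtain ⟨A, N₀, hdec⟩ := decays_pw hn δ K₀ hδ
  refine ⟨A, N₀ + 1, fun W X hX N hN α hα hα1 hα2 κ c₀ Q τ hτ H => ?_⟩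
  unfold AlmostM
  have hN0 : (0 : ℝ) < N := by exact_mod_cast (by omega : 0 < N)
  by_cases hne : ∃ x : ℕ, X ≤ x ∧ (x : ℝ) ^ (W + 1) ≤ α * (N : ℝ) ^ c
  swap
  · have : (Ico N (2 * N)).filter (fun n : ℕ => ¬ ∀ x : ℕ, X ≤ x → (x : ℝ) ^ (W + 1) ≤ α * (N : ℝ) ^ c →
        Q x (c₀ + κ * ⌊α * (n : ℝ) ^ c⌋)) = ∅ := by
      apply filter_false_of_mem
      intro n _ hcon
      exact hcon fun x hx hxW => absurd ⟨x, hx, hxW⟩ hne
    rw [this, card_empty, Nat.cast_zero]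
    positivity
  obtain ⟨x₀, hx₀, hx₀W⟩ := hne
  obtain ⟨T, hT⟩ : ∃ T, T = α * (N : ℝ) ^ c := ⟨_, rfl⟩
  rw [← hT] at hx₀W
  have hx₀1 : (1 : ℝ) ≤ x₀ := by exact_mod_cast (by omega : 1 ≤ x₀)
  have hfx₀ : (x₀ : ℝ) ≤ T := (le_self_pow₀ hx₀1 (by omega)).trans hx₀W
  obtain ⟨k, hk⟩ : ∃ k, k = Nat.log 2 ⌊T⌋₊ := ⟨_, rfl⟩
  have hfl : 1 ≤ ⌊T⌋₊ := by
    rw [Nat.one_le_floor_iff]
    linarith
  have hf0 : 0 ≤ T := by linarith
  have hk1 : (2 : ℝ) ^ k ≤ T := by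
    have h1 : 2 ^ k ≤ ⌊T⌋₊ := by
      rw [hk]
      exact Nat.pow_log_le_self 2 (by omega)
    calc (2 : ℝ) ^ k ≤ (⌊T⌋₊ : ℝ) := by exact_mod_cast h1
      _ ≤ T := Nat.floor_le hf0
  have hk2 : T < 2 ^ (k + 1) := by
    have h1 : ⌊T⌋₊ < 2 ^ (k + 1) := by
      rw [hk]
      exact Nat.lt_pow_succ_log_self (by norm_num) _
    have h2 : T < (⌊T⌋₊ : ℝ) + 1 := Nat.lt_floor_add_one _
    have h3 : (⌊T⌋₊ : ℝ) + 1 ≤ 2 ^ (k + 1) := by exact_mod_cast h1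
    linarith
  have hd := hdec N (by omega) α hα hα1 hα2 k (by rw [← hT]; exact hk1) c₀ κ
  have h1 := H k ℕ (Ico N (2 * N)) (fun _ => 1 / (N : ℝ)) _ hd
    ((Ico N (2 * N)).filter (fun n : ℕ => ¬ ∀ x : ℕ, X ≤ x → (x : ℝ) ^ (W + 1) ≤ T → Q x (c₀ + κ * ⌊α * (n : ℝ) ^ c⌋)))
    (filter_subset _ _) (fun n hn hcon => by
      rw [mem_filter] at hn
      apply hn.2
      intro x hx hxW
      exact hcon x hx (by
        have hx2 : (2 : ℝ) ≤ x := by exact_mod_cast (by omega : 2 ≤ x)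
        have h3 : (x : ℝ) ^ W * 2 < 2 ^ k * 2 := by
          calc (x : ℝ) ^ W * 2 ≤ (x : ℝ) ^ W * x := mul_le_mul_of_nonneg_left hx2 (by positivity)
            _ = (x : ℝ) ^ (W + 1) := (pow_succ _ _).symm
            _ ≤ T := hxW
            _ < 2 ^ (k + 1) := hk2
            _ = 2 ^ k * 2 := pow_succ _ _
        have h4 : (x : ℝ) ^ W ≤ 2 ^ k := by linarith
        exact_mod_cast h4))
  rw [sum_const, nsmul_eq_mul, mul_one_div, div_le_iff₀ hN0] at h1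
  rw [← hT]
  exact h1

end Pool.Agent.J4.H35.PP
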