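import Pool.Agent.J4.H35.PPa
import Pool.Agent.H373R2.T7.Vau

set_option autoImplicit false

/-!
Exponential sums over primes with the phase `ξ n ^ c`, uniformly in `ξ`, for every real `c` which is not a natural number
(helper35). The proof is that of `Pool.Agent.H895R3.NK` (`c = -1`) with the exponential sums of `PPa`.
-/

namespace Pool.Agent.J4.H35.PP

open Finset Filter
open Pool.Agent.H469R2.NK (e norm_e e_add conj_e norm_sum_neg e_zero)
open Pool.Agent.H373R2.T3 (bilin sum_inv_dist harm)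
open Pool.Agent.H373R2.T7 (vaughan_gen)

/-- sizes of powers of comparable numbers -/
lemma rpow_cmp (s : ℝ) : ∃ lo hi : ℝ, 0 < lo ∧ 1 ≤ hi ∧ ∀ X t : ℝ, 0 < X → X / 4 ≤ t → t ≤ 4 * X →
    lo * X ^ s ≤ t ^ s ∧ t ^ s ≤ hi * X ^ s := by
  obtain ⟨hi, hhi⟩ : ∃ hi : ℝ, hi = 4 ^ |s| := ⟨_, rfl⟩
  have hhi1 : 1 ≤ hi := by
    rw [hhi]
    exact Real.one_le_rpow (by norm_num) (abs_nonneg s)
  have key : ∀ X t : ℝ, 0 < X → 0 < t → X / 4 ≤ t → t ≤ 4 * X → t ^ s ≤ hi * X ^ s := by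
    intro X t hX ht h1 h2
    rcases le_total 0 s with h0 | h0
    · calc t ^ s ≤ (4 * X) ^ s := Real.rpow_le_rpow ht.le h2 h0
        _ = 4 ^ s * X ^ s := Real.mul_rpow (by norm_num) hX.le
        _ = hi * X ^ s := by rw [hhi, abs_of_nonneg h0]
    · calc t ^ s ≤ (X / 4) ^ s := Real.rpow_le_rpow_of_nonpos (by linarith) h1 h0
        _ = (4⁻¹ * X) ^ s := by congr 1; ring
        _ = (4⁻¹) ^ s * X ^ s := Real.mul_rpow (by norm_num) hX.le
        _ = hi * X ^ s := by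
            rw [hhi, abs_of_nonpos h0, Real.inv_rpow (by norm_num), Real.rpow_neg (by norm_num)]
  refine ⟨hi⁻¹, hi, by positivity, hhi1, fun X t hX h1 h2 => ?_⟩
  have ht : 0 < t := by linarith
  refine ⟨?_, key X t hX ht h1 h2⟩
  have h3 := key t X ht hX (by linarith) (by linarith)
  rw [inv_mul_le_iff₀ (by linarith)]
  exact h3

lemma norm_neg_fin {ι : Type*} (s : Finset ι) (f : ι → ℝ) : ‖∑ i ∈ s, e (-(f i))‖ = ‖∑ i ∈ s, e (f i)‖ := by
  have h : ∑ i ∈ s, e (-(f i)) = (starRingEnd ℂ) (∑ i ∈ s, e (f i)) := by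
    rw [map_sum]
    exact sum_congr rfl fun i _ => (conj_e _).symm
  rw [h, RCLike.norm_conj]

/-- **blocks** -/
theorem exp_blk {c : ℝ} (hn : ∀ m : ℕ, c ≠ m) (K₀ : ℝ) :
    ∃ η C : ℝ, 0 < η ∧ η ≤ 1 ∧ 1 ≤ C ∧ ∀ (M a b : ℕ) (Z : ℝ), 1 ≤ M → M ≤ a → b ≤ 2 * M →
      Z ≠ 0 → |Z| * (M : ℝ) ^ c ≤ (M : ℝ) ^ K₀ →
      ‖∑ n ∈ Ioc a b, e (Z * (n : ℝ) ^ c)‖ ≤ C * ((M : ℝ) ^ (1 - c) / |Z| + (M : ℝ) ^ (1 - η)) := by
  obtain ⟨η₀, C₀, hη₀, hC₀, h1⟩ := exp_main hn K₀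
  obtain ⟨X₀, hX₀⟩ := eventually_atTop.mp h1
  obtain ⟨η, hη⟩ : ∃ η, η = min η₀ 1 := ⟨_, rfl⟩
  have hη0 : 0 < η := by rw [hη]; exact lt_min hη₀ (by norm_num)
  have hη1 : η ≤ 1 := by rw [hη]; exact min_le_right _ _
  have hη2 : η ≤ η₀ := by rw [hη]; exact min_le_left _ _
  refine ⟨η, 2 * C₀ + 3 + |X₀|, hη0, hη1, by
    have := abs_nonneg X₀
    linarith, fun M a b Z hM ha hb hZ hZM => ?_⟩
  have hM1 : (1 : ℝ) ≤ M := by exact_mod_cast hM
  have hM0 : (0 : ℝ) < M := by linarith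
  have hZ0 : 0 < |Z| := abs_pos.2 hZ
  have hA : 0 < (M : ℝ) ^ (1 - c) / |Z| := by positivity
  have hB : 1 ≤ (M : ℝ) ^ (1 - η) := Real.one_le_rpow hM1 (by linarith)
  have hXn := abs_nonneg X₀
  rcases le_or_gt X₀ (M : ℝ) with hc | hc
  · -- large M
    have hsum : ∀ θ : ℝ, 0 < θ → θ * (M : ℝ) ^ c ≤ (M : ℝ) ^ K₀ →
        ‖∑ n ∈ Ioc a b, e (θ * (n : ℝ) ^ c)‖ ≤ 2 * (C₀ * ((M : ℝ) ^ (1 - c) / θ) + (M : ℝ) ^ (1 - η)) + 1 := by
      intro θ hθ hθM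
      have hη3 : (M : ℝ) ^ (1 - η₀) ≤ (M : ℝ) ^ (1 - η) := Real.rpow_le_rpow_of_exponent_le hM1 (by linarith)
      have h2 : ∀ L ≤ M, ‖∑ n ∈ range L, e (θ * ((M : ℝ) + n) ^ c)‖ ≤ C₀ * ((M : ℝ) ^ (1 - c) / θ) + (M : ℝ) ^ (1 - η) :=
        fun L hL => (hX₀ (M : ℝ) hc M rfl θ hθ hθM L hL).trans (by linarith)
      have hpos : 0 ≤ C₀ * ((M : ℝ) ^ (1 - c) / θ) + (M : ℝ) ^ (1 - η) := by positivity
      rcases le_or_gt b a with hab | hab
      · rw [Ioc_eq_empty (by omega), sum_empty, norm_zero]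
        linarith
      · -- Ioc a b = Ico (a+1) b + {b}
        have h3 : ∀ u v : ℕ, M ≤ u → u ≤ v → v ≤ 2 * M → ‖∑ n ∈ Ico u v, e (θ * (n : ℝ) ^ c)‖ ≤
            2 * (C₀ * ((M : ℝ) ^ (1 - c) / θ) + (M : ℝ) ^ (1 - η)) := by
          intro u v hu huv hv
          have e1 : ∀ w : ℕ, M ≤ w → ∑ n ∈ Ico M w, e (θ * (n : ℝ) ^ c) = ∑ n ∈ range (w - M), e (θ * ((M : ℝ) + n) ^ c) := by
            intro w _
            rw [sum_Ico_eq_sum_range]
            refine sum_congr rfl fun n _ => ?_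
            push_cast
            rfl
          have e2 : ∑ n ∈ Ico u v, e (θ * (n : ℝ) ^ c) = ∑ n ∈ Ico M v, e (θ * (n : ℝ) ^ c) - ∑ n ∈ Ico M u, e (θ * (n : ℝ) ^ c) := by
            rw [← sum_Ico_consecutive _ hu huv]
            ring
          rw [e2, e1 v (by omega), e1 u hu]
          refine (norm_sub_le _ _).trans ?_
          have := h2 (v - M) (by omega)
          have := h2 (u - M) (by omega)
          linarith
        have e3 : ∑ n ∈ Ioc a b, e (θ * (n : ℝ) ^ c) = ∑ n ∈ Ico (a + 1) b, e (θ * (n : ℝ) ^ c) + e (θ * (b : ℝ) ^ c) := by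
          have : Ioc a b = Ico (a + 1) (b + 1) := by
            ext x
            simp only [mem_Ioc, mem_Ico]
            omega
          rw [this, sum_Ico_succ_top (by omega)]
        rw [e3]
        refine (norm_add_le _ _).trans ?_
        rw [norm_e]
        have := h3 (a + 1) b (by omega) (by omega) hb
        linarith
    have h4 : ‖∑ n ∈ Ioc a b, e (Z * (n : ℝ) ^ c)‖ ≤ 2 * (C₀ * ((M : ℝ) ^ (1 - c) / |Z|) + (M : ℝ) ^ (1 - η)) + 1 := by
      rcases abs_choice Z with hz | hz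
      · have := hsum |Z| hZ0 hZM
        rwa [hz] at this ⊢
      · have h5 := hsum |Z| hZ0 hZM
        have h6 : ‖∑ n ∈ Ioc a b, e (Z * (n : ℝ) ^ c)‖ = ‖∑ n ∈ Ioc a b, e (|Z| * (n : ℝ) ^ c)‖ := by
          have e1 : ∀ n : ℕ, Z * (n : ℝ) ^ c = -(|Z| * (n : ℝ) ^ c) := by
            intro n
            rw [hz]
            ring
          simp only [e1]
          exact norm_neg_fin _ _
        rw [h6]
        exact h5
    refine h4.trans ?_
    have h7 : 0 ≤ |X₀| * ((M : ℝ) ^ (1 - c) / |Z| + (M : ℝ) ^ (1 - η)) := by positivity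
    nlinarith
  · -- small M
    have h2 : ‖∑ n ∈ Ioc a b, e (Z * (n : ℝ) ^ c)‖ ≤ M := by
      refine (norm_sum_le _ _).trans ?_
      simp only [norm_e, sum_const, nsmul_eq_mul, mul_one, Nat.card_Ioc]
      exact_mod_cast (by omega : b - a ≤ M)
    have h3 : (M : ℝ) ≤ |X₀| * (M : ℝ) ^ (1 - η) := by
      calc (M : ℝ) = (M : ℝ) * 1 := (mul_one _).symm
        _ ≤ |X₀| * (M : ℝ) ^ (1 - η) := mul_le_mul (hc.le.trans (le_abs_self _)) hB (by norm_num) hXn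
    have h4 : 0 ≤ (2 * C₀ + 3) * ((M : ℝ) ^ (1 - c) / |Z| + (M : ℝ) ^ (1 - η)) := by positivity
    have h5 : 0 ≤ |X₀| * ((M : ℝ) ^ (1 - c) / |Z|) := by positivity
    nlinarith

/-- the property of `(η, C)` at level `K₀` -/
def Blk (c K₀ η C : ℝ) : Prop := ∀ (M a b : ℕ) (Z : ℝ), 1 ≤ M → M ≤ a → b ≤ 2 * M →
      Z ≠ 0 → |Z| * (M : ℝ) ^ c ≤ (M : ℝ) ^ K₀ →
      ‖∑ n ∈ Ioc a b, e (Z * (n : ℝ) ^ c)‖ ≤ C * ((M : ℝ) ^ (1 - c) / |Z| + (M : ℝ) ^ (1 - η))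

/-- differences of powers -/
lemma diff_pow {c : ℝ} (hc : c ≠ 0) : ∃ u v : ℝ, 0 < u ∧ 1 ≤ v ∧ ∀ L l l' : ℕ, 1 ≤ L → l ∈ Ioc L (2 * L) → l' ∈ Ioc L (2 * L) →
    u * (L : ℝ) ^ (c - 1) * |(l : ℝ) - l'| ≤ |(l : ℝ) ^ c - (l' : ℝ) ^ c| ∧
    |(l : ℝ) ^ c - (l' : ℝ) ^ c| ≤ v * (L : ℝ) ^ c := by
  obtain ⟨lo, hi, hlo, hhi, h1⟩ := rpow_cmp (c - 1)
  obtain ⟨lo', hi', hlo', hhi', h2⟩ := rpow_cmp c
  have hc0 : 0 < |c| := abs_pos.2 hc
  refine ⟨lo * |c|, hi', by positivity, hhi', fun L l l' hL hl hl' => ?_⟩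
  have hL0 : (0 : ℝ) < L := by exact_mod_cast hL
  have hl := mem_Ioc.1 hl
  have hl' := mem_Ioc.1 hl'
  have a1 : (L : ℝ) ≤ l := by exact_mod_cast hl.1.le
  have a2 : (l : ℝ) ≤ 2 * L := by exact_mod_cast hl.2
  have a3 : (L : ℝ) ≤ l' := by exact_mod_cast hl'.1.le
  have a4 : (l' : ℝ) ≤ 2 * L := by exact_mod_cast hl'.2
  constructor
  · have key : ∀ x y : ℝ, (L : ℝ) ≤ x → x < y → y ≤ 2 * L → lo * |c| * (L : ℝ) ^ (c - 1) * (y - x) ≤ |y ^ c - x ^ c| := by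
      intro x y hx hxy hy
      have hx0 : 0 < x := by linarith
      obtain ⟨ξ, hξ, hd⟩ := exists_hasDerivAt_eq_slope (fun t : ℝ => t ^ c) (fun t => c * t ^ (c - 1)) hxy
        (by
          apply ContinuousOn.rpow_const continuousOn_id
          intro t ht
          left
          exact (lt_of_lt_of_le hx0 ht.1).ne')
        (fun t ht => by
          have := Real.hasDerivAt_rpow_const (x := t) (p := c) (Or.inl (hx0.trans ht.1).ne')
          exact this)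
      have h3 : y ^ c - x ^ c = c * ξ ^ (c - 1) * (y - x) := by
        have : y - x ≠ 0 := by linarith
        rw [eq_div_iff this] at hd
        linarith
      have hξ1 : (L : ℝ) ≤ ξ := by linarith [hξ.1]
      have hξ2 : ξ ≤ 2 * L := by linarith [hξ.2]
      have h4 := (h1 L ξ hL0 (by linarith) (by linarith)).1
      rw [h3, abs_mul, abs_mul, abs_of_pos (Real.rpow_pos_of_pos (by linarith : 0 < ξ) _), abs_of_pos (by linarith : 0 < y - x)]
      apply mul_le_mul_of_nonneg_right _ (by linarith)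
      calc lo * |c| * (L : ℝ) ^ (c - 1) = |c| * (lo * (L : ℝ) ^ (c - 1)) := by ring
        _ ≤ |c| * ξ ^ (c - 1) := mul_le_mul_of_nonneg_left h4 hc0.le
    rcases lt_trichotomy (l : ℝ) l' with h | h | h
    · have := key l l' a1 h a4
      rw [abs_sub_comm ((l : ℝ) ^ c), abs_sub_comm (l : ℝ), abs_of_pos (by linarith : 0 < (l' : ℝ) - l)]
      exact this
    · rw [h, sub_self, abs_zero, mul_zero]
      exact abs_nonneg _
    · have := key l' l a3 h a2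
      rw [abs_of_pos (by linarith : 0 < (l : ℝ) - l')]
      exact this
  · have h3 := (h2 L l hL0 (by linarith) (by linarith)).2
    have h4 := (h2 L l' hL0 (by linarith) (by linarith)).2
    have h5 : 0 < (l : ℝ) ^ c := Real.rpow_pos_of_pos (by linarith) _
    have h6 : 0 < (l' : ℝ) ^ c := Real.rpow_pos_of_pos (by linarith) _
    rw [abs_le]
    constructor <;> linarith

theorem typeII_pw {c : ℝ} (hc : c ≠ 0) : ∃ u v : ℝ, 0 < u ∧ 1 ≤ v ∧ ∀ (K₀ η C : ℝ), 1 ≤ C → Blk c K₀ η C → ∀ ξ : ℝ, 0 < ξ →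
    ∀ (N N' M L : ℕ), 1 ≤ M → 1 ≤ L → ∀ (a b : ℕ → ℂ), ξ * (v * (L : ℝ) ^ c) * (M : ℝ) ^ c ≤ (M : ℝ) ^ K₀ →
    ‖∑ m ∈ Ioc M (2 * M), ∑ l ∈ Ioc L (2 * L), a m * b l * (if N < m * l ∧ m * l ≤ N' then
      e (ξ * ((m * l : ℕ) : ℝ) ^ c) else 0)‖ ^ 2 ≤
      (∑ m ∈ Ioc M (2 * M), ‖a m‖ ^ 2) * ((∑ l ∈ Ioc L (2 * L), ‖b l‖ ^ 2) *
        (M + C * (2 / u * (((M : ℝ) * L) ^ (1 - c) / ξ) * (1 + Real.log (L + 1)) + L * (M : ℝ) ^ (1 - η)))) := by
  classical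
  obtain ⟨u, v, hu, hv, hdp⟩ := diff_pow hc
  refine ⟨u, v, hu, hv, fun K₀ η C hC hB ξ hξ N N' M L hM hL a b hcond => ?_⟩
  obtain ⟨g, hg⟩ : ∃ g : ℕ → ℕ → ℂ, g = fun m l => if N < m * l ∧ m * l ≤ N' then e (ξ * ((m * l : ℕ) : ℝ) ^ c) else 0 := ⟨_, rfl⟩
  obtain ⟨T, hT⟩ : ∃ T : ℝ, T = M + C * (2 / u * (((M : ℝ) * L) ^ (1 - c) / ξ) * (1 + Real.log (L + 1)) + L * (M : ℝ) ^ (1 - η)) :=
    ⟨_, rfl⟩
  have hM0 : (0 : ℝ) < M := by exact_mod_cast hM
  have hL0 : (0 : ℝ) < L := by exact_mod_cast hL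
  have hgg : ∀ m l l', 0 < m → 0 < l → 0 < l' → g m l * (starRingEnd ℂ) (g m l') =
      if (N < m * l ∧ m * l ≤ N') ∧ (N < m * l' ∧ m * l' ≤ N') then
      e (ξ * ((l : ℝ) ^ c - (l' : ℝ) ^ c) * (m : ℝ) ^ c) else 0 := by
    intro m l l' hm0 hl0 hl0'
    rw [hg]
    simp only
    by_cases h2 : N < m * l ∧ m * l ≤ N'
    · by_cases h3 : N < m * l' ∧ m * l' ≤ N'
      · rw [if_pos h2, if_pos h3, if_pos ⟨h2, h3⟩, conj_e, ← e_add]
        congr 1
        push_cast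
        rw [Real.mul_rpow (Nat.cast_nonneg m) (Nat.cast_nonneg l), Real.mul_rpow (Nat.cast_nonneg m) (Nat.cast_nonneg l')]
        ring
      · rw [if_neg h3, map_zero, mul_zero, if_neg (fun h => h3 h.2)]
    · rw [if_neg h2, zero_mul, if_neg (fun h => h2 h.1)]
  have hTj : ∀ l ∈ Ioc L (2 * L), ∑ l' ∈ Ioc L (2 * L), ‖∑ m ∈ Ioc M (2 * M), g m l * (starRingEnd ℂ) (g m l')‖ ≤ T := by
    intro l hl
    have hlm := mem_Ioc.1 hl
    have hl0 : 0 < l := by omega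
    have hlr : (0 : ℝ) < l := by exact_mod_cast hl0
    have hoff : ∀ l' ∈ (Ioc L (2 * L)).erase l, ‖∑ m ∈ Ioc M (2 * M), g m l * (starRingEnd ℂ) (g m l')‖ ≤
        C * (1 / u * (((M : ℝ) * L) ^ (1 - c) / ξ)) * (1 / |(l : ℝ) - l'|) + C * (M : ℝ) ^ (1 - η) := by
      intro l' hl'
      rw [mem_erase] at hl'
      have hlm' := mem_Ioc.1 hl'.2
      have hl0' : 0 < l' := by omega
      have hlr' : (0 : ℝ) < l' := by exact_mod_cast hl0'
      have hne : (l : ℝ) - l' ≠ 0 := by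
        intro h
        exact hl'.1 (by exact_mod_cast (sub_eq_zero.1 h).symm)
      have hdpos : 0 < |(l : ℝ) - l'| := abs_pos.2 hne
      obtain ⟨d1, d2⟩ := hdp L l l' hL hl hl'.2
      have hD0 : 0 < u * (L : ℝ) ^ (c - 1) * |(l : ℝ) - l'| := by positivity
      obtain ⟨Z, hZ⟩ : ∃ Z : ℝ, Z = ξ * ((l : ℝ) ^ c - (l' : ℝ) ^ c) := ⟨_, rfl⟩
      have hZabs : |Z| = ξ * |(l : ℝ) ^ c - (l' : ℝ) ^ c| := by
        rw [hZ, abs_mul, abs_of_pos hξ]
      have hZpos : 0 < |Z| := by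
        rw [hZabs]
        exact mul_pos hξ (lt_of_lt_of_le hD0 d1)
      have hZ0 : Z ≠ 0 := abs_pos.1 hZpos
      have hZle : |Z| * (M : ℝ) ^ c ≤ (M : ℝ) ^ K₀ := by
        refine le_trans ?_ hcond
        rw [hZabs]
        gcongr
      have hset : ∑ m ∈ Ioc M (2 * M), g m l * (starRingEnd ℂ) (g m l') =
          ∑ m ∈ Ioc (max M (max (N / l) (N / l'))) (min (2 * M) (min (N' / l) (N' / l'))), e (Z * (m : ℝ) ^ c) := by
        have e1 : ∑ m ∈ Ioc M (2 * M), g m l * (starRingEnd ℂ) (g m l') =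
            ∑ m ∈ Ioc M (2 * M), if (N < m * l ∧ m * l ≤ N') ∧ (N < m * l' ∧ m * l' ≤ N') then
              e (Z * (m : ℝ) ^ c) else 0 := by
          refine sum_congr rfl fun m hm => ?_
          rw [hZ]
          exact hgg m l l' (by have := (mem_Ioc.1 hm).1; omega) hl0 hl0'
        rw [e1, ← sum_filter]
        apply sum_congr _ fun _ _ => rfl
        ext m
        simp only [mem_filter, mem_Ioc, max_lt_iff, le_min_iff]
        rw [Nat.div_lt_iff_lt_mul hl0, Nat.div_lt_iff_lt_mul hl0', Nat.le_div_iff_mul_le hl0, Nat.le_div_iff_mul_le hl0']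
        tauto
      rw [hset]
      refine (hB M _ _ Z hM (le_max_left _ _) (min_le_left _ _) hZ0 hZle).trans ?_
      rw [mul_add]
      apply add_le_add _ le_rfl
      have h5 : (M : ℝ) ^ (1 - c) / |Z| ≤ 1 / u * (((M : ℝ) * L) ^ (1 - c) / ξ) * (1 / |(l : ℝ) - l'|) := by
        have h6 : ξ * (u * (L : ℝ) ^ (c - 1) * |(l : ℝ) - l'|) ≤ |Z| := by
          rw [hZabs]
          exact mul_le_mul_of_nonneg_left d1 hξ.le
        calc (M : ℝ) ^ (1 - c) / |Z| ≤ (M : ℝ) ^ (1 - c) / (ξ * (u * (L : ℝ) ^ (c - 1) * |(l : ℝ) - l'|)) :=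
              div_le_div_of_nonneg_left (by positivity) (by positivity) h6
          _ = 1 / u * (((M : ℝ) ^ (1 - c) * (L : ℝ) ^ (1 - c)) / ξ) * (1 / |(l : ℝ) - l'|) := by
              have e4 : (L : ℝ) ^ (1 - c) = ((L : ℝ) ^ (c - 1))⁻¹ := by
                rw [← Real.rpow_neg hL0.le]
                congr 1
                ring
              rw [e4]
              field_simp
          _ = _ := by rw [Real.mul_rpow hM0.le hL0.le]
      calc C * ((M : ℝ) ^ (1 - c) / |Z|) ≤ C * (1 / u * (((M : ℝ) * L) ^ (1 - c) / ξ) * (1 / |(l : ℝ) - l'|)) := by gcongr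
        _ = _ := by ring
    have hdiag : ‖∑ m ∈ Ioc M (2 * M), g m l * (starRingEnd ℂ) (g m l)‖ ≤ M := by
      refine (norm_sum_le _ _).trans ?_
      calc ∑ m ∈ Ioc M (2 * M), ‖g m l * (starRingEnd ℂ) (g m l)‖ ≤ ∑ _m ∈ Ioc M (2 * M), (1 : ℝ) := by
            apply sum_le_sum; intro m hm
            rw [hgg m l l (by have := (mem_Ioc.1 hm).1; omega) hl0 hl0]
            split_ifs
            · rw [norm_e]
            · rw [norm_zero]; norm_num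
        _ = M := by
            rw [sum_const, Nat.card_Ioc, nsmul_eq_mul, mul_one]
            congr 1; omega
    rw [← add_sum_erase _ _ hl]
    have hsum := sum_inv_dist (Ioc L (2 * L)) L l (fun l' hl' => by
      have := mem_Ioc.1 hl'
      constructor <;> omega)
    have hcard : ((((Ioc L (2 * L)).erase l).card : ℕ) : ℝ) ≤ L := by
      have h1 : ((Ioc L (2 * L)).erase l).card ≤ (Ioc L (2 * L)).card := card_le_card (erase_subset _ _)
      rw [Nat.card_Ioc] at h1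
      exact_mod_cast (by omega : ((Ioc L (2 * L)).erase l).card ≤ L)
    have hMq : 0 ≤ (M : ℝ) ^ (1 - η) := by positivity
    calc _ ≤ (M : ℝ) + ∑ l' ∈ (Ioc L (2 * L)).erase l,
          (C * (1 / u * (((M : ℝ) * L) ^ (1 - c) / ξ)) * (1 / |(l : ℝ) - l'|) + C * (M : ℝ) ^ (1 - η)) :=
          add_le_add hdiag (sum_le_sum hoff)
      _ = M + (C * (1 / u * (((M : ℝ) * L) ^ (1 - c) / ξ)) * ∑ l' ∈ (Ioc L (2 * L)).erase l, 1 / |(l : ℝ) - l'| +
          (((Ioc L (2 * L)).erase l).card : ℝ) * (C * (M : ℝ) ^ (1 - η))) := by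
            rw [sum_add_distrib, mul_sum, sum_const, nsmul_eq_mul]
      _ ≤ M + (C * (1 / u * (((M : ℝ) * L) ^ (1 - c) / ξ)) * (2 * (1 + Real.log (L + 1))) +
          (L : ℝ) * (C * (M : ℝ) ^ (1 - η))) := by
          gcongr
      _ = T := by rw [hT]; ring
  have hfin := bilin (Ioc M (2 * M)) (Ioc L (2 * L)) a b g T hTj
  rw [hg, hT] at hfin
  exact hfin

end Pool.Agent.J4.H35.PP
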