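import Pool.Agent.J4.H35.PPe

set_option autoImplicit false

/-!
Exponential sums over primes with the phase `ξ n ^ c`, uniformly in `ξ`, for every real `c` which is not a natural number:
the identity of Vaughan (helper35). The proof is that of `Pool.Agent.H895R3.NK` (`c = -1`).
-/

namespace Pool.Agent.J4.H35.PP

open Finset Filter
open Pool.Agent.H469R2.NK (e norm_e e_add conj_e norm_sum_neg e_zero)
open Pool.Agent.H373R2.T3 (bilin sum_inv_dist harm)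
open Pool.Agent.H373R2.T7 (vaughan_gen)

/-- fourth root facts -/
lemma fourth (N : ℕ) (U : ℕ) (hU : U = Nat.sqrt (Nat.sqrt N)) :
    U * U ≤ Nat.sqrt N ∧ Nat.sqrt N * Nat.sqrt N ≤ N ∧ N < (U + 1) ^ 4 := by
  have h1 := Nat.sqrt_le (Nat.sqrt N)
  have h2 := Nat.sqrt_le N
  have h4 : Nat.sqrt N < (U + 1) * (U + 1) := by rw [hU]; exact Nat.lt_succ_sqrt _
  have h5 : N < (Nat.sqrt N + 1) * (Nat.sqrt N + 1) := Nat.lt_succ_sqrt _
  refine ⟨by rw [hU]; exact h1, h2, ?_⟩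
  have h6 : Nat.sqrt N + 1 ≤ (U + 1) * (U + 1) := h4
  calc N < (Nat.sqrt N + 1) * (Nat.sqrt N + 1) := h5
    _ ≤ ((U + 1) * (U + 1)) * ((U + 1) * (U + 1)) := Nat.mul_le_mul h6 h6
    _ = (U + 1) ^ 4 := by ring

/-- **Sums over primes.** -/
theorem prime_main {c : ℝ} (hn : ∀ m : ℕ, c ≠ m) (d : ℕ) :
    ∃ η C : ℝ, 0 < η ∧ η ≤ 1 ∧ 1 ≤ C ∧ ∃ N₀ : ℕ, ∀ N N' : ℕ, N₀ ≤ N → N ≤ N' → N' ≤ 2 * N →
      ∀ ξ : ℝ, 0 < ξ → ξ * (N : ℝ) ^ c ≤ (N : ℝ) ^ d →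
      ‖∑ n ∈ Ioc N N', ((ArithmeticFunction.vonMangoldt n : ℝ) : ℂ) * e (ξ * (n : ℝ) ^ c)‖ ≤
        8 * (1 + Real.log (4 * N)) ^ 5 * Real.sqrt (C * ((N : ℝ) ^ 2 * ((N : ℝ) ^ (-(η / 4))) +
          (N : ℝ) ^ 2 * (1 + Real.log (4 * N)) / (ξ * (N : ℝ) ^ c))) +
        3 * (1 + Real.log (4 * N)) * (C * ((N : ℝ) / (ξ * (N : ℝ) ^ c) + (N : ℝ) * (N : ℝ) ^ (-(η / 4))) * (1 + Real.log (4 * N))) := by
  have hc0 : c ≠ 0 := by
    have := hn 0
    rwa [Nat.cast_zero] at this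
  obtain ⟨u, v, hu, hv, hT2⟩ := typeII_pw hc0
  obtain ⟨lo, hi, hlo, hhi, hcmp⟩ := rpow_cmp c
  obtain ⟨lo', hi', hlo', hhi', hcmp'⟩ := rpow_cmp (1 - c)
  obtain ⟨η₁, C₁, hη₁0, hη₁1, hC₁, hI⟩ := exp_blk hn ((8 * d + 8 : ℕ) : ℝ)
  have hη0 : 0 < η₁ := hη₁0
  refine ⟨η₁, 16 * hi' * C₁ + 16 + 64 * (C₁ * hi' * (1 + 1 / u)) + 16 * C₁, hη0, hη₁1, by
    have : 0 ≤ 16 * hi' * C₁ := by positivity
    have : 0 ≤ 64 * (C₁ * hi' * (1 + 1 / u)) := by positivity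
    linarith, 10 ^ 4 + ⌈v * hi⌉₊ + ⌈hi⌉₊, ?_⟩
  intro N N' hN hNN' hN' ξ hξ0 hξ
  obtain ⟨U, hU⟩ : ∃ U, U = Nat.sqrt (Nat.sqrt N) := ⟨_, rfl⟩
  obtain ⟨hU1, hU2, hU3⟩ := fourth N U hU
  have hU10 : 9 ≤ U := by
    by_contra hc
    have : U + 1 ≤ 9 := by omega
    have h4 : (U + 1) ^ 4 ≤ 9 ^ 4 := Nat.pow_le_pow_left this 4
    omega
  have hNr : (10 ^ 4 : ℝ) ≤ N := by exact_mod_cast (by omega : 10 ^ 4 ≤ N)
  have hNv : v * hi ≤ N := (Nat.le_ceil _).trans (by exact_mod_cast (by omega : ⌈v * hi⌉₊ ≤ N))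
  have hNh : hi ≤ N := (Nat.le_ceil _).trans (by exact_mod_cast (by omega : ⌈hi⌉₊ ≤ N))
  have hN0 : (0 : ℝ) < N := by linarith
  have hN1 : (1 : ℝ) ≤ N := by linarith
  have hNc0 : 0 < (N : ℝ) ^ c := Real.rpow_pos_of_pos hN0 _
  obtain ⟨T, hTd⟩ : ∃ T : ℝ, T = ξ * (N : ℝ) ^ c := ⟨_, rfl⟩
  rw [← hTd] at hξ ⊢
  have hT0 : 0 < T := by rw [hTd]; positivity
  have hNT : (N : ℝ) ^ (1 - c) / ξ = N / T := by
    rw [hTd, Real.rpow_sub hN0, Real.rpow_one]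
    field_simp
  have hlog4N : 0 ≤ Real.log (4 * (N : ℝ)) := Real.log_nonneg (by linarith)
  obtain ⟨Lg, hLg⟩ : ∃ Lg : ℝ, Lg = 1 + Real.log (4 * N) := ⟨_, rfl⟩
  rw [← hLg]
  have hLg1 : 1 ≤ Lg := by linarith
  obtain ⟨P, hP⟩ : ∃ P : ℝ, P = (N : ℝ) ^ (-(η₁ / 4)) := ⟨_, rfl⟩
  rw [← hP]
  have hP0 : 0 < P := by rw [hP]; exact Real.rpow_pos_of_pos hN0 _
  have hUr : (9 : ℝ) ≤ U := by exact_mod_cast hU10
  -- N ≤ (4X)^4 ⟹ X^{-η} ≤ 4 P
  have hsmall : ∀ X : ℝ, 1 ≤ X → (N : ℝ) ≤ (4 * X) ^ 4 → ∀ ρ : ℝ, η₁ ≤ ρ → X ^ (-ρ) ≤ 4 * P := by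
    intro X hX hNX ρ hρ
    have h1 : X ^ (-ρ) ≤ X ^ (-η₁) := Real.rpow_le_rpow_of_exponent_le hX (by linarith)
    refine h1.trans ?_
    have h2 : (N : ℝ) ^ ((1 : ℝ) / 4) ≤ 4 * X := by
      have h3 : (N : ℝ) ^ ((1 : ℝ) / 4) ≤ ((4 * X) ^ 4) ^ ((1 : ℝ) / 4) := Real.rpow_le_rpow hN0.le hNX (by norm_num)
      refine h3.trans (le_of_eq ?_)
      rw [← Real.rpow_natCast, ← Real.rpow_mul (by positivity)]
      norm_num
    have h4 : (4 * X) ^ (-η₁) ≤ ((N : ℝ) ^ ((1 : ℝ) / 4)) ^ (-η₁) :=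
      Real.rpow_le_rpow_of_nonpos (by positivity) h2 (by linarith)
    have h5 : ((N : ℝ) ^ ((1 : ℝ) / 4)) ^ (-η₁) = P := by
      rw [hP, ← Real.rpow_mul hN0.le]; congr 1; ring
    rw [h5, Real.mul_rpow (by norm_num) (by linarith)] at h4
    have h6 : (1 : ℝ) / 4 ≤ (4 : ℝ) ^ (-η₁) := by
      calc (1 : ℝ) / 4 = (4 : ℝ) ^ (-1 : ℝ) := by rw [Real.rpow_neg_one]; norm_num
        _ ≤ _ := Real.rpow_le_rpow_of_exponent_le (by norm_num) (by linarith)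
    have h7 : 0 < X ^ (-η₁) := Real.rpow_pos_of_pos (by linarith) _
    nlinarith
  obtain ⟨C, hC⟩ : ∃ C : ℝ, C = 16 * hi' * C₁ + 16 + 64 * (C₁ * hi' * (1 + 1 / u)) + 16 * C₁ := ⟨_, rfl⟩
  rw [← hC]
  have hhC : 0 ≤ hi' * C₁ := by positivity
  have hhC2 : 0 ≤ C₁ * hi' * (1 + 1 / u) := by positivity
  obtain ⟨S, hS⟩ : ∃ S : ℝ, S = C * ((N : ℝ) ^ 2 * P + (N : ℝ) ^ 2 * Lg / T) := ⟨_, rfl⟩
  have hC1 : 1 ≤ C := by rw [hC]; nlinarith
  have hC0 : 0 ≤ C := by linarith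
  have hS0 : 0 ≤ S := by rw [hS]; positivity
  obtain ⟨Y, hY⟩ : ∃ Y : ℕ → ℝ, Y = fun m : ℕ => C * ((N : ℝ) / T + (N : ℝ) * P) * (1 / (m : ℝ)) := ⟨_, rfl⟩
  have hY0 : ∀ m, 0 ≤ Y m := fun m => by rw [hY]; positivity
  have hUsq : U * U ≤ N := hU1.trans (Nat.sqrt_le_self N)
  have main := vaughan_gen (fun n => e (ξ * (n : ℝ) ^ c)) N N' U (by omega) hNN' hN' (by omega) hUsq Y (Real.sqrt S)
    (Real.sqrt_nonneg _) hY0 ?_ ?_
  · rw [← hLg, hS] at main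
    refine main.trans ?_
    apply add_le_add le_rfl
    apply mul_le_mul_of_nonneg_left _ (by positivity)
    rw [hY]
    simp only
    rw [← mul_sum]
    apply mul_le_mul_of_nonneg_left _ (by positivity)
    refine (harm (U * U)).trans ?_
    have : Real.log (((U * U : ℕ) : ℝ) + 1) ≤ Real.log (4 * N) := by
      apply Real.log_le_log (by positivity)
      have h1 : ((U * U : ℕ) : ℝ) ≤ N := by exact_mod_cast hUsq
      linarith
    linarith
  · -- type I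
    intro m hm b hb
    rw [mem_Icc] at hm
    have hm0 : 0 < m := by omega
    have hmr : (1 : ℝ) ≤ m := by exact_mod_cast hm.1
    have hmr0 : (0 : ℝ) < m := by linarith
    have hmN : m ≤ N := hm.2.trans hUsq
    obtain ⟨a, ha⟩ : ∃ a, a = N / m := ⟨_, rfl⟩
    rw [← ha]
    have hb2 : b ≤ 2 * a + 1 := by
      have h1 : N' / m ≤ 2 * N / m := Nat.div_le_div_right hN'
      have h2 : 2 * N / m ≤ 2 * a + 1 := by
        have h3 : N < (a + 1) * m := by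
          rw [ha]
          have := Nat.div_add_mod N m
          have := Nat.mod_lt N hm0
          nlinarith
        have h4 : 2 * N / m < 2 * a + 2 := by
          rw [Nat.div_lt_iff_lt_mul hm0]; nlinarith
        omega
      omega
    have haN : Nat.sqrt N < a + 1 := by
      have h3 : N < (a + 1) * m := by
        rw [ha]
        have := Nat.div_add_mod N m
        have := Nat.mod_lt N hm0
        nlinarith
      by_contra hc
      rw [not_lt] at hc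
      have h4 : (a + 1) * m ≤ Nat.sqrt N * Nat.sqrt N := Nat.mul_le_mul hc (hm.2.trans hU1)
      omega
    have haN2 : N ≤ (a + 1) * (a + 1) := by
      have h5 : N < (Nat.sqrt N + 1) * (Nat.sqrt N + 1) := Nat.lt_succ_sqrt _
      have : (Nat.sqrt N + 1) * (Nat.sqrt N + 1) ≤ (a + 1) * (a + 1) := Nat.mul_le_mul haN haN
      omega
    have ha0 : 1 ≤ a := by
      by_contra h
      have : a = 0 := by omega
      rw [this] at haN2
      omega
    have ha1 : (1 : ℝ) ≤ (a : ℝ) := by exact_mod_cast ha0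
    have ha0r : (0 : ℝ) < a := by linarith
    have haup : ((a : ℕ) : ℝ) ≤ (N : ℝ) / m := by rw [ha]; exact Nat.cast_div_le
    have halow : (N : ℝ) / m ≤ 2 * a := by
      rw [div_le_iff₀ hmr0]
      have h3 : N < (a + 1) * m := by
        rw [ha]
        have := Nat.div_add_mod N m
        have := Nat.mod_lt N hm0
        nlinarith
      have h4 : (N : ℝ) ≤ ((a + 1) * m : ℕ) := by exact_mod_cast h3.le
      push_cast at h4
      nlinarith
    have hNm : 0 < (N : ℝ) / m := by positivity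
    -- split off the point 2a+1
    have hE : ∀ l : ℕ, e (ξ * (((m * l : ℕ) : ℕ) : ℝ) ^ c) = e (ξ * (m : ℝ) ^ c * (l : ℝ) ^ c) := by
      intro l
      congr 1
      push_cast
      rw [Real.mul_rpow (Nat.cast_nonneg m) (Nat.cast_nonneg l)]
      ring
    obtain ⟨θ, hθ⟩ : ∃ θ : ℝ, θ = ξ * (m : ℝ) ^ c := ⟨_, rfl⟩
    have hmc0 : 0 < (m : ℝ) ^ c := Real.rpow_pos_of_pos hmr0 _
    have hθ0 : 0 < θ := by rw [hθ]; positivity
    have hcond : |θ| * (a : ℝ) ^ c ≤ (a : ℝ) ^ ((8 * d + 8 : ℕ) : ℝ) := by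
      rw [abs_of_pos hθ0, Real.rpow_natCast]
      have h1 : (a : ℝ) ^ c ≤ hi * ((N : ℝ) / m) ^ c := (hcmp ((N : ℝ) / m) a hNm (by linarith) (by linarith)).2
      have h2 : θ * (a : ℝ) ^ c ≤ hi * T := by
        calc θ * (a : ℝ) ^ c ≤ θ * (hi * ((N : ℝ) / m) ^ c) := mul_le_mul_of_nonneg_left h1 hθ0.le
          _ = hi * T := by
              rw [hθ, hTd, Real.div_rpow hN0.le hmr0.le]
              field_simp
      have h3 : (N : ℝ) ≤ (2 * (a : ℝ)) ^ 2 := by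
        have h4 : (N : ℝ) ≤ (((a + 1) * (a + 1) : ℕ) : ℝ) := by exact_mod_cast haN2
        push_cast at h4
        nlinarith
      have ha16 : (16 : ℝ) ≤ a := by
        by_contra hcon
        rw [not_le] at hcon
        nlinarith
      have h5 : (N : ℝ) ≤ (a : ℝ) ^ 4 := by
        refine h3.trans ?_
        have h6 : (4 : ℝ) ≤ (a : ℝ) ^ 2 := by nlinarith
        calc (2 * (a : ℝ)) ^ 2 = 4 * (a : ℝ) ^ 2 := by ring
          _ ≤ (a : ℝ) ^ 2 * (a : ℝ) ^ 2 := mul_le_mul_of_nonneg_right h6 (by positivity)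
          _ = _ := by ring
      calc θ * (a : ℝ) ^ c ≤ hi * T := h2
        _ ≤ (N : ℝ) * (N : ℝ) ^ d := mul_le_mul hNh hξ hT0.le hN0.le
        _ = (N : ℝ) ^ (d + 1) := by rw [pow_succ]; ring
        _ ≤ ((a : ℝ) ^ 4) ^ (d + 1) := pow_le_pow_left₀ hN0.le h5 _
        _ = (a : ℝ) ^ (4 * (d + 1)) := by rw [← pow_mul]
        _ ≤ _ := pow_le_pow_right₀ ha1 (by omega)
    have h6 := hI a a (min b (2 * a)) θ ha0 le_rfl (min_le_right _ _) hθ0.ne' hcond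
    rw [abs_of_pos hθ0] at h6
    have hsplit : ‖∑ l ∈ Ioc a b, e (ξ * (((m * l : ℕ) : ℕ) : ℝ) ^ c)‖ ≤
        ‖∑ l ∈ Ioc a (min b (2 * a)), e (θ * (l : ℝ) ^ c)‖ + 1 := by
      have e0 : ∑ l ∈ Ioc a b, e (ξ * (((m * l : ℕ) : ℕ) : ℝ) ^ c) = ∑ l ∈ Ioc a b, e (θ * (l : ℝ) ^ c) := by
        refine sum_congr rfl fun l _ => ?_
        rw [hE, hθ]
      rw [e0]
      rcases le_or_gt b (2 * a) with h7 | h7
      · rw [min_eq_left h7]
        linarith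
      · have hb3 : b = 2 * a + 1 := by omega
        rw [min_eq_right h7.le, hb3]
        have : Ioc a (2 * a + 1) = insert (2 * a + 1) (Ioc a (2 * a)) := by
          ext x
          simp only [mem_Ioc, mem_insert]
          omega
        rw [this, sum_insert (by simp only [mem_Ioc]; omega)]
        refine (norm_add_le _ _).trans ?_
        rw [norm_e]
        linarith
    refine hsplit.trans ?_
    have hXpow : 1 ≤ (a : ℝ) ^ (1 - η₁) := Real.one_le_rpow ha1 (by linarith)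
    rw [hY]
    simp only
    have h9 : (a : ℝ) ^ (1 - c) / θ ≤ hi' * ((N : ℝ) / T * (1 / m)) := by
      have h1 : (a : ℝ) ^ (1 - c) ≤ hi' * ((N : ℝ) / m) ^ (1 - c) := (hcmp' ((N : ℝ) / m) a hNm (by linarith) (by linarith)).2
      calc (a : ℝ) ^ (1 - c) / θ ≤ hi' * ((N : ℝ) / m) ^ (1 - c) / θ := div_le_div_of_nonneg_right h1 hθ0.le
        _ = hi' * ((N : ℝ) / T * (1 / m)) := by
            rw [← hNT, hθ, Real.div_rpow hN0.le hmr0.le, Real.rpow_sub hmr0, Real.rpow_one]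
            field_simp
    have h10 : (a : ℝ) ^ (1 - η₁) ≤ 8 * ((N : ℝ) * P * (1 / m)) := by
      have e1 : (a : ℝ) ^ (1 - η₁) = (a : ℝ) * (a : ℝ) ^ (-η₁) := by
        rw [sub_eq_add_neg, Real.rpow_add ha0r, Real.rpow_one]
      rw [e1]
      have h11 := hsmall (a : ℝ) ha1 (by
        have h12 : (N : ℝ) ≤ (2 * (a : ℝ)) ^ 2 := by
          have h4 : (N : ℝ) ≤ (((a + 1) * (a + 1) : ℕ) : ℝ) := by exact_mod_cast haN2
          push_cast at h4
          nlinarith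
        calc (N : ℝ) ≤ (2 * (a : ℝ)) ^ 2 := h12
          _ ≤ (4 * (a : ℝ)) ^ 2 := by gcongr; norm_num
          _ ≤ (4 * (a : ℝ)) ^ 4 := pow_le_pow_right₀ (by linarith) (by norm_num)) η₁ le_rfl
      calc (a : ℝ) * (a : ℝ) ^ (-η₁) ≤ (N / m) * (4 * P) := by gcongr
        _ ≤ _ := by
          have : 0 ≤ (N : ℝ) / m * P := by positivity
          calc (N : ℝ) / m * (4 * P) = 4 * ((N : ℝ) / m * P) := by ring
            _ ≤ 8 * ((N : ℝ) / m * P) := by linarith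
            _ = _ := by ring
    have hq1 : 0 ≤ (N : ℝ) / T * (1 / m) := by positivity
    have hq2 : 0 ≤ (N : ℝ) * P * (1 / m) := by positivity
    have h13 : C₁ * ((a : ℝ) ^ (1 - c) / θ) ≤ C₁ * (hi' * ((N : ℝ) / T * (1 / m))) := mul_le_mul_of_nonneg_left h9 (by linarith)
    have h14 : (C₁ + 1) * (a : ℝ) ^ (1 - η₁) ≤ (C₁ + 1) * (8 * ((N : ℝ) * P * (1 / m))) :=
      mul_le_mul_of_nonneg_left h10 (by linarith)
    have hc4 : C₁ * hi' ≤ C := by rw [hC]; nlinarith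
    have hc8 : (C₁ + 1) * 8 ≤ C := by rw [hC]; nlinarith
    have := mul_le_mul_of_nonneg_right hc4 hq1
    have := mul_le_mul_of_nonneg_right hc8 hq2
    calc ‖∑ l ∈ Ioc a (min b (2 * a)), e (θ * (l : ℝ) ^ c)‖ + 1
        ≤ C₁ * ((a : ℝ) ^ (1 - c) / θ) + (C₁ + 1) * (a : ℝ) ^ (1 - η₁) := by nlinarith
      _ ≤ C * ((N : ℝ) / T * (1 / m)) + C * ((N : ℝ) * P * (1 / m)) := by nlinarith
      _ = _ := by ring
  · -- type II
    intro a b A₂ B₂ hA hB M L hM hL hUM hUL hML hsa hsb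
    have hMr : (1 : ℝ) ≤ M := by exact_mod_cast hM
    have hLr : (1 : ℝ) ≤ L := by exact_mod_cast hL
    have hM0 : (0 : ℝ) < M := by linarith
    have hL0 : (0 : ℝ) < L := by linarith
    rcases Nat.lt_or_ge N (4 * (M * L)) with hbig | hsm
    swap
    · -- the sum is empty
      have hz : ∑ m ∈ Ioc M (2 * M), ∑ l ∈ Ioc L (2 * L), a m * b l * (if N < m * l ∧ m * l ≤ N' then
          e (ξ * ((m * l : ℕ) : ℝ) ^ c) else 0) = 0 := by
        apply sum_eq_zero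
        intro m hm
        apply sum_eq_zero
        intro l hl
        have hm := mem_Ioc.1 hm
        have hl := mem_Ioc.1 hl
        have : m * l ≤ (2 * M) * (2 * L) := Nat.mul_le_mul hm.2 hl.2
        rw [if_neg, mul_zero]
        intro h
        have : (2 * M) * (2 * L) = 4 * (M * L) := by ring
        omega
      rw [hz, norm_zero]
      have hAB := mul_nonneg (mul_nonneg hA hB) (sq_nonneg (Real.sqrt S))
      calc (0 : ℝ) ^ 2 = 0 := by norm_num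
        _ ≤ _ := hAB
    have hNM : N < (2 * M) ^ 4 := lt_of_lt_of_le hU3 (Nat.pow_le_pow_left (by omega) 4)
    have hNL : N < (2 * L) ^ 4 := lt_of_lt_of_le hU3 (Nat.pow_le_pow_left (by omega) 4)
    have hNMr : (N : ℝ) ≤ (2 * M) ^ 4 := by exact_mod_cast hNM.le
    have hNLr : (N : ℝ) ≤ (2 * L) ^ 4 := by exact_mod_cast hNL.le
    have hM5 : (5 : ℝ) ≤ M := by exact_mod_cast (by omega : 5 ≤ M)
    have hMLr : (M : ℝ) * L ≤ 2 * N := by
      have : ((M * L : ℕ) : ℝ) ≤ ((2 * N : ℕ) : ℝ) := by exact_mod_cast hML.trans hN'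
      push_cast at this; exact this
    have hMLl : (N : ℝ) / 4 ≤ (M : ℝ) * L := by
      have : (N : ℝ) ≤ ((4 * (M * L) : ℕ) : ℝ) := by exact_mod_cast hbig.le
      push_cast at this
      linarith
    have hcond : ξ * (v * (L : ℝ) ^ c) * (M : ℝ) ^ c ≤ (M : ℝ) ^ ((8 * d + 8 : ℕ) : ℝ) := by
      rw [Real.rpow_natCast]
      have h1 : (N : ℝ) ≤ (M : ℝ) ^ 8 := by
        calc (N : ℝ) ≤ (2 * M) ^ 4 := hNMr
          _ = 16 * (M : ℝ) ^ 4 := by ring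
          _ ≤ (M : ℝ) ^ 4 * (M : ℝ) ^ 4 := by
            apply mul_le_mul_of_nonneg_right _ (by positivity)
            calc (16 : ℝ) ≤ 5 ^ 4 := by norm_num
              _ ≤ _ := by gcongr
          _ = _ := by ring
      have h2 : ((M : ℝ) * L) ^ c ≤ hi * (N : ℝ) ^ c := (hcmp N ((M : ℝ) * L) hN0 hMLl (by linarith)).2
      calc ξ * (v * (L : ℝ) ^ c) * (M : ℝ) ^ c = ξ * v * ((M : ℝ) * L) ^ c := by
            rw [Real.mul_rpow hM0.le hL0.le]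
            ring
        _ ≤ ξ * v * (hi * (N : ℝ) ^ c) := mul_le_mul_of_nonneg_left h2 (by positivity)
        _ = (v * hi) * T := by rw [hTd]; ring
        _ ≤ (N : ℝ) * (N : ℝ) ^ d := mul_le_mul hNv hξ hT0.le hN0.le
        _ = (N : ℝ) ^ (d + 1) := by rw [pow_succ]; ring
        _ ≤ ((M : ℝ) ^ 8) ^ (d + 1) := pow_le_pow_left₀ hN0.le h1 _
        _ = (M : ℝ) ^ (8 * (d + 1)) := by rw [← pow_mul]
        _ = _ := by ring_nf
    have h := hT2 ((8 * d + 8 : ℕ) : ℝ) η₁ C₁ hC₁ hI ξ hξ0 N N' M L hM hL a b hcond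
    refine h.trans ?_
    rw [Real.sq_sqrt hS0]
    have hlogL : 1 + Real.log ((L : ℝ) + 1) ≤ Lg := by
      rw [hLg]
      apply add_le_add le_rfl
      apply Real.log_le_log (by positivity)
      have : (L : ℝ) ≤ M * L := le_mul_of_one_le_left (by positivity) hMr
      linarith
    have hlogL0 : 0 ≤ 1 + Real.log ((L : ℝ) + 1) := by
      have := Real.log_nonneg (show (1 : ℝ) ≤ (L : ℝ) + 1 by linarith)
      linarith
    have hML2 : ((M : ℝ) * L) ^ 2 ≤ 4 * (N : ℝ) ^ 2 := by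
      calc ((M : ℝ) * L) ^ 2 ≤ (2 * N) ^ 2 := by gcongr
        _ = _ := by ring
    have hLP : (L : ℝ) ^ (-1 : ℝ) ≤ 4 * P := hsmall L hLr (hNLr.trans (by gcongr; norm_num)) 1 hη₁1
    have hMP : (M : ℝ) ^ (-η₁) ≤ 4 * P := hsmall M hMr (hNMr.trans (by gcongr; norm_num)) η₁ le_rfl
    have t1 : (M : ℝ) * L * M ≤ 16 * ((N : ℝ) ^ 2 * P) := by
      have e1 : (M : ℝ) * L * M = ((M : ℝ) * L) ^ 2 * (L : ℝ) ^ (-1 : ℝ) := by
        rw [Real.rpow_neg_one]; field_simp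
      rw [e1]
      calc ((M : ℝ) * L) ^ 2 * (L : ℝ) ^ (-1 : ℝ) ≤ (4 * (N : ℝ) ^ 2) * (4 * P) := by gcongr
        _ = _ := by ring
    have hmlc : ((M : ℝ) * L) ^ (1 - c) / ξ ≤ hi' * (N / T) := by
      have h1 : ((M : ℝ) * L) ^ (1 - c) ≤ hi' * (N : ℝ) ^ (1 - c) := (hcmp' N ((M : ℝ) * L) hN0 hMLl (by linarith)).2
      calc ((M : ℝ) * L) ^ (1 - c) / ξ ≤ hi' * (N : ℝ) ^ (1 - c) / ξ := div_le_div_of_nonneg_right h1 hξ0.le
        _ = hi' * (N / T) := by rw [← hNT]; ring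
    have hu0 : 0 ≤ 2 / u := by positivity
    have t2 : (M : ℝ) * L * (2 / u * (((M : ℝ) * L) ^ (1 - c) / ξ) * (1 + Real.log (L + 1))) ≤
        4 * (1 / u) * hi' * ((N : ℝ) ^ 2 * Lg / T) := by
      calc (M : ℝ) * L * (2 / u * (((M : ℝ) * L) ^ (1 - c) / ξ) * (1 + Real.log (L + 1)))
          ≤ (2 * N) * (2 / u * (hi' * (N / T)) * Lg) := by gcongr
        _ = _ := by ring
    have t3 : (M : ℝ) * L * (L * (M : ℝ) ^ (1 - η₁)) ≤ 16 * ((N : ℝ) ^ 2 * P) := by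
      have e1 : (M : ℝ) ^ (1 - η₁) = M * (M : ℝ) ^ (-η₁) := by
        rw [sub_eq_add_neg, Real.rpow_add hM0, Real.rpow_one]
      rw [e1]
      calc (M : ℝ) * L * (L * (M * (M : ℝ) ^ (-η₁))) = ((M : ℝ) * L) ^ 2 * (M : ℝ) ^ (-η₁) := by ring
        _ ≤ (4 * (N : ℝ) ^ 2) * (4 * P) := by gcongr
        _ = _ := by ring
    have hq1 : 0 ≤ (N : ℝ) ^ 2 * P := by positivity
    have hq2 : 0 ≤ (N : ℝ) ^ 2 * Lg / T := by positivity
    obtain ⟨R, hR⟩ : ∃ R : ℝ, R = M + C₁ * (2 / u * (((M : ℝ) * L) ^ (1 - c) / ξ) * (1 + Real.log (L + 1)) +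
        L * (M : ℝ) ^ (1 - η₁)) := ⟨_, rfl⟩
    rw [← hR]
    have hR0 : 0 ≤ R := by rw [hR]; positivity
    have hMLT : (M : ℝ) * L * R ≤ S := by
      have e1 : (M : ℝ) * L * R = (M : ℝ) * L * M +
          (C₁ * ((M : ℝ) * L * (2 / u * (((M : ℝ) * L) ^ (1 - c) / ξ) * (1 + Real.log (L + 1)))) +
          C₁ * ((M : ℝ) * L * (L * (M : ℝ) ^ (1 - η₁)))) := by rw [hR]; ring
      rw [e1, hS]
      have t2' := mul_le_mul_of_nonneg_left t2 (show 0 ≤ C₁ by linarith)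
      have t3' := mul_le_mul_of_nonneg_left t3 (show 0 ≤ C₁ by linarith)
      have hc1 : 16 + 16 * C₁ ≤ C := by rw [hC]; nlinarith
      have hc2 : C₁ * (4 * (1 / u) * hi') ≤ C := by
        have h1 : C₁ * (4 * (1 / u) * hi') ≤ 64 * (C₁ * hi' * (1 + 1 / u)) := by
          have h2 : 0 ≤ C₁ * hi' * (1 / u) := by positivity
          have h3 : 0 ≤ C₁ * hi' := by positivity
          nlinarith
        rw [hC]
        nlinarith
      have u1 := mul_le_mul_of_nonneg_right hc1 hq1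
      have u2 := mul_le_mul_of_nonneg_right hc2 hq2
      linarith
    calc (∑ m ∈ Ioc M (2 * M), ‖a m‖ ^ 2) * ((∑ l ∈ Ioc L (2 * L), ‖b l‖ ^ 2) * R)
        ≤ (A₂ * M) * ((B₂ * L) * R) := by
          apply mul_le_mul hsa _ _ (by positivity)
          · exact mul_le_mul_of_nonneg_right hsb hR0
          · exact mul_nonneg (sum_nonneg fun _ _ => by positivity) hR0
      _ = A₂ * B₂ * ((M : ℝ) * L * R) := by ring
      _ ≤ A₂ * B₂ * S := mul_le_mul_of_nonneg_left hMLT (by positivity)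

end Pool.Agent.J4.H35.PP
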