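import Pool.Agent.J4.H35.PPf
import Pool.Agent.TH915.PW.PrimeSum

set_option autoImplicit false

/-!
Exponential sums over primes with the phase `ξ n ^ c`, uniformly in `ξ`, for every real `c` which is not a natural number:
final form (helper35).
-/

namespace Pool.Agent.J4.H35.PP

open Finset Filter
open Pool.Agent.H469R2.NK (e norm_e e_add conj_e norm_sum_neg e_zero)
open Pool.Agent.TH915.PW (abel_bound prime_bound)

/-- the final form with the von Mangoldt function -/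
theorem lam_sum {c : ℝ} (hn : ∀ m : ℕ, c ≠ m) (δ K : ℝ) (hδ : 0 < δ) :
    ∃ σ : ℝ, 0 < σ ∧ σ ≤ 1 / 4 ∧ ∃ N₀ : ℕ, ∀ N N' : ℕ, N₀ ≤ N → N ≤ N' → N' ≤ 2 * N → ∀ ξ : ℝ, 0 < ξ →
      (N : ℝ) ^ δ ≤ ξ * (N : ℝ) ^ c → ξ * (N : ℝ) ^ c ≤ (N : ℝ) ^ K →
      ‖∑ n ∈ Ioc N N', ((ArithmeticFunction.vonMangoldt n : ℝ) : ℂ) * e (ξ * (n : ℝ) ^ c)‖ ≤ (N : ℝ) ^ (1 - σ) := by
  obtain ⟨η, C, hη, hη1, hC, N₁, h1⟩ := prime_main hn ⌈K⌉₊
  obtain ⟨σ₀, hσ₀⟩ : ∃ σ₀, σ₀ = min δ (η / 4) := ⟨_, rfl⟩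
  have hσ0 : 0 < σ₀ := by rw [hσ₀]; exact lt_min hδ (by linarith)
  have hσ1 : σ₀ ≤ δ := by rw [hσ₀]; exact min_le_left _ _
  have hσ2 : σ₀ ≤ η / 4 := by rw [hσ₀]; exact min_le_right _ _
  -- logarithms
  have hev : ∀ᶠ x : ℝ in atTop, 22 * C * (1 + Real.log (4 * x)) ^ 6 ≤ x ^ (σ₀ / 4) := by
    have h2 : ∀ᶠ x : ℝ in atTop, ‖Real.log x‖ ≤ 1 * ‖x ^ (σ₀ / 48)‖ :=
      (isLittleO_log_rpow_atTop (by linarith : 0 < σ₀ / 48)).bound (by norm_num)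
    have h3 : ∀ᶠ x : ℝ in atTop, 3 ≤ x ^ (σ₀ / 48) := (tendsto_rpow_atTop (by linarith : 0 < σ₀ / 48)).eventually_ge_atTop 3
    have h4 : ∀ᶠ x : ℝ in atTop, 22 * C * 4096 ≤ x ^ (σ₀ / 8) :=
      (tendsto_rpow_atTop (by linarith : 0 < σ₀ / 8)).eventually_ge_atTop _
    filter_upwards [h2, h3, h4, eventually_ge_atTop (1 : ℝ)] with x g2 g3 g4 g5
    have hx0 : 0 < x := by linarith
    rw [one_mul, Real.norm_of_nonneg (Real.log_nonneg g5), Real.norm_of_nonneg (by positivity)] at g2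
    have h5 : Real.log (4 * x) ≤ 2 + Real.log x := by
      rw [Real.log_mul (by norm_num) hx0.ne']
      have : Real.log 4 ≤ 2 := by
        rw [show (4 : ℝ) = 2 ^ 2 by norm_num, Real.log_pow]
        have := Real.log_two_lt_d9
        push_cast
        linarith
      linarith
    have h6 : 1 + Real.log (4 * x) ≤ 4 * x ^ (σ₀ / 48) := by linarith
    have h7 : 0 ≤ 1 + Real.log (4 * x) := by
      have := Real.log_nonneg (by linarith : (1 : ℝ) ≤ 4 * x)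
      linarith
    calc 22 * C * (1 + Real.log (4 * x)) ^ 6 ≤ 22 * C * (4 * x ^ (σ₀ / 48)) ^ 6 := by gcongr
      _ = 22 * C * 4096 * (x ^ (σ₀ / 48)) ^ 6 := by ring
      _ = 22 * C * 4096 * x ^ (σ₀ / 8) := by
          rw [← Real.rpow_natCast, ← Real.rpow_mul hx0.le]
          congr 2
          push_cast
          ring
      _ ≤ x ^ (σ₀ / 8) * x ^ (σ₀ / 8) := mul_le_mul_of_nonneg_right g4 (by positivity)
      _ = x ^ (σ₀ / 4) := by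
          rw [← Real.rpow_add hx0]
          congr 1
          ring
  obtain ⟨N₂, hN₂⟩ := eventually_atTop.mp ((tendsto_natCast_atTop_atTop (R := ℝ)).eventually
    (hev.and (eventually_ge_atTop (1 : ℝ))))
  refine ⟨min (σ₀ / 4) (1 / 4), lt_min (by linarith) (by norm_num), min_le_right _ _, N₁ + N₂, fun N N' hN hNN' hN' ξ hξ hξ1 hξ2 => ?_⟩
  obtain ⟨g1, g2⟩ := hN₂ N (by omega)
  have hN0 : (0 : ℝ) < N := by linarith
  obtain ⟨T, hT⟩ : ∃ T : ℝ, T = ξ * (N : ℝ) ^ c := ⟨_, rfl⟩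
  have hξ3 : ξ * (N : ℝ) ^ c ≤ (N : ℝ) ^ ⌈K⌉₊ := by
    refine hξ2.trans ?_
    rw [← Real.rpow_natCast]
    exact Real.rpow_le_rpow_of_exponent_le g2 (Nat.le_ceil _)
  have h2 := h1 N N' (by omega) hNN' hN' ξ hξ hξ3
  rw [← hT] at h2 hξ1
  have hT0 : 0 < T := lt_of_lt_of_le (by positivity) hξ1
  obtain ⟨Lg, hLg⟩ : ∃ Lg : ℝ, Lg = 1 + Real.log (4 * N) := ⟨_, rfl⟩
  rw [← hLg] at h2 g1
  have hLg1 : 1 ≤ Lg := by
    rw [hLg]
    have := Real.log_nonneg (by linarith : (1 : ℝ) ≤ 4 * N)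
    linarith
  obtain ⟨A, hA⟩ : ∃ A : ℝ, A = (N : ℝ) ^ (-σ₀) := ⟨_, rfl⟩
  have hA0 : 0 < A := by rw [hA]; positivity
  have hP : (N : ℝ) ^ (-(η / 4)) ≤ A := by
    rw [hA]
    exact Real.rpow_le_rpow_of_exponent_le g2 (by linarith)
  have hTi : 1 / T ≤ A := by
    rw [hA, Real.rpow_neg hN0.le, ← one_div]
    apply one_div_le_one_div_of_le (by positivity)
    exact (Real.rpow_le_rpow_of_exponent_le g2 hσ1).trans hξ1
  have hb1 : C * ((N : ℝ) ^ 2 * (N : ℝ) ^ (-(η / 4)) + (N : ℝ) ^ 2 * Lg / T) ≤ (2 * C * Lg) ^ 2 * (((N : ℝ) * (N : ℝ) ^ (-(σ₀ / 2))) ^ 2) := by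
    have e1 : ((N : ℝ) * (N : ℝ) ^ (-(σ₀ / 2))) ^ 2 = (N : ℝ) ^ 2 * A := by
      rw [mul_pow, hA, ← Real.rpow_natCast ((N : ℝ) ^ (-(σ₀ / 2))), ← Real.rpow_mul hN0.le]
      congr 2
      push_cast
      ring
    rw [e1]
    have e2 : (N : ℝ) ^ 2 * (N : ℝ) ^ (-(η / 4)) ≤ (N : ℝ) ^ 2 * A := mul_le_mul_of_nonneg_left hP (by positivity)
    have e3 : (N : ℝ) ^ 2 * Lg / T ≤ Lg * ((N : ℝ) ^ 2 * A) := by
      calc (N : ℝ) ^ 2 * Lg / T = (N : ℝ) ^ 2 * Lg * (1 / T) := by ring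
        _ ≤ (N : ℝ) ^ 2 * Lg * A := mul_le_mul_of_nonneg_left hTi (by positivity)
        _ = _ := by ring
    have e4 : 0 < (N : ℝ) ^ 2 * A := by positivity
    calc C * ((N : ℝ) ^ 2 * (N : ℝ) ^ (-(η / 4)) + (N : ℝ) ^ 2 * Lg / T) ≤ C * ((N : ℝ) ^ 2 * A + Lg * ((N : ℝ) ^ 2 * A)) := by gcongr
      _ = (C * (1 + Lg)) * ((N : ℝ) ^ 2 * A) := by ring
      _ ≤ (2 * C * Lg) * ((N : ℝ) ^ 2 * A) := by
          apply mul_le_mul_of_nonneg_right _ e4.le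
          nlinarith
      _ ≤ (2 * C * Lg) ^ 2 * ((N : ℝ) ^ 2 * A) := by
          apply mul_le_mul_of_nonneg_right _ e4.le
          have : 1 ≤ 2 * C * Lg := by nlinarith
          nlinarith
  have hb2 : Real.sqrt (C * ((N : ℝ) ^ 2 * (N : ℝ) ^ (-(η / 4)) + (N : ℝ) ^ 2 * Lg / T)) ≤
      2 * C * Lg * ((N : ℝ) * (N : ℝ) ^ (-(σ₀ / 2))) := by
    calc Real.sqrt (C * ((N : ℝ) ^ 2 * (N : ℝ) ^ (-(η / 4)) + (N : ℝ) ^ 2 * Lg / T))
        ≤ Real.sqrt ((2 * C * Lg) ^ 2 * (((N : ℝ) * (N : ℝ) ^ (-(σ₀ / 2))) ^ 2)) := Real.sqrt_le_sqrt hb1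
      _ = 2 * C * Lg * ((N : ℝ) * (N : ℝ) ^ (-(σ₀ / 2))) := by
          rw [← mul_pow, Real.sqrt_sq (by positivity)]
  have hb3 : (N : ℝ) / T + (N : ℝ) * (N : ℝ) ^ (-(η / 4)) ≤ 2 * ((N : ℝ) * (N : ℝ) ^ (-(σ₀ / 2))) := by
    have e1 : A ≤ (N : ℝ) ^ (-(σ₀ / 2)) := by
      rw [hA]
      exact Real.rpow_le_rpow_of_exponent_le g2 (by linarith)
    have e2 : (N : ℝ) / T ≤ (N : ℝ) * (N : ℝ) ^ (-(σ₀ / 2)) := by
      calc (N : ℝ) / T = N * (1 / T) := by ring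
        _ ≤ _ := mul_le_mul_of_nonneg_left (hTi.trans e1) hN0.le
    have e3 : (N : ℝ) * (N : ℝ) ^ (-(η / 4)) ≤ (N : ℝ) * (N : ℝ) ^ (-(σ₀ / 2)) := mul_le_mul_of_nonneg_left (hP.trans e1) hN0.le
    linarith
  refine h2.trans ?_
  obtain ⟨V, hV⟩ : ∃ V : ℝ, V = (N : ℝ) * (N : ℝ) ^ (-(σ₀ / 2)) := ⟨_, rfl⟩
  rw [← hV] at hb2 hb3
  have hV0 : 0 < V := by rw [hV]; positivity
  have hV1 : V * (N : ℝ) ^ (σ₀ / 4) ≤ (N : ℝ) ^ (1 - min (σ₀ / 4) (1 / 4)) := by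
    have e1 : V * (N : ℝ) ^ (σ₀ / 4) = (N : ℝ) ^ (1 - σ₀ / 4) := by
      rw [hV, ← Real.rpow_one_add' hN0.le (by
        have := hσ2
        linarith), ← Real.rpow_add hN0]
      congr 1
      ring
    rw [e1]
    apply Real.rpow_le_rpow_of_exponent_le g2
    linarith [min_le_left (σ₀ / 4) (1 / 4 : ℝ)]
  have hL5 : Lg ^ 2 ≤ Lg ^ 6 := pow_le_pow_right₀ hLg1 (by norm_num)
  calc 8 * Lg ^ 5 * Real.sqrt (C * ((N : ℝ) ^ 2 * (N : ℝ) ^ (-(η / 4)) + (N : ℝ) ^ 2 * Lg / T)) +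
        3 * Lg * (C * ((N : ℝ) / T + (N : ℝ) * (N : ℝ) ^ (-(η / 4))) * Lg)
      ≤ 8 * Lg ^ 5 * (2 * C * Lg * V) + 3 * Lg * (C * (2 * V) * Lg) := by gcongr
    _ = 16 * C * Lg ^ 6 * V + 6 * C * V * Lg ^ 2 := by ring
    _ ≤ 16 * C * Lg ^ 6 * V + 6 * C * V * Lg ^ 6 := by gcongr
    _ = (22 * C * Lg ^ 6) * V := by ring
    _ ≤ (N : ℝ) ^ (σ₀ / 4) * V := mul_le_mul_of_nonneg_right g1 hV0.le
    _ = V * (N : ℝ) ^ (σ₀ / 4) := mul_comm _ _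
    _ ≤ _ := hV1

/-- **Sums over primes, without weights.** -/
theorem prime_sum {c : ℝ} (hn : ∀ m : ℕ, c ≠ m) (δ K : ℝ) (hδ : 0 < δ) :
    ∃ σ : ℝ, 0 < σ ∧ σ ≤ 1 / 8 ∧ ∃ N₀ : ℕ, ∀ N N₁ N₂ : ℕ, N₀ ≤ N → N ≤ N₁ → N₂ ≤ 2 * N → ∀ ξ : ℝ, 0 < ξ →
      (N : ℝ) ^ δ ≤ ξ * (N : ℝ) ^ c → ξ * (N : ℝ) ^ c ≤ (N : ℝ) ^ K →
      ‖∑ p ∈ (Ioc N₁ N₂).filter Nat.Prime, e (ξ * (p : ℝ) ^ c)‖ ≤ (N : ℝ) ^ (1 - σ) := by
  classical
  obtain ⟨σ, hσ, hσ1, N₀, h1⟩ := lam_sum hn δ K hδ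
  have hev : ∀ᶠ x : ℝ in atTop, 6 * Real.log (2 * x) ≤ x ^ (1 / 4 : ℝ) ∧ 3 ≤ x ^ (σ / 2) ∧ 3 ≤ x := by
    have h2 : ∀ᶠ x : ℝ in atTop, ‖Real.log x‖ ≤ 1 / 12 * ‖x ^ (1 / 4 : ℝ)‖ :=
      (isLittleO_log_rpow_atTop (by norm_num : (0 : ℝ) < 1 / 4)).bound (by norm_num)
    filter_upwards [h2, (tendsto_rpow_atTop (by norm_num : (0 : ℝ) < 1 / 4)).eventually_ge_atTop 12,
      (tendsto_rpow_atTop (by linarith : 0 < σ / 2)).eventually_ge_atTop 3, eventually_ge_atTop (3 : ℝ)] with x g2 g3 g4 g5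
    refine ⟨?_, g4, g5⟩
    have hx0 : 0 < x := by linarith
    rw [Real.norm_of_nonneg (Real.log_nonneg (by linarith)), Real.norm_of_nonneg (by positivity)] at g2
    rw [Real.log_mul (by norm_num) hx0.ne']
    have := Real.log_two_lt_d9
    linarith
  obtain ⟨N₃, hN₃⟩ := eventually_atTop.mp ((tendsto_natCast_atTop_atTop (R := ℝ)).eventually hev)
  refine ⟨σ / 2, by linarith, by linarith, N₀ + N₃, fun N N₁ N₂ hN hNN₁ hN₂ ξ hξ hξ1 hξ2 => ?_⟩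
  obtain ⟨g1, g2, g3⟩ := hN₃ N (by omega)
  have hN0 : (0 : ℝ) < N := by linarith
  have hN1 : (1 : ℝ) ≤ N := by linarith
  have hN3 : 3 ≤ N := by exact_mod_cast g3
  rcases Nat.lt_or_ge N₁ N₂ with h12 | h12
  swap
  · rw [Ioc_eq_empty (by omega), filter_empty, sum_empty, norm_zero]
    positivity
  -- the sums with logarithms
  have hlogs : ∀ t : ℕ, N₁ < t → t ≤ N₂ →
      ‖∑ n ∈ Ioc N₁ t, (((if n.Prime then Real.log n else 0 : ℝ)) : ℂ) * e (ξ * (n : ℝ) ^ c)‖ ≤ 3 * (N : ℝ) ^ (1 - σ) := by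
    intro t ht ht2
    have h3 : ‖∑ n ∈ Ioc N₁ t, ((ArithmeticFunction.vonMangoldt n : ℝ) : ℂ) * e (ξ * (n : ℝ) ^ c)‖ ≤ 2 * (N : ℝ) ^ (1 - σ) := by
      have e1 : ∑ n ∈ Ioc N₁ t, ((ArithmeticFunction.vonMangoldt n : ℝ) : ℂ) * e (ξ * (n : ℝ) ^ c) =
          ∑ n ∈ Ioc N t, ((ArithmeticFunction.vonMangoldt n : ℝ) : ℂ) * e (ξ * (n : ℝ) ^ c) -
          ∑ n ∈ Ioc N N₁, ((ArithmeticFunction.vonMangoldt n : ℝ) : ℂ) * e (ξ * (n : ℝ) ^ c) := by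
        rw [← sum_Ioc_consecutive _ hNN₁ ht.le]
        ring
      rw [e1]
      refine (norm_sub_le _ _).trans ?_
      have := h1 N t (by omega) (by omega) (by omega) ξ hξ hξ1 hξ2
      have := h1 N N₁ (by omega) hNN₁ (by omega) ξ hξ hξ1 hξ2
      linarith
    refine (prime_bound N₁ t (by omega) (fun n => e (ξ * (n : ℝ) ^ c)) (fun n => (norm_e _).le) _ h3).trans ?_
    have ht3 : (t : ℝ) ≤ 2 * N := by exact_mod_cast (by omega : t ≤ 2 * N)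
    have ht0 : (1 : ℝ) ≤ t := by exact_mod_cast (by omega : 1 ≤ t)
    have h4 : 2 * √(t : ℝ) * Real.log t ≤ (N : ℝ) ^ (1 - σ) := by
      have h5 : √(t : ℝ) ≤ 2 * (N : ℝ) ^ (1 / 2 : ℝ) := by
        rw [← Real.sqrt_eq_rpow]
        calc √(t : ℝ) ≤ √(4 * N) := Real.sqrt_le_sqrt (by linarith)
          _ = 2 * √(N : ℝ) := by
              rw [Real.sqrt_mul (by norm_num), show (4 : ℝ) = 2 ^ 2 by norm_num, Real.sqrt_sq (by norm_num)]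
      have h6 : Real.log t ≤ Real.log (2 * N) := Real.log_le_log (by linarith) ht3
      have h7 : 0 ≤ Real.log (t : ℝ) := Real.log_nonneg ht0
      calc 2 * √(t : ℝ) * Real.log t ≤ 2 * (2 * (N : ℝ) ^ (1 / 2 : ℝ)) * Real.log (2 * N) := by gcongr
        _ = (N : ℝ) ^ (1 / 2 : ℝ) * (4 * Real.log (2 * N)) := by ring
        _ ≤ (N : ℝ) ^ (1 / 2 : ℝ) * (N : ℝ) ^ (1 / 4 : ℝ) := by
            apply mul_le_mul_of_nonneg_left _ (by positivity)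
            have : 0 ≤ Real.log (2 * (N : ℝ)) := Real.log_nonneg (by linarith)
            linarith
        _ = (N : ℝ) ^ (3 / 4 : ℝ) := by
            rw [← Real.rpow_add hN0]
            norm_num
        _ ≤ _ := Real.rpow_le_rpow_of_exponent_le hN1 (by linarith)
    linarith
  -- partial summation
  have hab := abel_bound (fun n => 1 / Real.log n) (fun n => (((if n.Prime then Real.log n else 0 : ℝ)) : ℂ) * e (ξ * (n : ℝ) ^ c))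
    N₁ (3 * (N : ℝ) ^ (1 - σ)) (by
      intro n hn
      have : (1 : ℝ) ≤ n := by exact_mod_cast (by omega : 1 ≤ n)
      have := Real.log_nonneg this
      positivity) (by
      intro n hn
      have h5 : (1 : ℝ) < n := by exact_mod_cast (by omega : 1 < n)
      apply one_div_le_one_div_of_le (Real.log_pos h5)
      apply Real.log_le_log (by linarith)
      push_cast
      linarith) N₂ h12 hlogs
  have e1 : ∑ i ∈ Ioc N₁ N₂, ((1 / Real.log i : ℝ) : ℂ) * ((((if i.Prime then Real.log i else 0 : ℝ)) : ℂ) * e (ξ * (i : ℝ) ^ c)) =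
      ∑ p ∈ (Ioc N₁ N₂).filter Nat.Prime, e (ξ * (p : ℝ) ^ c) := by
    rw [sum_filter]
    refine sum_congr rfl fun n hn => ?_
    split_ifs with hp
    · have h5 : (1 : ℝ) < n := by exact_mod_cast hp.one_lt
      have h6 : Real.log n ≠ 0 := (Real.log_pos h5).ne'
      rw [← mul_assoc, ← Complex.ofReal_mul, one_div, inv_mul_cancel₀ h6, Complex.ofReal_one, one_mul]
    · rw [Complex.ofReal_zero, zero_mul, mul_zero]
  rw [e1] at hab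
  refine hab.trans ?_
  have h8 : 1 / Real.log ((N₁ + 1 : ℕ) : ℝ) ≤ 1 := by
    have h9 : (1 : ℝ) ≤ Real.log ((N₁ + 1 : ℕ) : ℝ) := by
      rw [Real.le_log_iff_exp_le (by positivity)]
      have : (3 : ℝ) ≤ ((N₁ + 1 : ℕ) : ℝ) := by exact_mod_cast (by omega : 3 ≤ N₁ + 1)
      have := Real.exp_one_lt_d9
      linarith
    rw [div_le_one (by linarith)]
    exact h9
  have h10 : 0 ≤ 3 * (N : ℝ) ^ (1 - σ) := by positivity
  calc 1 / Real.log ((N₁ + 1 : ℕ) : ℝ) * (3 * (N : ℝ) ^ (1 - σ)) ≤ 1 * (3 * (N : ℝ) ^ (1 - σ)) :=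
        mul_le_mul_of_nonneg_right h8 h10
    _ = 3 * (N : ℝ) ^ (1 - σ) := one_mul _
    _ ≤ (N : ℝ) ^ (σ / 2) * (N : ℝ) ^ (1 - σ) := mul_le_mul_of_nonneg_right g2 (by positivity)
    _ = (N : ℝ) ^ (1 - σ / 2) := by
        rw [← Real.rpow_add hN0]
        congr 1
        ring

end Pool.Agent.J4.H35.PP
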