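import Pool.Agent.Y882.EHF
import Pool.Agent.H442R2.EHI.PntErr

/-! Primes in windows started in a progression: the analytic part. -/

set_option autoImplicit false

open Finset Filter

namespace Pool.Agent.J4.H35.Prog

open Pool.Agent.TH926.EH (E pc)
open Pool.Agent.H442R2.EHI (piAP lis)
open Pool.Agent.Y882.EHF (S)

lemma E_le3 (X q a : ℕ) (hq : 1 ≤ q) (hqX : q ≤ X) : E X q a ≤ 3 * X * (1 / (Nat.totient q : ℝ)) := by
  have hφ : (0 : ℝ) < Nat.totient q := by exact_mod_cast Nat.totient_pos.mpr hq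
  have hφq : (Nat.totient q : ℝ) ≤ q := by exact_mod_cast Nat.totient_le q
  have hq0 : (0:ℝ) < q := by exact_mod_cast hq
  have hX0 : (0:ℝ) < X := by exact_mod_cast (lt_of_lt_of_le hq hqX)
  have hqX' : (q:ℝ) ≤ X := by exact_mod_cast hqX
  have h1 : piAP X q a ≤ X / q + 1 := by
    have h2 := Pool.Agent.Helper112.TI.count_class 0 X q a hq (Nat.zero_le _)
    have h3 : piAP X q a ≤ (((Ioc 0 X).filter (fun b => b ≡ a [MOD q])).card : ℝ) := by
      unfold Pool.Agent.H442R2.EHI.piAP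
      exact_mod_cast card_le_card (by
        intro n hn
        rw [mem_filter, mem_Icc] at hn
        rw [mem_filter, mem_Ioc]
        exact ⟨⟨by omega, hn.1.2⟩, hn.2.2⟩)
    have h4 := (abs_le.1 h2).2
    simp only [Nat.cast_zero, sub_zero] at h4
    linarith
  have h1' : 0 ≤ piAP X q a := by unfold Pool.Agent.H442R2.EHI.piAP; positivity
  have h5 : pc X ≤ X := by
    unfold Pool.Agent.TH926.EH.pc
    have : ((Icc 1 X).filter (fun p : ℕ => p.Prime)).card ≤ X := by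
      refine (card_filter_le _ _).trans ?_
      simp
    exact_mod_cast this
  have h5' : 0 ≤ pc X := by unfold Pool.Agent.TH926.EH.pc; positivity
  have h6 : (X:ℝ) / q ≤ X / (Nat.totient q : ℝ) := div_le_div_of_nonneg_left hX0.le hφ hφq
  have h7 : (1:ℝ) ≤ X / (Nat.totient q : ℝ) := by
    rw [le_div_iff₀ hφ]; linarith
  have h8 : pc X / (Nat.totient q : ℝ) ≤ X / (Nat.totient q : ℝ) := by gcongr
  have h9 : 0 ≤ pc X / (Nat.totient q : ℝ) := by positivity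
  have e : 3 * X * (1 / (Nat.totient q : ℝ)) = 3 * (X / (Nat.totient q : ℝ)) := by ring
  rw [e]
  unfold Pool.Agent.TH926.EH.E
  rw [abs_le]
  constructor <;> linarith

lemma E_nonneg (X q a : ℕ) : 0 ≤ E X q a := abs_nonneg _

theorem S_triv : ∃ C : ℝ, 0 < C ∧ ∀ X Q : ℕ, 1 ≤ Q → Q ≤ X → ∀ c : ℕ → ℕ,
    S X Q c ≤ C * (X * (1 + Real.log X)) := by
  obtain ⟨C, hC0, hC⟩ := Pool.Agent.Helper112.sum_ratio_sq
  refine ⟨3 * C, by positivity, fun X Q hQ hQX c => ?_⟩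
  have hX0 : (0:ℝ) < X := by exact_mod_cast (lt_of_lt_of_le hQ hQX)
  have hQ0 : (0:ℝ) < Q := by exact_mod_cast hQ
  have h1 : S X Q c ≤ ∑ q ∈ Icc 1 Q, 3 * (X:ℝ) * (1 / (Nat.totient q : ℝ)) := by
    unfold Pool.Agent.Y882.EHF.S
    refine (sum_le_sum_of_subset_of_nonneg (filter_subset _ _)
      (fun q _ _ => E_nonneg X q (c q))).trans (sum_le_sum fun q hq => ?_)
    rw [mem_Icc] at hq
    exact E_le3 X q (c q) hq.1 (hq.2.trans hQX)
  have h2 : ∑ q ∈ Icc 1 Q, (1 / (Nat.totient q : ℝ)) ≤ C * (1 + Real.log Q) := by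
    refine (sum_le_sum fun q hq => ?_).trans (hC Q hQ)
    rw [mem_Icc] at hq
    have hφ : (0 : ℝ) < Nat.totient q := by exact_mod_cast Nat.totient_pos.mpr hq.1
    have hφq : (Nat.totient q : ℝ) ≤ q := by exact_mod_cast Nat.totient_le q
    have hq0 : (0:ℝ) < q := by exact_mod_cast hq.1
    have h3 : (1:ℝ) ≤ (q:ℝ) / Nat.totient q := by rw [le_div_iff₀ hφ]; linarith
    calc (1 / (Nat.totient q : ℝ)) = (1 / (q:ℝ)) * ((q:ℝ) / Nat.totient q) := by field_simp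
      _ ≤ (1 / (q:ℝ)) * ((q:ℝ) / Nat.totient q) ^ 2 := by
        apply mul_le_mul_of_nonneg_left _ (by positivity)
        nlinarith
  rw [← mul_sum] at h1
  have h3 : Real.log Q ≤ Real.log X := Real.log_le_log hQ0 (by exact_mod_cast hQX)
  calc S X Q c ≤ 3 * (X:ℝ) * ∑ q ∈ Icc 1 Q, (1 / (Nat.totient q : ℝ)) := h1
    _ ≤ 3 * (X:ℝ) * (C * (1 + Real.log Q)) := by gcongr
    _ ≤ 3 * (X:ℝ) * (C * (1 + Real.log X)) := by gcongr
    _ = _ := by ring

lemma S_nonneg (X Q : ℕ) (c : ℕ → ℕ) : 0 ≤ S X Q c :=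
  sum_nonneg fun q _ => E_nonneg X q (c q)

/-- the average over the shifts of a residue system -/
theorem sumS (U : ℕ) (ε : ℝ) (hε : 0 < ε) (hε1 : ε < 1) : ∃ (B : ℕ) (C : ℝ) (X₀ : ℕ), 0 < C ∧
    ∀ X : ℕ, X₀ ≤ X → ∀ Q : ℕ, 1 ≤ Q → (Q : ℝ) ≤ (X : ℝ) ^ (1 - ε) → ∀ c : ℕ → ℕ, ∀ K : ℕ,
      (K : ℝ) ≤ (X:ℝ) ^ 2 →
      ∑ h ∈ Icc 1 K, S X Q (fun q => c q + h) ≤
        K * (X / Real.log X ^ U) + C * ((Q:ℝ) ^ 2 * Real.log X ^ B) := by
  obtain ⟨B, N₀, hfew⟩ := Pool.Agent.Y882.EHF.few_affine U ε 2 hε (by norm_num)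
  obtain ⟨C, hC0, hC⟩ := S_triv
  refine ⟨B + 1, 2 * C, max N₀ 3, by positivity, fun X hX Q hQ hQX c K hK => ?_⟩
  have hX1 : N₀ ≤ X := (le_max_left _ _).trans hX
  have hX3 : 3 ≤ X := (le_max_right _ _).trans hX
  have hXr : (1:ℝ) ≤ X := by exact_mod_cast (by omega : 1 ≤ X)
  have hX0 : (0:ℝ) < X := by linarith
  have hQX' : Q ≤ X := by
    have : (Q:ℝ) ≤ X := by
      refine hQX.trans ?_
      calc (X:ℝ) ^ (1 - ε) ≤ (X:ℝ) ^ (1:ℝ) := Real.rpow_le_rpow_of_exponent_le hXr (by linarith)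
        _ = X := Real.rpow_one _
    exact_mod_cast this
  have hl1 := Pool.Agent.TH926.EH.log_ge_one hX3
  set A : Finset ℕ := (Icc 1 K).filter
    (fun h => (X:ℝ) / Real.log X ^ U < S X Q (fun q => h * 1 + c q)) with hA
  have h1 := hfew X hX1 Q hQX (fun _ => 1) c (fun q _ => Nat.coprime_one_left q) A (by
    intro a ha
    rw [hA, mem_filter, mem_Icc] at ha
    refine ⟨?_, ha.2⟩
    rw [Real.rpow_ofNat]
    refine le_trans ?_ hK
    exact_mod_cast ha.1.2)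
  have h2 : ∀ h ∈ Icc 1 K, S X Q (fun q => c q + h) ≤
      (X:ℝ) / Real.log X ^ U + if h ∈ A then C * (X * (1 + Real.log X)) else 0 := by
    intro h hh
    have e : (fun q => c q + h) = (fun q => h * 1 + c q) := by
      funext q; ring
    by_cases hA' : h ∈ A
    · rw [if_pos hA']
      have := hC X Q hQ hQX' (fun q => c q + h)
      have h3 : 0 ≤ (X:ℝ) / Real.log X ^ U := by positivity
      linarith
    · rw [if_neg hA', add_zero, e]
      rw [hA, mem_filter] at hA'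
      push Not at hA'
      exact hA' hh
  have h3 : (A.card : ℝ) * (C * (X * (1 + Real.log X))) ≤ 2 * C * ((Q:ℝ) ^ 2 * Real.log X ^ (B + 1)) := by
    calc (A.card : ℝ) * (C * (X * (1 + Real.log X)))
        ≤ ((Q : ℝ) ^ 2 / X * Real.log X ^ B) * (C * (X * (Real.log X + Real.log X))) := by
          gcongr
      _ = _ := by rw [pow_succ]; field_simp; ring
  calc ∑ h ∈ Icc 1 K, S X Q (fun q => c q + h) ≤ ∑ h ∈ Icc 1 K,
        ((X:ℝ) / Real.log X ^ U + if h ∈ A then C * (X * (1 + Real.log X)) else 0) := sum_le_sum h2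
    _ = K * (X / Real.log X ^ U) + (A.card : ℝ) * (C * (X * (1 + Real.log X))) := by
        rw [sum_add_distrib, sum_const, Nat.card_Icc, Nat.add_sub_cancel, nsmul_eq_mul,
          ← sum_filter, sum_const, nsmul_eq_mul]
        congr 3
        have : (Icc 1 K).filter (fun h => h ∈ A) = A := by
          ext h
          rw [mem_filter]
          constructor
          · exact fun h => h.2
          · intro h
            exact ⟨by rw [hA] at h; exact (mem_filter.1 h).1, h⟩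
        rw [this]
    _ ≤ _ := by linarith

/-- the error of the class `b` and of the next `K - 1` classes, at `N` and `2N` -/
noncomputable def G (N q b K : ℕ) : ℝ :=
  ∑ h ∈ (Icc 1 K).filter (fun h => (b + h).Coprime q), (E (2 * N) q (b + h) + E N q (b + h))

lemma G_nonneg (N q b K : ℕ) : 0 ≤ G N q b K :=
  sum_nonneg fun _ _ => add_nonneg (E_nonneg _ _ _) (E_nonneg _ _ _)

lemma G_mono (N q b : ℕ) {H K : ℕ} (h : H ≤ K) : G N q b H ≤ G N q b K := by
  unfold G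
  apply sum_le_sum_of_subset_of_nonneg
  · apply filter_subset_filter
    exact Icc_subset_Icc_right h
  · intro h _ _
    exact add_nonneg (E_nonneg _ _ _) (E_nonneg _ _ _)

lemma E_congr (N q : ℕ) {a b : ℕ} (h : a ≡ b [MOD q]) : E N q a = E N q b := by
  unfold Pool.Agent.TH926.EH.E
  have : piAP N q a = piAP N q b := by
    unfold Pool.Agent.H442R2.EHI.piAP
    congr 2
    ext p
    rw [mem_filter, mem_filter]
    constructor
    · exact fun hp => ⟨hp.1, hp.2.1, hp.2.2.trans h⟩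
    · exact fun hp => ⟨hp.1, hp.2.1, hp.2.2.trans h.symm⟩
  rw [this]

lemma G_congr (N q K : ℕ) {a b : ℕ} (h : a ≡ b [MOD q]) : G N q a K = G N q b K := by
  unfold G
  apply sum_congr
  · ext x
    rw [mem_filter, mem_filter]
    have h1 : (a + x) ≡ (b + x) [MOD q] := Nat.ModEq.add_right x h
    have h2 : (a + x).gcd q = (b + x).gcd q := Nat.ModEq.gcd_eq h1
    constructor
    · rintro ⟨h3, h4⟩
      exact ⟨h3, by unfold Nat.Coprime at h4 ⊢; rw [← h2]; exact h4⟩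
    · rintro ⟨h3, h4⟩
      exact ⟨h3, by unfold Nat.Coprime at h4 ⊢; rw [h2]; exact h4⟩
  · intro x _
    rw [E_congr (2 * N) q (Nat.ModEq.add_right x h), E_congr N q (Nat.ModEq.add_right x h)]

theorem sumG (U : ℕ) (ε : ℝ) (hε : 0 < ε) (hε1 : ε < 1) : ∃ (B : ℕ) (C : ℝ) (N₀ : ℕ), 0 < C ∧
    ∀ N : ℕ, N₀ ≤ N → ∀ Q : ℕ, 1 ≤ Q → (Q : ℝ) ≤ (N : ℝ) ^ (1 - ε) → ∀ c : ℕ → ℕ, ∀ K : ℕ,
      (K : ℝ) ≤ (N:ℝ) ^ 2 →
      ∑ q ∈ Icc 1 Q, G N q (c q) K ≤
        3 * (K * (N / Real.log N ^ U)) + C * ((Q:ℝ) ^ 2 * Real.log N ^ B) := by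
  obtain ⟨B, C, X₀, hC0, hC⟩ := sumS U ε hε hε1
  refine ⟨B, C * (2 ^ B + 1), max X₀ 3, by positivity, fun N hN Q hQ hQN c K hK => ?_⟩
  have hX1 : X₀ ≤ N := (le_max_left _ _).trans hN
  have hN3 : 3 ≤ N := (le_max_right _ _).trans hN
  have hN1 : (1:ℝ) ≤ N := by exact_mod_cast (by omega : 1 ≤ N)
  have hN0 : (0:ℝ) < N := by linarith
  have hl1 := Pool.Agent.TH926.EH.log_ge_one hN3
  have hl0 : 0 < Real.log N := by linarith
  have h2N : (N:ℝ) ≤ ((2 * N : ℕ) : ℝ) := by push_cast; linarith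
  have h1 := hC N hX1 Q hQ hQN c K hK
  have h2 := hC (2 * N) (by omega) Q hQ (hQN.trans
    (Real.rpow_le_rpow hN0.le h2N (by linarith))) c K
    (hK.trans (pow_le_pow_left₀ hN0.le h2N 2))
  have hlog2 : Real.log ((2 * N : ℕ) : ℝ) ≤ 2 * Real.log N := by
    push_cast
    rw [Real.log_mul (by norm_num) hN0.ne']
    have : Real.log 2 ≤ Real.log N := Real.log_le_log (by norm_num) (by exact_mod_cast (by omega : 2 ≤ N))
    linarith
  have hlog3 : Real.log N ≤ Real.log ((2 * N : ℕ) : ℝ) := Real.log_le_log hN0 h2N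
  have h3 : ((2 * N : ℕ) : ℝ) / Real.log ((2 * N : ℕ) : ℝ) ^ U ≤ 2 * (N / Real.log N ^ U) := by
    rw [← mul_div_assoc]
    push_cast at hlog3 ⊢
    gcongr
  have h4 : Real.log ((2 * N : ℕ) : ℝ) ^ B ≤ 2 ^ B * Real.log N ^ B := by
    rw [← mul_pow]
    exact pow_le_pow_left₀ (by linarith) hlog2 B
  have e : ∑ q ∈ Icc 1 Q, G N q (c q) K =
      ∑ h ∈ Icc 1 K, S (2 * N) Q (fun q => c q + h) + ∑ h ∈ Icc 1 K, S N Q (fun q => c q + h) := by
    unfold G Pool.Agent.Y882.EHF.S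
    rw [← sum_add_distrib]
    simp only [sum_filter]
    rw [sum_comm]
    apply sum_congr rfl
    intro h _
    rw [← sum_add_distrib]
    apply sum_congr rfl
    intro q _
    split_ifs <;> ring
  rw [e]
  have h5 : 0 ≤ (K:ℝ) := Nat.cast_nonneg _
  calc ∑ h ∈ Icc 1 K, S (2 * N) Q (fun q => c q + h) + ∑ h ∈ Icc 1 K, S N Q (fun q => c q + h)
      ≤ (K * (2 * (N / Real.log N ^ U)) + C * ((Q:ℝ) ^ 2 * (2 ^ B * Real.log N ^ B))) +
        (K * (N / Real.log N ^ U) + C * ((Q:ℝ) ^ 2 * Real.log N ^ B)) := by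
        refine add_le_add (h2.trans ?_) h1
        gcongr
    _ = _ := by ring

end Pool.Agent.J4.H35.Prog
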