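import Pool.Agent.J4.H35.ProgA

/-! Primes in windows started in a progression: the elementary part. -/

set_option autoImplicit false

open Finset Filter

namespace Pool.Agent.J4.H35.Prog

open Pool.Agent.TH926.EH (E pc)
open Pool.Agent.H442R2.EHI (piAP lis)
open Pool.Agent.Y882.EHF (S)

/-- number of primes in `(x, x + H]` -/
def piWin (x H : ℕ) : ℕ := ((Ioc x (x + H)).filter Nat.Prime).card

/-- the primes in the windows started in a progression -/
def W (N q b H : ℕ) : ℕ := ∑ n ∈ (Ioc N (2 * N)).filter (fun n => n ≡ b [MOD q]), piWin n H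

/-- the number of the starting points -/
def M (N q b : ℕ) : ℕ := ((Ioc N (2 * N)).filter (fun n => n ≡ b [MOD q])).card

lemma piWin_eq (x H : ℕ) : piWin x H = ∑ h ∈ Icc 1 H, if (x + h).Prime then 1 else 0 := by
  unfold piWin
  rw [card_filter]
  apply Finset.sum_bij' (i := fun n _ => n - x) (j := fun h _ => x + h)
  · intro n hn
    rw [mem_Ioc] at hn
    rw [mem_Icc]; omega
  · intro n hn
    rw [mem_Icc] at hn
    rw [mem_Ioc]; omega
  · intro n hn
    rw [mem_Ioc] at hn
    show x + (n - x) = n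
    omega
  · intro n hn
    show x + n - x = n
    omega
  · intro n hn
    rw [mem_Ioc] at hn
    rw [show x + (n - x) = n by omega]

/-- the windows as a sum over the shifts -/
lemma W_eq (N q b H : ℕ) : W N q b H = ∑ h ∈ Icc 1 H,
    ((Ioc N (2 * N)).filter (fun n => n ≡ b [MOD q] ∧ (n + h).Prime)).card := by
  unfold W
  simp only [piWin_eq]
  rw [sum_comm]
  apply sum_congr rfl
  intro h _
  rw [← filter_filter, card_filter]

/-- the primes of a class in `(N, 2N]` -/
def Bc (N q a : ℕ) : ℕ := ((Ioc N (2 * N)).filter (fun m => m.Prime ∧ m ≡ a [MOD q])).card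

lemma Bc_eq (N q a : ℕ) : (Bc N q a : ℝ) = piAP (2 * N) q a - piAP N q a := by
  unfold Bc Pool.Agent.H442R2.EHI.piAP
  have h : (Icc 1 (2 * N)).filter (fun m => m.Prime ∧ m ≡ a [MOD q]) =
      (Icc 1 N).filter (fun m => m.Prime ∧ m ≡ a [MOD q]) ∪
      (Ioc N (2 * N)).filter (fun m => m.Prime ∧ m ≡ a [MOD q]) := by
    rw [← filter_union]
    congr 1
    ext x
    rw [mem_union, mem_Icc, mem_Icc, mem_Ioc]
    omega
  rw [h, card_union_of_disjoint]
  · push_cast; ring
  · apply disjoint_filter_filter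
    rw [disjoint_left]
    intro x hx hx'
    rw [mem_Icc] at hx
    rw [mem_Ioc] at hx'
    omega

lemma class_le (j y m v : ℕ) (hm : 1 ≤ m) (hjy : j ≤ y) :
    (((Ioc j y).filter (fun b => b ≡ v [MOD m])).card : ℝ) ≤ ((y : ℝ) - j) / m + 1 := by
  have := (abs_le.1 (Pool.Agent.Helper112.TI.count_class j y m v hm hjy)).2
  linarith

lemma shift (N q b h : ℕ) (hq : 1 ≤ q) (hh : h ≤ N) :
    |(((Ioc N (2 * N)).filter (fun n => n ≡ b [MOD q] ∧ (n + h).Prime)).card : ℝ) -
      (Bc N q (b + h) : ℝ)| ≤ h / q + 1 := by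
  classical
  have h1 : ((Ioc N (2 * N)).filter (fun n => n ≡ b [MOD q] ∧ (n + h).Prime)).card ≤
      Bc N q (b + h) + ((Ioc (2 * N - h) (2 * N)).filter (fun n => n ≡ b [MOD q])).card := by
    have : (Ioc N (2 * N)).filter (fun n => n ≡ b [MOD q] ∧ (n + h).Prime) ⊆
        ((Ioc N (2 * N - h)).filter (fun n => n ≡ b [MOD q] ∧ (n + h).Prime)) ∪
        ((Ioc (2 * N - h) (2 * N)).filter (fun n => n ≡ b [MOD q])) := by
      intro n hn
      rw [mem_filter, mem_Ioc] at hn
      rw [mem_union, mem_filter, mem_filter, mem_Ioc, mem_Ioc]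
      by_cases h2 : n ≤ 2 * N - h
      · exact Or.inl ⟨⟨hn.1.1, h2⟩, hn.2⟩
      · exact Or.inr ⟨⟨by omega, hn.1.2⟩, hn.2.1⟩
    refine (card_le_card this).trans ((card_union_le _ _).trans ?_)
    apply Nat.add_le_add_right
    unfold Bc
    apply card_le_card_of_injOn (fun n => n + h)
    · intro n hn
      rw [mem_coe, mem_filter, mem_Ioc] at hn
      show n + h ∈ _
      rw [mem_coe, mem_filter, mem_Ioc]
      refine ⟨⟨by omega, by omega⟩, hn.2.2, ?_⟩
      exact Nat.ModEq.add_right h hn.2.1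
    · intro a _ b _ hab
      exact Nat.add_right_cancel hab
  have h2 : Bc N q (b + h) ≤
      ((Ioc N (2 * N)).filter (fun n => n ≡ b [MOD q] ∧ (n + h).Prime)).card +
      ((Ioc N (N + h)).filter (fun n => n ≡ b + h [MOD q])).card := by
    have : (Ioc N (2 * N)).filter (fun m => m.Prime ∧ m ≡ b + h [MOD q]) ⊆
        ((Ioc (N + h) (2 * N)).filter (fun m => m.Prime ∧ m ≡ b + h [MOD q])) ∪
        ((Ioc N (N + h)).filter (fun n => n ≡ b + h [MOD q])) := by
      intro n hn
      rw [mem_filter, mem_Ioc] at hn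
      rw [mem_union, mem_filter, mem_filter, mem_Ioc, mem_Ioc]
      by_cases h2 : n ≤ N + h
      · exact Or.inr ⟨⟨hn.1.1, h2⟩, hn.2.2⟩
      · exact Or.inl ⟨⟨by omega, hn.1.2⟩, hn.2⟩
    unfold Bc
    refine (card_le_card this).trans ((card_union_le _ _).trans ?_)
    apply Nat.add_le_add_right
    apply card_le_card_of_injOn (fun n => n - h)
    · intro n hn
      rw [mem_coe, mem_filter, mem_Ioc] at hn
      show n - h ∈ _
      rw [mem_coe, mem_filter, mem_Ioc]
      refine ⟨⟨by omega, by omega⟩, ?_, ?_⟩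
      · have h3 : (n - h) + h ≡ b + h [MOD q] := by
          rw [Nat.sub_add_cancel (by omega)]; exact hn.2.2
        exact Nat.ModEq.add_right_cancel' h h3
      · rw [Nat.sub_add_cancel (by omega)]; exact hn.2.1
    · intro x hx y hy hxy
      rw [mem_coe, mem_filter, mem_Ioc] at hx hy
      simp only at hxy
      omega
  have h3 := class_le (2 * N - h) (2 * N) q b hq (Nat.sub_le _ _)
  have h4 := class_le N (N + h) q (b + h) hq (Nat.le_add_right _ _)
  have e3 : (((2 * N : ℕ) : ℝ) - ((2 * N - h : ℕ) : ℝ)) = h := by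
    rw [Nat.cast_sub (by omega)]; ring
  have e4 : (((N + h : ℕ) : ℝ) - (N : ℝ)) = h := by push_cast; ring
  rw [e3] at h3
  rw [e4] at h4
  have h1' : (((Ioc N (2 * N)).filter (fun n => n ≡ b [MOD q] ∧ (n + h).Prime)).card : ℝ) ≤
      Bc N q (b + h) + (((Ioc (2 * N - h) (2 * N)).filter (fun n => n ≡ b [MOD q])).card : ℝ) := by
    exact_mod_cast h1
  have h2' : (Bc N q (b + h) : ℝ) ≤
      (((Ioc N (2 * N)).filter (fun n => n ≡ b [MOD q] ∧ (n + h).Prime)).card : ℝ) +
      (((Ioc N (N + h)).filter (fun n => n ≡ b + h [MOD q])).card : ℝ) := by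
    exact_mod_cast h2
  rw [abs_le]
  constructor <;> linarith

/-- the number of the shifts prime to `q` -/
def cnt (q b H : ℕ) : ℕ := ((Icc 1 H).filter (fun h => (b + h).Coprime q)).card

lemma moebius_ind (m : ℕ) (hm : m ≠ 0) :
    ∑ d ∈ m.divisors, (ArithmeticFunction.moebius d : ℤ) = if m = 1 then 1 else 0 := by
  have := congrArg (fun f => f m) ArithmeticFunction.moebius_mul_coe_zeta
  simp only [ArithmeticFunction.coe_mul_zeta_apply] at this
  rw [this, ArithmeticFunction.one_apply]

lemma totient_moebius (q : ℕ) (hq : 1 ≤ q) :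
    (Nat.totient q : ℝ) = ∑ d ∈ q.divisors, (ArithmeticFunction.moebius d : ℝ) * (q / d) := by
  have h := (ArithmeticFunction.sum_eq_iff_sum_mul_moebius_eq
    (f := fun n => (Nat.totient n : ℝ)) (g := fun n => (n : ℝ))).1 (fun n _ => by
      have := Nat.sum_totient n
      exact_mod_cast this) q hq
  rw [← h, Nat.sum_divisorsAntidiagonal (f := fun a b => ((ArithmeticFunction.moebius a : ℤ) : ℝ) * (b : ℝ))]
  apply sum_congr rfl
  intro d hd
  rw [Nat.mem_divisors] at hd
  rw [Nat.cast_div hd.1 (by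
    have := Nat.pos_of_dvd_of_pos hd.1 (Nat.pos_of_ne_zero hd.2)
    exact_mod_cast this.ne')]

lemma cnt_bound (q b H : ℕ) (hq : 1 ≤ q) :
    |(cnt q b H : ℝ) - H * (Nat.totient q : ℝ) / q| ≤ q.divisors.card := by
  classical
  have hq0 : (0:ℝ) < q := by exact_mod_cast hq
  have h1 : (cnt q b H : ℝ) = ∑ d ∈ q.divisors, (ArithmeticFunction.moebius d : ℝ) *
      (((Ioc b (b + H)).filter (fun m => m ≡ 0 [MOD d])).card : ℝ) := by
    have e1 : (cnt q b H : ℝ) = ∑ m ∈ Ioc b (b + H), if m.Coprime q then (1:ℝ) else 0 := by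
      unfold cnt
      rw [card_filter]
      push_cast
      apply Finset.sum_bij' (i := fun h _ => b + h) (j := fun m _ => m - b)
      · intro n hn
        rw [mem_Icc] at hn
        rw [mem_Ioc]; omega
      · intro n hn
        rw [mem_Ioc] at hn
        rw [mem_Icc]; omega
      · intro n hn
        show b + n - b = n
        omega
      · intro n hn
        rw [mem_Ioc] at hn
        show b + (n - b) = n
        omega
      · intro n hn
        rfl
    rw [e1]
    have e2 : ∀ m ∈ Ioc b (b + H), (if m.Coprime q then (1:ℝ) else 0) =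
        ∑ d ∈ q.divisors, (ArithmeticFunction.moebius d : ℝ) * (if m ≡ 0 [MOD d] then 1 else 0) := by
      intro m hm
      rw [mem_Ioc] at hm
      have hg : (Nat.gcd m q) ≠ 0 := by
        intro h0
        have := Nat.eq_zero_of_gcd_eq_zero_right h0
        omega
      have e3 := moebius_ind (Nat.gcd m q) hg
      have e4 : (if m.Coprime q then (1:ℝ) else 0) =
          ((∑ d ∈ (Nat.gcd m q).divisors, (ArithmeticFunction.moebius d : ℤ) : ℤ) : ℝ) := by
        rw [e3]
        unfold Nat.Coprime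
        split_ifs <;> simp
      rw [e4]
      push_cast
      have e5 : (Nat.gcd m q).divisors = q.divisors.filter (fun d => m ≡ 0 [MOD d]) := by
        ext d
        rw [Nat.mem_divisors, mem_filter, Nat.mem_divisors, Nat.modEq_zero_iff_dvd, Nat.dvd_gcd_iff]
        constructor
        · rintro ⟨⟨h1, h2⟩, _⟩
          exact ⟨⟨h2, by omega⟩, h1⟩
        · rintro ⟨⟨h1, _⟩, h2⟩
          exact ⟨⟨h2, h1⟩, hg⟩
      rw [e5, sum_filter]
      apply sum_congr rfl
      intro d _
      split_ifs <;> simp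
    rw [sum_congr rfl e2, sum_comm]
    apply sum_congr rfl
    intro d _
    rw [← mul_sum, card_filter]
    push_cast
    rfl
  have h2 : (H : ℝ) * (Nat.totient q : ℝ) / q = ∑ d ∈ q.divisors,
      (ArithmeticFunction.moebius d : ℝ) * ((((b + H : ℕ) : ℝ) - b) / d) := by
    rw [totient_moebius q hq, mul_sum, sum_div]
    apply sum_congr rfl
    intro d hd
    rw [Nat.mem_divisors] at hd
    have hd0 : (0:ℝ) < d := by
      exact_mod_cast Nat.pos_of_dvd_of_pos hd.1 (Nat.pos_of_ne_zero hd.2)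
    push_cast
    field_simp
    ring
  rw [h1, h2, ← sum_sub_distrib]
  calc |∑ d ∈ q.divisors, ((ArithmeticFunction.moebius d : ℝ) *
        (((Ioc b (b + H)).filter (fun m => m ≡ 0 [MOD d])).card : ℝ) -
        (ArithmeticFunction.moebius d : ℝ) * ((((b + H : ℕ) : ℝ) - b) / d))|
      ≤ ∑ d ∈ q.divisors, (1:ℝ) := by
        refine (abs_sum_le_sum_abs _ _).trans (sum_le_sum fun d hd => ?_)
        rw [Nat.mem_divisors] at hd
        rw [← mul_sub, abs_mul]
        have h3 := Pool.Agent.Helper112.TI.count_class b (b + H) d 0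
          (Nat.pos_of_dvd_of_pos hd.1 (Nat.pos_of_ne_zero hd.2)) (Nat.le_add_right _ _)
        have h4 : |((ArithmeticFunction.moebius d : ℤ) : ℝ)| ≤ 1 := by
          have := ArithmeticFunction.abs_moebius_le_one (n := d)
          exact_mod_cast this
        calc _ ≤ (1:ℝ) * 1 := mul_le_mul h4 h3 (abs_nonneg _) (by norm_num)
          _ = 1 := one_mul 1
    _ = q.divisors.card := by rw [sum_const, nsmul_eq_mul, mul_one]

lemma q_le (q : ℕ) (hq : 1 ≤ q) : (q : ℝ) ≤ q.divisors.card * (Nat.totient q : ℝ) := by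
  have h := Nat.sum_totient q
  have h1 : q ≤ q.divisors.card * Nat.totient q := by
    calc q = ∑ m ∈ q.divisors, Nat.totient m := h.symm
      _ ≤ ∑ _m ∈ q.divisors, Nat.totient q := by
          apply sum_le_sum
          intro m hm
          rw [Nat.mem_divisors] at hm
          exact Nat.le_of_dvd (Nat.totient_pos.2 hq) (Nat.totient_dvd_of_dvd hm.1)
      _ = _ := by rw [sum_const, smul_eq_mul]
  exact_mod_cast h1

/-- the main identity: the number of the primes in the windows -/
lemma W_main (N q b H : ℕ) (hq : 1 ≤ q) (hqN : q ≤ N) (hH : H ≤ N) :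
    |(W N q b H : ℝ) - H * (pc (2 * N) - pc N) / q| ≤
      G N q b H + H * (H / q + 1) + (q.divisors.card : ℝ) ^ 2 * (pc (2 * N) - pc N) / q := by
  classical
  have hq0 : (0:ℝ) < q := by exact_mod_cast hq
  have hφ : (0 : ℝ) < Nat.totient q := by exact_mod_cast Nat.totient_pos.mpr hq
  obtain ⟨P, hP⟩ : ∃ P : ℝ, P = pc (2 * N) - pc N := ⟨_, rfl⟩
  have hP0 : 0 ≤ P := by
    rw [hP, sub_nonneg]
    unfold Pool.Agent.TH926.EH.pc
    have : ((Icc 1 N).filter (fun p : ℕ => p.Prime)) ⊆ ((Icc 1 (2*N)).filter (fun p : ℕ => p.Prime)) :=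
      filter_subset_filter _ (Icc_subset_Icc_right (by omega))
    exact_mod_cast card_le_card this
  rw [← hP]
  -- the shifts
  have h1 : |(W N q b H : ℝ) - ∑ h ∈ Icc 1 H, (Bc N q (b + h) : ℝ)| ≤ H * (H / q + 1) := by
    rw [W_eq]
    push_cast
    rw [← sum_sub_distrib]
    calc |∑ h ∈ Icc 1 H, ((((Ioc N (2 * N)).filter (fun n => n ≡ b [MOD q] ∧ (n + h).Prime)).card : ℝ) -
          (Bc N q (b + h) : ℝ))| ≤ ∑ h ∈ Icc 1 H, ((H:ℝ) / q + 1) := by
          refine (abs_sum_le_sum_abs _ _).trans (sum_le_sum fun h hh => ?_)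
          rw [mem_Icc] at hh
          refine (shift N q b h hq (hh.2.trans hH)).trans ?_
          have : (h:ℝ) ≤ H := by exact_mod_cast hh.2
          gcongr
      _ = H * (H / q + 1) := by rw [sum_const, Nat.card_Icc, Nat.add_sub_cancel, nsmul_eq_mul]
  -- the classes
  have h2 : |∑ h ∈ Icc 1 H, (Bc N q (b + h) : ℝ) - cnt q b H * (P / Nat.totient q)| ≤ G N q b H := by
    have e1 : ∑ h ∈ Icc 1 H, (Bc N q (b + h) : ℝ) =
        ∑ h ∈ (Icc 1 H).filter (fun h => (b + h).Coprime q), (Bc N q (b + h) : ℝ) := by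
      rw [sum_filter]
      apply sum_congr rfl
      intro h _
      split_ifs with h3
      · rfl
      · unfold Bc
        rw [Nat.cast_eq_zero, card_eq_zero, filter_eq_empty_iff]
        intro m hm
        rw [mem_Ioc] at hm
        rintro ⟨hp, hmod⟩
        have h4 : m.gcd q = (b + h).gcd q := Nat.ModEq.gcd_eq hmod
        rcases (Nat.coprime_or_dvd_of_prime hp q) with h5 | h5
        · apply h3
          unfold Nat.Coprime at h5 ⊢
          rw [← h4]; exact h5
        · have := Nat.le_of_dvd hq h5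
          omega
    have e2 : (cnt q b H : ℝ) * (P / Nat.totient q) =
        ∑ _h ∈ (Icc 1 H).filter (fun h => (b + h).Coprime q), P / Nat.totient q := by
      rw [sum_const, nsmul_eq_mul]; rfl
    rw [e1, e2, ← sum_sub_distrib]
    unfold G
    refine (abs_sum_le_sum_abs _ _).trans (sum_le_sum fun h _ => ?_)
    rw [Bc_eq, hP]
    unfold Pool.Agent.TH926.EH.E
    have : piAP (2 * N) q (b + h) - piAP N q (b + h) - (pc (2 * N) - pc N) / (Nat.totient q : ℝ) =
        (piAP (2 * N) q (b + h) - pc (2 * N) / (Nat.totient q : ℝ)) -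
        (piAP N q (b + h) - pc N / (Nat.totient q : ℝ)) := by ring
    rw [this]
    exact abs_sub _ _
  -- the count
  have h3 : |(cnt q b H : ℝ) * (P / Nat.totient q) - H * P / q| ≤ (q.divisors.card : ℝ) ^ 2 * P / q := by
    have e1 : (cnt q b H : ℝ) * (P / Nat.totient q) - H * P / q =
        ((cnt q b H : ℝ) - H * (Nat.totient q : ℝ) / q) * (P / Nat.totient q) := by
      field_simp
    rw [e1, abs_mul, abs_of_nonneg (by positivity : 0 ≤ P / Nat.totient q)]
    have h4 := cnt_bound q b H hq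
    have h5 : P / (Nat.totient q : ℝ) ≤ q.divisors.card * P / q := by
      rw [div_le_div_iff₀ hφ hq0]
      have := q_le q hq
      nlinarith
    calc _ ≤ (q.divisors.card : ℝ) * (q.divisors.card * P / q) :=
          mul_le_mul h4 h5 (by positivity) (by positivity)
      _ = _ := by ring
  have e : (W N q b H : ℝ) - H * P / q = ((W N q b H : ℝ) - ∑ h ∈ Icc 1 H, (Bc N q (b + h) : ℝ)) +
      (∑ h ∈ Icc 1 H, (Bc N q (b + h) : ℝ) - cnt q b H * (P / Nat.totient q)) +
      ((cnt q b H : ℝ) * (P / Nat.totient q) - H * P / q) := by ring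
  rw [e]
  refine (abs_add_le _ _).trans ?_
  refine (add_le_add (abs_add_le _ _) le_rfl).trans ?_
  linarith

end Pool.Agent.J4.H35.Prog
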