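import Pool.Agent.J4.H35.ProgB

/-! Primes in windows started in a progression: the exceptional moduli. -/

set_option autoImplicit false

open Finset Filter

namespace Pool.Agent.J4.H35.Prog

open Pool.Agent.TH926.EH (E pc)
open Pool.Agent.H442R2.EHI (piAP lis)
open Pool.Agent.Y882.EHF (S)

lemma sum_tau (Q : ℕ) (hQ : 1 ≤ Q) :
    ∑ q ∈ Icc 1 Q, (q.divisors.card : ℝ) ≤ Q * (1 + Real.log Q) := by
  have h1 : ∀ q ∈ Icc 1 Q, (q.divisors.card : ℝ) = ∑ d ∈ Icc 1 Q, if d ∣ q then (1:ℝ) else 0 := by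
    intro q hq
    rw [mem_Icc] at hq
    rw [sum_boole]
    congr 2
    ext d
    rw [Nat.mem_divisors, mem_filter, mem_Icc]
    constructor
    · rintro ⟨h1, h2⟩
      have h3 := Nat.le_of_dvd (by omega) h1
      have h4 := Nat.pos_of_dvd_of_pos h1 (by omega)
      exact ⟨⟨h4, by omega⟩, h1⟩
    · rintro ⟨_, h2⟩
      exact ⟨h2, by omega⟩
  rw [sum_congr rfl h1, sum_comm]
  have hQ0 : (0:ℝ) ≤ Q := Nat.cast_nonneg _
  calc ∑ d ∈ Icc 1 Q, ∑ q ∈ Icc 1 Q, (if d ∣ q then (1:ℝ) else 0)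
      ≤ ∑ d ∈ Icc 1 Q, (Q:ℝ) * (1 / (d:ℝ)) := by
        apply sum_le_sum
        intro d hd
        rw [mem_Icc] at hd
        rw [sum_boole]
        have h2 : ((Icc 1 Q).filter (fun q => d ∣ q)).card = Q / d := by
          have : Icc 1 Q = Ioc 0 Q := rfl
          rw [this, Nat.Ioc_filter_dvd_card_eq_div]
        rw [h2, mul_one_div]
        exact Nat.cast_div_le
    _ = (Q:ℝ) * ∑ d ∈ Icc 1 Q, (1 / (d:ℝ)) := by rw [mul_sum]
    _ ≤ _ := mul_le_mul_of_nonneg_left (Pool.Agent.Helper112.harm_le Q hQ) hQ0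

/-- the exceptional moduli -/
theorem exc (V A : ℕ) (ε : ℝ) (hε : 0 < ε) (hε1 : ε < 1) : ∃ C N₀ : ℕ,
    ∀ N : ℕ, N₀ ≤ N → ∀ Q : ℕ, 1 ≤ Q → (Q : ℝ) ≤ (N : ℝ) ^ (1 - ε) →
      ∃ Ex : Finset ℕ, Ex ⊆ Icc 1 Q ∧ (Ex.card : ℝ) ≤ Q / Real.log N ^ A ∧
        ∀ q ∈ Icc 1 Q, q ∉ Ex → (q.divisors.card : ℝ) ≤ Real.log N ^ (A + 3) ∧
          ∀ b H : ℕ, 1 ≤ H → H ≤ N → (Q:ℝ) ^ 2 * Real.log N ^ C ≤ H * N →
            G N q b H ≤ H * N / (q * Real.log N ^ V) := by
  classical
  obtain ⟨B, C1, N₀, hC1, hsum⟩ := sumG (V + A + 3) ε hε hε1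
  have t1 := (Real.tendsto_log_atTop.comp (tendsto_natCast_atTop_atTop (R := ℝ))).eventually_ge_atTop
    (max C1 8)
  obtain ⟨N1, hN1⟩ := eventually_atTop.1 t1
  refine ⟨B + (V + A + 3) + 1, max (max N₀ N1) 3, fun N hN Q hQ hQN => ?_⟩
  have hNN0 : N₀ ≤ N := (le_max_left _ _).trans ((le_max_left _ _).trans hN)
  have hNN1 : N1 ≤ N := (le_max_right _ _).trans ((le_max_left _ _).trans hN)
  have hN3 : 3 ≤ N := (le_max_right _ _).trans hN
  have hL := hN1 N hNN1
  simp only [Function.comp] at hL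
  obtain ⟨L, hLdef⟩ : ∃ L : ℝ, L = Real.log N := ⟨_, rfl⟩
  rw [← hLdef] at hL ⊢
  have hLC : C1 ≤ L := (le_max_left _ _).trans hL
  have hL8 : 8 ≤ L := (le_max_right _ _).trans hL
  have hL0 : 0 < L := by linarith
  have hL1 : 1 ≤ L := by linarith
  have hN0 : (0:ℝ) < N := by exact_mod_cast (by omega : 0 < N)
  have hNr1 : (1:ℝ) ≤ N := by exact_mod_cast (by omega : 1 ≤ N)
  have hQ0 : (0:ℝ) < Q := by exact_mod_cast hQ
  have hQN' : (Q:ℝ) ≤ N := by
    refine hQN.trans ?_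
    calc (N:ℝ) ^ (1 - ε) ≤ (N:ℝ) ^ (1:ℝ) := Real.rpow_le_rpow_of_exponent_le hNr1 (by linarith)
      _ = N := Real.rpow_one _
  -- the bad moduli for the length `2 ^ j`
  let bad : ℕ → Finset ℕ := fun j => (Icc 1 Q).filter (fun q => ∃ b : ℕ,
    (2:ℝ) ^ j * N / (2 * q * L ^ V) < G N q b (2 ^ j))
  let J : Finset ℕ := (range (Nat.log 2 N + 2)).filter
    (fun j => (Q:ℝ) ^ 2 * L ^ (B + (V + A + 3) + 1) ≤ (2:ℝ) ^ j * N)
  let T : Finset ℕ := (Icc 1 Q).filter (fun q => L ^ (A + 3) < (q.divisors.card : ℝ))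
  have hbad : ∀ j ∈ J, ((bad j).card : ℝ) ≤ 8 * Q / L ^ (A + 3) := by
    intro j hj
    rw [mem_filter, mem_range] at hj
    obtain ⟨K, hK⟩ : ∃ K : ℕ, K = 2 ^ j := ⟨_, rfl⟩
    have hKr : (K:ℝ) = 2 ^ j := by rw [hK]; push_cast; rfl
    have hK0 : (0:ℝ) < K := by rw [hKr]; positivity
    have hKN : (K:ℝ) ≤ (N:ℝ) ^ 2 := by
      have h1 : 2 ^ j ≤ 2 * N := by
        calc 2 ^ j ≤ 2 ^ (Nat.log 2 N + 1) := Nat.pow_le_pow_right (by norm_num) (by omega)
          _ = 2 * 2 ^ (Nat.log 2 N) := by rw [pow_succ]; ring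
          _ ≤ 2 * N := by
            have := Nat.pow_log_le_self 2 (x := N) (by omega)
            omega
      have h2 : (2 ^ j : ℕ) ≤ N ^ 2 := by
        rw [sq]
        exact h1.trans (Nat.mul_le_mul_right N (by omega))
      rw [hK]; exact_mod_cast h2
    choose! c hc using (fun q (hq : q ∈ bad j) => (mem_filter.1 hq).2)
    have h1 := hsum N hNN0 Q hQ hQN c K hKN
    rw [← hLdef] at h1
    have h2 : ((bad j).card : ℝ) * (K * N / (2 * Q * L ^ V)) ≤ ∑ q ∈ Icc 1 Q, G N q (c q) K := by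
      calc ((bad j).card : ℝ) * (K * N / (2 * Q * L ^ V))
          = ∑ _q ∈ bad j, (K * N / (2 * Q * L ^ V)) := by rw [sum_const, nsmul_eq_mul]
        _ ≤ ∑ q ∈ bad j, G N q (c q) K := by
            apply sum_le_sum
            intro q hq
            have h3 := hc q hq
            have h4 := (mem_filter.1 hq).1
            rw [mem_Icc] at h4
            have hq0 : (0:ℝ) < q := by exact_mod_cast h4.1
            have hqQ : (q:ℝ) ≤ Q := by exact_mod_cast h4.2
            rw [← hK] at h3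
            rw [← hKr] at h3
            refine le_trans ?_ h3.le
            gcongr
        _ ≤ _ := sum_le_sum_of_subset_of_nonneg (filter_subset _ _) (fun q _ _ => G_nonneg _ _ _ _)
    have h3 : C1 * ((Q:ℝ) ^ 2 * L ^ B) ≤ K * (N / L ^ (V + A + 3)) := by
      have h4 := hj.2
      rw [← hKr] at h4
      have h5 : C1 * ((Q:ℝ) ^ 2 * L ^ B) * L ^ (V + A + 3) ≤ K * N := by
        calc C1 * ((Q:ℝ) ^ 2 * L ^ B) * L ^ (V + A + 3) ≤ L * ((Q:ℝ) ^ 2 * L ^ B) * L ^ (V + A + 3) := by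
              gcongr
          _ = (Q:ℝ) ^ 2 * L ^ (B + (V + A + 3) + 1) := by ring
          _ ≤ _ := h4
      rw [← mul_div_assoc, le_div_iff₀ (by positivity)]
      exact h5
    have h4 : ((bad j).card : ℝ) * (K * N / (2 * Q * L ^ V)) ≤ 4 * (K * (N / L ^ (V + A + 3))) := by
      linarith
    have h5 : (K * N / (2 * Q * L ^ V)) * (8 * Q / L ^ (A + 3)) = 4 * (K * (N / L ^ (V + A + 3))) := by
      have : L ^ (V + A + 3) = L ^ V * L ^ (A + 3) := by rw [← pow_add]; congr 1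
      rw [this]
      field_simp
      ring
    rw [← h5, mul_comm] at h4
    exact le_of_mul_le_mul_left h4 (by positivity)
  have hJ : (J.card : ℝ) ≤ 4 * L := by
    have h1 : J.card ≤ Nat.log 2 N + 2 := by
      refine (card_filter_le _ _).trans ?_
      rw [card_range]
    have h2 : (Nat.log 2 N : ℝ) ≤ 2 * L := by
      have h3 : (2:ℝ) ^ (Nat.log 2 N) ≤ N := by exact_mod_cast Nat.pow_log_le_self 2 (x := N) (by omega)
      have h4 := Real.log_le_log (by positivity) h3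
      rw [Real.log_pow, ← hLdef] at h4
      have h5 : 0.6931471803 < Real.log 2 := Real.log_two_gt_d9
      have h6 : (0:ℝ) ≤ (Nat.log 2 N : ℝ) := Nat.cast_nonneg _
      nlinarith
    have h3 : (J.card : ℝ) ≤ (Nat.log 2 N : ℝ) + 2 := by exact_mod_cast h1
    linarith
  have hT : (T.card : ℝ) ≤ 2 * Q / L ^ (A + 2) := by
    have h1 : (T.card : ℝ) * L ^ (A + 3) ≤ Q * (1 + Real.log Q) := by
      calc (T.card : ℝ) * L ^ (A + 3) = ∑ _q ∈ T, L ^ (A + 3) := by rw [sum_const, nsmul_eq_mul]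
        _ ≤ ∑ q ∈ T, (q.divisors.card : ℝ) := by
            apply sum_le_sum
            intro q hq
            exact (mem_filter.1 hq).2.le
        _ ≤ ∑ q ∈ Icc 1 Q, (q.divisors.card : ℝ) :=
            sum_le_sum_of_subset_of_nonneg (filter_subset _ _) (fun q _ _ => Nat.cast_nonneg _)
        _ ≤ _ := sum_tau Q hQ
    have h2 : Real.log Q ≤ L := by
      rw [hLdef]; exact Real.log_le_log hQ0 hQN'
    rw [le_div_iff₀ (by positivity)]
    have h3 : (T.card : ℝ) * L ^ (A + 2) * L ≤ 2 * Q * L := by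
      calc (T.card : ℝ) * L ^ (A + 2) * L = (T.card : ℝ) * L ^ (A + 3) := by ring
        _ ≤ Q * (1 + Real.log Q) := h1
        _ ≤ Q * (L + L) := by gcongr
        _ = _ := by ring
    exact le_of_mul_le_mul_right h3 hL0
  refine ⟨T ∪ J.biUnion bad, ?_, ?_, ?_⟩
  · apply union_subset (filter_subset _ _)
    rw [biUnion_subset]
    intro j _
    exact filter_subset _ _
  · have h1 : ((T ∪ J.biUnion bad).card : ℝ) ≤ T.card + ∑ j ∈ J, ((bad j).card : ℝ) := by
      have h2 : (T ∪ J.biUnion bad).card ≤ T.card + ∑ j ∈ J, (bad j).card :=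
        (card_union_le _ _).trans (Nat.add_le_add_left card_biUnion_le _)
      exact_mod_cast h2
    have h2 : ∑ j ∈ J, ((bad j).card : ℝ) ≤ (4 * L) * (8 * Q / L ^ (A + 3)) := by
      calc ∑ j ∈ J, ((bad j).card : ℝ) ≤ ∑ _j ∈ J, (8 * Q / L ^ (A + 3)) := sum_le_sum hbad
        _ = J.card * (8 * Q / L ^ (A + 3)) := by rw [sum_const, nsmul_eq_mul]
        _ ≤ _ := by gcongr
    have e1 : (4 * L) * (8 * Q / L ^ (A + 3)) = 32 * (Q / L ^ A) / L ^ 2 := by
      have : L ^ (A + 3) = L ^ A * L ^ 3 := by rw [← pow_add]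
      rw [this]; field_simp; ring
    have e2 : 2 * Q / L ^ (A + 2) = 2 * (Q / L ^ A) / L ^ 2 := by
      have : L ^ (A + 2) = L ^ A * L ^ 2 := by rw [← pow_add]
      rw [this]; field_simp
    rw [e1] at h2
    rw [e2] at hT
    have h3 : 32 * (Q / L ^ A) / L ^ 2 + 2 * (Q / L ^ A) / L ^ 2 ≤ Q / L ^ A := by
      rw [← add_div, div_le_iff₀ (by positivity)]
      have h4 : 0 ≤ Q / L ^ A := by positivity
      have h5 : (64:ℝ) ≤ L ^ 2 := by nlinarith
      have h6 := mul_le_mul_of_nonneg_left h5 h4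
      linarith
    linarith
  · intro q hq hqE
    rw [mem_union, mem_biUnion, not_or, not_exists] at hqE
    refine ⟨?_, ?_⟩
    · have h1 := hqE.1
      rw [mem_filter] at h1
      push Not at h1
      exact h1 hq
    · intro b H hH1 hHN hHQ
      obtain ⟨j, hj⟩ : ∃ j : ℕ, j = Nat.clog 2 H := ⟨_, rfl⟩
      have hHj : H ≤ 2 ^ j := by rw [hj]; exact Nat.le_pow_clog (by norm_num) H
      have hjH : 2 ^ j ≤ 2 * H := by
        rcases Nat.lt_or_ge 1 H with h | h
        · have h2 := Nat.pow_pred_clog_lt_self (b := 2) (by norm_num) h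
          rw [← hj] at h2
          have h3 : j ≠ 0 := by
            intro h0
            rw [h0, pow_zero] at hHj
            omega
          obtain ⟨i, rfl⟩ := Nat.exists_eq_succ_of_ne_zero h3
          rw [Nat.pred_succ] at h2
          rw [Nat.succ_eq_add_one, pow_succ]
          omega
        · have : H = 1 := by omega
          subst this
          rw [hj, Nat.clog_one_right]
          norm_num
      have hjJ : j ∈ J := by
        rw [mem_filter, mem_range]
        constructor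
        · have h1 : Nat.clog 2 H ≤ Nat.clog 2 N := Nat.clog_mono_right 2 hHN
          have h2 : Nat.clog 2 N ≤ Nat.log 2 N + 1 := by
            rw [Nat.clog_le_iff_le_pow (by norm_num)]
            exact (Nat.lt_pow_succ_log_self (by norm_num) N).le
          omega
        · refine hHQ.trans ?_
          have : (H:ℝ) ≤ (2:ℝ) ^ j := by exact_mod_cast hHj
          gcongr
      have h1 := hqE.2 j
      rw [not_and] at h1
      have h2 := h1 hjJ
      rw [mem_filter, not_and] at h2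
      have h3 := h2 hq
      push Not at h3
      rw [mem_Icc] at hq
      have hq0 : (0:ℝ) < q := by exact_mod_cast hq.1
      calc G N q b H ≤ G N q b (2 ^ j) := G_mono N q b hHj
        _ ≤ (2:ℝ) ^ j * N / (2 * q * L ^ V) := h3 b
        _ ≤ (2 * H) * N / (2 * q * L ^ V) := by
            have : (2:ℝ) ^ j ≤ 2 * H := by exact_mod_cast hjH
            gcongr
        _ = _ := by
            rw [mul_assoc 2 (H:ℝ) N, mul_assoc 2 (q:ℝ), mul_div_mul_left _ _ (by norm_num)]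

end Pool.Agent.J4.H35.Prog
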