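import Pool.Agent.J4.H35.ProgC
import Pool.Agent.H617R3.BT.Sieve

/-! Primes in windows started in a progression: the result. -/

set_option autoImplicit false

open Finset Filter

namespace Pool.Agent.J4.H35.Prog

open Pool.Agent.TH926.EH (E pc)
open Pool.Agent.H442R2.EHI (piAP lis)
open Pool.Agent.Y882.EHF (S)

lemma piWin_pc (n H : ℕ) : (piWin n H : ℝ) = pc (n + H) - pc n := by
  unfold piWin Pool.Agent.TH926.EH.pc
  have h : (Icc 1 (n + H)).filter (fun p : ℕ => p.Prime) =
      (Icc 1 n).filter (fun p : ℕ => p.Prime) ∪ (Ioc n (n + H)).filter (fun p : ℕ => p.Prime) := by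
    rw [← filter_union]
    congr 1
    ext x
    rw [mem_union, mem_Icc, mem_Icc, mem_Ioc]
    omega
  rw [h, card_union_of_disjoint]
  · push_cast; ring
  · apply disjoint_filter_filter
    rw [disjoint_left]
    intro x hx hx'
    rw [mem_Icc] at hx
    rw [mem_Ioc] at hx'
    omega

lemma lis_diff (n H : ℕ) (hn : 1 ≤ n) : lis (n + H) - lis n = ∑ m ∈ Ioc n (n + H), 1 / Real.log m := by
  unfold Pool.Agent.H442R2.EHI.lis
  have h : Icc 2 (n + H) ∪ Ioc n 1 = Icc 2 n ∪ Ioc n (n + H) := by
    ext x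
    simp only [mem_union, mem_Icc, mem_Ioc]
    omega
  have h2 : Ioc n 1 = ∅ := Ioc_eq_empty_of_le hn
  rw [h2, union_empty] at h
  rw [h, sum_union]
  · ring
  · rw [disjoint_left]
    intro x hx hx'
    rw [mem_Icc] at hx
    rw [mem_Ioc] at hx'
    omega

/-- the prime number theorem for long windows -/
theorem pnt_win (δ : ℝ) (hδ : 0 < δ) : ∃ N₀ : ℕ, ∀ N : ℕ, N₀ ≤ N → ∀ n H : ℕ, N ≤ n → n ≤ 2 * N →
    (N:ℝ) / Real.log N ^ 2 ≤ H → H ≤ N → |(piWin n H : ℝ) * Real.log N / H - 1| ≤ δ := by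
  obtain ⟨C, hC⟩ := Pool.Agent.H442R2.EHI.pnt_err 4
  have t1 := (Real.tendsto_log_atTop.comp (tendsto_natCast_atTop_atTop (R := ℝ))).eventually_ge_atTop
    (max 1 ((5 * |C| + 2) / δ))
  obtain ⟨N1, hN1⟩ := eventually_atTop.1 t1
  refine ⟨max N1 3, fun N hN n H hn1 hn2 hH1 hH2 => ?_⟩
  have hL := hN1 N ((le_max_left _ _).trans hN)
  have hN3 : 3 ≤ N := (le_max_right _ _).trans hN
  simp only [Function.comp] at hL
  obtain ⟨L, hLdef⟩ : ∃ L : ℝ, L = Real.log N := ⟨_, rfl⟩
  rw [← hLdef] at hL hH1 ⊢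
  have hL1 : 1 ≤ L := (le_max_left _ _).trans hL
  have hLδ : (5 * |C| + 2) / δ ≤ L := (le_max_right _ _).trans hL
  have hL0 : 0 < L := by linarith
  have hN0 : (0:ℝ) < N := by exact_mod_cast (by omega : 0 < N)
  have hH0 : (0:ℝ) < H := lt_of_lt_of_le (by positivity) hH1
  have hn0 : (0:ℝ) < n := lt_of_lt_of_le hN0 (by exact_mod_cast hn1)
  have hnr1 : (N:ℝ) ≤ n := by exact_mod_cast hn1
  have hnr2 : (n:ℝ) ≤ 2 * N := by exact_mod_cast hn2
  have hHr : (H:ℝ) ≤ N := by exact_mod_cast hH2
  have hlogn : L ≤ Real.log n := by rw [hLdef]; exact Real.log_le_log hN0 hnr1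
  have hlognH : L ≤ Real.log ((n + H : ℕ) : ℝ) := by
    rw [hLdef]; exact Real.log_le_log hN0 (by push_cast; linarith)
  -- the error
  have e1 := hC n (by omega)
  have e2 := hC (n + H) (by omega)
  have b1 : C * n / Real.log n ^ 4 ≤ |C| * (2 * N) / L ^ 4 := by
    calc C * n / Real.log n ^ 4 ≤ |C| * n / Real.log n ^ 4 := by
          have := le_abs_self C
          gcongr
      _ ≤ |C| * (2 * N) / L ^ 4 := by gcongr
  have b2 : C * ((n + H : ℕ) : ℝ) / Real.log ((n + H : ℕ) : ℝ) ^ 4 ≤ |C| * (3 * N) / L ^ 4 := by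
    calc C * ((n + H : ℕ) : ℝ) / Real.log ((n + H : ℕ) : ℝ) ^ 4
        ≤ |C| * ((n + H : ℕ) : ℝ) / Real.log ((n + H : ℕ) : ℝ) ^ 4 := by
          have := le_abs_self C
          gcongr
      _ ≤ |C| * (3 * N) / L ^ 4 := by
          have : ((n + H : ℕ) : ℝ) ≤ 3 * N := by push_cast; linarith
          gcongr
  have k1 : |(piWin n H : ℝ) - ∑ m ∈ Ioc n (n + H), 1 / Real.log m| ≤ 5 * |C| * N / L ^ 4 := by
    rw [← lis_diff n H (by omega), piWin_pc]
    unfold Pool.Agent.TH926.EH.pc
    have h3 := abs_le.1 (e1.trans b1)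
    have h4 := abs_le.1 (e2.trans b2)
    have e : 5 * |C| * N / L ^ 4 = |C| * (2 * N) / L ^ 4 + |C| * (3 * N) / L ^ 4 := by ring
    rw [e, abs_le]
    constructor <;> linarith [h3.1, h3.2, h4.1, h4.2]
  -- the main term
  have k2 : ∑ m ∈ Ioc n (n + H), 1 / Real.log m ≤ H / L := by
    calc ∑ m ∈ Ioc n (n + H), 1 / Real.log m ≤ ∑ _m ∈ Ioc n (n + H), 1 / L := by
          apply sum_le_sum
          intro m hm
          rw [mem_Ioc] at hm
          have : L ≤ Real.log m := by
            refine hlogn.trans (Real.log_le_log hn0 ?_)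
            exact_mod_cast hm.1.le
          exact one_div_le_one_div_of_le hL0 this
      _ = H / L := by
          rw [sum_const, Nat.card_Ioc, nsmul_eq_mul, Nat.add_sub_cancel_left]; ring
  have k3 : H / (L + 2) ≤ ∑ m ∈ Ioc n (n + H), 1 / Real.log m := by
    calc H / (L + 2) = ∑ _m ∈ Ioc n (n + H), 1 / (L + 2) := by
          rw [sum_const, Nat.card_Ioc, nsmul_eq_mul, Nat.add_sub_cancel_left]; ring
      _ ≤ _ := by
          apply sum_le_sum
          intro m hm
          rw [mem_Ioc] at hm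
          have hmN : (m:ℝ) ≤ 3 * N := by
            have : (m:ℝ) ≤ ((n + H : ℕ) : ℝ) := by exact_mod_cast hm.2
            push_cast at this
            linarith
          have hm0 : (0:ℝ) < m := by
            have : (n:ℝ) < m := by exact_mod_cast hm.1
            linarith
          have hm1 : 0 < Real.log m := by
            apply Real.log_pos
            exact_mod_cast (by omega : 1 < m)
          have : Real.log m ≤ L + 2 := by
            refine (Real.log_le_log hm0 hmN).trans ?_
            rw [Real.log_mul (by norm_num) hN0.ne', ← hLdef]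
            have h3 : Real.log 3 ≤ 2 := by
              have := Real.log_le_sub_one_of_pos (x := 3) (by norm_num)
              linarith
            linarith
          exact one_div_le_one_div_of_le hm1 this
  have k4 : |(piWin n H : ℝ) - H / L| ≤ 5 * |C| * N / L ^ 4 + (H / L - H / (L + 2)) := by
    have h3 := abs_le.1 k1
    rw [abs_le]
    have h4 : 0 ≤ H / L - H / (L + 2) := by linarith
    constructor <;> linarith [h3.1, h3.2]
  have e : (piWin n H : ℝ) * L / H - 1 = ((piWin n H : ℝ) - H / L) * (L / H) := by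
    field_simp
  rw [e, abs_mul, abs_of_nonneg (by positivity : 0 ≤ L / H)]
  calc |(piWin n H : ℝ) - H / L| * (L / H)
      ≤ (5 * |C| * N / L ^ 4 + (H / L - H / (L + 2))) * (L / H) := by gcongr
    _ = 5 * |C| * (N / L ^ 2) / (H * L) + 2 / (L + 2) := by
        field_simp
        ring
    _ ≤ 5 * |C| * H / (H * L) + 2 / L := by
        gcongr
        linarith
    _ = (5 * |C| + 2) / L := by field_simp
    _ ≤ δ := by
        rw [div_le_iff₀ hδ] at hLδ
        rw [div_le_iff₀ hL0]
        linarith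

/-- the starting points -/
def starts (N q b : ℕ) : Finset ℕ := (Ioc N (2 * N)).filter (fun n => n ≡ b [MOD q])

/-- the mean of `π(n, H) log n / H` over the starting points -/
noncomputable def meanD (N q b H : ℕ) : ℝ :=
  (∑ n ∈ starts N q b, (piWin n H : ℝ) * Real.log n / H) / (starts N q b).card

lemma starts_card (N q b : ℕ) (hq : 1 ≤ q) : |((starts N q b).card : ℝ) - N / q| ≤ 1 := by
  have := Pool.Agent.Helper112.TI.count_class N (2 * N) q b hq (by omega)
  unfold starts
  push_cast at this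
  rw [show 2 * (N:ℝ) - N = N by ring] at this
  exact this

theorem mean_main (ε δ : ℝ) (hε : 0 < ε) (hε1 : ε < 1) (hδ : 0 < δ) (A : ℕ) : ∃ C N₀ : ℕ,
    ∀ N : ℕ, N₀ ≤ N → ∀ Q : ℕ, 1 ≤ Q → (Q : ℝ) ≤ (N : ℝ) ^ (1 - ε) →
      ∃ Ex : Finset ℕ, Ex ⊆ Icc 1 Q ∧ (Ex.card : ℝ) ≤ Q / Real.log N ^ A ∧
        ∀ q ∈ Icc 1 Q, q ∉ Ex → ∀ b H : ℕ, H ≤ N → (1 + (Q:ℝ) ^ 2 / N) * Real.log N ^ C ≤ H →
          |meanD N q b H - 1| ≤ δ := by
  classical
  obtain ⟨δ1, hδ1⟩ : ∃ δ1 : ℝ, δ1 = min (δ / 4) 1 := ⟨_, rfl⟩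
  have hδ10 : 0 < δ1 := by rw [hδ1]; positivity
  have hδ11 : δ1 ≤ 1 := by rw [hδ1]; exact min_le_right _ _
  have hδ14 : δ1 ≤ δ / 4 := by rw [hδ1]; exact min_le_left _ _
  obtain ⟨C1, N1, h1⟩ := exc 2 A ε hε hε1
  obtain ⟨N2, h2⟩ := pnt_win (δ1 / 4) (by positivity)
  have t1 := (Real.tendsto_log_atTop.comp (tendsto_natCast_atTop_atTop (R := ℝ))).eventually_ge_atTop
    (max 2 (24 / δ1))
  obtain ⟨N3, h3⟩ := eventually_atTop.1 t1
  have t2 : ∀ᶠ X : ℝ in atTop, (1:ℝ) * Real.log X ^ 2 ≤ X ^ ε :=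
    Pool.Agent.H398R2.BV.ev_log 1 2 ε hε
  obtain ⟨N4, h4⟩ := eventually_atTop.1 (tendsto_natCast_atTop_atTop (R := ℝ) |>.eventually t2)
  refine ⟨max C1 (2 * A + 8), max (max N1 N2) (max N3 N4) + 3, fun N hN Q hQ hQN => ?_⟩
  have hNN1 : N1 ≤ N := by
    have := le_max_left N1 N2
    have := le_max_left (max N1 N2) (max N3 N4)
    omega
  have hNN2 : N2 ≤ N := by
    have := le_max_right N1 N2
    have := le_max_left (max N1 N2) (max N3 N4)
    omega
  have hNN3 : N3 ≤ N := by
    have := le_max_left N3 N4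
    have := le_max_right (max N1 N2) (max N3 N4)
    omega
  have hNN4 : N4 ≤ N := by
    have := le_max_right N3 N4
    have := le_max_right (max N1 N2) (max N3 N4)
    omega
  have hN3 : 3 ≤ N := by omega
  have hL := h3 N hNN3
  simp only [Function.comp] at hL
  have hLe := h4 N hNN4
  obtain ⟨Ex, hEx1, hEx2, hEx3⟩ := h1 N hNN1 Q hQ hQN
  refine ⟨Ex, hEx1, hEx2, fun q hq hqE b H hHN hH => ?_⟩
  obtain ⟨hτ, hG⟩ := hEx3 q hq hqE
  have hpw := h2 N hNN2
  obtain ⟨L, hLdef⟩ : ∃ L : ℝ, L = Real.log N := ⟨_, rfl⟩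
  rw [← hLdef] at hL hLe hτ hG hpw hH
  have hL2 : 2 ≤ L := (le_max_left _ _).trans hL
  have hLδ : 24 / δ1 ≤ L := (le_max_right _ _).trans hL
  have hL0 : 0 < L := by linarith
  have hL1 : 1 ≤ L := by linarith
  have hLδ' : 1 / L ≤ δ1 / 24 := by
    rw [div_le_iff₀ hL0]
    rw [div_le_iff₀ hδ10] at hLδ
    linarith
  have hN0 : (0:ℝ) < N := by exact_mod_cast (by omega : 0 < N)
  have hQ0 : (0:ℝ) < Q := by exact_mod_cast hQ
  rw [mem_Icc] at hq
  have hq0 : (0:ℝ) < q := by exact_mod_cast hq.1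
  have hqQ : (q:ℝ) ≤ Q := by exact_mod_cast hq.2
  have hqN : (q:ℝ) ≤ N / L ^ 2 := by
    refine (hqQ.trans hQN).trans ?_
    rw [Real.rpow_sub hN0, Real.rpow_one]
    rw [one_mul] at hLe
    gcongr
  have hL2' : (4:ℝ) ≤ L ^ 2 := by nlinarith
  have hqN4 : (q:ℝ) ≤ N / 4 := hqN.trans (by gcongr)
  have hHpow : L ^ (max C1 (2 * A + 8)) ≤ H := by
    refine le_trans ?_ hH
    apply le_mul_of_one_le_left (by positivity)
    have : 0 ≤ (Q:ℝ) ^ 2 / N := by positivity
    linarith
  have hH0 : (0:ℝ) < H := lt_of_lt_of_le (by positivity) hHpow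
  have hH1 : 1 ≤ H := by
    have : (0:ℝ) < H := hH0
    exact_mod_cast this
  have hHr : (H:ℝ) ≤ N := by exact_mod_cast hHN
  -- the starting points
  obtain ⟨m, hm⟩ : ∃ m : ℝ, m = ((starts N q b).card : ℝ) := ⟨_, rfl⟩
  have hmN := starts_card N q b hq.1
  rw [← hm] at hmN
  have hm1 : N / q - 1 ≤ m := by linarith [(abs_le.1 hmN).1]
  have hm2 : m ≤ N / q + 1 := by linarith [(abs_le.1 hmN).2]
  have hqm1 : N - q ≤ q * m := by
    calc (N:ℝ) - q = q * (N / q - 1) := by field_simp
      _ ≤ _ := by gcongr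
  have hqm2 : q * m ≤ N + q := by
    calc q * m ≤ q * (N / q + 1) := by gcongr
      _ = _ := by field_simp
  have hqm : N / 2 ≤ q * m := by linarith
  have hm0 : 0 < m := by
    have : 0 < q * m := by linarith
    exact (mul_pos_iff_of_pos_left hq0).1 this
  -- the sum
  obtain ⟨w, hw⟩ : ∃ w : ℝ, w = (W N q b H : ℝ) := ⟨_, rfl⟩
  have hws : w = ∑ n ∈ starts N q b, (piWin n H : ℝ) := by
    rw [hw]; unfold W starts; push_cast; rfl
  have hw0 : 0 ≤ w := by rw [hw]; positivity
  have key : |w * L / (H * m) - 1| ≤ δ1 := by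
    rcases le_or_gt ((N:ℝ) / L ^ 2) H with hbig | hsmall
    · -- long windows
      have e : w * L / (H * m) - 1 =
          (∑ n ∈ starts N q b, ((piWin n H : ℝ) * L / H - 1)) / m := by
        rw [sum_sub_distrib, sum_const, nsmul_eq_mul, mul_one, ← hm, ← sum_div, ← sum_mul, ← hws]
        field_simp
      rw [e, abs_div, abs_of_pos hm0, div_le_iff₀ hm0]
      calc |∑ n ∈ starts N q b, ((piWin n H : ℝ) * L / H - 1)|
          ≤ ∑ n ∈ starts N q b, δ1 := by
            refine (abs_sum_le_sum_abs _ _).trans (sum_le_sum fun n hn => ?_)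
            unfold starts at hn
            rw [mem_filter, mem_Ioc] at hn
            have := hpw n H hn.1.1.le hn.1.2 hbig hHN
            linarith
        _ = δ1 * m := by rw [sum_const, nsmul_eq_mul, hm]; ring
    · -- short windows
      have hqN' : q ≤ N := by
        have : (q:ℝ) ≤ N := by linarith
        exact_mod_cast this
      have hW := W_main N q b H hq.1 hqN' hHN
      have hG' := hG b H hH1 hHN (by
        calc (Q:ℝ) ^ 2 * L ^ C1 ≤ (Q:ℝ) ^ 2 * L ^ (max C1 (2 * A + 8)) := by
              have := pow_le_pow_right₀ hL1 (le_max_left C1 (2 * A + 8))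
              gcongr
          _ = ((Q:ℝ) ^ 2 / N * L ^ (max C1 (2 * A + 8))) * N := by field_simp
          _ ≤ ((1 + (Q:ℝ) ^ 2 / N) * L ^ (max C1 (2 * A + 8))) * N := by
              gcongr
              linarith
          _ ≤ H * N := by gcongr)
      rw [← hw] at hW
      obtain ⟨P, hP⟩ : ∃ P : ℝ, P = pc (2 * N) - pc N := ⟨_, rfl⟩
      rw [← hP] at hW
      have hPw : (piWin N N : ℝ) = P := by
        rw [piWin_pc, hP, two_mul]
      have hPL : |P * L - N| ≤ δ1 / 4 * N := by
        have h5 := hpw N N le_rfl (by omega) (by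
          apply div_le_self hN0.le
          linarith) le_rfl
        rw [hPw] at h5
        have e : P * L - N = (P * L / N - 1) * N := by field_simp
        rw [e, abs_mul, abs_of_pos hN0]
        gcongr
      have hP0 : 0 ≤ P := by rw [← hPw]; positivity
      have hPN : P ≤ N := by
        rw [← hPw]
        unfold piWin
        have : ((Ioc N (N + N)).filter Nat.Prime).card ≤ N := by
          refine (card_filter_le _ _).trans ?_
          rw [Nat.card_Ioc]; omega
        exact_mod_cast this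
      have e : w * L / (H * m) - 1 = (w - H * P / q) * (L / (H * m)) + (P * L - q * m) / (q * m) := by
        field_simp
        ring
      have hLHm : L / (H * m) ≤ 2 * q * L / (H * N) := by
        rw [div_le_div_iff₀ (by positivity) (by positivity)]
        have : N ≤ 2 * (q * m) := by linarith
        calc L * (H * N) ≤ L * (H * (2 * (q * m))) := by gcongr
          _ = _ := by ring
      have hpart1 : |w - H * P / q| * (L / (H * m)) ≤ 8 / L := by
        calc |w - H * P / q| * (L / (H * m))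
            ≤ (H * N / (q * L ^ 2) + H * (H / q + 1) + (q.divisors.card : ℝ) ^ 2 * P / q) *
              (2 * q * L / (H * N)) := by
              apply mul_le_mul _ hLHm (by positivity) (by positivity)
              linarith
          _ ≤ (H * N / (q * L ^ 2) + H * (H / q + 1) + (L ^ (A + 3)) ^ 2 * N / q) *
              (2 * q * L / (H * N)) := by gcongr
          _ = 2 / L + 2 * L * H / N + 2 * L * q / N + 2 * (L * (L ^ (A + 3)) ^ 2) / H := by
              field_simp
              ring
          _ ≤ 2 / L + 2 * L * (N / L ^ 2) / N + 2 * L * (N / L ^ 2) / N +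
              2 * (L * (L ^ (A + 3)) ^ 2) / (L * (L * (L ^ (A + 3)) ^ 2)) := by
              gcongr
              calc L * (L * (L ^ (A + 3)) ^ 2) = L ^ (2 * A + 8) := by
                    rw [← pow_mul, ← pow_succ', ← pow_succ']; congr 1; ring
                _ ≤ L ^ (max C1 (2 * A + 8)) := pow_le_pow_right₀ hL1 (le_max_right _ _)
                _ ≤ H := hHpow
          _ = 8 / L := by field_simp; norm_num
      have hpart2 : |(P * L - q * m) / (q * m)| ≤ δ1 / 2 + 2 / L := by
        rw [abs_div, abs_of_pos (by positivity : 0 < q * m), div_le_iff₀ (by positivity)]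
        have h6 : |P * L - q * m| ≤ δ1 / 4 * N + q := by
          have h7 := abs_le.1 hPL
          rw [abs_le]
          constructor <;> linarith [h7.1, h7.2]
        have h8 : (q:ℝ) ≤ N / L := by
          refine hqN.trans ?_
          apply div_le_div_of_nonneg_left hN0.le hL0
          nlinarith
        calc |P * L - q * m| ≤ δ1 / 4 * N + N / L := by linarith
          _ = (δ1 / 2 + 2 / L) * (N / 2) := by ring
          _ ≤ (δ1 / 2 + 2 / L) * (q * m) := by gcongr
      rw [e]
      refine (abs_add_le _ _).trans ?_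
      rw [abs_mul, abs_of_nonneg (by positivity : 0 ≤ L / (H * m))]
      have h9 : 8 / L = 8 * (1 / L) := by ring
      have h10 : 2 / L = 2 * (1 / L) := by ring
      linarith
  -- from `log N` to `log n`
  have hlow : w * L / (H * m) ≤ meanD N q b H := by
    unfold meanD
    rw [← hm, ← div_div, div_le_div_iff_of_pos_right hm0, hws, sum_mul, sum_div]
    apply sum_le_sum
    intro n hn
    unfold starts at hn
    rw [mem_filter, mem_Ioc] at hn
    have : L ≤ Real.log n := by
      rw [hLdef]; exact Real.log_le_log hN0 (by exact_mod_cast hn.1.1.le)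
    gcongr
  have hupp : meanD N q b H ≤ w * L / (H * m) * (1 + 1 / L) := by
    unfold meanD
    have e : w * L / (H * m) * (1 + 1 / L) = (w * (L + 1) / H) / m := by field_simp
    rw [← hm, e, div_le_div_iff_of_pos_right hm0, hws, sum_mul, sum_div]
    apply sum_le_sum
    intro n hn
    unfold starts at hn
    rw [mem_filter, mem_Ioc] at hn
    have hn0 : (0:ℝ) < n := by exact_mod_cast (by omega : 0 < n)
    have : Real.log n ≤ L + 1 := by
      have h5 : (n:ℝ) ≤ 2 * N := by exact_mod_cast hn.1.2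
      refine (Real.log_le_log hn0 h5).trans ?_
      rw [Real.log_mul (by norm_num) hN0.ne', ← hLdef]
      have h3 : Real.log 2 ≤ 1 := by
        have := Real.log_le_sub_one_of_pos (x := 2) (by norm_num)
        linarith
      linarith
    gcongr
  have h11 := abs_le.1 key
  have h12 : w * L / (H * m) ≤ 2 := by linarith [h11.2]
  have h13 : w * L / (H * m) * (1 + 1 / L) ≤ w * L / (H * m) + 2 * (δ1 / 24) := by
    have h14 : 0 ≤ w * L / (H * m) := by positivity
    have h15 : w * L / (H * m) * (1 / L) ≤ 2 * (δ1 / 24) := mul_le_mul h12 hLδ' (by positivity) (by norm_num)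
    linarith
  rw [abs_le]
  constructor <;> linarith [h11.1, h11.2]

end Pool.Agent.J4.H35.Prog
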