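import Pool.Agent.J4.H35.ProgD

/-! Primes in windows started in a progression: individual windows. -/

set_option autoImplicit false

open Finset Filter

namespace Pool.Agent.J4.H35.Prog

lemma piWin_range (n H : ℕ) :
    piWin n H = ((range H).filter (fun t => (n + 1 + t * 1).Prime)).card := by
  unfold piWin
  symm
  apply card_bij (fun t _ => n + 1 + t)
  · intro t ht
    rw [mem_filter, mem_range] at ht
    rw [mem_filter, mem_Ioc]
    refine ⟨⟨by omega, by omega⟩, ?_⟩
    have := ht.2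
    rwa [mul_one] at this
  · intro a _ b _ hab
    omega
  · intro m hm
    rw [mem_filter, mem_Ioc] at hm
    refine ⟨m - (n + 1), ?_, by omega⟩
    rw [mem_filter, mem_range, mul_one]
    refine ⟨by omega, ?_⟩
    rw [show n + 1 + (m - (n + 1)) = m by omega]
    exact hm.2

theorem prop_main (c η : ℝ) (hc0 : 0 < c) (hc1 : c < 1) (hη0 : 0 < η) (hη1 : η ≤ 1) :
    ∃ N₀ : ℕ, ∀ N : ℕ, N₀ ≤ N → ∀ s : Finset ℕ, s ⊆ Ioc N (2 * N) → s.Nonempty →
      ∀ H : ℕ, (N:ℝ) ^ η ≤ H →
        1 - (1 - c) * (c * η / 4) ≤ (∑ n ∈ s, (piWin n H : ℝ) * Real.log n / H) / s.card →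
        (1 - c) * (η / 2) * s.card ≤
          ((s.filter (fun n : ℕ => c * H / Real.log n ≤ (piWin n H : ℝ))).card : ℝ) := by
  classical
  obtain ⟨κ, hκ⟩ : ∃ κ : ℝ, κ = c * η / 4 := ⟨_, rfl⟩
  have hκ0 : 0 < κ := by rw [hκ]; positivity
  have hκ1 : κ ≤ 1 := by rw [hκ]; nlinarith
  obtain ⟨N1, hN1, hbt⟩ := Pool.Agent.H617R3.BT.bt2 κ hκ0
  have t1 := (Real.tendsto_log_atTop.comp (tendsto_natCast_atTop_atTop (R := ℝ))).eventually_ge_atTop
    (max 1 (3 / κ))
  have t2 := ((tendsto_rpow_atTop hη0).comp (tendsto_natCast_atTop_atTop (R := ℝ))).eventually_ge_atTop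
    (N1 : ℝ)
  obtain ⟨N2, h2⟩ := eventually_atTop.1 (t1.and t2)
  refine ⟨N2 + 3, fun N hN s hs hsne H hH hD => ?_⟩
  obtain ⟨hL, hP⟩ := h2 N (by omega)
  simp only [Function.comp] at hL hP
  obtain ⟨L, hLdef⟩ : ∃ L : ℝ, L = Real.log N := ⟨_, rfl⟩
  rw [← hLdef] at hL
  have hL1 : 1 ≤ L := (le_max_left _ _).trans hL
  have hLκ : 3 / κ ≤ L := (le_max_right _ _).trans hL
  have hL0 : 0 < L := by linarith
  have hN0 : (0:ℝ) < N := by exact_mod_cast (by omega : 0 < N)
  have hNr1 : (1:ℝ) ≤ N := by exact_mod_cast (by omega : 1 ≤ N)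
  have hH0 : (0:ℝ) < H := lt_of_lt_of_le (by positivity) hH
  have hHN1 : N1 ≤ H := by
    have : (N1:ℝ) ≤ H := hP.trans hH
    exact_mod_cast this
  have hlogH : η * L ≤ Real.log H := by
    have := Real.log_le_log (by positivity) hH
    rwa [Real.log_rpow hN0, ← hLdef] at this
  have hlogH0 : 0 < Real.log H := lt_of_lt_of_le (by positivity) hlogH
  -- the upper bound
  have hupp : ∀ n ∈ s, (piWin n H : ℝ) * Real.log n / H ≤ (2 + 2 * κ) / η := by
    intro n hn
    have hn' := hs hn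
    rw [mem_Ioc] at hn'
    have hn0 : (0:ℝ) < n := by exact_mod_cast (by omega : 0 < n)
    have h1 := hbt (n + 1) 1 H le_rfl hHN1
    rw [← piWin_range] at h1
    simp only [Nat.totient_one, Nat.cast_one, div_one, mul_one] at h1
    have hlogn : Real.log n ≤ L + 1 := by
      have h5 : (n:ℝ) ≤ 2 * N := by exact_mod_cast hn'.2
      refine (Real.log_le_log hn0 h5).trans ?_
      rw [Real.log_mul (by norm_num) hN0.ne', ← hLdef]
      have h3 : Real.log 2 ≤ 1 := by
        have := Real.log_le_sub_one_of_pos (x := 2) (by norm_num)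
        linarith
      linarith
    have hlogn0 : 0 ≤ Real.log n := Real.log_natCast_nonneg n
    calc (piWin n H : ℝ) * Real.log n / H ≤ ((2 + κ) * H / Real.log H) * (L + 1) / H := by gcongr
      _ = (2 + κ) * (L + 1) / Real.log H := by field_simp
      _ ≤ (2 + κ) * (L + 1) / (η * L) := by gcongr
      _ ≤ (2 + 2 * κ) / η := by
          rw [div_le_div_iff₀ (by positivity) hη0]
          have h6 : 3 ≤ L * κ := by rwa [div_le_iff₀ hκ0] at hLκ
          have h7 : (2 + κ) * (L + 1) ≤ (2 + 2 * κ) * L := by nlinarith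
          calc (2 + κ) * (L + 1) * η ≤ (2 + 2 * κ) * L * η := by gcongr
            _ = _ := by ring
  set g : Finset ℕ := s.filter (fun n : ℕ => c * H / Real.log n ≤ (piWin n H : ℝ)) with hg
  obtain ⟨m, hm⟩ : ∃ m : ℝ, m = (s.card : ℝ) := ⟨_, rfl⟩
  obtain ⟨k, hk⟩ : ∃ k : ℝ, k = (g.card : ℝ) := ⟨_, rfl⟩
  have hm0 : 0 < m := by rw [hm]; exact_mod_cast card_pos.2 hsne
  rw [← hm] at hD ⊢
  rw [← hk]
  have hsum : ∑ n ∈ s, (piWin n H : ℝ) * Real.log n / H ≤ k * ((2 + 2 * κ) / η) + (m - k) * c := by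
    have h3 : ∀ n ∈ s, (piWin n H : ℝ) * Real.log n / H ≤
        (if c * H / Real.log n ≤ (piWin n H : ℝ) then ((2 + 2 * κ) / η - c) else 0) + c := by
      intro n hn
      have hn' := hs hn
      rw [mem_Ioc] at hn'
      have hlogn0 : 0 < Real.log n := Real.log_pos (by exact_mod_cast (by omega : 1 < n))
      split_ifs with h4
      · rw [sub_add_cancel]; exact hupp n hn
      · push Not at h4
        rw [zero_add, div_le_iff₀ hH0]
        rw [lt_div_iff₀ hlogn0] at h4
        exact h4.le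
    calc ∑ n ∈ s, (piWin n H : ℝ) * Real.log n / H ≤ ∑ n ∈ s,
          ((if c * H / Real.log n ≤ (piWin n H : ℝ) then ((2 + 2 * κ) / η - c) else 0) + c) :=
          sum_le_sum h3
      _ = k * ((2 + 2 * κ) / η - c) + m * c := by
          rw [sum_add_distrib, ← sum_filter, sum_const, sum_const, nsmul_eq_mul, nsmul_eq_mul,
            ← hg, hk, hm]
      _ = _ := by ring
  rw [le_div_iff₀ hm0] at hD
  by_contra hcon
  push Not at hcon
  have h5 : 0 < (2 + 2 * κ) / η - c := by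
    rw [sub_pos, lt_div_iff₀ hη0]
    nlinarith
  have h6 : (1 - (1 - c) * (c * η / 4)) * m < (1 - c) * (η / 2) * m * ((2 + 2 * κ) / η - c) + m * c := by
    have h7 := mul_lt_mul_of_pos_right hcon h5
    linarith
  have h8 : (1 - c) * (η / 2) * m * ((2 + 2 * κ) / η - c) =
      (1 - c) * (1 + κ - c * η / 2) * m := by
    field_simp
  rw [h8, hκ] at h6
  have h9 : (1 - c) * (1 + c * η / 4 - c * η / 2) * m + m * c = (1 - (1 - c) * (c * η / 4)) * m := by
    ring
  linarith

end Pool.Agent.J4.H35.Prog
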