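import Mathlib

/-! The square function of a nonnegative sequence over the dyadic scales. -/

set_option autoImplicit false

open Finset

namespace Pool.Agent.J4.H35.Sq

/-- window sums -/
noncomputable def R (g : ℕ → ℝ) (n T : ℕ) : ℝ := ∑ m ∈ Ioc n (n + T), g m

lemma R_add (g : ℕ → ℝ) (n S T : ℕ) : R g n (S + T) = R g n S + R g (n + S) T := by
  unfold R
  rw [← sum_union]
  · congr 1
    ext x; simp only [mem_union, mem_Ioc]; omega
  · rw [disjoint_left]; intro x hx hx'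
    rw [mem_Ioc] at hx hx'; omega

lemma R_nonneg (g : ℕ → ℝ) (hg : ∀ m, 0 ≤ g m) (n T : ℕ) : 0 ≤ R g n T := sum_nonneg fun m _ => hg m

lemma R_zero (g : ℕ → ℝ) (n : ℕ) : R g n 0 = 0 := by simp [R]

lemma R_mono (g : ℕ → ℝ) (hg : ∀ m, 0 ≤ g m) (n : ℕ) {S T : ℕ} (h : S ≤ T) : R g n S ≤ R g n T := by
  obtain ⟨U, rfl⟩ := Nat.exists_eq_add_of_le h
  rw [R_add]
  linarith [R_nonneg g hg (n + S) U]

lemma R_far (g : ℕ → ℝ) (Z : ℕ) (hZ : ∀ m, Z < m → g m = 0) (n T : ℕ) (hn : Z ≤ n) : R g n T = 0 := by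
  unfold R
  apply sum_eq_zero
  intro m hm
  rw [mem_Ioc] at hm
  exact hZ m (by omega)

/-- sums over shifted arguments of functions which vanish beyond `Z` -/
lemma shift_sum (f : ℕ → ℝ) (hf : ∀ n, 0 ≤ f n) (Z : ℕ) (hZ : ∀ n, Z ≤ n → f n = 0) (s : ℕ) :
    ∑ n ∈ range Z, f (n + s) ≤ ∑ n ∈ range Z, f n := by
  have h1 : ∑ n ∈ range Z, f (n + s) = ∑ m ∈ (range Z).map (addRightEmbedding s), f m := by
    rw [sum_map]; rfl
  rw [h1]
  have h2 : ∑ m ∈ (range Z).map (addRightEmbedding s), f m =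
      ∑ m ∈ ((range Z).map (addRightEmbedding s)).filter (fun m => m < Z), f m := by
    symm
    apply sum_subset (filter_subset _ _)
    intro m hm hm'
    rw [mem_filter, not_and] at hm'
    exact hZ m (not_lt.1 (hm' hm))
  rw [h2]
  apply sum_le_sum_of_subset_of_nonneg
  · intro m hm
    rw [mem_filter] at hm
    rw [mem_range]; exact hm.2
  · intro m _ _; exact hf m

noncomputable def En (g : ℕ → ℝ) (Z T : ℕ) : ℝ := ∑ n ∈ range Z, R g n T ^ 2

noncomputable def Df (g : ℕ → ℝ) (Z T : ℕ) : ℝ := ∑ n ∈ range Z, (R g n T - R g (n + T) T) ^ 2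

lemma En_nonneg (g : ℕ → ℝ) (Z T : ℕ) : 0 ≤ En g Z T := sum_nonneg fun _ _ => sq_nonneg _
lemma Df_nonneg (g : ℕ → ℝ) (Z T : ℕ) : 0 ≤ Df g Z T := sum_nonneg fun _ _ => sq_nonneg _

lemma En_step (g : ℕ → ℝ) (Z : ℕ) (hZ : ∀ m, Z < m → g m = 0) (T : ℕ) :
    En g Z (2 * T) + Df g Z T ≤ 4 * En g Z T := by
  have h1 := shift_sum (fun n => R g n T ^ 2) (fun n => sq_nonneg _) Z
    (fun n hn => by simp only [R_far g Z hZ n T hn]; norm_num) T
  have h2 : En g Z (2 * T) + Df g Z T =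
      2 * ∑ n ∈ range Z, R g n T ^ 2 + 2 * ∑ n ∈ range Z, R g (n + T) T ^ 2 := by
    unfold En Df
    rw [← sum_add_distrib, mul_sum, mul_sum, ← sum_add_distrib]
    apply sum_congr rfl
    intro n _
    rw [two_mul T, R_add]
    ring
  rw [h2]
  unfold En
  linarith

lemma En_sum (g : ℕ → ℝ) (Z : ℕ) (hZ : ∀ m, Z < m → g m = 0) (b k : ℕ) :
    ∑ i ∈ range k, Df g Z (2 ^ (b + i)) / 4 ^ (b + i + 1) + En g Z (2 ^ (b + k)) / 4 ^ (b + k) ≤
      En g Z (2 ^ b) / 4 ^ b := by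
  induction k with
  | zero => simp
  | succ k ih =>
    rw [sum_range_succ]
    have h1 := En_step g Z hZ (2 ^ (b + k))
    have h2 : 2 * 2 ^ (b + k) = 2 ^ (b + (k + 1)) := by rw [← add_assoc, pow_succ]; ring
    rw [h2] at h1
    have h3 : Df g Z (2 ^ (b + k)) / 4 ^ (b + k + 1) + En g Z (2 ^ (b + (k + 1))) / 4 ^ (b + (k + 1)) ≤
        En g Z (2 ^ (b + k)) / 4 ^ (b + k) := by
      have e : (4:ℝ) ^ (b + (k + 1)) = 4 ^ (b + k + 1) := by rw [add_assoc]
      rw [e, ← add_div, div_le_div_iff₀ (by positivity) (by positivity), pow_succ]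
      have : (0:ℝ) < 4 ^ (b + k) := by positivity
      nlinarith
    linarith

/-- the deviation from linearity -/
noncomputable def dev (g : ℕ → ℝ) (n h H : ℕ) : ℝ := R g n h - (h : ℝ) / H * R g n H

/-- differences of the halves of the blocks -/
noncomputable def dd (g : ℕ → ℝ) (n i q : ℕ) : ℝ :=
  R g (n + (2 * q) * 2 ^ i) (2 ^ i) - R g (n + (2 * q + 1) * 2 ^ i) (2 ^ i)

/-- the sum of the squares of the differences in the block of length `2 ^ j` -/
noncomputable def ds (g : ℕ → ℝ) (n j i : ℕ) : ℝ := ∑ q ∈ range (2 ^ (j - i - 1)), dd g n i q ^ 2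

/-- the chain: deviations at the multiples of `2 ^ i` -/
lemma chain (g : ℕ → ℝ) (n j b : ℕ) (k : ℕ) (hk : b + k = j) (q : ℕ) (hq : q ≤ 2 ^ k) :
    |dev g n (q * 2 ^ b) (2 ^ j)| ≤ ∑ i ∈ Ico b j, Real.sqrt (ds g n j i) / 2 := by
  induction k generalizing b q with
  | zero =>
    have hbj : b = j := by omega
    subst hbj
    rw [Ico_self, sum_empty]
    have hq1 : q = 0 ∨ q = 1 := by
      rw [pow_zero] at hq; omega
    unfold dev
    rcases hq1 with h | h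
    · subst h; simp [R_zero]
    · subst h
      rw [one_mul]
      push_cast
      rw [div_self (by positivity), one_mul, sub_self, abs_zero]
  | succ k ih =>
    have hbj : b < j := by omega
    rw [sum_eq_sum_Ico_succ_bot hbj]
    have hs0 : 0 ≤ Real.sqrt (ds g n j b) / 2 := by positivity
    rcases Nat.even_or_odd' q with ⟨r, hr | hr⟩
    · have h1 := ih (b + 1) (by omega) r (by rw [pow_succ] at hq; omega)
      have e : q * 2 ^ b = r * 2 ^ (b + 1) := by rw [hr, pow_succ]; ring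
      rw [e]
      linarith
    · have h1 := ih (b + 1) (by omega) r (by rw [pow_succ] at hq; omega)
      have h2 := ih (b + 1) (by omega) (r + 1) (by rw [pow_succ] at hq; omega)
      have hr2 : r < 2 ^ (j - b - 1) := by
        have : j - b - 1 = k := by omega
        rw [this]
        rw [pow_succ] at hq; omega
      have e1 : q * 2 ^ b = r * 2 ^ (b + 1) + 2 ^ b := by rw [hr, pow_succ]; ring
      have e2 : (r + 1) * 2 ^ (b + 1) = r * 2 ^ (b + 1) + 2 ^ b + 2 ^ b := by rw [pow_succ]; ring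
      have e3 : dev g n (q * 2 ^ b) (2 ^ j) = (dev g n (r * 2 ^ (b + 1)) (2 ^ j) +
          dev g n ((r + 1) * 2 ^ (b + 1)) (2 ^ j)) / 2 + dd g n b r / 2 := by
        unfold dev dd
        rw [e1, e2, R_add g n (r * 2 ^ (b + 1) + 2 ^ b) (2 ^ b), R_add g n (r * 2 ^ (b + 1)) (2 ^ b)]
        have e4 : (2 * r) * 2 ^ b = r * 2 ^ (b + 1) := by rw [pow_succ]; ring
        have e5 : n + (2 * r + 1) * 2 ^ b = n + (r * 2 ^ (b + 1) + 2 ^ b) := by rw [pow_succ]; ring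
        rw [e4, e5]
        push_cast
        ring
      have h3 : |dd g n b r| ≤ Real.sqrt (ds g n j b) := by
        apply Real.abs_le_sqrt
        unfold ds
        exact single_le_sum (f := fun q => dd g n b q ^ 2) (fun q _ => sq_nonneg _) (mem_range.2 hr2)
      rw [e3]
      have h4 := abs_le.1 h1
      have h5 := abs_le.1 h2
      have h6 := abs_le.1 h3
      rw [abs_le]
      constructor <;> linarith [h4.1, h4.2, h5.1, h5.2, h6.1, h6.2]

/-- the sum of the squares of the smallest blocks -/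
noncomputable def sb (g : ℕ → ℝ) (n j b : ℕ) : ℝ := ∑ q ∈ range (2 ^ (j - b)), R g (n + q * 2 ^ b) (2 ^ b) ^ 2

lemma dev_bound (g : ℕ → ℝ) (hg : ∀ m, 0 ≤ g m) (n j b : ℕ) (hb : b ≤ j) (h : ℕ) (hh : h ≤ 2 ^ j) :
    |dev g n h (2 ^ j)| ≤ ∑ i ∈ Ico b j, Real.sqrt (ds g n j i) / 2 + Real.sqrt (sb g n j b) +
      2 ^ b / 2 ^ j * R g n (2 ^ j) := by
  obtain ⟨k, hk⟩ : ∃ k, b + k = j := ⟨j - b, by omega⟩
  obtain ⟨T, hT⟩ : ∃ T : ℝ, T = ∑ i ∈ Ico b j, Real.sqrt (ds g n j i) / 2 := ⟨_, rfl⟩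
  have hR0 := R_nonneg g hg n (2 ^ j)
  have h2b : 0 < 2 ^ b := by positivity
  have hT0 : 0 ≤ T := by rw [hT]; exact sum_nonneg fun i _ => by positivity
  rcases Nat.lt_or_ge h (2 ^ j) with hlt | hge
  · obtain ⟨q, hq⟩ : ∃ q, q = h / 2 ^ b := ⟨_, rfl⟩
    have hq1 : q * 2 ^ b ≤ h := by rw [hq]; exact Nat.div_mul_le_self h (2 ^ b)
    have hq2 : h < (q + 1) * 2 ^ b := by
      rw [hq]
      have := Nat.lt_div_mul_add (a := h) h2b
      linarith
    have hqk : q < 2 ^ k := by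
      by_contra hcon
      have h1 : 2 ^ k * 2 ^ b ≤ q * 2 ^ b := Nat.mul_le_mul_right _ (by omega)
      have h2 : 2 ^ k * 2 ^ b = 2 ^ j := by rw [← hk, pow_add]; ring
      omega
    have c1 := chain g n j b k hk q hqk.le
    have c2 := chain g n j b k hk (q + 1) (by omega)
    rw [← hT] at c1 c2
    have m1 : R g n (q * 2 ^ b) ≤ R g n h := R_mono g hg n hq1
    have m2 : R g n h ≤ R g n ((q + 1) * 2 ^ b) := R_mono g hg n hq2.le
    have h3 : R g n ((q + 1) * 2 ^ b) = R g n (q * 2 ^ b) + R g (n + q * 2 ^ b) (2 ^ b) := by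
      rw [add_mul, one_mul, R_add]
    have h4 : R g (n + q * 2 ^ b) (2 ^ b) ≤ Real.sqrt (sb g n j b) := by
      refine (le_abs_self _).trans ?_
      apply Real.abs_le_sqrt
      unfold sb
      have : j - b = k := by omega
      rw [this]
      exact single_le_sum (f := fun q => R g (n + q * 2 ^ b) (2 ^ b) ^ 2) (fun q _ => sq_nonneg _)
        (mem_range.2 hqk)
    have hj0 : (0:ℝ) < 2 ^ j := by positivity
    have h5 : ((q * 2 ^ b : ℕ) : ℝ) / ((2 ^ j : ℕ) : ℝ) * R g n (2 ^ j) ≤ (h : ℝ) / ((2 ^ j : ℕ) : ℝ) * R g n (2 ^ j) := by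
      have : ((q * 2 ^ b : ℕ) : ℝ) ≤ h := by exact_mod_cast hq1
      gcongr
    have h6 : (h : ℝ) / ((2 ^ j : ℕ) : ℝ) * R g n (2 ^ j) ≤ ((q * 2 ^ b : ℕ) : ℝ) / ((2 ^ j : ℕ) : ℝ) * R g n (2 ^ j) +
        2 ^ b / 2 ^ j * R g n (2 ^ j) := by
      have h7 : (h:ℝ) ≤ ((q * 2 ^ b : ℕ) : ℝ) + 2 ^ b := by
        have : h ≤ q * 2 ^ b + 2 ^ b := by linarith
        exact_mod_cast this
      rw [← add_mul]
      apply mul_le_mul_of_nonneg_right _ hR0
      push_cast at h7 ⊢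
      rw [← add_div]
      gcongr
    unfold dev at c1 c2 ⊢
    rw [← hT]
    have c1' := abs_le.1 c1
    rw [abs_le]
    constructor
    · linarith [c1'.1, Real.sqrt_nonneg (sb g n j b)]
    · have h8 : 0 ≤ 2 ^ b / 2 ^ j * R g n (2 ^ j) := by positivity
      linarith [c1'.2]
  · have hh' : h = 2 ^ j := le_antisymm hh hge
    subst hh'
    unfold dev
    push_cast
    rw [div_self (by positivity), one_mul, sub_self, abs_zero]
    have : 0 ≤ 2 ^ b / 2 ^ j * R g n (2 ^ j) := by positivity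
    have := Real.sqrt_nonneg (sb g n j b)
    linarith

/-- Cauchy-Schwarz with geometric weights -/
lemma cs (b j : ℕ) (a : ℕ → ℝ) (ha : ∀ i, 0 ≤ a i) :
    (∑ i ∈ Ico b j, Real.sqrt (a i)) ^ 2 ≤ 2 * ∑ i ∈ Ico b j, (3 / 2 : ℝ) ^ (j - i) * a i := by
  have h1 : (∑ i ∈ Ico b j, Real.sqrt (a i)) ^ 2 ≤
      (∑ i ∈ Ico b j, (2 / 3 : ℝ) ^ (j - i)) * ∑ i ∈ Ico b j, (3 / 2 : ℝ) ^ (j - i) * a i := by
    apply sum_sq_le_sum_mul_sum_of_sq_le_mul
    · intro i _; positivity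
    · intro i _; exact mul_nonneg (by positivity) (ha i)
    · intro i _
      rw [Real.sq_sqrt (ha i), ← mul_assoc, ← mul_pow]
      norm_num
  have h2 : ∑ i ∈ Ico b j, (2 / 3 : ℝ) ^ (j - i) ≤ 2 := by
    have h3 : ∀ k : ℕ, ∑ t ∈ range k, (2 / 3 : ℝ) ^ (t + 1) ≤ 2 * (1 - (2 / 3 : ℝ) ^ k) := by
      intro k
      induction k with
      | zero => simp
      | succ k ih => rw [sum_range_succ, pow_succ]; linarith
    rcases le_or_gt j b with h | h
    · rw [Ico_eq_empty_of_le h, sum_empty]; norm_num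
    · have h4 : ∑ i ∈ Ico b j, (2 / 3 : ℝ) ^ (j - i) = ∑ t ∈ range (j - b), (2 / 3 : ℝ) ^ (t + 1) := by
        rw [← sum_range_reflect, sum_Ico_eq_sum_range]
        apply sum_congr rfl
        intro t ht
        rw [mem_range] at ht
        congr 1
        omega
      rw [h4]
      refine (h3 _).trans ?_
      have : (0:ℝ) ≤ (2 / 3) ^ (j - b) := by positivity
      linarith
  have h5 : 0 ≤ ∑ i ∈ Ico b j, (3 / 2 : ℝ) ^ (j - i) * a i :=
    sum_nonneg fun i _ => mul_nonneg (by positivity) (ha i)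
  exact h1.trans (mul_le_mul_of_nonneg_right h2 h5)

lemma ds_nonneg (g : ℕ → ℝ) (n j i : ℕ) : 0 ≤ ds g n j i := sum_nonneg fun _ _ => sq_nonneg _
lemma sb_nonneg (g : ℕ → ℝ) (n j i : ℕ) : 0 ≤ sb g n j i := sum_nonneg fun _ _ => sq_nonneg _

lemma ds_sum (g : ℕ → ℝ) (Z : ℕ) (hZ : ∀ m, Z < m → g m = 0) (j i : ℕ) :
    ∑ n ∈ range Z, ds g n j i ≤ 2 ^ (j - i - 1) * Df g Z (2 ^ i) := by
  unfold ds
  rw [sum_comm]
  calc ∑ q ∈ range (2 ^ (j - i - 1)), ∑ n ∈ range Z, dd g n i q ^ 2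
      ≤ ∑ _q ∈ range (2 ^ (j - i - 1)), Df g Z (2 ^ i) := by
        apply sum_le_sum
        intro q _
        have h := shift_sum (fun n => (R g n (2 ^ i) - R g (n + 2 ^ i) (2 ^ i)) ^ 2) (fun n => sq_nonneg _) Z
          (fun n hn => by
            simp only [R_far g Z hZ n _ hn, R_far g Z hZ (n + 2 ^ i) _ (hn.trans (Nat.le_add_right _ _))]; norm_num) ((2 * q) * 2 ^ i)
        refine le_trans (le_of_eq ?_) h
        apply sum_congr rfl
        intro n _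
        unfold dd
        rw [show n + (2 * q + 1) * 2 ^ i = n + (2 * q) * 2 ^ i + 2 ^ i by ring]
    _ = _ := by rw [sum_const, card_range, nsmul_eq_mul]; push_cast; ring

lemma sb_sum (g : ℕ → ℝ) (Z : ℕ) (hZ : ∀ m, Z < m → g m = 0) (j b : ℕ) :
    ∑ n ∈ range Z, sb g n j b ≤ 2 ^ (j - b) * En g Z (2 ^ b) := by
  unfold sb
  rw [sum_comm]
  calc ∑ q ∈ range (2 ^ (j - b)), ∑ n ∈ range Z, R g (n + q * 2 ^ b) (2 ^ b) ^ 2
      ≤ ∑ _q ∈ range (2 ^ (j - b)), En g Z (2 ^ b) := by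
        apply sum_le_sum
        intro q _
        exact shift_sum (fun n => R g n (2 ^ b) ^ 2) (fun n => sq_nonneg _) Z
          (fun n hn => by simp only [R_far g Z hZ n _ hn]; norm_num) (q * 2 ^ b)
    _ = _ := by rw [sum_const, card_range, nsmul_eq_mul]; push_cast; ring

/-- a bound for the deviations at one scale -/
noncomputable def Bd (g : ℕ → ℝ) (n j b : ℕ) : ℝ :=
  (3 / 2) * ∑ i ∈ Ico b j, (3 / 2 : ℝ) ^ (j - i) * ds g n j i + 3 * sb g n j b +
    3 * (2 ^ b / 2 ^ j * R g n (2 ^ j)) ^ 2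

lemma dev_sq (g : ℕ → ℝ) (hg : ∀ m, 0 ≤ g m) (n j b : ℕ) (hb : b ≤ j) (h : ℕ) (hh : h ≤ 2 ^ j) :
    dev g n h (2 ^ j) ^ 2 ≤ Bd g n j b := by
  have h1 := dev_bound g hg n j b hb h hh
  obtain ⟨x, hx⟩ : ∃ x : ℝ, x = ∑ i ∈ Ico b j, Real.sqrt (ds g n j i) := ⟨_, rfl⟩
  have h2 := cs b j (fun i => ds g n j i) (fun i => ds_nonneg g n j i)
  rw [← hx] at h2
  rw [← sum_div, ← hx] at h1
  have h3 : dev g n h (2 ^ j) ^ 2 ≤ (x / 2 + Real.sqrt (sb g n j b) + 2 ^ b / 2 ^ j * R g n (2 ^ j)) ^ 2 := by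
    rw [← sq_abs (dev g n h (2 ^ j))]
    exact pow_le_pow_left₀ (abs_nonneg _) h1 2
  have h4 : Real.sqrt (sb g n j b) ^ 2 = sb g n j b := Real.sq_sqrt (sb_nonneg _ _ _ _)
  unfold Bd
  obtain ⟨y, hy⟩ : ∃ y : ℝ, y = Real.sqrt (sb g n j b) := ⟨_, rfl⟩
  obtain ⟨z, hz⟩ : ∃ z : ℝ, z = 2 ^ b / 2 ^ j * R g n (2 ^ j) := ⟨_, rfl⟩
  rw [← hy] at h3 h4
  rw [← hz] at h3 ⊢
  rw [← h4]
  nlinarith [sq_nonneg (x / 2 - y), sq_nonneg (x / 2 - z), sq_nonneg (y - z)]

lemma Bd_sum (g : ℕ → ℝ) (Z : ℕ) (hZ : ∀ m, Z < m → g m = 0) (j b : ℕ) (hb : b ≤ j) :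
    ∑ n ∈ range Z, Bd g n j b / 4 ^ j ≤
      ∑ i ∈ Ico b j, (3 / 4 : ℝ) ^ (j - i) * (3 / 4 * (Df g Z (2 ^ i) / 4 ^ i)) +
      3 * ((1 / 2 : ℝ) ^ (j - b) * (En g Z (2 ^ b) / 4 ^ b)) +
      3 * ((1 / 4 : ℝ) ^ (j - b) * (En g Z (2 ^ j) / 4 ^ j)) := by
  have h4j : (0:ℝ) < 4 ^ j := by positivity
  have e1 : ∑ n ∈ range Z, Bd g n j b / 4 ^ j =
      (3 / 2) * ∑ i ∈ Ico b j, (3 / 2 : ℝ) ^ (j - i) * (∑ n ∈ range Z, ds g n j i) / 4 ^ j +
      3 * (∑ n ∈ range Z, sb g n j b) / 4 ^ j +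
      3 * ∑ n ∈ range Z, (2 ^ b / 2 ^ j * R g n (2 ^ j)) ^ 2 / 4 ^ j := by
    unfold Bd
    simp only [add_div, sum_add_distrib]
    congr 1
    · congr 1
      · simp only [mul_div_assoc]
        rw [← mul_sum]
        congr 1
        simp only [sum_div]
        rw [sum_comm]
        apply sum_congr rfl
        intro i _
        rw [mul_sum]
        apply sum_congr rfl
        intro n _
        ring
      · simp only [mul_div_assoc]
        rw [← mul_sum, sum_div]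
    · simp only [mul_div_assoc]
      rw [← mul_sum]
  rw [e1]
  apply add_le_add
  · apply add_le_add
    · rw [mul_sum]
      apply sum_le_sum
      intro i hi
      rw [mem_Ico] at hi
      have h1 := ds_sum g Z hZ j i
      obtain ⟨k, hk⟩ : ∃ k, j = i + k + 1 := ⟨j - i - 1, by omega⟩
      have e2 : j - i - 1 = k := by omega
      have e3 : j - i = k + 1 := by omega
      rw [e2] at h1
      rw [e3]
      calc 3 / 2 * ((3 / 2 : ℝ) ^ (k + 1) * (∑ n ∈ range Z, ds g n j i) / 4 ^ j)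
          ≤ 3 / 2 * ((3 / 2 : ℝ) ^ (k + 1) * (2 ^ k * Df g Z (2 ^ i)) / 4 ^ j) := by gcongr
        _ = (3 / 4 : ℝ) ^ (k + 1) * (3 / 4 * (Df g Z (2 ^ i) / 4 ^ i)) := by
            have h5 : (4:ℝ) ^ j = 4 ^ i * 4 ^ k * 4 := by rw [hk, pow_succ, pow_add]
            have h6 : (3 / 2 : ℝ) ^ (k + 1) * 2 ^ k = (3 : ℝ) ^ k * (3 / 2) := by
              rw [pow_succ, div_pow]; field_simp
            have h7 : (3 / 4 : ℝ) ^ (k + 1) = 3 ^ k / 4 ^ k * (3 / 4) := by rw [pow_succ, div_pow]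
            rw [h5, h7, ← mul_assoc ((3 / 2 : ℝ) ^ (k + 1)), h6]
            field_simp
            ring
    · have h1 := sb_sum g Z hZ j b
      obtain ⟨k, hk⟩ : ∃ k, j = b + k := ⟨j - b, by omega⟩
      have e2 : j - b = k := by omega
      rw [e2] at h1 ⊢
      calc 3 * (∑ n ∈ range Z, sb g n j b) / 4 ^ j ≤ 3 * (2 ^ k * En g Z (2 ^ b)) / 4 ^ j := by gcongr
        _ = 3 * ((1 / 2 : ℝ) ^ k * (En g Z (2 ^ b) / 4 ^ b)) := by
            have h5 : (4:ℝ) ^ j = 4 ^ b * (2 ^ k * 2 ^ k) := by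
              rw [hk, pow_add, ← mul_pow]; norm_num
            have h6 : (1 / 2 : ℝ) ^ k = 1 / 2 ^ k := by rw [div_pow, one_pow]
            rw [h5, h6]
            field_simp
  · apply le_of_eq
    have h6 : (1 / 4 : ℝ) ^ (j - b) = (2 ^ b / 2 ^ j) ^ 2 := by
      obtain ⟨k, hk⟩ : ∃ k, j = b + k := ⟨j - b, by omega⟩
      have e2 : j - b = k := by omega
      rw [e2, hk, pow_add, div_pow, div_pow, one_pow]
      have : (4:ℝ) ^ k = (2 ^ k) ^ 2 := by rw [← pow_mul, mul_comm, pow_mul]; norm_num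
      rw [this]
      field_simp
    rw [h6]
    unfold En
    rw [sum_div, mul_sum, mul_sum, mul_sum]
    apply sum_congr rfl
    intro n _
    ring

/-- the square function -/
theorem square (g : ℕ → ℝ) (Z : ℕ) (hZ : ∀ m, Z < m → g m = 0) (b k : ℕ) :
    ∑ j ∈ range k, ∑ n ∈ range Z, Bd g n (b + j) b / 4 ^ (b + j) ≤ 20 * (En g Z (2 ^ b) / 4 ^ b) := by
  obtain ⟨E, hE⟩ : ∃ E : ℝ, E = En g Z (2 ^ b) / 4 ^ b := ⟨_, rfl⟩
  have hE0 : 0 ≤ E := by rw [hE]; exact div_nonneg (En_nonneg _ _ _) (by positivity)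
  rw [← hE]
  -- the energies at the larger scales
  have hEj : ∀ j, En g Z (2 ^ (b + j)) / 4 ^ (b + j) ≤ E := by
    intro j
    have := En_sum g Z hZ b j
    rw [← hE] at this
    have h2 : 0 ≤ ∑ i ∈ range j, Df g Z (2 ^ (b + i)) / 4 ^ (b + i + 1) :=
      sum_nonneg fun i _ => div_nonneg (Df_nonneg _ _ _) (by positivity)
    linarith
  have geo : ∀ r : ℝ, 0 ≤ r → r < 1 → ∀ k : ℕ, ∑ t ∈ range k, r ^ t ≤ 1 / (1 - r) := by
    intro r hr0 hr1 k
    rw [geom_sum_eq hr1.ne, ← neg_div_neg_eq, neg_sub, neg_sub]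
    have : 0 ≤ r ^ k := by positivity
    apply div_le_div_of_nonneg_right _ (by linarith)
    linarith
  have h1 : ∀ j ∈ range k, ∑ n ∈ range Z, Bd g n (b + j) b / 4 ^ (b + j) ≤
      ∑ i ∈ range j, (3 / 4 : ℝ) ^ (j - i) * (3 * (Df g Z (2 ^ (b + i)) / 4 ^ (b + i + 1))) +
      3 * ((1 / 2 : ℝ) ^ j * E) + 3 * ((1 / 4 : ℝ) ^ j * E) := by
    intro j _
    have h2 := Bd_sum g Z hZ (b + j) b (by omega)
    have e : b + j - b = j := by omega
    rw [e, ← hE, sum_Ico_eq_sum_range, e] at h2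
    refine h2.trans ?_
    apply add_le_add
    · apply add_le_add _ le_rfl
      apply le_of_eq
      apply sum_congr rfl
      intro i _
      have e2 : b + j - (b + i) = j - i := by omega
      rw [e2, pow_succ]
      field_simp
    · have := hEj j
      gcongr
  refine (sum_le_sum h1).trans ?_
  rw [sum_add_distrib, sum_add_distrib]
  have p1 : ∑ j ∈ range k, ∑ i ∈ range j, (3 / 4 : ℝ) ^ (j - i) * (3 * (Df g Z (2 ^ (b + i)) / 4 ^ (b + i + 1))) ≤
      9 * E := by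
    have q1 : ∑ j ∈ range k, ∑ i ∈ range j, (3 / 4 : ℝ) ^ (j - i) * (3 * (Df g Z (2 ^ (b + i)) / 4 ^ (b + i + 1))) =
        ∑ i ∈ range k, ∑ j ∈ Ico (i + 1) k, (3 / 4 : ℝ) ^ (j - i) * (3 * (Df g Z (2 ^ (b + i)) / 4 ^ (b + i + 1))) := by
      apply sum_comm'
      intro x y
      simp only [mem_range, mem_Ico]
      omega
    rw [q1]
    have q2 : ∀ i ∈ range k, ∑ j ∈ Ico (i + 1) k, (3 / 4 : ℝ) ^ (j - i) * (3 * (Df g Z (2 ^ (b + i)) / 4 ^ (b + i + 1))) ≤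
        3 * (3 * (Df g Z (2 ^ (b + i)) / 4 ^ (b + i + 1))) := by
      intro i _
      rw [← sum_mul]
      apply mul_le_mul_of_nonneg_right _ (mul_nonneg (by norm_num) (div_nonneg (Df_nonneg _ _ _) (by positivity)))
      rw [sum_Ico_eq_sum_range]
      have : ∀ t ∈ range (k - (i + 1)), (3 / 4 : ℝ) ^ (i + 1 + t - i) = 3 / 4 * (3 / 4 : ℝ) ^ t := by
        intro t _
        rw [show i + 1 + t - i = t + 1 by omega, pow_succ]; ring
      rw [sum_congr rfl this, ← mul_sum]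
      have := geo (3 / 4) (by norm_num) (by norm_num) (k - (i + 1))
      norm_num at this
      linarith
    refine (sum_le_sum q2).trans ?_
    rw [← mul_sum, ← mul_sum]
    have := En_sum g Z hZ b k
    rw [← hE] at this
    have h2 : 0 ≤ En g Z (2 ^ (b + k)) / 4 ^ (b + k) := div_nonneg (En_nonneg _ _ _) (by positivity)
    linarith
  have p2 : ∑ j ∈ range k, 3 * ((1 / 2 : ℝ) ^ j * E) ≤ 6 * E := by
    rw [← mul_sum, ← sum_mul]
    have := geo (1 / 2) (by norm_num) (by norm_num) k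
    norm_num at this
    have h2 := mul_le_mul_of_nonneg_right this hE0
    have h3 : (∑ j ∈ range k, (1 / 2 : ℝ) ^ j) * E ≤ 2 * E := by
      simpa using h2
    linarith
  have p3 : ∑ j ∈ range k, 3 * ((1 / 4 : ℝ) ^ j * E) ≤ 4 * E := by
    rw [← mul_sum, ← sum_mul]
    have h2 : ∑ j ∈ range k, (1 / 4 : ℝ) ^ j ≤ 4 / 3 := by
      have := geo (1 / 4) (by norm_num) (by norm_num) k
      norm_num at this ⊢
      linarith
    have h3 := mul_le_mul_of_nonneg_right h2 hE0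
    linarith
  linarith

end Pool.Agent.J4.H35.Sq
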