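import Pool.Agent.J4.H35.SqA
import Pool.Agent.W123.LR.Fin

/-! The square function of the primes over the dyadic scales. -/

set_option autoImplicit false

open Finset Filter

namespace Pool.Agent.J4.H35.Sq

open Pool.Agent.H357R2.SI (pc)

/-- number of primes in `(x, x + H]` -/
def piWin (x H : ℕ) : ℕ := ((Ioc x (x + H)).filter Nat.Prime).card

/-- relative deviation from uniform distribution -/
noncomputable def fluct (X n h H : ℕ) : ℝ :=
  ((piWin n h : ℝ) - (h : ℝ) / H * piWin n H) * (Real.log X / H)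

/-- the dyadic scales between `log X` and `Y` -/
noncomputable def scales (X Y : ℕ) : Finset ℕ :=
  (range (Nat.log 2 Y + 1)).filter (fun j => Real.log X ≤ (2 : ℝ) ^ j)

/-- the primes in `(X, X + 2 Y]` -/
noncomputable def gX (X Y m : ℕ) : ℝ := if X < m ∧ m ≤ X + 2 * Y ∧ m.Prime then 1 else 0

lemma gX_nonneg (X Y m : ℕ) : 0 ≤ gX X Y m := by unfold gX; split_ifs <;> norm_num

lemma gX_far (X Y m : ℕ) (h : X + 2 * Y < m) : gX X Y m = 0 := by
  unfold gX; rw [if_neg]; omega

lemma R_le (X Y n T : ℕ) : R (gX X Y) n T ≤ pc n (n + T) := by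
  unfold R gX pc
  rw [sum_boole]
  have : (Ioc n (n + T)).filter (fun m => X < m ∧ m ≤ X + 2 * Y ∧ m.Prime) ⊆
      (Ioc n (n + T)).filter Nat.Prime := by
    intro m hm
    rw [mem_filter] at hm ⊢
    exact ⟨hm.1, hm.2.2.2⟩
  exact_mod_cast card_le_card this

lemma R_eq (X Y n h : ℕ) (h1 : X ≤ n) (h2 : n + h ≤ X + 2 * Y) : R (gX X Y) n h = piWin n h := by
  unfold R gX piWin
  rw [sum_boole]
  congr 2
  ext m
  rw [mem_filter, mem_filter, mem_Ioc]
  constructor
  · rintro ⟨h3, _, _, h4⟩; exact ⟨h3, h4⟩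
  · rintro ⟨h3, h4⟩; exact ⟨h3, by omega, by omega, h4⟩

lemma R_low (X Y n T : ℕ) (h : n + T ≤ X) : R (gX X Y) n T = 0 := by
  unfold R
  apply sum_eq_zero
  intro m hm
  rw [mem_Ioc] at hm
  unfold gX
  rw [if_neg]
  omega

theorem primes_square (θ : ℝ) (hθ0 : 0 < θ) (hθ1 : θ ≤ 1) : ∃ C : ℝ, 0 < C ∧ ∃ X₀ : ℕ,
    ∀ X : ℕ, X₀ ≤ X → ∀ Y : ℕ, (X : ℝ) ^ θ ≤ Y → Y ≤ X →
      ∀ h : ℕ → ℕ → ℕ, (∀ j n, h j n ≤ 2 ^ j) →
        ∑ j ∈ scales X Y, ∑ n ∈ Ioc X (X + Y), fluct X n (h j n) (2 ^ j) ^ 2 ≤ C * Y := by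
  obtain ⟨C, hC1, u0, hmom⟩ := Pool.Agent.W123.LR.second_moment_local θ hθ0
  have hXr : Tendsto (fun X : ℕ => (X : ℝ)) atTop atTop := tendsto_natCast_atTop_atTop
  have hlogX : Tendsto (fun X : ℕ => Real.log (X : ℝ)) atTop atTop :=
    Real.tendsto_log_atTop.comp hXr
  have hpow : Tendsto (fun X : ℕ => (X : ℝ) ^ θ) atTop atTop := (tendsto_rpow_atTop hθ0).comp hXr
  have hpl : ∀ᶠ X : ℕ in atTop, 1 * Real.log X ≤ (X : ℝ) ^ θ := by
    have h := ((isLittleO_log_rpow_atTop hθ0).comp_tendsto hXr).bound (by norm_num : (0 : ℝ) < 1)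
    filter_upwards [h, eventually_ge_atTop 1] with X hX hX1
    have hX1' : (1 : ℝ) ≤ X := by exact_mod_cast hX1
    have hl := Real.log_nonneg hX1'
    simp only [Function.comp_def] at hX
    rw [Real.norm_of_nonneg hl, Real.norm_of_nonneg (by positivity)] at hX
    linarith
  obtain ⟨X₀, hX₀⟩ := eventually_atTop.1 ((hlogX.eventually_ge_atTop 8).and
    ((hpow.eventually_ge_atTop ((u0 : ℝ) + 1)).and (hpl.and (eventually_ge_atTop 16))))
  refine ⟨3840 * C, by positivity, X₀, fun X hX Y hXY hYX h hh => ?_⟩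
  obtain ⟨hL8, hu, hLp, hX16⟩ := hX₀ X hX
  rw [one_mul] at hLp
  obtain ⟨L, hLdef⟩ : ∃ L : ℝ, L = Real.log X := ⟨_, rfl⟩
  rw [← hLdef] at hL8 hLp
  have hL0 : 0 < L := by linarith
  have hX0 : (0:ℝ) < X := by exact_mod_cast (by omega : 0 < X)
  have hYr : (0:ℝ) < Y := lt_of_lt_of_le (by positivity) hXY
  -- the smallest scale
  obtain ⟨b, hb⟩ : ∃ b : ℕ, b = Nat.log 2 ⌊L / 2⌋₊ := ⟨_, rfl⟩
  obtain ⟨T, hT⟩ : ∃ T : ℕ, T = 2 ^ b := ⟨_, rfl⟩
  have hfl : 4 ≤ ⌊L / 2⌋₊ := Nat.le_floor (by push_cast; linarith)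
  have hT1 : (T:ℝ) ≤ L / 2 := by
    have h1 : 2 ^ b ≤ ⌊L / 2⌋₊ := by rw [hb]; exact Nat.pow_log_le_self 2 (by omega)
    have h2 : ((2 ^ b : ℕ) : ℝ) ≤ (⌊L / 2⌋₊ : ℝ) := by exact_mod_cast h1
    rw [hT]
    exact h2.trans (Nat.floor_le (by linarith))
  have hT2 : L / 8 ≤ T := by
    have h1 : ⌊L / 2⌋₊ < 2 ^ (b + 1) := by rw [hb]; exact Nat.lt_pow_succ_log_self (by norm_num) _
    have h2 : ((⌊L / 2⌋₊ : ℕ) : ℝ) < ((2 ^ (b + 1) : ℕ) : ℝ) := by exact_mod_cast h1
    have h3 := Nat.lt_floor_add_one (L / 2)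
    have h4 : ((2 ^ (b + 1) : ℕ) : ℝ) = 2 * (T : ℝ) := by rw [hT]; push_cast; ring
    have h5 : ((⌊L / 2⌋₊ : ℕ) : ℝ) + 1 ≤ 2 * (T:ℝ) + 1 := by linarith
    linarith
  have hT0 : (0:ℝ) < T := by linarith
  have hTY : (T:ℝ) ≤ Y := by linarith
  have hTYn : T ≤ Y := by exact_mod_cast hTY
  have hTXn : T ≤ X := hTYn.trans hYX
  -- log of X - T
  have hLX : L ≤ X / 4 := by
    have h1 : Real.log (X : ℝ) = 4 * Real.log ((X:ℝ) ^ (1/4 : ℝ)) := by
      rw [Real.log_rpow hX0]; ring
    have h2 := Real.log_le_sub_one_of_pos (x := (X:ℝ) / 8) (by positivity)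
    rw [Real.log_div (by positivity) (by norm_num), ← hLdef] at h2
    have h3 : Real.log 8 ≤ 2.1 := by
      have : (8:ℝ) = 2 ^ 3 := by norm_num
      rw [this, Real.log_pow]
      have := Real.log_two_lt_d9
      push_cast
      linarith
    have h4 : (16:ℝ) ≤ X := by exact_mod_cast hX16
    linarith
  have hXT : (X:ℝ) / 2 ≤ ((X - T : ℕ) : ℝ) := by
    rw [Nat.cast_sub hTXn]; linarith
  have hXT3 : 3 ≤ X - T := by
    have h4 : (16:ℝ) ≤ X := by exact_mod_cast hX16
    have : (3:ℝ) ≤ ((X - T : ℕ) : ℝ) := by linarith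
    exact_mod_cast this
  have hlogXT : (T:ℝ) ≤ Real.log ((X - T : ℕ) : ℝ) := by
    have h1 : Real.log ((X:ℝ) / 2) ≤ Real.log ((X - T : ℕ) : ℝ) := Real.log_le_log (by positivity) hXT
    rw [Real.log_div (by positivity) (by norm_num), ← hLdef] at h1
    have := Real.log_two_lt_d9
    linarith
  -- the energy of the smallest scale
  have hE : En (gX X Y) (X + 2 * Y) T ≤ 3 * C * Y := by
    have h1 := hmom (X - T) (2 * Y + T) T hXT3 (by
      push_cast
      have : ((X - T : ℕ) : ℝ) ^ θ ≤ (X:ℝ) ^ θ := by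
        apply Real.rpow_le_rpow (by positivity) _ hθ0.le
        exact_mod_cast Nat.sub_le _ _
      linarith) (by
      have h2 : (u0:ℝ) ≤ Y := by linarith
      have : u0 ≤ Y := by exact_mod_cast h2
      omega) (by omega) hlogXT
    have h2 : En (gX X Y) (X + 2 * Y) T ≤
        ∑ n ∈ Ico (X - T + 1) (X - T + 1 + (2 * Y + T)), ((pc n (n + T) : ℝ)) ^ 2 := by
      unfold En
      calc ∑ n ∈ range (X + 2 * Y), R (gX X Y) n T ^ 2
          = ∑ n ∈ (range (X + 2 * Y)).filter (fun n => X - T + 1 ≤ n), R (gX X Y) n T ^ 2 := by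
            symm
            apply sum_subset (filter_subset _ _)
            intro n hn hn'
            rw [mem_filter, not_and] at hn'
            have := hn' hn
            rw [R_low X Y n T (by omega)]
            norm_num
        _ ≤ ∑ n ∈ (range (X + 2 * Y)).filter (fun n => X - T + 1 ≤ n), ((pc n (n + T) : ℝ)) ^ 2 := by
            apply sum_le_sum
            intro n _
            exact pow_le_pow_left₀ (R_nonneg _ (gX_nonneg X Y) _ _) (R_le X Y n T) 2
        _ ≤ _ := by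
            apply sum_le_sum_of_subset_of_nonneg
            · intro n hn
              rw [mem_filter, mem_range] at hn
              rw [mem_Ico]
              omega
            · intro _ _ _; positivity
    refine h2.trans (h1.trans ?_)
    push_cast
    have : (2 * (Y:ℝ) + T) ≤ 3 * Y := by linarith
    nlinarith
  have hsq := square (gX X Y) (X + 2 * Y) (gX_far X Y) b (Nat.log 2 Y + 1)
  have hE4 : En (gX X Y) (X + 2 * Y) (2 ^ b) / 4 ^ b ≤ 192 * C * Y / L ^ 2 := by
    rw [← hT]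
    have e : (4:ℝ) ^ b = (T:ℝ) ^ 2 := by rw [hT]; push_cast; rw [← pow_mul, mul_comm, pow_mul]; norm_num
    rw [e]
    calc En (gX X Y) (X + 2 * Y) T / (T:ℝ) ^ 2 ≤ (3 * C * Y) / (L / 8) ^ 2 := by gcongr
      _ = _ := by field_simp; ring
  -- comparison
  have hmain : ∑ j ∈ scales X Y, ∑ n ∈ Ioc X (X + Y), fluct X n (h j n) (2 ^ j) ^ 2 ≤
      L ^ 2 * ∑ j ∈ range (Nat.log 2 Y + 1), ∑ n ∈ range (X + 2 * Y), Bd (gX X Y) n (b + j) b / 4 ^ (b + j) := by
    have h1 : ∀ j ∈ scales X Y, b ≤ j ∧ ∑ n ∈ Ioc X (X + Y), fluct X n (h j n) (2 ^ j) ^ 2 ≤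
        L ^ 2 * ∑ n ∈ range (X + 2 * Y), Bd (gX X Y) n j b / 4 ^ j := by
      intro j hj
      unfold scales at hj
      rw [mem_filter, mem_range] at hj
      have hbj : b ≤ j := by
        by_contra hcon
        have h2 : (2:ℝ) ^ j ≤ 2 ^ b := pow_le_pow_right₀ (by norm_num) (by omega)
        have h3 : (2:ℝ) ^ b = T := by rw [hT]; push_cast; rfl
        have h4 := hj.2
        rw [← hLdef] at h4
        linarith
      have hYn : 0 < Y := by exact_mod_cast hYr
      have hjY : 2 ^ j ≤ Y := by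
        calc 2 ^ j ≤ 2 ^ (Nat.log 2 Y) := Nat.pow_le_pow_right (by norm_num) (by omega)
          _ ≤ Y := Nat.pow_log_le_self 2 (by omega)
      refine ⟨hbj, ?_⟩
      have hB0 : ∀ n, 0 ≤ Bd (gX X Y) n j b := fun n =>
        (sq_nonneg _).trans (dev_sq (gX X Y) (gX_nonneg X Y) n j b hbj 0 (Nat.zero_le _))
      calc ∑ n ∈ Ioc X (X + Y), fluct X n (h j n) (2 ^ j) ^ 2
          ≤ ∑ n ∈ Ioc X (X + Y), L ^ 2 * (Bd (gX X Y) n j b / 4 ^ j) := by
            apply sum_le_sum
            intro n hn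
            rw [mem_Ioc] at hn
            have h5 := dev_sq (gX X Y) (gX_nonneg X Y) n j b hbj (h j n) (hh j n)
            have h6 : dev (gX X Y) n (h j n) (2 ^ j) =
                (piWin n (h j n) : ℝ) - ((h j n : ℕ) : ℝ) / ((2 ^ j : ℕ) : ℝ) * piWin n (2 ^ j) := by
              unfold dev
              rw [R_eq X Y n _ hn.1.le (by have := hh j n; omega), R_eq X Y n _ hn.1.le (by omega)]
            have h7 : fluct X n (h j n) (2 ^ j) ^ 2 = L ^ 2 * (dev (gX X Y) n (h j n) (2 ^ j) ^ 2 / 4 ^ j) := by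
              unfold fluct
              rw [h6, hLdef]
              have : (4:ℝ) ^ j = (2 ^ j) ^ 2 := by rw [← pow_mul, mul_comm, pow_mul]; norm_num
              rw [this]
              push_cast
              field_simp
            rw [h7]
            gcongr
        _ ≤ ∑ n ∈ range (X + 2 * Y), L ^ 2 * (Bd (gX X Y) n j b / 4 ^ j) := by
            apply sum_le_sum_of_subset_of_nonneg
            · intro n hn
              rw [mem_Ioc] at hn
              rw [mem_range]
              omega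
            · intro n _ _
              have := hB0 n
              positivity
        _ = _ := by rw [mul_sum]
    calc ∑ j ∈ scales X Y, ∑ n ∈ Ioc X (X + Y), fluct X n (h j n) (2 ^ j) ^ 2
        ≤ ∑ j ∈ scales X Y, L ^ 2 * ∑ n ∈ range (X + 2 * Y), Bd (gX X Y) n j b / 4 ^ j :=
          sum_le_sum fun j hj => (h1 j hj).2
      _ = L ^ 2 * ∑ j ∈ scales X Y, ∑ n ∈ range (X + 2 * Y), Bd (gX X Y) n j b / 4 ^ j := by rw [mul_sum]
      _ ≤ L ^ 2 * ∑ j ∈ (range (Nat.log 2 Y + 1)).map (addLeftEmbedding b),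
            ∑ n ∈ range (X + 2 * Y), Bd (gX X Y) n j b / 4 ^ j := by
          apply mul_le_mul_of_nonneg_left _ (by positivity)
          apply sum_le_sum_of_subset_of_nonneg
          · intro j hj
            have h2 := (h1 j hj).1
            unfold scales at hj
            rw [mem_filter, mem_range] at hj
            rw [Finset.mem_map]
            exact ⟨j - b, by rw [mem_range]; omega, by rw [addLeftEmbedding_apply]; omega⟩
          · intro j hj _
            rw [Finset.mem_map] at hj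
            obtain ⟨i, _, rfl⟩ := hj
            rw [addLeftEmbedding_apply]
            apply sum_nonneg
            intro n _
            apply div_nonneg _ (by positivity)
            exact (sq_nonneg _).trans (dev_sq (gX X Y) (gX_nonneg X Y) n (b + i) b (by omega) 0 (Nat.zero_le _))
      _ = _ := by
          rw [sum_map]
          simp only [addLeftEmbedding_apply]
  refine hmain.trans ?_
  calc L ^ 2 * ∑ j ∈ range (Nat.log 2 Y + 1), ∑ n ∈ range (X + 2 * Y), Bd (gX X Y) n (b + j) b / 4 ^ (b + j)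
      ≤ L ^ 2 * (20 * (192 * C * Y / L ^ 2)) := by
        apply mul_le_mul_of_nonneg_left _ (by positivity)
        linarith
    _ = 3840 * C * Y := by field_simp; norm_num

end Pool.Agent.J4.H35.Sq
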