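import Mathlib
import Pool.Agent.J4.H74.CurvLM
import Pool.Agent.J4.H74.VojBA

set_option autoImplicit false

/-!
Vojta's inequality for the algebraic points above the good rational approximations of almost all real
points (helper35). The argument on curves and the one on the covers of projective space are those of
`J4/H74/CurvLM` and `J4/H74/FermLM`, the metric argument is that of `J4/H74/VojBA`.
-/

namespace Pool.Agent.J4.H35.VojA

open NumberField IsDedekindDomain MeasureTheory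
open Pool.Agent.TH910.Voj Pool.Agent.R366.NF
open Pool.Agent.J4.H74.VojBA (hom hom_ne GoodP)
open scoped NNReal ENNReal

variable {K : Type} [Field K] [NumberField K] {n q : ℕ}

section metric

open scoped Classical in
/-- the points without the property `P`, if they are few, are good approximations only to few points -/
theorem metric (P : (Fin n → K) → Prop) {c : ℝ} (hc : c ≤ 1) {C : ℝ} (hC : 0 ≤ C)
    (hcount : ∀ B : ℝ, 1 ≤ B →
      {x : Fin n → K | ¬ P x ∧ Height.mulHeight (hom x) ≤ B}.Finite ∧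
      (({x : Fin n → K | ¬ P x ∧ Height.mulHeight (hom x) ≤ B}.ncard : ℕ) : ℝ) ≤
        C * B ^ ((n : ℝ) + 1 - c)) (τ : ℝ) (hτ : 0 < τ) :
    ∃ E : Set (Fin n → mixedEmbedding.mixedSpace K),
      dimH E ≤ ENNReal.ofReal (((n : ℝ) + 1 - c) / τ) ∧
      (((n : ℝ) + 1 - c) / τ < n * Module.finrank ℚ K →
        ∀ μ : Measure (Fin n → mixedEmbedding.mixedSpace K), μ.IsAddHaarMeasure → μ E = 0) ∧
      ∀ z, z ∉ E → ∀ A : ℝ, {x : Fin n → K |
        dist z (fun i => mixedEmbedding K (x i)) ≤ A * Height.mulHeight (hom x) ^ (-τ) ∧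
        ¬ P x}.Finite := by
  have hnn : (0 : ℝ) ≤ n := Nat.cast_nonneg n
  have hdim := Pool.Agent.J4.H74.VojBA.dimH_approx_const (X := Fin n → mixedEmbedding.mixedSpace K)
    (fun x : Fin n → K => fun i => mixedEmbedding K (x i))
    {x : Fin n → K | ¬ P x} (fun x => Height.mulHeight (hom x))
    (fun x => Height.one_le_mulHeight _) (s := (n : ℝ) + 1 - c) (by linarith) hτ (by
      intro ε hε
      refine ⟨C, fun B hB => ?_⟩
      obtain ⟨h1, h2⟩ := hcount B hB
      refine ⟨h1, h2.trans (mul_le_mul_of_nonneg_left ?_ hC)⟩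
      exact Real.rpow_le_rpow_of_exponent_le hB (by linarith))
  refine ⟨_, hdim, fun hlt μ hμ => ?_, fun z hz A => ?_⟩
  · have := Pool.Agent.J4.H74.VojBA.bs K n
    refine Pool.Agent.J4.H74.VojBA.null_of_dimH _ _ (hdim.trans_lt ?_)
    have h1 : Module.finrank ℝ (Fin n → mixedEmbedding.mixedSpace K) = n * Module.finrank ℚ K := by
      rw [Module.finrank_pi_fintype]
      simp only [mixedEmbedding.finrank, Finset.sum_const, Finset.card_univ, Fintype.card_fin,
        smul_eq_mul]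
    rw [h1]
    have h2 : ((n * Module.finrank ℚ K : ℕ) : ℝ≥0∞) =
        ENNReal.ofReal ((n * Module.finrank ℚ K : ℕ) : ℝ) := by
      rw [ENNReal.ofReal_natCast]
    rw [h2]
    refine (ENNReal.ofReal_lt_ofReal_iff_of_nonneg (div_nonneg (by linarith) hτ.le)).2 ?_
    push_cast
    exact hlt
  · by_contra hcon
    apply hz
    refine ⟨A, ?_⟩
    have hinf : {x : Fin n → K |
        dist z (fun i => mixedEmbedding K (x i)) ≤ A * Height.mulHeight (hom x) ^ (-τ) ∧
        ¬ P x}.Infinite := hcon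
    refine hinf.mono ?_
    rintro x ⟨h1, h2⟩
    exact ⟨h2, h1⟩

open scoped Classical in
/-- the case of `K` itself -/
theorem metric₁ (P : K → Prop) {c : ℝ} (hc : c ≤ 1) {C : ℝ} (hC : 0 ≤ C)
    (hcount : ∀ B : ℝ, 1 ≤ B →
      {x : Fin 1 → K | ¬ P (x 0) ∧ Height.mulHeight (hom x) ≤ B}.Finite ∧
      (({x : Fin 1 → K | ¬ P (x 0) ∧ Height.mulHeight (hom x) ≤ B}.ncard : ℕ) : ℝ) ≤
        C * B ^ (((1 : ℕ) : ℝ) + 1 - c)) (τ : ℝ) (hτ : 0 < τ) :
    ∃ E : Set (mixedEmbedding.mixedSpace K),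
      dimH E ≤ ENNReal.ofReal ((2 - c) / τ) ∧
      ((2 - c) / τ < Module.finrank ℚ K →
        ∀ μ : Measure (mixedEmbedding.mixedSpace K), μ.IsAddHaarMeasure → μ E = 0) ∧
      ∀ y, y ∉ E → ∀ A : ℝ, {x : K |
        dist y (mixedEmbedding K x) ≤ A * Height.mulHeight₁ x ^ (-τ) ∧ ¬ P x}.Finite := by
  have hh : ∀ x : K, Height.mulHeight (hom (fun _ : Fin 1 => x)) = Height.mulHeight₁ x := by
    intro x
    rw [Height.mulHeight₁_eq_mulHeight, Height.mulHeight_swap]
    congr 1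
    funext i
    fin_cases i <;> simp [hom]
  have hcount' : ∀ B : ℝ, 1 ≤ B → {x : K | ¬ P x ∧ Height.mulHeight₁ x ≤ B}.Finite ∧
      (({x : K | ¬ P x ∧ Height.mulHeight₁ x ≤ B}.ncard : ℕ) : ℝ) ≤ C * B ^ (2 - c) := by
    intro B hB
    obtain ⟨h1, h2⟩ := hcount B hB
    have hm : Set.MapsTo (fun x : K => (fun _ : Fin 1 => x)) {x : K | ¬ P x ∧ Height.mulHeight₁ x ≤ B}
        {x : Fin 1 → K | ¬ P (x 0) ∧ Height.mulHeight (hom x) ≤ B} := by
      rintro x ⟨hx1, hx2⟩
      exact ⟨hx1, (hh x).le.trans hx2⟩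
    have hi : Set.InjOn (fun x : K => (fun _ : Fin 1 => x)) {x : K | ¬ P x ∧ Height.mulHeight₁ x ≤ B} := by
      intro x _ y _ hxy
      exact congrFun hxy 0
    refine ⟨Set.Finite.of_injOn hm hi h1, ?_⟩
    have h3 := Set.ncard_le_ncard_of_injOn _ hm hi h1
    have h4 : (((1 : ℕ) : ℝ) + 1 - c) = 2 - c := by push_cast; ring
    rw [h4] at h2
    exact le_trans (by exact_mod_cast h3) h2
  have hdim := Pool.Agent.J4.H74.VojBA.dimH_approx_const (X := mixedEmbedding.mixedSpace K)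
    (fun x : K => mixedEmbedding K x)
    {x : K | ¬ P x} (fun x => Height.mulHeight₁ x)
    (fun x => Height.one_le_mulHeight₁ _) (s := 2 - c) (by linarith) hτ (by
      intro ε hε
      refine ⟨C, fun B hB => ?_⟩
      obtain ⟨h1, h2⟩ := hcount' B hB
      refine ⟨h1, h2.trans (mul_le_mul_of_nonneg_left ?_ hC)⟩
      exact Real.rpow_le_rpow_of_exponent_le hB (by linarith))
  refine ⟨_, hdim, fun hlt μ hμ => ?_, fun z hz A => ?_⟩
  · refine Pool.Agent.J4.H74.VojBA.null_of_dimH _ _ (hdim.trans_lt ?_)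
    rw [mixedEmbedding.finrank]
    have h2 : ((Module.finrank ℚ K : ℕ) : ℝ≥0∞) =
        ENNReal.ofReal ((Module.finrank ℚ K : ℕ) : ℝ) := by
      rw [ENNReal.ofReal_natCast]
    rw [h2]
    exact (ENNReal.ofReal_lt_ofReal_iff_of_nonneg (div_nonneg (by linarith) hτ.le)).2 hlt
  · by_contra hcon
    apply hz
    refine ⟨A, ?_⟩
    have hinf : {x : K |
        dist z (mixedEmbedding K x) ≤ A * Height.mulHeight₁ x ^ (-τ) ∧ ¬ P x}.Infinite := hcon
    refine hinf.mono ?_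
    rintro x ⟨h1, h2⟩
    exact ⟨h2, h1⟩

end metric

section count

/-- the theorem of Northcott -/
lemma north (B : ℝ) : {x : Fin n → K | Height.mulHeight (hom x) ≤ B}.Finite := by
  have h1 : ∀ x : Fin n → K, ∀ i, Height.mulHeight₁ (x i) ≤ Height.mulHeight (hom x) := by
    intro x i
    rw [Height.mulHeight₁_eq_mulHeight]
    have h2 : (![x i, 1] : Fin 2 → K) = fun l => hom x ((![i.succ, 0] : Fin 2 → Fin (n + 1)) l) := by
      funext l
      fin_cases l <;> simp [hom]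
    rw [h2]
    exact Height.mulHeight_comp_le _ _
  refine (Set.Finite.pi' (fun _ : Fin n => Northcott.finite_le
    (h := Height.mulHeight₁ (K := K)) B)).subset ?_
  intro x hx i
  exact (h1 x i).trans hx

/-- the inequality with a constant at the point with the homogeneous coordinates `x` -/
def GoodK (S : Finset ℕ) (F : Fin q → MvPolynomial (Fin (n + 1)) (𝓞 K)) (k : Fin q → ℕ) (θ C₀ : ℝ)
    (x : Fin (n + 1) → K) : Prop :=
  (∀ j, MvPolynomial.aeval x (F j) ≠ 0) ∧ θ * Height.logHeight x + C₀ ≤ truncatedCount S F k x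

theorem count_badK (F : Fin q → MvPolynomial (Fin (n + 1)) (𝓞 K)) (k m : Fin q → ℕ)
    (hhom : ∀ j, (F j).IsHomogeneous (k j)) (hirr : ∀ j, Irreducible (toK (F j)))
    (hdist : ∀ i j, i ≠ j → ¬ Associated (toK (F i)) (toK (F j)))
    (hm : ∀ j, m j ≤ 1 ∨ (m j ≤ k j ∧ k j ≤ 2) ∨ IsNormForm (F j) (m j))
    (S : Finset ℕ) (hS : ∀ p ∈ S, p.Prime) (θ C₀ : ℝ) (hθ0 : 0 ≤ θ) (hθ : θ < ∑ j, (m j : ℝ)) :
    ∃ c : ℝ, 0 < c ∧ c ≤ 1 ∧ ∃ C : ℝ, 0 ≤ C ∧ ∀ B : ℝ, 1 ≤ B →
      {x : Fin n → K | ¬ GoodK S F k θ C₀ (hom x) ∧ Height.mulHeight (hom x) ≤ B}.Finite ∧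
      (({x : Fin n → K | ¬ GoodK S F k θ C₀ (hom x) ∧
        Height.mulHeight (hom x) ≤ B}.ncard : ℕ) : ℝ) ≤ C * B ^ ((n : ℝ) + 1 - c) := by
  obtain ⟨θ', hθ', hθ'2⟩ := exists_between hθ
  obtain ⟨c, hc, hc1, C, hC, h⟩ := Pool.Agent.J4.H74.VojBA.count_bad F k m hhom hirr hdist hm S hS
    (t := 0) (fun i => i.elim0) (fun i => i.elim0) (fun i => i.elim0) (fun i => i.elim0)
    (fun i => i.elim0) (fun i => i.elim0) (fun i => i.elim0) (fun i => i.elim0) 0 le_rfl θ'
    (by linarith) hθ'2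
  obtain ⟨H, hH⟩ : ∃ H : ℝ, H = Real.exp (C₀ / (θ' - θ)) := ⟨_, rfl⟩
  have hfin : {x : Fin n → K | Height.mulHeight (hom x) ≤ H}.Finite := north H
  refine ⟨c, hc, hc1, C + ({x : Fin n → K | Height.mulHeight (hom x) ≤ H}.ncard : ℕ), by positivity,
    fun B hB => ?_⟩
  have hnn : (0 : ℝ) ≤ n := Nat.cast_nonneg n
  have hBe : 1 ≤ B ^ ((n : ℝ) + 1 - c) := Real.one_le_rpow hB (by linarith)
  obtain ⟨h1, h2⟩ := h B hB
  have hsub : {x : Fin n → K | ¬ GoodK S F k θ C₀ (hom x) ∧ Height.mulHeight (hom x) ≤ B} ⊆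
      {x : Fin n → K | ¬ GoodP S F k (t := 0) (fun i => i.elim0) (fun i => i.elim0)
        (fun i => i.elim0) (fun i => i.elim0) 0 θ' (hom x) ∧ Height.mulHeight (hom x) ≤ B} ∪
      {x : Fin n → K | Height.mulHeight (hom x) ≤ H} := by
    rintro x ⟨hx1, hx2⟩
    by_cases hg : GoodP S F k (t := 0) (fun i => i.elim0) (fun i => i.elim0)
        (fun i => i.elim0) (fun i => i.elim0) 0 θ' (hom x)
    · right
      by_contra hc'
      rw [Set.mem_ofPred_eq, not_le] at hc'
      apply hx1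
      refine ⟨hg.1, le_trans ?_ hg.2⟩
      rw [zero_mul, add_zero]
      have h3 : C₀ / (θ' - θ) ≤ Height.logHeight (hom x) := by
        rw [Height.logHeight_eq_log_mulHeight, ← Real.log_exp (C₀ / (θ' - θ)), ← hH]
        exact Real.log_le_log (by rw [hH]; exact Real.exp_pos _) hc'.le
      rw [div_le_iff₀ (by linarith)] at h3
      linarith
    · left
      exact ⟨hg, hx2⟩
  refine ⟨(h1.union hfin).subset hsub, ?_⟩
  have h3 := Set.ncard_le_ncard hsub (h1.union hfin)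
  have h4 := h3.trans (Set.ncard_union_le _ _)
  have h5 : ((({x : Fin n → K | ¬ GoodK S F k θ C₀ (hom x) ∧
        Height.mulHeight (hom x) ≤ B}.ncard : ℕ) : ℕ) : ℝ) ≤ C * B ^ ((n : ℝ) + 1 - c) +
        ({x : Fin n → K | Height.mulHeight (hom x) ≤ H}.ncard : ℕ) := by
    refine le_trans (by exact_mod_cast h4) (add_le_add_left h2 _)
  refine h5.trans ?_
  rw [add_mul]
  refine add_le_add le_rfl (le_mul_of_one_le_right (by positivity) hBe)

end count

section cover

open MvPolynomial Pool.Agent.TH905.VF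
open Pool.Agent.J4.H74.FermLM (exists_bad exists_below_prime Viol)
open scoped Classical

/-- the pointwise inequality on the covers -/
theorem cover_point (F : Fin q → MvPolynomial (Fin (n + 1)) (𝓞 K)) (k : ℕ)
    (hhom : ∀ j, (F j).IsHomogeneous k) (hirr : ∀ j, Irreducible (toK (F j)))
    (hnull : ∀ i, (X i : MvPolynomial (Fin (n + 1)) K) ∈
      (Ideal.span (Set.range fun j => toK (F j))).radical)
    (S : Finset (HeightOneSpectrum (𝓞 K)))
    (θ c : ℝ) (hθ0 : 0 ≤ θ) :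
    ∃ (S0 : Finset ℕ) (C₀ : ℝ), (∀ p ∈ S0, p.Prime) ∧ ∀ x : Fin (n + 1) → K,
      GoodK S0 F (fun _ => k) (θ * k) C₀ x → ¬ Viol S θ c (fun j => aeval x (F j)) := by
  have hq : 0 < q := by
    rcases Nat.eq_zero_or_pos q with h | h
    · subst h
      exfalso
      obtain ⟨r, hr⟩ := hnull 0
      rw [Set.range_eq_empty, Ideal.span_empty, Ideal.mem_bot] at hr
      exact pow_ne_zero r (X_ne_zero (R := K) (0 : Fin (n + 1))) hr
    · exact h
  obtain ⟨T, hT⟩ := exists_bad F k hhom hnull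
  choose pr hpr1 hpr2 using fun v : HeightOneSpectrum (𝓞 K) => exists_below_prime v
  obtain ⟨C, hC⟩ := Height.logHeight_eval_le' (K := K) (p := fun j => toK (F j)) (N := k)
    (fun j => (hhom j).map _)
  refine ⟨(S ∪ T).image pr, θ * C - c, ?_, ?_⟩
  · intro p hp
    obtain ⟨v, -, rfl⟩ := Finset.mem_image.1 hp
    exact hpr1 v
  rintro x ⟨hg1, hg2⟩
  have hFx0 : ∀ j, aeval x (F j) ≠ 0 := hg1
  have hk0 : k ≠ 0 := by
    rintro rfl
    have h1 : (toK (F ⟨0, hq⟩)).IsHomogeneous 0 := (hhom ⟨0, hq⟩).map _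
    have h2 := totalDegree_eq_zero_iff_eq_C.1 ((totalDegree_zero_iff_isHomogeneous _).2 h1)
    have h3 := hirr ⟨0, hq⟩
    rw [h2] at h3
    by_cases h4 : coeff 0 (toK (F ⟨0, hq⟩)) = 0
    · rw [h4, C_0] at h3
      exact h3.ne_zero rfl
    · exact h3.not_isUnit ((isUnit_iff_ne_zero.2 h4).map MvPolynomial.C)
  have hx0 : x ≠ 0 := by
    intro h1
    obtain ⟨j⟩ : Nonempty (Fin q) := ⟨⟨0, hq⟩⟩
    apply hFx0 j
    have h3 := aeval_smul (F j) (hhom j) (0 : K) x
    rw [zero_smul, zero_pow hk0, zero_mul] at h3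
    rw [h1]
    exact h3
  rintro ⟨m', L, _, _, _, y, t, hm', ht', hy, hv⟩
  have hyne : ∀ i, y i ≠ 0 := by
    intro i h0
    have h3 := hy i
    rw [h0, zero_pow (by omega)] at h3
    have h4 : algebraMap K L (aeval x (F i)) ≠ 0 := by
      rw [Ne, map_eq_zero]
      exact hFx0 i
    exact mul_ne_zero ht' h4 h3.symm
  -- the truncated counting function
  have h1 : truncatedCount ((S ∪ T).image pr) F (fun _ => k) x ≤
      ld K L + q * ht K y - prox S y := by
    have hkey : ∀ R : Finset (HeightOneSpectrum (𝓞 K)),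
        (∀ v ∈ R, (∀ p ∈ (S ∪ T).image pr, (p : 𝓞 K) ∉ v.asIdeal) ∧
          ∃ j, FinitePlace.mk v (aeval x (F j)) < (⨆ i, FinitePlace.mk v (x i)) ^ k) →
        ∑ v ∈ R, Real.log (Ideal.absNorm v.asIdeal) ≤ ld K L + q * ht K y - prox S y := by
      intro R hR
      have h2 := key' (k := K) hq m' (by omega) (fun j => aeval x (F j)) y hyne t
        ht' hy S R (by
          intro v hvR
          obtain ⟨h3, j, hj⟩ := hR v hvR
          have hvn : v ∉ S ∪ T := by
            intro hvm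
            exact h3 (pr v) (Finset.mem_image_of_mem _ hvm) (hpr2 v)
          rw [Finset.mem_union, not_or] at hvn
          refine ⟨hvn.1, ?_⟩
          obtain ⟨j', hj'⟩ := hT v hvn.2 x hx0
          refine ⟨j, j', ?_⟩
          exact lt_of_lt_of_le hj hj')
      linarith
    unfold truncatedCount
    by_cases hfin : (Function.support fun v : HeightOneSpectrum (𝓞 K) =>
        if (∀ p ∈ (S ∪ T).image pr, (p : 𝓞 K) ∉ v.asIdeal) ∧
          ∃ j, FinitePlace.mk v (aeval x (F j)) < (⨆ i, FinitePlace.mk v (x i)) ^ k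
        then Real.log (Ideal.absNorm v.asIdeal) else 0).Finite
    · rw [finsum_eq_sum _ hfin]
      refine le_trans (le_of_eq ?_) (hkey hfin.toFinset ?_)
      · refine Finset.sum_congr rfl fun v hv' => ?_
        rw [Set.Finite.mem_toFinset, Function.mem_support] at hv'
        by_contra hc
        apply hv'
        rw [if_neg]
        intro hcc
        exact hc (if_pos hcc)
      · intro v hv'
        rw [Set.Finite.mem_toFinset, Function.mem_support] at hv'
        by_contra hc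
        exact hv' (if_neg hc)
    · rw [finsum_of_infinite_support hfin]
      have := hkey ∅ (fun v hv' => absurd hv' (Finset.notMem_empty v))
      simpa using this
  have h4 := ht_pow (k := K) m' (fun j => aeval x (F j)) y t ht' hy
  have h5 := hC x
  have h6 : (fun j => eval x (toK (F j))) = fun j => aeval x (F j) := by
    funext j
    rw [toK, eval_map, aeval_def]
  rw [h6, ← h4] at h5
  have h7 := mul_le_mul_of_nonneg_left h5 hθ0
  nlinarith

/-- **covers of projective space** -/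
theorem count_cover (F : Fin q → MvPolynomial (Fin (n + 1)) (𝓞 K)) (k : ℕ) (m : Fin q → ℕ)
    (hhom : ∀ j, (F j).IsHomogeneous k) (hirr : ∀ j, Irreducible (toK (F j)))
    (hdist : ∀ i j, i ≠ j → ¬ Associated (toK (F i)) (toK (F j)))
    (hm : ∀ j, m j ≤ 1 ∨ (m j ≤ k ∧ k ≤ 2) ∨ IsNormForm (F j) (m j))
    (hnull : ∀ i, (X i : MvPolynomial (Fin (n + 1)) K) ∈
      (Ideal.span (Set.range fun j => toK (F j))).radical)
    (S : Finset (HeightOneSpectrum (𝓞 K)))
    (θ c₀ : ℝ) (hθ0 : 0 ≤ θ) (hθ : θ * k < ∑ j, (m j : ℝ)) :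
    ∃ c : ℝ, 0 < c ∧ c ≤ 1 ∧ ∃ C : ℝ, 0 ≤ C ∧ ∀ B : ℝ, 1 ≤ B →
      {x : Fin n → K | ¬ ((∀ j, aeval (hom x) (F j) ≠ 0) ∧
        ¬ Viol S θ c₀ (fun j => aeval (hom x) (F j))) ∧ Height.mulHeight (hom x) ≤ B}.Finite ∧
      (({x : Fin n → K | ¬ ((∀ j, aeval (hom x) (F j) ≠ 0) ∧
        ¬ Viol S θ c₀ (fun j => aeval (hom x) (F j))) ∧
        Height.mulHeight (hom x) ≤ B}.ncard : ℕ) : ℝ) ≤ C * B ^ ((n : ℝ) + 1 - c) := by
  obtain ⟨S0, C₀, hS0, hpt⟩ := cover_point F k hhom hirr hnull S θ c₀ hθ0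
  obtain ⟨c, hc, hc1, C, hC, h⟩ := count_badK F (fun _ => k) m hhom hirr hdist hm S0 hS0 (θ * k) C₀
    (by positivity) hθ
  refine ⟨c, hc, hc1, C, hC, fun B hB => ?_⟩
  obtain ⟨h1, h2⟩ := h B hB
  have hsub : {x : Fin n → K | ¬ ((∀ j, aeval (hom x) (F j) ≠ 0) ∧
        ¬ Viol S θ c₀ (fun j => aeval (hom x) (F j))) ∧ Height.mulHeight (hom x) ≤ B} ⊆
      {x : Fin n → K | ¬ GoodK S0 F (fun _ => k) (θ * k) C₀ (hom x) ∧
        Height.mulHeight (hom x) ≤ B} := by
    rintro x ⟨hx1, hx2⟩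
    refine ⟨fun hg => hx1 ⟨hg.1, hpt _ hg⟩, hx2⟩
  refine ⟨h1.subset hsub, le_trans ?_ h2⟩
  exact_mod_cast Set.ncard_le_ncard hsub h1

end cover

section curve

open Polynomial Pool.Agent.J4.H74.CurvLM
open Pool.Agent.W223.VD (cnt)
open Pool.Agent.W223.AC (pt)
open Pool.Agent.Results.MP_f5a5f7_nt.FewExceptions (height)

/-- the height of `x` -/
lemma logHeight_hom (x : Fin 1 → K) :
    Height.logHeight (hom x) = Module.finrank ℚ K * height (x 0) := by
  rw [← Pool.Agent.W223.AC.MK.height_eq, Height.logHeight_eq_log_mulHeight,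
    Height.mulHeight₁_eq_mulHeight, Height.mulHeight_swap]
  congr 2
  funext i
  fin_cases i <;> simp [hom]

/-- the truncated counting functions -/
lemma count_eq' {q : ℕ} (S : Finset ℕ) (P : Fin q → ℤ × ℤ) (x : Fin 1 → K) :
    truncatedCount S (fun j => lf (K := K) (-((P j).2 : 𝓞 K)) (-((P j).1 : 𝓞 K))) (fun _ => 1)
      (hom x) = cnt S P (x 0) := by
  unfold truncatedCount cnt
  refine finsum_congr fun v => ?_
  have h1 : (∃ j, FinitePlace.mk v (MvPolynomial.aeval (hom x)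
        (lf (K := K) (-((P j).2 : 𝓞 K)) (-((P j).1 : 𝓞 K)))) < (⨆ i, FinitePlace.mk v (hom x i)) ^ 1) ↔
      ∃ j, v.valuation K (((P j).1 : K) - x 0 * ((P j).2 : K)) <
        max (v.valuation K (x 0)) 1 := by
    refine exists_congr fun j => ?_
    have e1 : MvPolynomial.aeval (hom x)
        (lf (K := K) (-((P j).2 : 𝓞 K)) (-((P j).1 : 𝓞 K))) =
        ((P j).1 : K) - x 0 * ((P j).2 : K) := by
      unfold lf
      simp only [map_sub, map_mul, MvPolynomial.aeval_X, MvPolynomial.aeval_C, map_neg]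
      have h2 : hom x 1 = x 0 := rfl
      have h3 : hom x 0 = 1 := rfl
      rw [h2, h3]
      simp only [map_intCast]
      ring
    rw [e1, pow_one]
    have e2 : (FinitePlace.mk v (((P j).1 : K) - x 0 * ((P j).2 : K)) <
        ⨆ i, FinitePlace.mk v (hom x i)) ↔ ∃ i, FinitePlace.mk v (((P j).1 : K) -
          x 0 * ((P j).2 : K)) < FinitePlace.mk v (hom x i) :=
      lt_ciSup_iff (Finite.bddAbove_range _)
    have e3 : ∀ a b : K, FinitePlace.mk v a < FinitePlace.mk v b ↔ v.valuation K a < v.valuation K b :=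
      fun a b => Pool.Agent.TH905.VF.fv_lt_iff v a b
    rw [e2]
    simp only [e3]
    rw [Fin.exists_fin_two, lt_max_iff]
    have h2 : hom x 1 = x 0 := rfl
    have h3 : hom x 0 = 1 := rfl
    rw [h2, h3, map_one]
    exact or_comm
  by_cases h2 : (∀ p ∈ S, (p : 𝓞 K) ∉ v.asIdeal) ∧
      ∃ j, v.valuation K (((P j).1 : K) - x 0 * ((P j).2 : K)) < max (v.valuation K (x 0)) 1
  · rw [if_pos h2, if_pos ⟨h2.1, h1.2 h2.2⟩]
  · rw [if_neg h2, if_neg (fun h3 => h2 ⟨h3.1, h1.1 h3.2⟩)]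

/-- Vojta's inequality for all the points above `x` -/
def GoodX {A : Type} [CommRing A] [Algebra ℚ[X] A] [Algebra ℚ A] {q : ℕ} (a : Fin q → ℚ) {n : ℕ}
    (s : Fin n → ℕ)
    (z : ∀ l, Fin (s l + 1) → A) {K : Type} [Field K] [NumberField K] (κ C₀ : ℝ)
    (x : K) : Prop :=
  (∀ k, x ≠ (a k : K)) ∧
    ∀ (L : Type) [Field L] [NumberField L] [Algebra K L] (φ : A →+* L) (S : Finset ℕ),
      φ (Pool.Agent.W223.AC.tt A) = algebraMap K L x → (∀ p ∈ S, p.Prime) →
      (∀ l, {v : HeightOneSpectrum (𝓞 L) | Pool.Agent.W223.AC.lamF (z l) φ v ≠ 0}.Finite) ∧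
      prox S s z L φ + (q - κ - (∑ l, (Module.finrank ℚ (A ⧸ Ideal.span (Set.range (z l))) : ℝ)) /
        Module.finrank ℚ[X] A) * height x ≤
      Real.log |(discr L : ℝ)| / Module.finrank ℚ L + ∑ p ∈ S, Real.log p + C₀

/-- **curves** -/
theorem count_curve (A : Type) [CommRing A] [IsDedekindDomain A] [Algebra ℚ A] [Algebra ℚ[X] A]
    [IsScalarTower ℚ ℚ[X] A] [Module.Finite ℚ[X] A] [FaithfulSMul ℚ[X] A]
    {q : ℕ} (a : Fin q → ℚ) (ha : Function.Injective a) {n : ℕ} (j : Fin n → Fin q) (s : Fin n → ℕ)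
    (z : ∀ l, Fin (s l + 1) → A)
    (hz : ∀ l, z l 0 = Pool.Agent.W223.AC.tt A - algebraMap ℚ[X] A (C (a (j l))))
    (hcov : ∀ k : Fin q, ∏ l with j l = k, Ideal.span (Set.range (z l)) ≤
      (Ideal.span {Pool.Agent.W223.AC.tt A - algebraMap ℚ[X] A (C (a k))}).radical)
    (K : Type) [Field K] [NumberField K] (κ C₀ : ℝ) (hκ : 0 < κ) (hκq : κ ≤ q) :
    ∃ c : ℝ, 0 < c ∧ c ≤ 1 ∧ ∃ C' : ℝ, 0 ≤ C' ∧ ∀ B : ℝ, 1 ≤ B →
      {x : Fin 1 → K | ¬ GoodX a s z κ C₀ (x 0) ∧ Height.mulHeight (hom x) ≤ B}.Finite ∧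
      (({x : Fin 1 → K | ¬ GoodX a s z κ C₀ (x 0) ∧
        Height.mulHeight (hom x) ≤ B}.ncard : ℕ) : ℝ) ≤ C' * B ^ (((1 : ℕ) : ℝ) + 1 - c) := by
  obtain ⟨S0, C₁, G, hS0, hG, hpt⟩ := curve_point A a j s z hz hcov K κ C₀ hκ
  have hden : ∀ k, (-((pt (a k)).2 : 𝓞 K)) ≠ 0 := by
    intro k
    have : (pt (a k)).2 ≠ 0 := by
      change ((a k).den : ℤ) ≠ 0
      exact_mod_cast (a k).den_nz
    exact neg_ne_zero.2 (by exact_mod_cast this)
  -- the roots of `G`
  have hfinG : {x : Fin 1 → K | aeval (x 0) G = 0}.Finite := by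
    have h1 : {x : K | aeval x G = 0}.Finite := by
      refine (Polynomial.rootSet_finite G K).subset fun x hx => ?_
      exact (Polynomial.mem_rootSet_of_ne hG).mpr hx
    refine Set.Finite.of_injOn (f := fun x : Fin 1 → K => x 0) (fun x hx => hx) ?_ h1
    intro x _ y _ hxy
    funext i
    rw [Subsingleton.elim i 0]
    exact hxy
  obtain ⟨c, hc, hc1, C', hC', h⟩ := count_badK (n := 1)
    (fun k : Fin q => lf (K := K) (-((pt (a k)).2 : 𝓞 K)) (-((pt (a k)).1 : 𝓞 K)))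
    (fun _ => 1) (fun _ => 1) (fun _ => hom_lf _ _)
    (fun k => irr_lf (Or.inl (hden k))) (fun i i' hij => dist_lf (by
      have h4 := Pool.Agent.W223.AC.pt_inj (ha.ne hij)
      intro h5
      apply h4
      have h6 : ((pt (a i)).1 : 𝓞 K) * (pt (a i')).2 = (pt (a i')).1 * (pt (a i)).2 := by
        linear_combination -h5
      exact_mod_cast h6)) (fun _ => Or.inl le_rfl) S0 hS0 (q - κ / 2) C₁ (by linarith)
    (by simpa using by linarith)
  refine ⟨c, hc, hc1, C' + ({x : Fin 1 → K | aeval (x 0) G = 0}.ncard : ℕ), by positivity,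
    fun B hB => ?_⟩
  have hBe : 1 ≤ B ^ (((1 : ℕ) : ℝ) + 1 - c) := Real.one_le_rpow hB (by push_cast; linarith)
  obtain ⟨h1, h2⟩ := h B hB
  have hsub : {x : Fin 1 → K | ¬ GoodX a s z κ C₀ (x 0) ∧ Height.mulHeight (hom x) ≤ B} ⊆
      {x : Fin 1 → K | ¬ GoodK S0
        (fun k : Fin q => lf (K := K) (-((pt (a k)).2 : 𝓞 K)) (-((pt (a k)).1 : 𝓞 K)))
        (fun _ => 1) (q - κ / 2) C₁ (hom x) ∧ Height.mulHeight (hom x) ≤ B} ∪
      {x : Fin 1 → K | aeval (x 0) G = 0} := by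
    rintro x ⟨hx1, hx2⟩
    by_cases hGx : aeval (x 0) G = 0
    · exact Or.inr hGx
    left
    refine ⟨fun hg => hx1 ?_, hx2⟩
    have hxa : ∀ k, x 0 ≠ (a k : K) := by
      intro k h5
      apply hg.1 k
      have h11 : ((a k : ℚ) : K) = (((pt (a k)).1 : ℤ) : K) / (((pt (a k)).2 : ℤ) : K) := by
        unfold pt
        have := Rat.cast_def (K := K) (a k)
        push_cast
        exact this
      have h12 : (((pt (a k)).2 : ℤ) : K) ≠ 0 := by
        have : (pt (a k)).2 ≠ 0 := by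
          change ((a k).den : ℤ) ≠ 0
          exact_mod_cast (a k).den_nz
        exact_mod_cast this
      rw [h11, eq_div_iff h12] at h5
      unfold lf
      simp only [map_sub, map_mul, MvPolynomial.aeval_X, MvPolynomial.aeval_C, map_neg]
      have h2 : hom x 1 = x 0 := rfl
      have h3 : hom x 0 = 1 := rfl
      rw [h2, h3]
      simp only [map_intCast]
      linear_combination -h5
    refine ⟨hxa, ?_⟩
    have h5 := hg.2
    rw [count_eq', logHeight_hom] at h5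
    intro L _ _ _ φ S hφ hS
    exact hpt _ hGx hxa h5 L φ S hφ hS
  refine ⟨(h1.union hfinG).subset hsub, ?_⟩
  have h3 := Set.ncard_le_ncard hsub (h1.union hfinG)
  have h4 := h3.trans (Set.ncard_union_le _ _)
  have h5 := (Nat.cast_le (α := ℝ)).2 h4
  rw [Nat.cast_add] at h5
  refine (h5.trans (add_le_add_left h2 _)).trans ?_
  rw [add_mul]
  refine add_le_add le_rfl (le_mul_of_one_le_right (by positivity) hBe)

end curve

end Pool.Agent.J4.H35.VojA
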